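import Mathlib
import Pool.Agent.Helper49.FCoreDefs
import Pool.Agent.Helper49.FARefl
import Pool.Agent.Helper56.FAIft

/-! The functions `β` (piece F of the classification for MP_f1c2ec_an). -/

set_option autoImplicit false

namespace Pool.Agent.Helper49.FA

open MeasureTheory Set Filter Topology Complex
open MvPolynomial (monomial pderiv)
open scoped ContDiff ComplexConjugate

variable {n : ℕ}

theorem hasFDerivAt_pe (q : MvPolynomial (Fin n) ℂ) (θ : Fin n → ℝ) :
    HasFDerivAt (pe q) (∑ k, (I * exp (I * (θ k : ℂ)) * pe (pderiv k q) θ) •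
      (ofRealCLM.comp (ContinuousLinearMap.proj k : (Fin n → ℝ) →L[ℝ] ℝ))) θ := by
  induction q using MvPolynomial.induction_on with
  | C a =>
    have h1 : pe (MvPolynomial.C a : MvPolynomial (Fin n) ℂ) = fun _ => a := by
      funext θ; simp [pe]
    have h2 : (∑ k, (I * exp (I * (θ k : ℂ)) * pe (pderiv k (MvPolynomial.C a)) θ) •
        (ofRealCLM.comp (ContinuousLinearMap.proj k : (Fin n → ℝ) →L[ℝ] ℝ))) = 0 := by
      apply Finset.sum_eq_zero
      intro k _
      have h3 : (I * exp (I * (θ k : ℂ)) * pe (pderiv k (MvPolynomial.C a)) θ) = 0 := by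
        simp [pe]
      rw [h3]
      apply ContinuousLinearMap.ext
      intro v
      rw [smul_apply, zero_smul]
      rfl
    rw [h1, h2]
    exact hasFDerivAt_const _ _
  | add p q hp hq =>
    have h1 : pe (p + q) = fun θ => pe p θ + pe q θ := by
      funext θ; simp [pe]
    rw [h1]
    refine (hp.add hq).congr_fderiv ?_
    rw [← Finset.sum_add_distrib]
    apply Finset.sum_congr rfl
    intro k _
    rw [← add_smul]
    congr 1
    simp [pe]
    ring
  | mul_X p i hp =>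
    have h1 : pe (p * MvPolynomial.X i) = fun θ => pe p θ * exp (I * (θ i : ℂ)) := by
      funext θ; simp [pe]
    have h2 : HasFDerivAt (fun θ : Fin n → ℝ => exp (I * (θ i : ℂ)))
        ((I * exp (I * (θ i : ℂ))) •
          (ofRealCLM.comp (ContinuousLinearMap.proj i : (Fin n → ℝ) →L[ℝ] ℝ))) θ := by
      have h3 : HasFDerivAt (fun θ : Fin n → ℝ => (I * (θ i : ℂ)))
          (I • (ofRealCLM.comp (ContinuousLinearMap.proj i : (Fin n → ℝ) →L[ℝ] ℝ))) θ :=
        (ofRealCLM.comp (ContinuousLinearMap.proj i : (Fin n → ℝ) →L[ℝ] ℝ)).hasFDerivAt.const_mul I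
      refine h3.cexp.congr_fderiv ?_
      rw [smul_smul, mul_comm]
    rw [h1]
    refine (hp.mul h2).congr_fderiv ?_
    ext v
    simp only [add_apply, smul_apply,
      sum_apply, ContinuousLinearMap.comp_apply, ContinuousLinearMap.proj_apply,
      ofRealCLM_apply, smul_eq_mul, Finset.mul_sum]
    have h4 : ∀ k, pe (pderiv k (p * MvPolynomial.X i)) θ
        = pe (pderiv k p) θ * exp (I * (θ i : ℂ)) + (if k = i then pe p θ else 0) := by
      intro k
      rw [MvPolynomial.pderiv_mul, MvPolynomial.pderiv_X]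
      by_cases h : k = i
      · subst h; simp [pe]
      · simp [pe, h, Ne.symm h]
    simp only [h4]
    have h5 : ∀ k, I * exp (I * (θ k : ℂ)) * (pe (pderiv k p) θ * exp (I * (θ i : ℂ))
        + (if k = i then pe p θ else 0)) * (v k : ℂ)
        = exp (I * (θ i : ℂ)) * (I * exp (I * (θ k : ℂ)) * pe (pderiv k p) θ * (v k : ℂ))
          + (if k = i then pe p θ * (I * exp (I * (θ k : ℂ)) * (v k : ℂ)) else 0) := by
      intro k
      split_ifs <;> ring
    simp only [h5]
    rw [Finset.sum_add_distrib, Finset.sum_ite_eq' Finset.univ i, if_pos (Finset.mem_univ i)]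
    ring

theorem fderiv_pe (q : MvPolynomial (Fin n) ℂ) (θ v : Fin n → ℝ) :
    fderiv ℝ (pe q) θ v = ∑ k, I * exp (I * (θ k : ℂ)) * pe (pderiv k q) θ * (v k : ℂ) := by
  rw [(hasFDerivAt_pe q θ).fderiv]
  simp only [smul_apply,
      sum_apply, ContinuousLinearMap.comp_apply, ContinuousLinearMap.proj_apply,
      ofRealCLM_apply, smul_eq_mul]

theorem pe_congr {q : MvPolynomial (Fin n) ℂ} {S : Finset (Fin n)} (hq : q.vars ⊆ S) {θ θ' : Fin n → ℝ}
    (h : ∀ k ∈ S, θ k = θ' k) : pe q θ = pe q θ' := by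
  rw [pe, pe, MvPolynomial.eval_eq', MvPolynomial.eval_eq']
  apply Finset.sum_congr rfl
  intro α hα
  congr 1
  apply Finset.prod_congr rfl
  intro k _
  by_cases hk : k ∈ S
  · rw [h k hk]
  · have h1 : α k = 0 := by
      apply MvPolynomial.mem_support_notMem_vars_zero hα
      exact fun h2 => hk (hq h2)
    rw [h1, pow_zero, pow_zero]

theorem vars_dg (q : MvPolynomial (Fin n) ℂ) :
    (monomial (dg q) (1 : ℂ)).vars ⊆ q.vars := by
  rw [MvPolynomial.vars_monomial one_ne_zero]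
  intro k hk
  rw [Finsupp.mem_support_iff] at hk
  rw [MvPolynomial.mem_vars_iff_degreeOf_ne_zero]
  exact hk


theorem fderiv_pe_single (q : MvPolynomial (Fin n) ℂ) (θ : Fin n → ℝ) (j : Fin n) :
    fderiv ℝ (pe q) θ (Pi.single j 1) = I * exp (I * (θ j : ℂ)) * pe (pderiv j q) θ := by
  rw [fderiv_pe, Finset.sum_eq_single j]
  · simp
  · intro k _ hk
    simp [hk]
  · simp

theorem exists_beta {𝔮 : Ideal (MvPolynomial (Fin n) ℂ)} (hrv : ∀ q ∈ 𝔮, rv q ∈ 𝔮) {S : Finset (Fin n)}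
    {j : Fin n} (hj : j ∉ S) {R : MvPolynomial (Fin n) ℂ} (hR : R ∈ 𝔮) (hvars : R.vars ⊆ insert j S)
    {x : Fin n → ℝ} (hx : pe R x = 0) (hd : pe (pderiv j R) x ≠ 0) :
    ∃ (R' : MvPolynomial (Fin n) ℂ) (β : (Fin n → ℝ) → ℝ), R' ∈ 𝔮 ∧ R'.vars ⊆ insert j S ∧
      pe (pderiv j R') x ≠ 0 ∧ ContDiff ℝ ∞ β ∧
      (∀ θ θ' : Fin n → ℝ, (∀ k ∈ S, θ k = θ' k) → β θ = β θ') ∧ β x = x j ∧
      ∀ᶠ θ in 𝓝 x, pe R' (Function.update θ j (β θ)) = 0 := by
  classical
  set D : ℂ := fderiv ℝ (pe R) x (Pi.single j 1) with hD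
  have hD0 : D ≠ 0 := by
    rw [hD, fderiv_pe_single]
    exact mul_ne_zero (mul_ne_zero I_ne_zero (exp_ne_zero _)) hd
  obtain ⟨w0, hw0⟩ : ∃ w0 : ℂ, (w0 * D).re ≠ 0 := by
    by_cases h : D.re = 0
    · refine ⟨I, ?_⟩
      have h2 : D.im ≠ 0 := fun h3 => hD0 (Complex.ext h h3)
      simpa using h2
    · exact ⟨1, by simpa using h⟩
  set f : (Fin n → ℝ) → ℝ := fun θ => (w0 * pe R θ).re with hf
  have hfs : ContDiff ℝ ∞ f := by
    have h1 : ContDiff ℝ ∞ fun θ => w0 * pe R θ := contDiff_const.mul (contDiff_pe R)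
    exact reCLM.contDiff.comp h1
  have hdep : ∀ θ θ' : Fin n → ℝ, (∀ k ∈ insert j S, θ k = θ' k) → f θ = f θ' := by
    intro θ θ' h
    simp only [hf, pe_congr hvars h]
  have hfx : f x = 0 := by simp [hf, hx]
  have hfd : HasFDerivAt f (reCLM.comp (w0 • fderiv ℝ (pe R) x)) x := by
    have h1 : HasFDerivAt (pe R) (fderiv ℝ (pe R) x) x :=
      ((contDiff_pe R).differentiable (by simp)).differentiableAt.hasFDerivAt
    have h2 : HasFDerivAt (fun θ => w0 * pe R θ) (w0 • fderiv ℝ (pe R) x) x := h1.const_mul w0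
    exact reCLM.hasFDerivAt.comp x h2
  have hfd1 : fderiv ℝ f x (Pi.single j 1) = (w0 * D).re := by
    rw [hfd.fderiv]
    rfl
  obtain ⟨β, hβ1, hβ2, hβ3, hβ4⟩ := exists_implicit hfs S hj hdep hfx (by rw [hfd1]; exact hw0)
  set R' : MvPolynomial (Fin n) ℂ := MvPolynomial.C w0 * monomial (dg R) 1 * R
    + MvPolynomial.C (conj w0) * rv R with hR'
  have hpe : ∀ θ, pe R' θ = 2 * chr (zz (dg R)) θ * (f θ : ℂ) := by
    intro θ
    have h1 : pe R' θ = w0 * chr (zz (dg R)) θ * pe R θ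
        + conj w0 * (chr (zz (dg R)) θ * conj (pe R θ)) := by
      have h2 : chr (zz (dg R)) θ = pe (monomial (dg R) 1) θ := by rw [pe_monomial, one_mul]
      rw [← pe_rv, h2]
      simp only [hR', pe, map_add, map_mul, MvPolynomial.eval_C]
    have h2 : ((f θ : ℝ) : ℂ) = (w0 * pe R θ + conj (w0 * pe R θ)) / 2 := by
      rw [Complex.add_conj]
      simp [hf]
    rw [h1, h2, map_mul]
    ring
  refine ⟨R', β, ?_, ?_, ?_, hβ1, hβ2, hβ3, ?_⟩
  · exact 𝔮.add_mem (𝔮.mul_mem_left _ hR) (𝔮.mul_mem_left _ (hrv R hR))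
  · have h1 : (MvPolynomial.C w0 * monomial (dg R) 1 * R).vars ⊆ R.vars := by
      refine (MvPolynomial.vars_mul _ _).trans (Finset.union_subset ?_ subset_rfl)
      refine (MvPolynomial.vars_mul _ _).trans (Finset.union_subset ?_ (vars_dg R))
      rw [MvPolynomial.vars_C]; exact Finset.empty_subset _
    have h2 : (MvPolynomial.C (conj w0) * rv R).vars ⊆ R.vars := by
      refine (MvPolynomial.vars_mul _ _).trans (Finset.union_subset ?_ (vars_rv R))
      rw [MvPolynomial.vars_C]; exact Finset.empty_subset _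
    exact (MvPolynomial.vars_add_subset _ _).trans
      (Finset.union_subset (h1.trans hvars) (h2.trans hvars))
  · have h1 : pe R' = fun θ => 2 * chr (zz (dg R)) θ * (f θ : ℂ) := funext hpe
    have h2 : HasFDerivAt (fun θ => (f θ : ℂ)) (ofRealCLM.comp (fderiv ℝ f x)) x := by
      have h3 : HasFDerivAt f (fderiv ℝ f x) x :=
        (hfs.differentiable (by simp)).differentiableAt.hasFDerivAt
      exact ofRealCLM.hasFDerivAt.comp x h3
    have h4 : HasFDerivAt (fun θ => 2 * chr (zz (dg R)) θ)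
        (fderiv ℝ (fun θ => 2 * chr (zz (dg R)) θ) x) x := by
      have : ContDiff ℝ ∞ fun θ : Fin n → ℝ => 2 * chr (zz (dg R)) θ :=
        contDiff_const.mul (contDiff_chr _)
      exact (this.differentiable (by simp)).differentiableAt.hasFDerivAt
    have h5 := (h4.mul h2).fderiv
    have h6 := fderiv_pe_single R' x j
    rw [h1] at h6
    have h7 : fderiv ℝ (fun θ => 2 * chr (zz (dg R)) θ * (f θ : ℂ)) x (Pi.single j 1)
        = 2 * chr (zz (dg R)) x * (((w0 * D).re : ℝ) : ℂ) := by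
      have h8 : fderiv ℝ (fun θ => 2 * chr (zz (dg R)) θ * (f θ : ℂ)) x = _ := h5
      rw [h8]
      simp only [add_apply, smul_apply, hfx, ofReal_zero, ContinuousLinearMap.comp_apply,
        ofRealCLM_apply, hfd1, smul_eq_mul, add_zero, zero_mul]
    rw [h7] at h6
    intro h9
    rw [h9, mul_zero] at h6
    have h10 : (((w0 * D).re : ℝ) : ℂ) ≠ 0 := ofReal_ne_zero.2 hw0
    have h11 : chr (zz (dg R)) x ≠ 0 := by
      intro h; have := norm_chr (zz (dg R)) x; rw [h, norm_zero] at this; exact zero_ne_one this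
    exact mul_ne_zero (mul_ne_zero two_ne_zero h11) h10 h6
  · filter_upwards [hβ4] with θ hθ
    rw [hpe, hθ, ofReal_zero, mul_zero]

/-- divided difference in the variable `j` -/
noncomputable def ddf (R : MvPolynomial (Fin n) ℂ) (j : Fin n) (z : Fin n → ℂ) (w : ℂ) : ℂ :=
  ∑ α ∈ R.support, R.coeff α * (∏ k ∈ Finset.univ.erase j, z k ^ α k) *
    ∑ i ∈ Finset.range (α j), z j ^ i * w ^ (α j - 1 - i)

theorem ddf_mul (R : MvPolynomial (Fin n) ℂ) (j : Fin n) (z : Fin n → ℂ) (w : ℂ) :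
    MvPolynomial.eval z R - MvPolynomial.eval (Function.update z j w) R
      = (z j - w) * ddf R j z w := by
  classical
  rw [MvPolynomial.eval_eq', MvPolynomial.eval_eq', ← Finset.sum_sub_distrib, ddf, Finset.mul_sum]
  apply Finset.sum_congr rfl
  intro α _
  have h1 : ∏ k, z k ^ α k = z j ^ α j * ∏ k ∈ Finset.univ.erase j, z k ^ α k :=
    (Finset.mul_prod_erase Finset.univ (fun k => z k ^ α k) (Finset.mem_univ j)).symm
  have h2 : ∏ k, (Function.update z j w) k ^ α k
      = w ^ α j * ∏ k ∈ Finset.univ.erase j, z k ^ α k := by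
    rw [← Finset.mul_prod_erase Finset.univ _ (Finset.mem_univ j), Function.update_self]
    congr 1
    apply Finset.prod_congr rfl
    intro k hk
    rw [Function.update_of_ne (Finset.ne_of_mem_erase hk)]
  have h3 := geom_sum₂_mul (z j) w (α j)
  rw [h1, h2]
  have h4 : z j ^ α j - w ^ α j = (z j - w) * ∑ i ∈ Finset.range (α j), z j ^ i * w ^ (α j - 1 - i) := by
    rw [← h3, mul_comm]
  linear_combination (R.coeff α * ∏ k ∈ Finset.univ.erase j, z k ^ α k) * h4

theorem ddf_self (R : MvPolynomial (Fin n) ℂ) (j : Fin n) (z : Fin n → ℂ) :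
    ddf R j z (z j) = MvPolynomial.eval z (pderiv j R) := by
  classical
  conv_rhs => rw [R.as_sum]
  rw [map_sum, map_sum, ddf]
  apply Finset.sum_congr rfl
  intro α _
  rw [MvPolynomial.pderiv_monomial, MvPolynomial.eval_monomial, Finsupp.prod_fintype _ _ (by simp)]
  have h1 : ∑ i ∈ Finset.range (α j), z j ^ i * z j ^ (α j - 1 - i) = α j * z j ^ (α j - 1) := by
    have h2 : ∀ i ∈ Finset.range (α j), z j ^ i * z j ^ (α j - 1 - i) = z j ^ (α j - 1) := by
      intro i hi
      rw [← pow_add]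
      congr 1
      have := Finset.mem_range.1 hi
      omega
    rw [Finset.sum_congr rfl h2, Finset.sum_const, Finset.card_range, nsmul_eq_mul]
  have h3 : ∏ k, z k ^ (α - Finsupp.single j 1 : Fin n →₀ ℕ) k
      = z j ^ (α j - 1) * ∏ k ∈ Finset.univ.erase j, z k ^ α k := by
    rw [← Finset.mul_prod_erase Finset.univ _ (Finset.mem_univ j)]
    congr 1
    · simp
    · apply Finset.prod_congr rfl
      intro k hk
      congr 1
      simp [(Finset.ne_of_mem_erase hk).symm]
  rw [h1, h3]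
  ring

theorem contDiff_ddf (R : MvPolynomial (Fin n) ℂ) (j : Fin n) {β : (Fin n → ℝ) → ℝ}
    (hβ : ContDiff ℝ ∞ β) : ContDiff ℝ ∞ fun θ : Fin n → ℝ =>
      ddf R j (fun k => exp (I * (θ k : ℂ))) (exp (I * (β θ : ℂ))) := by
  have h1 : ∀ k : Fin n, ContDiff ℝ ∞ fun θ : Fin n → ℝ => exp (I * (θ k : ℂ)) := by
    intro k
    apply ContDiff.cexp
    apply contDiff_const.mul
    exact ofRealCLM.contDiff.comp (contDiff_apply ℝ ℝ k)
  have h2 : ContDiff ℝ ∞ fun θ : Fin n → ℝ => exp (I * (β θ : ℂ)) := by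
    apply ContDiff.cexp
    apply contDiff_const.mul
    exact ofRealCLM.contDiff.comp hβ
  unfold ddf
  apply ContDiff.sum
  intro α _
  refine (contDiff_const.mul (contDiff_prod fun k _ => (h1 k).pow _)).mul ?_
  apply ContDiff.sum
  intro i _
  exact ((h1 j).pow _).mul (h2.pow _)

theorem kill_beta {W : ((Fin n → ℝ) → ℂ) → ℂ} {R : MvPolynomial (Fin n) ℂ}
    (hW : ∀ φ, Tst φ → W (fun θ => pe R θ * φ θ) = 0) {j : Fin n} {x : Fin n → ℝ} {β : (Fin n → ℝ) → ℝ}
    (hβ : ContDiff ℝ ∞ β) (hβx : β x = x j) (hd : pe (pderiv j R) x ≠ 0)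
    (h0 : ∀ᶠ θ in 𝓝 x, pe R (Function.update θ j (β θ)) = 0) :
    ∃ ρ : ℝ, 0 < ρ ∧ ∀ φ, Tst φ → (∀ θ, ρ < ‖θ - x‖ → φ θ = 0) →
      W (fun θ => (exp (I * (θ j : ℂ)) - exp (I * (β θ : ℂ))) * φ θ) = 0 := by
  classical
  set Q : (Fin n → ℝ) → ℂ := fun θ =>
    ddf R j (fun k => exp (I * (θ k : ℂ))) (exp (I * (β θ : ℂ))) with hQ
  have hQs : ContDiff ℝ ∞ Q := contDiff_ddf R j hβ
  have hQx : Q x ≠ 0 := by
    simp only [hQ, hβx]
    rw [ddf_self R j (fun k => exp (I * (x k : ℂ)))]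
    exact hd
  have hev : ∀ᶠ θ in 𝓝 x, Q θ ≠ 0 ∧ pe R (Function.update θ j (β θ)) = 0 :=
    (hQs.continuous.continuousAt.eventually_ne hQx).and h0
  obtain ⟨r, hr, hball⟩ := Metric.eventually_nhds_iff.mp hev
  refine ⟨r / 2, by positivity, ?_⟩
  intro φ hφ hsupp
  have hin : ∀ θ, φ θ ≠ 0 → Q θ ≠ 0 ∧ pe R (Function.update θ j (β θ)) = 0 := by
    intro θ hθ
    apply hball
    rw [dist_eq_norm]
    by_contra h
    exact hθ (hsupp θ (by linarith))
  have hψ : Tst fun θ => φ θ * (Q θ)⁻¹ := by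
    refine ⟨?_, hφ.2.mul_right⟩
    rw [contDiff_iff_contDiffAt]
    intro θ
    by_cases hθ : dist θ x < r
    · exact hφ.1.contDiffAt.mul (hQs.contDiffAt.inv (hball hθ).1)
    · have : (fun θ => φ θ * (Q θ)⁻¹) =ᶠ[𝓝 θ] fun _ => 0 := by
        have hopen : IsOpen {θ' : Fin n → ℝ | r / 2 < dist θ' x} :=
          isOpen_lt continuous_const (continuous_id.dist continuous_const)
        have hmem : θ ∈ {θ' : Fin n → ℝ | r / 2 < dist θ' x} := by
          push Not at hθ
          show r / 2 < dist θ x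
          linarith
        filter_upwards [hopen.mem_nhds hmem] with θ' hθ'
        rw [hsupp θ' (by rw [← dist_eq_norm]; exact hθ'), zero_mul]
      exact contDiffAt_const.congr_of_eventuallyEq this
  have h1 := hW _ hψ
  have h2 : (fun θ => pe R θ * (φ θ * (Q θ)⁻¹))
      = fun θ => (exp (I * (θ j : ℂ)) - exp (I * (β θ : ℂ))) * φ θ := by
    funext θ
    by_cases hθ : φ θ = 0
    · rw [hθ]; ring
    · obtain ⟨h3, h4⟩ := hin θ hθ
      have h5 := ddf_mul R j (fun k => exp (I * (θ k : ℂ))) (exp (I * (β θ : ℂ)))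
      have h6 : MvPolynomial.eval (Function.update (fun k => exp (I * (θ k : ℂ))) j
          (exp (I * (β θ : ℂ)))) R = 0 := by
        rw [← h4, pe]
        congr 2
        funext k
        by_cases hk : k = j
        · subst hk; simp
        · simp [hk]
      rw [h6, sub_zero] at h5
      have h7 : pe R θ = (exp (I * (θ j : ℂ)) - exp (I * (β θ : ℂ))) * Q θ := h5
      rw [h7]
      field_simp
  rw [h2] at h1
  exact h1

/-- the differentiated relation `pe R (g z) = 0` -/
theorem sum_fderiv_eq_zero {R : MvPolynomial (Fin n) ℂ} {S : Finset (Fin n)} {j : Fin n} (hj : j ∉ S)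
    (hvars : R.vars ⊆ insert j S) {E : Type*} [NormedAddCommGroup E] [NormedSpace ℝ E]
    {g : E → Fin n → ℝ} {y : E} (hg : DifferentiableAt ℝ g y)
    (hg0 : ∀ᶠ z in 𝓝 y, pe R (g z) = 0) (v : E) :
    (I * exp (I * (g y j : ℂ)) * pe (pderiv j R) (g y)) * (fderiv ℝ g y v j : ℂ)
      + ∑ a ∈ S, (I * exp (I * (g y a : ℂ)) * pe (pderiv a R) (g y)) * (fderiv ℝ g y v a : ℂ) = 0 := by
  classical
  have h1 : HasFDerivAt (fun z => pe R (g z)) ((fderiv ℝ (pe R) (g y)).comp (fderiv ℝ g y)) y := by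
    have h2 : HasFDerivAt (pe R) (fderiv ℝ (pe R) (g y)) (g y) :=
      ((contDiff_pe R).differentiable (by simp)).differentiableAt.hasFDerivAt
    exact h2.comp y hg.hasFDerivAt
  have h3 : HasFDerivAt (fun z => pe R (g z)) (0 : E →L[ℝ] ℂ) y := by
    refine (hasFDerivAt_const (0 : ℂ) y).congr_of_eventuallyEq ?_
    filter_upwards [hg0] with z hz
    exact hz
  have h4 := congrArg (fun L : E →L[ℝ] ℂ => L v) (h1.unique h3)
  simp only [ContinuousLinearMap.comp_apply, zero_apply] at h4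
  rw [fderiv_pe] at h4
  have h5 : ∀ k ∉ insert j S, pderiv k R = 0 := by
    intro k hk
    exact MvPolynomial.pderiv_eq_zero_of_notMem_vars fun h => hk (hvars h)
  rw [← Finset.sum_subset (Finset.subset_univ (insert j S))] at h4
  · rw [Finset.sum_insert hj] at h4
    exact h4
  · intro k _ hk
    rw [h5 k hk]
    simp [pe]

theorem fderiv_of_beta {R : MvPolynomial (Fin n) ℂ} {S : Finset (Fin n)} {j : Fin n} (hj : j ∉ S)
    (hvars : R.vars ⊆ insert j S) {x : Fin n → ℝ} {β : (Fin n → ℝ) → ℝ} (hβ : ContDiff ℝ ∞ β)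
    (hdep : ∀ θ θ' : Fin n → ℝ, (∀ k ∈ S, θ k = θ' k) → β θ = β θ') (hβx : β x = x j)
    (hd : pe (pderiv j R) x ≠ 0) (h0 : ∀ᶠ θ in 𝓝 x, pe R (Function.update θ j (β θ)) = 0)
    {E : Type*} [NormedAddCommGroup E] [NormedSpace ℝ E] {g : E → Fin n → ℝ} {y : E}
    (hg : DifferentiableAt ℝ g y) (hgy : g y = x) (hg0 : ∀ᶠ z in 𝓝 y, pe R (g z) = 0) (v : E) :
    fderiv ℝ g y v j = ∑ a ∈ S, fderiv ℝ β x (Pi.single a 1) * fderiv ℝ g y v a := by
  classical
  have hβd : HasFDerivAt β (fderiv ℝ β x) x :=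
    (hβ.differentiable (by simp)).differentiableAt.hasFDerivAt
  -- the graph map
  set G : (Fin n → ℝ) → (Fin n → ℝ) := fun θ => Function.update θ j (β θ) with hG
  set LG : (Fin n → ℝ) →L[ℝ] (Fin n → ℝ) := ContinuousLinearMap.pi fun k =>
    if k = j then fderiv ℝ β x else (ContinuousLinearMap.proj k : (Fin n → ℝ) →L[ℝ] ℝ) with hLG
  have hGd : HasFDerivAt G LG x := by
    rw [hasFDerivAt_pi']
    intro k
    by_cases hk : k = j
    · have h1 : (ContinuousLinearMap.proj k).comp LG = fderiv ℝ β x := by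
        ext w; simp [hLG, hk]
      rw [h1]
      have h2 : (fun θ => G θ k) = β := by
        funext θ; simp [hG, hk]
      rw [h2]
      exact hβd
    · have h1 : (ContinuousLinearMap.proj k).comp LG
          = (ContinuousLinearMap.proj k : (Fin n → ℝ) →L[ℝ] ℝ) := by
        ext w; simp [hLG, hk]
      rw [h1]
      have h2 : (fun θ => G θ k) = fun θ : Fin n → ℝ => θ k := by
        funext θ; simp [hG, hk]
      rw [h2]
      exact (ContinuousLinearMap.proj k : (Fin n → ℝ) →L[ℝ] ℝ).hasFDerivAt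
  have hGx : G x = x := by simp [hG, hβx]
  set c : Fin n → ℂ := fun k => I * exp (I * (x k : ℂ)) * pe (pderiv k R) x with hc
  have hcj : c j ≠ 0 := mul_ne_zero (mul_ne_zero I_ne_zero (exp_ne_zero _)) hd
  have hrel : ∀ w : Fin n → ℝ, c j * (fderiv ℝ β x w : ℂ) + ∑ a ∈ S, c a * (w a : ℂ) = 0 := by
    intro w
    have h1 := sum_fderiv_eq_zero hj hvars hGd.differentiableAt h0 w
    rw [hGd.fderiv, hGx] at h1
    have h2 : LG w j = fderiv ℝ β x w := by simp [hLG]
    have h3 : ∀ a ∈ S, LG w a = w a := by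
      intro a ha
      have : a ≠ j := fun h => hj (h ▸ ha)
      simp [hLG, this]
    rw [h2] at h1
    rw [← h1]
    congr 1
    apply Finset.sum_congr rfl
    intro a ha
    rw [h3 a ha]
  have hca : ∀ a ∈ S, c a = - (c j * (fderiv ℝ β x (Pi.single a 1) : ℂ)) := by
    intro a ha
    have h1 := hrel (Pi.single a 1)
    rw [Finset.sum_eq_single a] at h1
    · simp only [Pi.single_eq_same, ofReal_one, mul_one] at h1
      linear_combination h1
    · intro b _ hb
      simp [hb]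
    · intro h; exact absurd ha h
  have h1 := sum_fderiv_eq_zero hj hvars hg hg0 v
  rw [hgy] at h1
  have h2 : c j * (fderiv ℝ g y v j : ℂ) = c j * ((∑ a ∈ S, fderiv ℝ β x (Pi.single a 1) *
      fderiv ℝ g y v a : ℝ) : ℂ) := by
    have h3 : ∑ a ∈ S, c a * (fderiv ℝ g y v a : ℂ) = - (c j * ((∑ a ∈ S,
        fderiv ℝ β x (Pi.single a 1) * fderiv ℝ g y v a : ℝ) : ℂ)) := by
      push_cast
      rw [Finset.mul_sum, ← Finset.sum_neg_distrib]
      apply Finset.sum_congr rfl
      intro a ha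
      rw [hca a ha]
      ring
    have h4 : c j * (fderiv ℝ g y v j : ℂ) + ∑ a ∈ S, c a * (fderiv ℝ g y v a : ℂ) = 0 := h1
    rw [h3] at h4
    linear_combination h4
  have h3 := mul_left_cancel₀ hcj h2
  exact_mod_cast h3

theorem row_mem_span {R : MvPolynomial (Fin n) ℂ} {S : Finset (Fin n)} {j : Fin n} (hj : j ∉ S)
    (hvars : R.vars ⊆ insert j S) {E : Type*} [NormedAddCommGroup E] [NormedSpace ℝ E] {g : E → Fin n → ℝ} {y : E}
    (hg : DifferentiableAt ℝ g y) (hg0 : ∀ᶠ z in 𝓝 y, pe R (g z) = 0) (hd : pe (pderiv j R) (g y) ≠ 0) :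
    row g y j ∈ Submodule.span ℝ (row g y '' (S : Set (Fin n))) := by
  classical
  set c : Fin n → ℂ := fun k => I * exp (I * (g y k : ℂ)) * pe (pderiv k R) (g y) with hc
  have hcj : c j ≠ 0 := mul_ne_zero (mul_ne_zero I_ne_zero (exp_ne_zero _)) hd
  have h1 : row g y j = ∑ a ∈ S, (-(c a / c j)).re • row g y a := by
    ext v
    have h2 : c j * (fderiv ℝ g y v j : ℂ) + ∑ a ∈ S, c a * (fderiv ℝ g y v a : ℂ) = 0 :=
      sum_fderiv_eq_zero hj hvars hg hg0 v
    have h3 : (fderiv ℝ g y v j : ℂ) = ∑ a ∈ S, (-(c a / c j)) * (fderiv ℝ g y v a : ℂ) := by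
      have h4 : (fderiv ℝ g y v j : ℂ) = - (∑ a ∈ S, c a * (fderiv ℝ g y v a : ℂ)) / c j := by
        field_simp
        linear_combination h2
      rw [h4, ← Finset.sum_neg_distrib, Finset.sum_div]
      apply Finset.sum_congr rfl
      intro a _
      ring
    have h5 := congrArg Complex.re h3
    rw [ofReal_re, re_sum] at h5
    rw [row_apply, h5, sum_apply]
    apply Finset.sum_congr rfl
    intro a _
    rw [smul_apply, row_apply, smul_eq_mul, re_mul_ofReal]
  rw [h1]
  exact Submodule.sum_mem _ fun a ha =>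
    Submodule.smul_mem _ _ (Submodule.subset_span ⟨a, ha, rfl⟩)

end Pool.Agent.Helper49.FA
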