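import Mathlib

/-!
Helper file for `MP_dec849_al`: linear algebra around pairs of functionals on the top piece of a
graded algebra.
-/

namespace Helper33.IP

open Module Submodule

set_option linter.unusedSectionVars false

variable {K A : Type*} [Field K] [CommRing A] [Algebra K A]

/-- The pairing `s, t ↦ F (s * t)`. -/
def pair (F : A →ₗ[K] K) (S T : Submodule K A) : S →ₗ[K] Dual K T :=
  ((LinearMap.mul K A).compr₂ F).domRestrict₁₂ S T

@[simp] theorem pair_apply (F : A →ₗ[K] K) (S T : Submodule K A) (s : S) (t : T) :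
    pair F S T s t = F (s * t) := rfl

/-- elements of `S` annihilated by `F` on `T` -/
def Nul (F : A →ₗ[K] K) (S T : Submodule K A) : Submodule K A :=
  (LinearMap.ker (pair F S T)).map S.subtype

/-- elements `D` of `S` such that `F(D ·)` equals some `G(D' ·)` on `T` -/
def Par (F G : A →ₗ[K] K) (S T : Submodule K A) : Submodule K A :=
  ((LinearMap.range (pair G S T)).comap (pair F S T)).map S.subtype

theorem mem_Nul {F : A →ₗ[K] K} {S T : Submodule K A} {D : A} :
    D ∈ Nul F S T ↔ D ∈ S ∧ ∀ z ∈ T, F (D * z) = 0 := by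
  unfold Nul
  rw [Submodule.mem_map]
  constructor
  · rintro ⟨D, hD, rfl⟩
    refine ⟨D.2, fun z hz => ?_⟩
    exact LinearMap.congr_fun (LinearMap.mem_ker.1 hD) ⟨z, hz⟩
  · rintro ⟨h1, h2⟩
    refine ⟨⟨D, h1⟩, ?_, rfl⟩
    rw [LinearMap.mem_ker]
    ext z
    exact h2 z z.2

theorem mem_Par {F G : A →ₗ[K] K} {S T : Submodule K A} {D : A} :
    D ∈ Par F G S T ↔ D ∈ S ∧ ∃ D' ∈ S, ∀ z ∈ T, F (D * z) = G (D' * z) := by
  unfold Par
  rw [Submodule.mem_map]
  constructor
  · rintro ⟨D, hD, rfl⟩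
    rw [Submodule.mem_comap, LinearMap.mem_range] at hD
    obtain ⟨D', hD'⟩ := hD
    refine ⟨D.2, D', D'.2, fun z hz => ?_⟩
    exact (LinearMap.congr_fun hD' ⟨z, hz⟩).symm
  · rintro ⟨h1, D', h2, h3⟩
    refine ⟨⟨D, h1⟩, ?_, rfl⟩
    rw [Submodule.mem_comap, LinearMap.mem_range]
    refine ⟨⟨D', h2⟩, ?_⟩
    ext z
    exact (h3 z z.2).symm

theorem finrank_comap_range {V D : Type*} [AddCommGroup V] [Module K V] [FiniteDimensional K V]
    [AddCommGroup D] [Module K D] [FiniteDimensional K D] (f g : V →ₗ[K] D)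
    (h : LinearMap.range f ⊔ LinearMap.range g = ⊤) :
    finrank K ((LinearMap.range g).comap f) + finrank K (LinearMap.ker g) + finrank K D =
      2 * finrank K V := by
  have e1 := Submodule.finrank_sup_add_finrank_inf_eq (LinearMap.range f) (LinearMap.range g)
  rw [h, finrank_top] at e1
  have e2 := LinearMap.finrank_range_add_finrank_ker f
  have e3 := LinearMap.finrank_range_add_finrank_ker g
  set S := (LinearMap.range g).comap f with hS
  have e4 := LinearMap.finrank_range_add_finrank_ker (f.domRestrict S)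
  have e5 : LinearMap.range (f.domRestrict S) = LinearMap.range f ⊓ LinearMap.range g := by
    ext x
    simp only [LinearMap.mem_range, Submodule.mem_inf]
    constructor
    · rintro ⟨⟨y, hy⟩, rfl⟩
      exact ⟨⟨y, rfl⟩, hy⟩
    · rintro ⟨⟨y, rfl⟩, hz⟩
      exact ⟨⟨y, hz⟩, rfl⟩
  have hle : LinearMap.ker f ≤ S := by
    intro x hx
    rw [hS, Submodule.mem_comap, LinearMap.mem_ker.1 hx]
    exact Submodule.zero_mem _
  have e6 : finrank K (LinearMap.ker (f.domRestrict S)) = finrank K (LinearMap.ker f) := by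
    have : LinearMap.ker (f.domRestrict S) = (LinearMap.ker f).comap S.subtype := by
      ext x; simp
    rw [this]
    exact (Submodule.comapSubtypeEquivOfLe hle).finrank_eq
  rw [e5, e6] at e4
  omega

/-- A level algebra of socle degree four and type two, cut down to what is needed. -/
structure Ctx (A1 A2 A3 A4 : Submodule K A) (F G : A →ₗ[K] K) : Prop where
  h2 : A1 * A1 = A2
  h3 : A1 * A2 = A3
  h4 : A1 * A3 = A4
  nd1 : ∀ z ∈ A1, (∀ x ∈ A1, x * z = 0) → z = 0
  nd2 : ∀ z ∈ A2, (∀ x ∈ A1, x * z = 0) → z = 0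
  nd3 : ∀ z ∈ A3, (∀ x ∈ A1, x * z = 0) → z = 0
  hFG : ∀ z ∈ A4, F z = 0 → G z = 0 → z = 0

namespace Ctx

variable {A1 A2 A3 A4 : Submodule K A} {F G : A →ₗ[K] K}

theorem symm (c : Ctx A1 A2 A3 A4 F G) : Ctx A1 A2 A3 A4 G F :=
  ⟨c.h2, c.h3, c.h4, c.nd1, c.nd2, c.nd3, fun z hz h h' => c.hFG z hz h' h⟩

theorem m11 (c : Ctx A1 A2 A3 A4 F G) {x y : A} (hx : x ∈ A1) (hy : y ∈ A1) : x * y ∈ A2 :=
  c.h2 ▸ Submodule.mul_mem_mul hx hy

theorem m12 (c : Ctx A1 A2 A3 A4 F G) {x y : A} (hx : x ∈ A1) (hy : y ∈ A2) : x * y ∈ A3 :=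
  c.h3 ▸ Submodule.mul_mem_mul hx hy

theorem m13 (c : Ctx A1 A2 A3 A4 F G) {x y : A} (hx : x ∈ A1) (hy : y ∈ A3) : x * y ∈ A4 :=
  c.h4 ▸ Submodule.mul_mem_mul hx hy

/-- an element of `A2` killed by `A2` vanishes -/
theorem nd22 (c : Ctx A1 A2 A3 A4 F G) {z : A} (hz : z ∈ A2) (h : ∀ w ∈ A2, z * w = 0) :
    z = 0 := by
  apply c.nd2 z hz
  intro x hx
  apply c.nd3 _ (c.m12 hx hz)
  intro y hy
  have := h (y * x) (c.m11 hy hx)
  rw [← this]; ring

/-- an element of `A1` killed by `A3` vanishes -/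
theorem nd13 (c : Ctx A1 A2 A3 A4 F G) {z : A} (hz : z ∈ A1) (h : ∀ w ∈ A3, z * w = 0) :
    z = 0 := by
  apply c.nd1 z hz
  intro x hx
  apply c.nd2 _ (c.m11 hx hz)
  intro y hy
  apply c.nd3 _ (c.m12 hy (c.m11 hx hz))
  intro w hw
  have := h (w * (y * x)) (c.m12 hw (c.m11 hy hx))
  rw [← this]; ring

theorem nul_inf (c : Ctx A1 A2 A3 A4 F G) : Nul F A1 A3 ⊓ Nul G A1 A3 = ⊥ := by
  rw [eq_bot_iff]
  rintro y ⟨h1, h2⟩
  rw [SetLike.mem_coe, mem_Nul] at h1 h2
  rw [Submodule.mem_bot]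
  apply c.nd13 h1.1
  intro w hw
  exact c.hFG _ (c.m13 h1.1 hw) (h1.2 w hw) (h2.2 w hw)

/-- key annihilation property -/
theorem key (_c : Ctx A1 A2 A3 A4 F G) {y D z : A} (hy : y ∈ Nul G A1 A3 ⊓ Par F G A1 A3)
    (hD : D ∈ Par F G A1 A3 ⊔ Nul G A1 A3) (hz : z ∈ A2) : F (y * (D * z)) = 0 := by
  have c := _c
  obtain ⟨hy1, hy2⟩ := hy
  rw [SetLike.mem_coe, mem_Nul] at hy1
  rw [SetLike.mem_coe, mem_Par] at hy2
  obtain ⟨hyA, D', hD', hyD⟩ := hy2
  obtain ⟨a, ha, b, hb, rfl⟩ := Submodule.mem_sup.1 hD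
  rw [mem_Par] at ha
  rw [mem_Nul] at hb
  obtain ⟨haA, a', ha', haa⟩ := ha
  obtain ⟨hbA, hb0⟩ := hb
  rw [add_mul, mul_add, map_add]
  have e1 : F (y * (a * z)) = 0 := by
    have : y * (a * z) = a * (y * z) := by ring
    rw [this, haa _ (c.m12 hyA hz)]
    have : a' * (y * z) = y * (a' * z) := by ring
    rw [this, hy1.2 _ (c.m12 ha' hz)]
  have e2 : F (y * (b * z)) = 0 := by
    rw [hyD _ (c.m12 hbA hz)]
    have : D' * (b * z) = b * (D' * z) := by ring
    rw [this, hb0 _ (c.m12 hD' hz)]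
  rw [e1, e2, add_zero]

variable [FiniteDimensional K A]

theorem range_sup (c : Ctx A1 A2 A3 A4 F G) :
    LinearMap.range (pair F A1 A3) ⊔ LinearMap.range (pair G A1 A3) = ⊤ := by
  set W := LinearMap.range (pair F A1 A3) ⊔ LinearMap.range (pair G A1 A3) with hW
  have hco : W.dualCoannihilator = ⊥ := by
    rw [eq_bot_iff]
    intro z hz
    rw [Submodule.mem_dualCoannihilator] at hz
    rw [Submodule.mem_bot]
    apply Subtype.ext
    apply c.nd3 z z.2
    intro x hx
    apply c.hFG _ (c.m13 hx z.2)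
    · exact hz (pair F A1 A3 ⟨x, hx⟩)
        (Submodule.mem_sup_left (LinearMap.mem_range_self _ _))
    · exact hz (pair G A1 A3 ⟨x, hx⟩)
        (Submodule.mem_sup_right (LinearMap.mem_range_self _ _))
  have := Subspace.dualCoannihilator_dualAnnihilator_eq (W := W)
  rw [hco] at this
  rw [← this, Submodule.dualAnnihilator_bot]

theorem finrank_par (c : Ctx A1 A2 A3 A4 F G) :
    finrank K (Par F G A1 A3) + finrank K (Nul G A1 A3) + finrank K A3 = 2 * finrank K A1 := by
  have := finrank_comap_range (pair F A1 A3) (pair G A1 A3) c.range_sup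
  rw [Subspace.dual_finrank_eq] at this
  unfold Par Nul
  rw [Submodule.finrank_map_subtype_eq, Submodule.finrank_map_subtype_eq]
  exact this

theorem nul_le_par : Nul F A1 A3 ≤ Par F G A1 A3 := by
  intro D hD
  rw [mem_Nul] at hD
  rw [mem_Par]
  exact ⟨hD.1, 0, Submodule.zero_mem _, fun z hz => by simp [hD.2 z hz]⟩

theorem par_le : Par F G A1 A3 ≤ A1 := fun _ hD => (mem_Par.1 hD).1

theorem nul_le : Nul F A1 A3 ≤ A1 := fun _ hD => (mem_Nul.1 hD).1

/-- the bound on the number of elements of `N_G ∩ P_F` by cubic monomials -/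
theorem bound (c : Ctx A1 A2 A3 A4 F G) (ν : ℕ)
    (hν : finrank K ↥(Par F G A1 A3 ⊔ Nul G A1 A3) + ν = finrank K A1) :
    finrank K ↥(Nul G A1 A3 ⊓ Par F G A1 A3) ≤ Nat.multichoose ν 3 := by
  classical
  set P := Par F G A1 A3 ⊔ Nul G A1 A3 with hP
  have hPle : P ≤ A1 := sup_le par_le nul_le
  -- a complement of `P` in `A1`
  obtain ⟨Q, hQ⟩ := Submodule.exists_isCompl (P.comap A1.subtype)
  have hPf : finrank K (P.comap A1.subtype) = finrank K P :=
    (Submodule.comapSubtypeEquivOfLe hPle).finrank_eq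
  have hQf : finrank K Q = ν := by
    have := Submodule.finrank_add_eq_of_isCompl hQ
    omega
  have : Module.Free K Q := Module.Free.of_divisionRing K Q
  have : Module.Finite K Q := inferInstance
  let b : Basis (Fin ν) K Q := Module.finBasisOfFinrankEq K Q hQf
  let x : Fin ν → A := fun i => ((b i : Q) : A1)
  have hxA : ∀ i, x i ∈ A1 := fun i => ((b i : Q) : A1).2
  -- every element of `A1` is an element of `P` plus a combination of the `x i`
  have hdec : ∀ a ∈ A1, ∃ p ∈ P, ∃ q ∈ Submodule.span K (Set.range x), a = p + q := by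
    intro a ha
    have htop : (⟨a, ha⟩ : A1) ∈ (P.comap A1.subtype) ⊔ Q := by
      rw [hQ.sup_eq_top]; trivial
    obtain ⟨p, hp, q, hq, hpq⟩ := Submodule.mem_sup.1 htop
    refine ⟨p, hp, q, ?_, ?_⟩
    · have hq' := b.mem_span (⟨q, hq⟩ : Q)
      have h1 : ((⟨q, hq⟩ : Q) : A1) ∈ (Submodule.span K (Set.range b)).map Q.subtype :=
        ⟨_, hq', rfl⟩
      have h2 : ((q : A1) : A) ∈ ((Submodule.span K (Set.range b)).map Q.subtype).map A1.subtype :=
        ⟨q, h1, rfl⟩
      rw [Submodule.map_span, Submodule.map_span, ← Set.range_comp, ← Set.range_comp] at h2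
      exact h2
    · have := congrArg (Subtype.val) hpq
      simpa using this.symm
  -- the evaluation map
  let Θ : ↥(Nul G A1 A3 ⊓ Par F G A1 A3) →ₗ[K] (Sym (Fin ν) 3 → K) :=
    LinearMap.pi (fun s => (F ∘ₗ LinearMap.mulRight K (((s : Multiset (Fin ν)).map x).prod)).domRestrict _)
  have hΘ : ∀ y s, Θ y s = F (y * ((s : Multiset (Fin ν)).map x).prod) := fun y s => rfl
  have hinj : Function.Injective Θ := by
    rw [← LinearMap.ker_eq_bot, eq_bot_iff]
    intro y hy
    rw [LinearMap.mem_ker] at hy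
    rw [Submodule.mem_bot]
    apply Subtype.ext
    have hy2 := y.2
    have hspan : ∀ m : A, (∀ k, F (y * (m * x k)) = 0) →
        ∀ q ∈ Submodule.span K (Set.range x), F (y * (m * q)) = 0 := by
      intro m hm q hq
      have hle : Submodule.span K (Set.range x) ≤
          LinearMap.ker (F ∘ₗ LinearMap.mulLeft K ((y : A) * m)) := by
        rw [Submodule.span_le]
        rintro _ ⟨k, rfl⟩
        rw [SetLike.mem_coe, LinearMap.mem_ker]
        show F ((y : A) * m * x k) = 0
        rw [mul_assoc]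
        exact hm k
      have := hle hq
      rw [LinearMap.mem_ker] at this
      rw [← this]
      show _ = F ((y : A) * m * q)
      rw [mul_assoc]
    have h0 : ∀ i j k, F (y * (x i * (x j * x k))) = 0 := by
      intro i j k
      obtain ⟨s, hs⟩ : ∃ s : Sym (Fin ν) 3, (s : Multiset (Fin ν)) = {i, j, k} :=
        ⟨Sym.mk {i, j, k} (by simp), rfl⟩
      have h := congrFun hy s
      rw [hΘ, hs] at h
      simpa using h
    -- vanishing on `x i * x j * A1`
    have h1 : ∀ i j, ∀ a ∈ A1, F (y * (x i * (x j * a))) = 0 := by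
      intro i j a ha
      obtain ⟨p, hp, q, hq, rfl⟩ := hdec a ha
      have e : (y : A) * (x i * (x j * (p + q))) = y * (p * (x i * x j)) +
          y * ((x i * x j) * q) := by ring
      rw [e, map_add, c.key hy2 hp (c.m11 (hxA i) (hxA j)), zero_add]
      apply hspan (x i * x j) _ q hq
      intro k
      rw [mul_assoc]
      exact h0 i j k
    have h2 : ∀ i, ∀ a ∈ A1, ∀ a' ∈ A1, F (y * (x i * (a * a'))) = 0 := by
      intro i a ha a' ha'
      obtain ⟨p, hp, q, hq, rfl⟩ := hdec a ha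
      have e : (y : A) * (x i * ((p + q) * a')) = y * (p * (x i * a')) +
          y * ((x i * a') * q) := by ring
      rw [e, map_add, c.key hy2 hp (c.m11 (hxA i) ha'), zero_add]
      apply hspan (x i * a') _ q hq
      intro k
      have e2 : (y : A) * (x i * a' * x k) = y * (x i * (x k * a')) := by ring
      rw [e2]
      exact h1 i k a' ha'
    have h3 : ∀ i, ∀ z ∈ A2, F (y * (x i * z)) = 0 := by
      intro i z hz
      rw [← c.h2] at hz
      induction hz using Submodule.mul_induction_on' with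
      | mem_mul_mem a ha a' ha' => exact h2 i a ha a' ha'
      | add u _ v _ hu hv => rw [mul_add, mul_add, map_add, hu, hv, add_zero]
    have h4 : ∀ a ∈ A1, ∀ z ∈ A2, F (y * (a * z)) = 0 := by
      intro a ha z hz
      obtain ⟨p, hp, q, hq, rfl⟩ := hdec a ha
      have e : (y : A) * ((p + q) * z) = y * (p * z) + y * (z * q) := by ring
      rw [e, map_add, c.key hy2 hp hz, zero_add]
      apply hspan z _ q hq
      intro k
      rw [mul_comm z]
      exact h3 k z hz
    have h5 : ∀ w ∈ A3, F (y * w) = 0 := by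
      intro w hw
      rw [← c.h3] at hw
      induction hw using Submodule.mul_induction_on' with
      | mem_mul_mem a ha z hz => exact h4 a ha z hz
      | add u _ v _ hu hv => rw [mul_add, map_add, hu, hv, add_zero]
    have hyG := mem_Nul.1 hy2.1
    have hyF : (y : A) ∈ Nul F A1 A3 := mem_Nul.2 ⟨hyG.1, h5⟩
    have : (y : A) ∈ Nul F A1 A3 ⊓ Nul G A1 A3 := ⟨hyF, hy2.1⟩
    rw [c.nul_inf, Submodule.mem_bot] at this
    exact this
  calc _ ≤ finrank K (Sym (Fin ν) 3 → K) := LinearMap.finrank_le_finrank_of_injective hinj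
    _ = Nat.multichoose ν 3 := by
      rw [Module.finrank_fintype_fun_eq_card, Sym.card_sym_fin_eq_multichoose]

end Ctx

end Helper33.IP
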