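import Pool.Agent.Helper33.IP1

/-!
Helper file for `MP_dec849_al`: there is no level algebra with `h`-vector `(1,15,17,12,2)`.
-/

namespace Helper33.IP

open Module Submodule
open scoped Pointwise

set_option linter.unusedSectionVars false

variable {K A : Type*} [Field K] [CommRing A] [Algebra K A]

theorem exists_compl_span [FiniteDimensional K A] {P S : Submodule K A} (hPS : P ≤ S) (ν : ℕ)
    (h : finrank K P + ν = finrank K S) :
    ∃ x : Fin ν → A, (∀ i, x i ∈ S) ∧ S ≤ P ⊔ Submodule.span K (Set.range x) := by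
  obtain ⟨Q, hQ⟩ := Submodule.exists_isCompl (P.comap S.subtype)
  have hPf : finrank K (P.comap S.subtype) = finrank K P :=
    (Submodule.comapSubtypeEquivOfLe hPS).finrank_eq
  have hQf : finrank K Q = ν := by
    have := Submodule.finrank_add_eq_of_isCompl hQ
    omega
  have : Module.Free K Q := Module.Free.of_divisionRing K Q
  have : Module.Finite K Q := inferInstance
  let b : Basis (Fin ν) K Q := Module.finBasisOfFinrankEq K Q hQf
  refine ⟨fun i => ((b i : Q) : S), fun i => ((b i : Q) : S).2, ?_⟩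
  intro a ha
  have htop : (⟨a, ha⟩ : S) ∈ (P.comap S.subtype) ⊔ Q := by
    rw [hQ.sup_eq_top]; trivial
  obtain ⟨p, hp, q, hq, hpq⟩ := Submodule.mem_sup.1 htop
  refine Submodule.mem_sup.2 ⟨p, hp, q, ?_, ?_⟩
  · have hq' := b.mem_span (⟨q, hq⟩ : Q)
    have h1 : ((⟨q, hq⟩ : Q) : S) ∈ (Submodule.span K (Set.range b)).map Q.subtype :=
      ⟨_, hq', rfl⟩
    have h2 : ((q : S) : A) ∈ ((Submodule.span K (Set.range b)).map Q.subtype).map S.subtype :=
      ⟨q, h1, rfl⟩
    rw [Submodule.map_span, Submodule.map_span, ← Set.range_comp, ← Set.range_comp] at h2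
    exact h2
  · have := congrArg (Subtype.val) hpq
    simpa using this

theorem finrank_span_mul_le [FiniteDimensional K A] (x : Fin 3 → A) :
    finrank K ↥(Submodule.span K (Set.range x) * Submodule.span K (Set.range x)) ≤ 6 := by
  classical
  rw [Submodule.span_mul_span]
  have hsub : Set.range x * Set.range x ⊆
      Set.range (fun s : Sym (Fin 3) 2 => ((s : Multiset (Fin 3)).map x).prod) := by
    rintro _ ⟨_, ⟨i, rfl⟩, _, ⟨j, rfl⟩, rfl⟩
    refine ⟨Sym.mk {i, j} (by simp), ?_⟩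
    show (Multiset.map x {i, j}).prod = _
    simp
  calc _ ≤ finrank K ↥(Submodule.span K (Set.range (fun s : Sym (Fin 3) 2 =>
          ((s : Multiset (Fin 3)).map x).prod))) :=
        Submodule.finrank_mono (Submodule.span_mono hsub)
    _ ≤ Fintype.card (Sym (Fin 3) 2) := finrank_range_le_card _
    _ = 6 := by rw [Sym.card_sym_fin_eq_multichoose, Nat.multichoose_eq]; rfl

namespace Ctx

variable {A1 A2 A3 A4 : Submodule K A} {F G : A →ₗ[K] K} [FiniteDimensional K A]

theorem k_ge (c : Ctx A1 A2 A3 A4 F G) (d1 : finrank K A1 = 15) (d3 : finrank K A3 = 12) :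
    6 ≤ finrank K ↥(Nul G A1 A3 ⊓ Par F G A1 A3) ∧
    finrank K ↥(Par F G A1 A3 ⊔ Nul G A1 A3) + finrank K ↥(Nul G A1 A3 ⊓ Par F G A1 A3) = 18 := by
  have e1 := c.finrank_par
  have e2 := Submodule.finrank_sup_add_finrank_inf_eq (Par F G A1 A3) (Nul G A1 A3)
  rw [inf_comm] at e2
  have e3 : finrank K ↥(Par F G A1 A3 ⊔ Nul G A1 A3) ≤ 15 := by
    rw [← d1]
    exact Submodule.finrank_mono (sup_le par_le nul_le)
  refine ⟨?_, by omega⟩
  by_contra hlt
  have e4 := c.bound (15 - finrank K ↥(Par F G A1 A3 ⊔ Nul G A1 A3)) (by omega)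
  set k := finrank K ↥(Nul G A1 A3 ⊓ Par F G A1 A3) with hk
  set s := finrank K ↥(Par F G A1 A3 ⊔ Nul G A1 A3) with hs
  have e5 : 15 - s = k - 3 := by omega
  rw [e5] at e4
  have hk3 : 3 ≤ k := by omega
  have hk6 : k < 6 := by omega
  have m0 : Nat.multichoose 0 3 = 0 := by rw [Nat.multichoose_eq]; rfl
  have m1 : Nat.multichoose 1 3 = 1 := by rw [Nat.multichoose_eq]; rfl
  have m2 : Nat.multichoose 2 3 = 4 := by rw [Nat.multichoose_eq]; rfl
  clear_value k
  interval_cases k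
  · simp only [Nat.sub_self, m0] at e4; omega
  · have : 4 - 3 = 1 := rfl
    rw [this, m1] at e4; omega
  · have : 5 - 3 = 2 := rfl
    rw [this, m2] at e4; omega

theorem struct (c : Ctx A1 A2 A3 A4 F G) (d1 : finrank K A1 = 15) (d3 : finrank K A3 = 12) :
    finrank K (Nul F A1 A3) = 6 ∧ finrank K (Nul G A1 A3) = 6 ∧
    Par F G A1 A3 = Nul F A1 A3 ⊔ Nul G A1 A3 := by
  obtain ⟨k1, k2⟩ := c.k_ge d1 d3
  obtain ⟨l1, l2⟩ := c.symm.k_ge d1 d3
  have e1 := c.finrank_par
  have e2 := Submodule.finrank_sup_add_finrank_inf_eq (Nul F A1 A3) (Nul G A1 A3)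
  rw [c.nul_inf, finrank_bot, add_zero] at e2
  have e3 : finrank K ↥(Nul F A1 A3 ⊔ Nul G A1 A3) ≤
      finrank K ↥(Par F G A1 A3 ⊔ Nul G A1 A3) :=
    Submodule.finrank_mono (sup_le_sup_right nul_le_par _)
  have e4 : finrank K ↥(Nul G A1 A3 ⊓ Par F G A1 A3) ≤ finrank K (Nul G A1 A3) :=
    Submodule.finrank_mono inf_le_left
  have e5 : finrank K ↥(Nul F A1 A3 ⊓ Par G F A1 A3) ≤ finrank K (Nul F A1 A3) :=
    Submodule.finrank_mono inf_le_left
  have hF : finrank K (Nul F A1 A3) = 6 := by omega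
  have hG : finrank K (Nul G A1 A3) = 6 := by omega
  refine ⟨hF, hG, ?_⟩
  have hN : Nul F A1 A3 ⊔ Nul G A1 A3 = Par F G A1 A3 ⊔ Nul G A1 A3 :=
    Submodule.eq_of_le_of_finrank_eq (sup_le_sup_right nul_le_par _) (by omega)
  apply Submodule.eq_of_le_of_finrank_eq
  · rw [hN]; exact le_sup_left
  · omega

/-- the product of two elements of `N = N_F + N_G` vanishes -/
theorem mul_zero_aux (c : Ctx A1 A2 A3 A4 F G) (d1 : finrank K A1 = 15) (d3 : finrank K A3 = 12)
    {y D : A} (hy : y ∈ Nul G A1 A3) (hD : D ∈ Nul F A1 A3 ⊔ Nul G A1 A3) : y * D = 0 := by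
  obtain ⟨-, -, hP⟩ := c.struct d1 d3
  have hDA : D ∈ A1 := (sup_le nul_le nul_le) hD
  have hyA : y ∈ A1 := nul_le hy
  apply c.nd22 (c.m11 hyA hDA)
  intro z hz
  rw [mul_assoc]
  apply c.hFG _ (c.m13 hyA (c.m12 hDA hz))
  · apply c.key ⟨hy, ?_⟩ _ hz
    · rw [hP]; exact Submodule.mem_sup_right hy
    · rw [hP]; exact Submodule.mem_sup_left hD
  · exact (mem_Nul.1 hy).2 _ (c.m12 hDA hz)

theorem mul_zero' (c : Ctx A1 A2 A3 A4 F G) (d1 : finrank K A1 = 15) (d3 : finrank K A3 = 12)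
    {y D : A} (hy : y ∈ Nul F A1 A3 ⊔ Nul G A1 A3) (hD : D ∈ Nul F A1 A3 ⊔ Nul G A1 A3) :
    y * D = 0 := by
  obtain ⟨a, ha, b, hb, rfl⟩ := Submodule.mem_sup.1 hy
  rw [add_mul, c.mul_zero_aux d1 d3 hb hD, add_zero]
  apply c.symm.mul_zero_aux d1 d3 ha
  rw [sup_comm]; exact hD

theorem vanish (c : Ctx A1 A2 A3 A4 F G) {p z : A} (hp : p ∈ Nul G A1 A3 * A1) (hz : z ∈ A2) :
    G (p * z) = 0 := by
  induction hp using Submodule.mul_induction_on' with
  | mem_mul_mem y hy x hx =>
    rw [mul_assoc]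
    exact (mem_Nul.1 hy).2 _ (c.m12 hx hz)
  | add u _ v _ hu hv => rw [add_mul, map_add, hu, hv, add_zero]

theorem prod_le (c : Ctx A1 A2 A3 A4 F G) : Nul G A1 A3 * A1 ≤ A2 := by
  rw [← c.h2]
  exact mul_le_mul' nul_le le_rfl

theorem pair_injective (c : Ctx A1 A2 A3 A4 F G) :
    Function.Injective (pair F (Nul G A1 A3 * A1) A2) := by
  rw [← LinearMap.ker_eq_bot, eq_bot_iff]
  intro p hp
  rw [LinearMap.mem_ker] at hp
  rw [Submodule.mem_bot]
  apply Subtype.ext
  have hpA : (p : A) ∈ A2 := c.prod_le p.2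
  apply c.nd22 hpA
  intro z hz
  have hmem : (p : A) * z ∈ A4 := by
    have : (p : A) * z ∈ A2 * A2 := Submodule.mul_mem_mul hpA hz
    rw [← c.h2, mul_assoc, c.h2, c.h3, c.h4] at this
    exact this
  apply c.hFG _ hmem
  · exact LinearMap.congr_fun hp ⟨z, hz⟩
  · exact c.vanish p.2 hz

theorem range_le (c : Ctx A1 A2 A3 A4 F G) (d1 : finrank K A1 = 15) (d3 : finrank K A3 = 12) :
    LinearMap.range (pair F (Nul G A1 A3 * A1) A2) ≤
      LinearMap.range (pair G (Nul F A1 A3 * A1) A2) := by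
  rintro _ ⟨⟨p, hp⟩, rfl⟩
  obtain ⟨-, -, hP⟩ := c.struct d1 d3
  obtain ⟨-, -, hP'⟩ := c.symm.struct d1 d3
  have key : ∃ q ∈ Nul F A1 A3 * A1, ∀ z ∈ A2, F (p * z) = G (q * z) := by
    induction hp using Submodule.mul_induction_on' with
    | mem_mul_mem y hy x hx =>
      have hyP : y ∈ Par F G A1 A3 := by
        rw [hP]; exact Submodule.mem_sup_right hy
      obtain ⟨hyA, D', hD', hD''⟩ := mem_Par.1 hyP
      have hD'P : D' ∈ Par G F A1 A3 := mem_Par.2 ⟨hD', y, hyA, fun z hz => (hD'' z hz).symm⟩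
      rw [hP'] at hD'P
      obtain ⟨v, hv, u, hu, rfl⟩ := Submodule.mem_sup.1 hD'P
      refine ⟨u * x, Submodule.mul_mem_mul hu hx, ?_⟩
      intro z hz
      have hxz := c.m12 hx hz
      rw [mul_assoc, hD'' _ hxz, add_mul, map_add, (mem_Nul.1 hv).2 _ hxz, zero_add, mul_assoc]
    | add a _ b _ ha hb =>
      obtain ⟨q, hq, h1⟩ := ha
      obtain ⟨q', hq', h1'⟩ := hb
      refine ⟨q + q', Submodule.add_mem _ hq hq', ?_⟩
      intro z hz
      rw [add_mul, add_mul, map_add, map_add, h1 z hz, h1' z hz]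
  obtain ⟨q, hq, h⟩ := key
  refine ⟨⟨q, hq⟩, ?_⟩
  ext z
  exact (h z z.2).symm

theorem not17 (c : Ctx A1 A2 A3 A4 F G) (d1 : finrank K A1 = 15) (d2 : finrank K A2 = 17)
    (d3 : finrank K A3 = 12) : False := by
  obtain ⟨nF, nG, hP⟩ := c.struct d1 d3
  set UF := Nul F A1 A3 * A1 with hUF
  set UG := Nul G A1 A3 * A1 with hUG
  -- `α = dim UG = dim UF`
  have hαF : finrank K (LinearMap.range (pair F UG A2)) = finrank K UG :=
    LinearMap.finrank_range_of_inj c.pair_injective
  have hαG : finrank K (LinearMap.range (pair G UF A2)) = finrank K UF :=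
    LinearMap.finrank_range_of_inj c.symm.pair_injective
  have hrange : LinearMap.range (pair F UG A2) = LinearMap.range (pair G UF A2) :=
    le_antisymm (c.range_le d1 d3) (c.symm.range_le d1 d3)
  have hα : finrank K UF = finrank K UG := by rw [← hαF, ← hαG, hrange]
  -- trivial intersection
  have hinf : UF ⊓ UG = ⊥ := by
    rw [eq_bot_iff]
    rintro p ⟨hpF, hpG⟩
    rw [Submodule.mem_bot]
    have hpA : p ∈ A2 := c.prod_le hpG
    apply c.nd22 hpA
    intro z hz
    have hmem : p * z ∈ A4 := by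
      have : p * z ∈ A2 * A2 := Submodule.mul_mem_mul hpA hz
      rw [← c.h2, mul_assoc, c.h2, c.h3, c.h4] at this
      exact this
    exact c.hFG _ hmem (c.symm.vanish hpF hz) (c.vanish hpG hz)
  have hsum := Submodule.finrank_sup_add_finrank_inf_eq UF UG
  rw [hinf, finrank_bot, add_zero] at hsum
  have hsup : UF ⊔ UG ≤ A2 := sup_le c.symm.prod_le c.prod_le
  -- the annihilator bound
  have hann : finrank K UG + finrank K ↥(UF ⊔ UG) ≤ 17 := by
    have hle : LinearMap.range (pair F UG A2) ≤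
        ((UF ⊔ UG).comap A2.subtype).dualAnnihilator := by
      rintro _ ⟨p, rfl⟩
      rw [Submodule.mem_dualAnnihilator]
      intro q hq
      show F (p * q) = 0
      have hq' : (q : A) ∈ (Nul F A1 A3 ⊔ Nul G A1 A3) * A1 := by
        rw [Submodule.sup_mul]; exact hq
      have hpq : (p : A) * q = 0 := by
        have hp' : (p : A) ∈ (Nul F A1 A3 ⊔ Nul G A1 A3) * A1 := by
          rw [Submodule.sup_mul]; exact Submodule.mem_sup_right p.2
        generalize (q : A) = q' at hq'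
        generalize (p : A) = p' at hp'
        induction hp' using Submodule.mul_induction_on' with
        | mem_mul_mem y hy x hx =>
          induction hq' using Submodule.mul_induction_on' with
          | mem_mul_mem n hn x' hx' =>
            have : y * x * (n * x') = (y * n) * (x * x') := by ring
            rw [this, c.mul_zero' d1 d3 hy hn, zero_mul]
          | add a _ b _ ha hb => rw [mul_add, ha, hb, add_zero]
        | add a _ b _ ha hb => rw [add_mul, ha, hb, add_zero]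
      rw [hpq, map_zero]
    have h1 := Submodule.finrank_mono hle
    have h2 := Subspace.finrank_add_finrank_dualAnnihilator_eq ((UF ⊔ UG).comap A2.subtype)
    have h3 : finrank K ((UF ⊔ UG).comap A2.subtype) = finrank K ↥(UF ⊔ UG) :=
      (Submodule.comapSubtypeEquivOfLe hsup).finrank_eq
    omega
  -- the bound from three generators
  have hgen : 17 ≤ finrank K ↥(UF ⊔ UG) + 6 := by
    have hN : finrank K ↥(Nul F A1 A3 ⊔ Nul G A1 A3) = 12 := by
      have e2 := Submodule.finrank_sup_add_finrank_inf_eq (Nul F A1 A3) (Nul G A1 A3)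
      rw [c.nul_inf, finrank_bot, add_zero] at e2
      omega
    have hNle : Nul F A1 A3 ⊔ Nul G A1 A3 ≤ A1 := sup_le nul_le nul_le
    obtain ⟨x, hx, hxle⟩ := exists_compl_span hNle 3 (by omega)
    set X := Submodule.span K (Set.range x) with hX
    have hXle : X ≤ A1 := by
      rw [hX, Submodule.span_le]
      rintro _ ⟨i, rfl⟩
      exact hx i
    have hA2 : A2 ≤ (UF ⊔ UG) ⊔ X * X := by
      rw [← c.h2, hUF, hUG, ← Submodule.sup_mul]
      calc A1 * A1 ≤ ((Nul F A1 A3 ⊔ Nul G A1 A3) ⊔ X) * A1 := mul_le_mul' hxle le_rfl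
        _ = (Nul F A1 A3 ⊔ Nul G A1 A3) * A1 ⊔ X * A1 := Submodule.sup_mul _ _ _
        _ ≤ (Nul F A1 A3 ⊔ Nul G A1 A3) * A1 ⊔ X * X := by
          apply sup_le le_sup_left
          calc X * A1 ≤ X * ((Nul F A1 A3 ⊔ Nul G A1 A3) ⊔ X) := mul_le_mul' le_rfl hxle
            _ = X * (Nul F A1 A3 ⊔ Nul G A1 A3) ⊔ X * X := Submodule.mul_sup _ _ _
            _ ≤ _ := by
              apply sup_le _ le_sup_right
              rw [mul_comm]
              exact le_sup_of_le_left (mul_le_mul' le_rfl hXle)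
    have h1 := Submodule.finrank_mono hA2
    have h2 := Submodule.finrank_add_le_finrank_add_finrank (UF ⊔ UG) (X * X)
    have h3 := finrank_span_mul_le (K := K) x
    rw [← hX] at h3
    rw [d2] at h1
    omega
  omega

end Ctx

end Helper33.IP
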