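import Pool.Agent.Helper33.IPDefs
import Pool.Agent.Helper33.IP2

/-!
Helper file for `MP_dec849_al`: transfer of the nonexistence result to polynomial rings.
-/

namespace Helper33.IP

open MvPolynomial Module

universe u

variable {K : Type u} [Field K] {r : ℕ}

theorem mem_piece {I : Ideal (MvPolynomial (Fin r) K)} {d : ℕ} {a : MvPolynomial (Fin r) K ⧸ I} :
    a ∈ piece I d ↔ ∃ p : MvPolynomial (Fin r) K, p.IsHomogeneous d ∧
      Ideal.Quotient.mk I p = a := by
  unfold piece
  rw [Submodule.mem_map]
  rfl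

instance piece_finite (I : Ideal (MvPolynomial (Fin r) K)) (d : ℕ) :
    FiniteDimensional K (piece I d) := by
  have : FiniteDimensional K (homogeneousSubmodule (Fin r) K d) :=
    Module.Finite.iff_fg.2 (homogeneousSubmodule_fg (Fin r) K d)
  unfold piece
  infer_instance

theorem piece_mul (I : Ideal (MvPolynomial (Fin r) K)) (d : ℕ) :
    piece I 1 * piece I d = piece I (d + 1) := by
  unfold piece
  rw [← Submodule.map_mul]
  congr 1
  have h1 := homogeneousSubmodule_one_pow (σ := Fin r) (R := K) d
  have h2 := homogeneousSubmodule_one_pow (σ := Fin r) (R := K) (d + 1)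
  rw [← h1, ← h2, pow_succ']

theorem piece_disjoint {I : Ideal (MvPolynomial (Fin r) K)} (hI : IsHomogeneousIdeal I) {d e : ℕ}
    (hde : d ≠ e) {a : MvPolynomial (Fin r) K ⧸ I} (h1 : a ∈ piece I d) (h2 : a ∈ piece I e) :
    a = 0 := by
  obtain ⟨p, hp, rfl⟩ := mem_piece.1 h1
  obtain ⟨q, hq, hpq⟩ := mem_piece.1 h2
  have h3 : p - q ∈ I := by
    rw [← Ideal.Quotient.eq]; exact hpq.symm
  have h4 := hI _ h3 d
  rw [map_sub, homogeneousComponent_of_mem hp, homogeneousComponent_of_mem hq, if_pos rfl,
    if_neg hde, sub_zero] at h4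
  exact Ideal.Quotient.eq_zero_iff_mem.2 h4

theorem mem_iSup_piece (I : Ideal (MvPolynomial (Fin r) K)) (a : MvPolynomial (Fin r) K ⧸ I) :
    ∃ (N : ℕ) (b : ℕ → MvPolynomial (Fin r) K ⧸ I), (∀ d, b d ∈ piece I d) ∧
      a = ∑ d ∈ Finset.range N, b d := by
  obtain ⟨p, rfl⟩ := Ideal.Quotient.mk_surjective a
  refine ⟨p.totalDegree + 1, fun d => Ideal.Quotient.mk I (homogeneousComponent d p),
    fun d => mem_piece.2 ⟨_, homogeneousComponent_isHomogeneous d p, rfl⟩, ?_⟩
  rw [← map_sum, sum_homogeneousComponent]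

theorem not_level {h : ℕ → ℕ} (h1 : h 1 = 15) (h2 : h 2 = 17) (h3 : h 3 = 12) (h4 : h 4 = 2)
    (h5 : h 5 = 0) : h ∉ levelHVectors K := by
  rintro ⟨r, I, hI, hh⟩
  set A := MvPolynomial (Fin r) K ⧸ I with hA
  have d1 : finrank K (piece I 1) = 15 := by rw [← h1, hh]; rfl
  have d2 : finrank K (piece I 2) = 17 := by rw [← h2, hh]; rfl
  have d3 : finrank K (piece I 3) = 12 := by rw [← h3, hh]; rfl
  have d4 : finrank K (piece I 4) = 2 := by rw [← h4, hh]; rfl
  have d5 : finrank K (piece I 5) = 0 := by rw [← h5, hh]; rfl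
  have p5 : piece I 5 = ⊥ := by
    rwa [Submodule.finrank_eq_zero] at d5
  have p5' : ∀ k, piece I (5 + k) = ⊥ := by
    intro k
    induction k with
    | zero => exact p5
    | succ k ih =>
      rw [← add_assoc, ← piece_mul, ih, Submodule.mul_bot]
  -- `A` is finite dimensional
  have hfin : FiniteDimensional K A := by
    have htop : (⊤ : Submodule K A) = (Finset.range 5).sup (piece I) := by
      symm
      rw [eq_top_iff]
      rintro a -
      obtain ⟨N, b, hb, rfl⟩ := mem_iSup_piece I a
      apply Submodule.sum_mem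
      intro d _
      by_cases hd : d < 5
      · exact (Finset.le_sup (f := piece I) (Finset.mem_range.2 hd)) (hb d)
      · have := hb d
        have hd' : d = 5 + (d - 5) := by omega
        rw [hd', p5', Submodule.mem_bot] at this
        rw [hd', this]
        exact Submodule.zero_mem _
    have : FiniteDimensional K (⊤ : Submodule K A) := by
      rw [htop]
      infer_instance
    exact Module.finite_def.2 (Module.Finite.iff_fg.1 this)
  obtain ⟨e, he⟩ := hI.level
  have hX : ∀ j, Ideal.Quotient.mk I (X j) ∈ piece I 1 := fun j =>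
    mem_piece.2 ⟨_, isHomogeneous_X K j, rfl⟩
  -- the socle degree is four
  have he4 : e = 4 := by
    by_contra hne
    have : piece I 4 = ⊥ := by
      rw [eq_bot_iff]
      intro a ha
      rw [Submodule.mem_bot]
      apply piece_disjoint hI.homogeneous (Ne.symm hne) ha
      apply he
      intro j
      have : Ideal.Quotient.mk I (X j) * a ∈ piece I 1 * piece I 4 :=
        Submodule.mul_mem_mul (hX j) ha
      rw [piece_mul, p5, Submodule.mem_bot] at this
      rw [mul_comm]; exact this
    rw [this, finrank_bot] at d4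
    omega
  rw [he4] at he
  have hnd : ∀ d, d ≠ 4 → ∀ z ∈ piece I d, (∀ x ∈ piece I 1, x * z = 0) → z = 0 := by
    intro d hd z hz hx
    apply piece_disjoint hI.homogeneous hd hz
    apply he
    intro j
    rw [mul_comm]
    exact hx _ (hX j)
  -- two functionals separating the elements of `A_4`
  have hbf : finrank K (piece I 4) = 2 := d4
  let b : Basis (Fin 2) K (piece I 4) := Module.finBasisOfFinrankEq K (piece I 4) hbf
  obtain ⟨F, hF⟩ := LinearMap.exists_extend (b.coord 0)
  obtain ⟨G, hG⟩ := LinearMap.exists_extend (b.coord 1)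
  have hF' : ∀ z : piece I 4, F z = b.coord 0 z := fun z => LinearMap.congr_fun hF z
  have hG' : ∀ z : piece I 4, G z = b.coord 1 z := fun z => LinearMap.congr_fun hG z
  have c : Ctx (piece I 1) (piece I 2) (piece I 3) (piece I 4) F G := by
    refine ⟨piece_mul I 1, piece_mul I 2, piece_mul I 3, hnd 1 (by norm_num), hnd 2 (by norm_num),
      hnd 3 (by norm_num), ?_⟩
    intro z hz h0 h1
    have e0 : b.coord 0 ⟨z, hz⟩ = 0 := by rw [← hF']; exact h0
    have e1 : b.coord 1 ⟨z, hz⟩ = 0 := by rw [← hG']; exact h1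
    have : (⟨z, hz⟩ : piece I 4) = 0 := by
      apply (b.forall_coord_eq_zero_iff).1
      intro i
      fin_cases i
      · exact e0
      · exact e1
    exact congrArg Subtype.val this
  exact c.not17 d1 d2 d3

end Helper33.IP
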