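import Pool.Agent.Helper33.IPDefs

/-!
Helper file for `MP_dec849_al`: level algebras from commuting partial actions of the variables on
a finite set.
-/

namespace Helper33.IP

open MvPolynomial Module

universe u

/-- Commuting partial actions of `n` variables on a finite graded set. -/
structure ActData (n : ℕ) (ι : Type) (e : ℕ) where
  act : Fin n → ι → Option ι
  deg : ι → ℕ
  s0 : ι
  hcomm : ∀ i j s, (act i s).bind (act j) = (act j s).bind (act i)
  hdeg : ∀ i s s', act i s = some s' → deg s' = deg s + 1
  hdeg0 : deg s0 = 0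
  hcyc : ∀ s, s ≠ s0 → ∃ i s', act i s' = some s
  hlev : ∀ s, deg s ≠ e → ∃ i s', act i s = some s' ∧ ∀ s'', act i s'' = some s' → s'' = s

namespace ActData

variable {n : ℕ} {ι : Type} {e : ℕ} (D : ActData n ι e)

instance : LeftCommutative (fun (i : Fin n) (o : Option ι) => o.bind (D.act i)) := by
  constructor
  intro i j o
  cases o with
  | none => rfl
  | some s => exact D.hcomm j i s

/-- the result of applying a monomial to `s0` -/
def θ (m : Multiset (Fin n)) : Option ι :=
  Multiset.foldr (fun (i : Fin n) (o : Option ι) => o.bind (D.act i)) (some D.s0) m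

@[simp] theorem θ_zero : D.θ 0 = some D.s0 := rfl

@[simp] theorem θ_cons (i : Fin n) (m : Multiset (Fin n)) :
    D.θ (i ::ₘ m) = (D.θ m).bind (D.act i) := by
  unfold θ
  rw [Multiset.foldr_cons]

theorem θ_deg (m : Multiset (Fin n)) : ∀ s, D.θ m = some s → D.deg s = Multiset.card m := by
  induction m using Multiset.induction_on with
  | empty =>
    intro s hs
    rw [θ_zero, Option.some_inj] at hs
    rw [← hs, D.hdeg0]; rfl
  | cons i m ih =>
    intro s hs
    rw [θ_cons] at hs
    obtain ⟨s', h1, h2⟩ := Option.bind_eq_some_iff.1 hs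
    rw [D.hdeg i s' s h2, ih s' h1, Multiset.card_cons]

theorem θ_surj (k : ℕ) : ∀ s, D.deg s = k → ∃ m, D.θ m = some s := by
  induction k with
  | zero =>
    intro s hs
    by_cases h : s = D.s0
    · exact ⟨0, by rw [h]; rfl⟩
    · obtain ⟨i, s', h'⟩ := D.hcyc s h
      have := D.hdeg i s' s h'
      omega
  | succ k ih =>
    intro s hs
    by_cases h : s = D.s0
    · exact ⟨0, by rw [h]; rfl⟩
    · obtain ⟨i, s', h'⟩ := D.hcyc s h
      have := D.hdeg i s' s h'
      obtain ⟨m, hm⟩ := ih s' (by omega)
      exact ⟨i ::ₘ m, by rw [θ_cons, hm]; exact h'⟩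

section linear

set_option linter.unusedSectionVars false

variable (K : Type u) [Field K] [Fintype ι] [DecidableEq ι]

/-- the vector of an optional index -/
def vec (o : Option ι) : ι → K := fun s => if o = some s then 1 else 0

/-- the operator of a variable -/
def T (i : Fin n) : (ι → K) →ₗ[K] (ι → K) where
  toFun v := fun s' => ∑ s, if D.act i s = some s' then v s else 0
  map_add' v w := by
    funext s'
    simp only [Pi.add_apply]
    rw [← Finset.sum_add_distrib]
    apply Finset.sum_congr rfl
    intro s _
    split_ifs <;> simp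
  map_smul' a v := by
    funext s'
    simp only [Pi.smul_apply, smul_eq_mul, RingHom.id_apply]
    rw [Finset.mul_sum]
    apply Finset.sum_congr rfl
    intro s _
    split_ifs <;> simp

theorem T_apply (i : Fin n) (v : ι → K) (s' : ι) :
    D.T K i v s' = ∑ s, if D.act i s = some s' then v s else 0 := rfl

theorem T_vec (i : Fin n) (o : Option ι) : D.T K i (vec K o) = vec K (o.bind (D.act i)) := by
  funext s'
  rw [T_apply]
  cases o with
  | none => simp [vec]
  | some t =>
    simp only [vec, Option.some_inj, Option.bind_some]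
    rw [Finset.sum_eq_single t]
    · simp
    · intro s _ hs
      simp [Ne.symm hs]
    · simp

/-- the projection to the degree `d` part -/
def pr (d : ℕ) : (ι → K) →ₗ[K] (ι → K) where
  toFun v := fun s => if D.deg s = d then v s else 0
  map_add' v w := by
    funext s
    simp only [Pi.add_apply]
    split_ifs <;> simp
  map_smul' a v := by
    funext s
    simp only [Pi.smul_apply, smul_eq_mul, RingHom.id_apply]
    split_ifs <;> simp

theorem pr_apply (d : ℕ) (v : ι → K) (s : ι) :
    D.pr K d v s = if D.deg s = d then v s else 0 := rfl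

/-- applying a polynomial to the cyclic vector -/
noncomputable def Φ : MvPolynomial (Fin n) K →ₗ[K] (ι → K) :=
  (basisMonomials (Fin n) K).constr K (fun u => vec K (D.θ (Finsupp.toMultiset u)))

theorem Φ_monomial (u : Fin n →₀ ℕ) :
    D.Φ K (monomial u 1) = vec K (D.θ (Finsupp.toMultiset u)) := by
  have := (basisMonomials (Fin n) K).constr_basis K
    (fun u => vec K (D.θ (Finsupp.toMultiset u))) u
  simpa [Φ] using this

theorem Φ_X_mul (i : Fin n) (p : MvPolynomial (Fin n) K) :
    D.Φ K (X i * p) = D.T K i (D.Φ K p) := by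
  have key : (D.Φ K) ∘ₗ (LinearMap.mulLeft K (X i)) = (D.T K i) ∘ₗ (D.Φ K) := by
    apply (basisMonomials (Fin n) K).ext
    intro u
    simp only [coe_basisMonomials, LinearMap.comp_apply, LinearMap.mulLeft_apply]
    rw [X, monomial_mul, one_mul, Φ_monomial, Φ_monomial, T_vec]
    congr 1
    rw [map_add, Finsupp.toMultiset_single, one_nsmul, Multiset.singleton_add, θ_cons]
  exact LinearMap.congr_fun key p

theorem Φ_hc (d : ℕ) (p : MvPolynomial (Fin n) K) :
    D.Φ K (homogeneousComponent d p) = D.pr K d (D.Φ K p) := by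
  have key : (D.Φ K) ∘ₗ (homogeneousComponent d) = (D.pr K d) ∘ₗ (D.Φ K) := by
    apply (basisMonomials (Fin n) K).ext
    intro u
    simp only [coe_basisMonomials, LinearMap.comp_apply]
    have hu : (monomial u (1 : K)).IsHomogeneous u.degree := isHomogeneous_monomial 1 rfl
    rw [homogeneousComponent_of_mem hu]
    funext s
    rw [Φ_monomial, pr_apply]
    have hcard : Multiset.card (Finsupp.toMultiset u) = u.degree := by
      rw [Finsupp.card_toMultiset]; rfl
    by_cases hs : D.θ (Finsupp.toMultiset u) = some s
    · have hd := D.θ_deg _ s hs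
      rw [hcard] at hd
      by_cases h : d = u.degree
      · rw [if_pos h, if_pos (by rw [hd, h]), Φ_monomial]
      · rw [if_neg h, if_neg (by rw [hd]; exact Ne.symm h)]
        simp
    · have h0 : vec K (D.θ (Finsupp.toMultiset u)) s = 0 := by simp [vec, hs]
      rw [h0, ite_self]
      by_cases h : d = u.degree
      · rw [if_pos h, Φ_monomial, h0]
      · rw [if_neg h, map_zero]; rfl
  exact LinearMap.congr_fun key p

/-- the ideal of relations -/
noncomputable def ideal : Ideal (MvPolynomial (Fin n) K) where
  carrier := {p | D.Φ K p = 0}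
  add_mem' {p q} hp hq := by
    have hp' : D.Φ K p = 0 := hp
    have hq' : D.Φ K q = 0 := hq
    show D.Φ K (p + q) = 0
    rw [map_add, hp', hq', add_zero]
  zero_mem' := by
    show D.Φ K 0 = 0
    rw [map_zero]
  smul_mem' c p hp := by
    have hp' : D.Φ K p = 0 := hp
    show D.Φ K (c * p) = 0
    induction c using MvPolynomial.induction_on with
    | C a => rw [← smul_eq_C_mul, map_smul, hp', smul_zero]
    | add a b ha hb => rw [add_mul, map_add, ha, hb, add_zero]
    | mul_X q i hq =>
      have : q * X i * p = X i * (q * p) := by ring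
      rw [this, Φ_X_mul, hq, map_zero]

theorem mem_ideal {p : MvPolynomial (Fin n) K} : p ∈ D.ideal K ↔ D.Φ K p = 0 := Iff.rfl

theorem ideal_homogeneous : IsHomogeneousIdeal (D.ideal K) := by
  intro p hp d
  rw [mem_ideal] at hp ⊢
  rw [Φ_hc, hp, map_zero]

theorem ideal_ne_top : D.ideal K ≠ ⊤ := by
  intro h
  have : (1 : MvPolynomial (Fin n) K) ∈ D.ideal K := by rw [h]; trivial
  rw [mem_ideal] at this
  have h1 : (1 : MvPolynomial (Fin n) K) = monomial 0 1 := rfl
  rw [h1, Φ_monomial, Finsupp.toMultiset_zero, θ_zero] at this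
  have := congrFun this D.s0
  simp [vec] at this

theorem ker_mk : LinearMap.ker (Ideal.Quotient.mkₐ K (D.ideal K)).toLinearMap =
    LinearMap.ker (D.Φ K) := by
  ext p
  rw [LinearMap.mem_ker, LinearMap.mem_ker]
  show Ideal.Quotient.mk (D.ideal K) p = 0 ↔ _
  rw [Ideal.Quotient.eq_zero_iff_mem, mem_ideal]

theorem finrank_map_eq {M N P : Type*} [AddCommGroup M] [Module K M] [AddCommGroup N] [Module K N]
    [AddCommGroup P] [Module K P] (f : M →ₗ[K] N) (g : M →ₗ[K] P)
    (h : LinearMap.ker f = LinearMap.ker g) (S : Submodule K M) :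
    finrank K (S.map f) = finrank K (S.map g) := by
  have e1 : S.map f = LinearMap.range (f.domRestrict S) := by
    ext x; simp
  have e2 : S.map g = LinearMap.range (g.domRestrict S) := by
    ext x; simp
  have e3 : LinearMap.ker (f.domRestrict S) = LinearMap.ker (g.domRestrict S) := by
    ext x
    have := SetLike.ext_iff.1 h (x : M)
    rw [LinearMap.mem_ker, LinearMap.mem_ker] at this
    rw [LinearMap.mem_ker, LinearMap.mem_ker]
    exact this
  rw [e1, e2, ← (LinearMap.quotKerEquivRange (f.domRestrict S)).finrank_eq,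
    ← (LinearMap.quotKerEquivRange (g.domRestrict S)).finrank_eq, e3]

theorem artinian : IsArtinianRing (MvPolynomial (Fin n) K ⧸ D.ideal K) := by
  let f := (Ideal.Quotient.mkₐ K (D.ideal K)).toLinearMap
  have hf : Function.Surjective f := Ideal.Quotient.mkₐ_surjective K _
  let e : (MvPolynomial (Fin n) K ⧸ D.ideal K) ≃ₗ[K] LinearMap.range (D.Φ K) :=
    (f.quotKerEquivOfSurjective hf).symm.trans
      ((Submodule.quotEquivOfEq _ _ (D.ker_mk K)).trans (D.Φ K).quotKerEquivRange)
  have : FiniteDimensional K (MvPolynomial (Fin n) K ⧸ D.ideal K) :=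
    Module.Finite.equiv e.symm
  exact IsArtinianRing.of_finite K _

theorem map_Φ (d : ℕ) : (homogeneousSubmodule (Fin n) K d).map (D.Φ K) =
    Submodule.span K (Set.range (fun s : {s // D.deg s = d} => (Pi.single s.1 1 : ι → K))) := by
  apply le_antisymm
  · rintro _ ⟨p, hp, rfl⟩
    rw [SetLike.mem_coe, mem_homogeneousSubmodule] at hp
    rw [p.as_sum, map_sum]
    apply Submodule.sum_mem
    intro u hu
    have hdeg : u.degree = d := by
      by_contra hne
      exact (mem_support_iff.1 hu) (hp.coeff_eq_zero hne)
    have e : monomial u (coeff u p) = (coeff u p) • monomial u (1 : K) := by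
      rw [smul_monomial, smul_eq_mul, mul_one]
    rw [e, map_smul, Φ_monomial]
    apply Submodule.smul_mem
    cases h : D.θ (Finsupp.toMultiset u) with
    | none =>
      have : vec K (none : Option ι) = 0 := by
        funext s; simp [vec]
      rw [this]
      exact Submodule.zero_mem _
    | some s =>
      have hs := D.θ_deg _ s h
      rw [Finsupp.card_toMultiset] at hs
      apply Submodule.subset_span
      refine ⟨⟨s, by rw [hs]; exact hdeg⟩, ?_⟩
      funext t
      by_cases ht : t = s
      · subst ht; simp [vec]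
      · simp [vec, ht, Ne.symm ht]
  · rw [Submodule.span_le]
    rintro _ ⟨⟨s, hs⟩, rfl⟩
    obtain ⟨m, hm⟩ := D.θ_surj _ s rfl
    refine ⟨monomial (Multiset.toFinsupp m) 1, ?_, ?_⟩
    · rw [SetLike.mem_coe, mem_homogeneousSubmodule]
      apply isHomogeneous_monomial
      have h1 := D.θ_deg _ s hm
      have h2 := Finsupp.card_toMultiset (Multiset.toFinsupp m)
      rw [Multiset.toFinsupp_toMultiset] at h2
      rw [← hs, h1, h2]; rfl
    · rw [Φ_monomial, Multiset.toFinsupp_toMultiset, hm]
      funext t
      by_cases ht : t = s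
      · subst ht; simp [vec]
      · simp [vec, ht, Ne.symm ht]

theorem hVector_eq (d : ℕ) :
    hVector (D.ideal K) d = Fintype.card {s // D.deg s = d} := by
  unfold hVector piece
  rw [finrank_map_eq K _ _ (D.ker_mk K), map_Φ]
  apply finrank_span_eq_card
  have := (Pi.basisFun K ι).linearIndependent.comp (Subtype.val : {s // D.deg s = d} → ι)
    Subtype.val_injective
  convert this using 2
  simp

theorem isLevel : IsLevel (D.ideal K) := by
  refine ⟨D.ideal_homogeneous K, D.ideal_ne_top K, D.artinian K, e, ?_⟩
  intro a ha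
  obtain ⟨p, rfl⟩ := Ideal.Quotient.mk_surjective a
  have hT : ∀ j, D.T K j (D.Φ K p) = 0 := by
    intro j
    have := ha j
    rw [← map_mul, Ideal.Quotient.eq_zero_iff_mem, mul_comm, mem_ideal, Φ_X_mul] at this
    exact this
  have hv : D.pr K e (D.Φ K p) = D.Φ K p := by
    funext s
    rw [pr_apply]
    by_cases hs : D.deg s = e
    · rw [if_pos hs]
    · rw [if_neg hs]
      obtain ⟨i, s', h1, h2⟩ := D.hlev s hs
      have h3 := congrFun (hT i) s'
      rw [T_apply, Finset.sum_eq_single s] at h3
      · rw [if_pos h1] at h3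
        exact h3.symm
      · intro t _ ht
        rw [if_neg]
        intro h4
        exact ht (h2 t h4)
      · simp
  have hmem : p - homogeneousComponent e p ∈ D.ideal K := by
    rw [mem_ideal, map_sub, Φ_hc, hv, sub_self]
  have heq : Ideal.Quotient.mk (D.ideal K) p =
      Ideal.Quotient.mk (D.ideal K) (homogeneousComponent e p) := Ideal.Quotient.eq.2 hmem
  rw [heq]
  exact ⟨_, homogeneousComponent_isHomogeneous e p, rfl⟩

end linear

end ActData

end Helper33.IP
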