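import Mathlib

/-!
Definitions for `MP_dec849_al`: `h`-vectors of artinian level algebras and the Interval Property.
-/

namespace Helper33.IP

open MvPolynomial

universe u

variable {K : Type u} [Field K] {r : ℕ}

/-- The degree `d` piece of `A = R/I`, where `R = K[x_1, ..., x_r]`: the image of the space of
homogeneous polynomials of degree `d`. -/
noncomputable def piece (I : Ideal (MvPolynomial (Fin r) K)) (d : ℕ) :
    Submodule K (MvPolynomial (Fin r) K ⧸ I) :=
  (homogeneousSubmodule (Fin r) K d).map (Ideal.Quotient.mkₐ K I).toLinearMap

/-- The `h`-vector (Hilbert function) of `R/I`, as an infinite sequence. -/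
noncomputable def hVector (I : Ideal (MvPolynomial (Fin r) K)) (d : ℕ) : ℕ :=
  Module.finrank K (piece I d)

/-- Homogeneous ideal: it contains the homogeneous components of its elements. -/
def IsHomogeneousIdeal (I : Ideal (MvPolynomial (Fin r) K)) : Prop :=
  ∀ p ∈ I, ∀ d, homogeneousComponent d p ∈ I

/-- The socle of `R/I`: the elements annihilated by all variables. -/
def socle (I : Ideal (MvPolynomial (Fin r) K)) : Set (MvPolynomial (Fin r) K ⧸ I) :=
  {a | ∀ j, a * Ideal.Quotient.mk I (X j) = 0}

/-- `R/I` is a (nonzero) standard graded artinian level algebra: `I` is homogeneous and proper,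
`R/I` is artinian and its socle is concentrated in a single degree `e`. -/
structure IsLevel (I : Ideal (MvPolynomial (Fin r) K)) : Prop where
  homogeneous : IsHomogeneousIdeal I
  ne_top : I ≠ ⊤
  artinian : IsArtinianRing (MvPolynomial (Fin r) K ⧸ I)
  level : ∃ e, ∀ a ∈ socle I, a ∈ piece I e

/-- The set `𝓛` of the `h`-vectors of artinian level `K`-algebras, in any number of variables. -/
def levelHVectors (K : Type u) [Field K] : Set (ℕ → ℕ) :=
  {h | ∃ (r : ℕ) (I : Ideal (MvPolynomial (Fin r) K)), IsLevel I ∧ ∀ d, h d = hVector I d}

/-- The Interval Property: whenever two members of `S` differ only in position `i`, the values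
being `h i` and `h i + α` with `α > 0`, all sequences in between belong to `S`. -/
def IntervalProperty (S : Set (ℕ → ℕ)) : Prop :=
  ∀ h ∈ S, ∀ i α : ℕ, 0 < α → Function.update h i (h i + α) ∈ S →
    ∀ β, 1 ≤ β → β < α → Function.update h i (h i + β) ∈ S

end Helper33.IP
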