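import Pool.Agent.Helper75.KT.PsiM
import Pool.Agent.Helper77.KTProd
import Pool.Agent.Helper90.KTS4

/-!
# The map `beta` and positivity (F5 for `MP_0ce5f1_an`)

`m + k b ↦ m + k ([L] - 1)` is a positive additive map `K_0 (C(S⁴)) → K_0 (C(XX))`.
-/

set_option linter.unusedSectionVars false

namespace Pool.Agent.Helper75.KT

open Matrix Filter Topology CPd
open scoped Kronecker ComplexOrder Matrix.Norms.L2Operator

namespace F5

theorem LL_eq : kcl LL
    = pb (⟨fun x => x none, continuous_apply none⟩ : C(JJ → CPd 2, CPd 2)) (kcl (taut 2)) :=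
  (pb_kcl _ taut_pr).symm

theorem LL_sq : (kcl LL - 1) ^ 2 = 0 := by
  have h := Yc_sq JJ none
  unfold Yc at h
  rw [← LL_eq] at h
  linear_combination h

/-- the dual of the line bundle `LL` -/
noncomputable def LB : Matrix (Fin 2) (Fin 2) C(XX, ℂ) :=
  (tautB 2).map (pbA (⟨fun x => x none, continuous_apply _⟩ : C(XX, CPd 2)))

theorem LB_pr : IsPr LB := tautB_pr.map _

theorem LB_eq : kcl LB = 1 - (kcl LL - 1) := by
  have h1 : kcl LB = pb (⟨fun x => x none, continuous_apply none⟩ : C(JJ → CPd 2, CPd 2))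
      (kcl (tautB 2)) := (pb_kcl _ tautB_pr).symm
  have h2 : kcl LL * kcl LB = 1 := by
    rw [LL_eq, h1, ← map_mul, taut_mul_tautB, map_one]
  linear_combination (-(kcl LL - 2)) * h2 + kcl LB * LL_sq

theorem exists_pow {X : Type*} [TopologicalSpace X] {n : ℕ}
    {q : Matrix (Fin n) (Fin n) C(X, ℂ)} (hq : IsPr q) (k : ℕ) :
    ∃ (n' : ℕ) (p' : Matrix (Fin n') (Fin n') C(X, ℂ)), IsPr p' ∧ kcl p' = kcl q ^ k := by
  induction k with
  | zero => exact ⟨1, 1, IsPr.one, by rw [pow_zero, one_eq_kcl]⟩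
  | succ k ih =>
    obtain ⟨n', p', hp', h⟩ := ih
    refine ⟨n' * n, (p' ⊗ₖ q).submatrix finProdFinEquiv.symm finProdFinEquiv.symm,
      (hp'.kron hq).submatrix _, ?_⟩
    rw [kcl_submatrix (hp'.kron hq), kcl_kron hp' hq, h, pow_succ]

theorem exists_nat_add {X : Type*} [TopologicalSpace X] {n : ℕ}
    {q : Matrix (Fin n) (Fin n) C(X, ℂ)} (hq : IsPr q) (r : ℕ) :
    ∃ (n' : ℕ) (p' : Matrix (Fin n') (Fin n') C(X, ℂ)), IsPr p' ∧ kcl p' = r + kcl q := by
  have h1 : IsPr (1 : Matrix (Fin r) (Fin r) C(X, ℂ)) := IsPr.one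
  refine ⟨r + n, (Matrix.fromBlocks 1 0 0 q).submatrix finSumFinEquiv.symm finSumFinEquiv.symm,
    (h1.fromBlocks hq).submatrix _, ?_⟩
  rw [kcl_submatrix (h1.fromBlocks hq), kcl_fromBlocks h1 hq, kcl_one, Fintype.card_fin]

theorem pow_eq {R : Type*} [CommRing R] (x : R) (hx : x ^ 2 = 0) (k : ℕ) :
    (1 + x) ^ k = 1 + k * x := by
  induction k with
  | zero => simp
  | succ k ih =>
    rw [pow_succ, ih]
    push_cast
    linear_combination (k : R) * hx

/-- `r + k ([L] - 1)` is the class of a projection for `r ≥ 1`. -/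
theorem exists_pr (r : ℕ) (k : ℤ) :
    ∃ (n' : ℕ) (p' : Matrix (Fin n') (Fin n') C(XX, ℂ)), IsPr p' ∧
      kcl p' = r + (1 + k * (kcl LL - 1)) := by
  rcases Int.eq_nat_or_neg k with ⟨j, rfl | rfl⟩
  · obtain ⟨n, q, hq, h⟩ := exists_pow LL_pr j
    obtain ⟨n', p', hp', h'⟩ := exists_nat_add hq r
    refine ⟨n', p', hp', ?_⟩
    have h3 := pow_eq (kcl LL - 1) LL_sq j
    rw [h', h]
    have h4 : (1 + (kcl LL - 1)) = kcl LL := by ring
    rw [h4] at h3
    rw [h3]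
    push_cast
    ring
  · obtain ⟨n, q, hq, h⟩ := exists_pow LB_pr j
    obtain ⟨n', p', hp', h'⟩ := exists_nat_add hq r
    refine ⟨n', p', hp', ?_⟩
    have h3 := pow_eq (-(kcl LL - 1)) (by have := LL_sq; linear_combination this) j
    rw [h', h]
    have h4 : (1 + -(kcl LL - 1)) = kcl LB := by rw [LB_eq]; ring
    rw [h4] at h3
    rw [h3]
    push_cast
    ring

theorem span_rank (hq : QuantStmt) {n : ℕ} {p : Matrix (Fin n) (Fin n) C(S4, ℂ)} (hp : IsPr p) :
    ∃ (r : ℕ) (k : ℤ), kcl p = (r : K0 C(S4, ℂ)) + k * (kcl pB - 2) ∧ (r = 0 → p = 0) := by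
  obtain ⟨m, k, h⟩ := K0_S4_span_kcl hq hp
  have htr : ∀ s : S4, (evM s p).trace = m := by
    intro s
    rw [← rk_kcl s p hp, h, map_add, map_mul, map_intCast, map_intCast, map_sub, map_ofNat,
      rk_kcl _ _ pB_pr, pB_trace, sub_self, mul_zero, add_zero]
  obtain ⟨r, _, hr⟩ := pr_eqv_one (evM pt4 p) (hp.evM pt4)
  have hm : m = r := by
    have := htr pt4
    rw [hr] at this
    exact_mod_cast this.symm
  subst hm
  refine ⟨r, k, by rw [h]; push_cast; rfl, ?_⟩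
  intro hr0
  subst hr0
  ext i j s
  obtain ⟨r', ⟨v, h1, h2, _⟩, h3⟩ := pr_eqv_one (evM s p) (hp.evM s)
  have h4 := htr s
  rw [h3] at h4
  have h5 : r' = 0 := by exact_mod_cast h4
  subst h5
  have h6 : evM s p = 0 := by
    rw [← h1]
    ext a b
    rw [Matrix.mul_apply]
    simp
  have := congrFun (congrFun h6 i) j
  exact this

end F5

open F5 in
theorem exists_beta (hq : QuantStmt) : ∃ β : K0 C(S4, ℂ) →+ K0 C(XX, ℂ),
    (∀ m k : ℤ, β ((m : K0 C(S4, ℂ)) + k * (kcl pB - 2)) = (m : K0 C(XX, ℂ)) + k * (kcl LL - 1)) ∧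
    ∀ (n : ℕ) (p : Matrix (Fin n) (Fin n) C(S4, ℂ)), IsPr p →
      ∃ (n' : ℕ) (p' : Matrix (Fin n') (Fin n') C(XX, ℂ)), IsPr p' ∧ β (kcl p) = kcl p' := by
  choose M K hMK using fun a => K0_S4_span hq a
  have huniq : ∀ (a : K0 C(S4, ℂ)) (m k : ℤ), a = (m : K0 C(S4, ℂ)) + k * (kcl pB - 2) →
      M a = m ∧ K a = k := by
    intro a m k h
    have h1 := K0_S4_indep hq (M a - m) (K a - k) (by
      have := hMK a
      push_cast
      linear_combination h - this)
    exact ⟨by linarith [h1.1], by linarith [h1.2]⟩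
  let β : K0 C(S4, ℂ) →+ K0 C(XX, ℂ) := AddMonoidHom.mk'
    (fun a => (M a : K0 C(XX, ℂ)) + K a * (kcl LL - 1)) (by
      intro a b
      obtain ⟨h1, h2⟩ := huniq (a + b) (M a + M b) (K a + K b) (by
        have ha := hMK a
        have hb := hMK b
        push_cast
        linear_combination ha + hb)
      simp only [h1, h2]
      push_cast
      ring)
  have hβ : ∀ m k : ℤ, β ((m : K0 C(S4, ℂ)) + k * (kcl pB - 2))
      = (m : K0 C(XX, ℂ)) + k * (kcl LL - 1) := by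
    intro m k
    obtain ⟨h1, h2⟩ := huniq _ m k rfl
    change ((M _ : ℤ) : K0 C(XX, ℂ)) + ((K _ : ℤ) : K0 C(XX, ℂ)) * (kcl LL - 1) = _
    rw [h1, h2]
  refine ⟨β, hβ, ?_⟩
  intro n p hp
  obtain ⟨r, k, h, h0⟩ := span_rank hq hp
  rcases Nat.eq_zero_or_pos r with hr | hr
  · have hp0 := h0 hr
    subst hp0
    refine ⟨0, 0, IsPr.zero, ?_⟩
    rw [kcl_zero, kcl_zero, map_zero]
  · obtain ⟨n', p', hp', h'⟩ := exists_pr (r - 1) k
    refine ⟨n', p', hp', ?_⟩
    have h2 := hβ r k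
    rw [Int.cast_natCast, Int.cast_natCast, ← h] at h2
    rw [h2, h', Nat.cast_sub hr]
    push_cast
    ring

end Pool.Agent.Helper75.KT
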