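import Pool.Agent.Helper79.NC.Spec2

/-!
# The radial profile (module M1a of MP_4787eb_gt)
-/

namespace Pool.Agent.Helper33.NCProfile

open scoped ContDiff Topology
open Set Filter Pool.Agent.Helper79.NC

theorem hasDerivAt_inv_pow {f : ℝ → ℝ} {f' ρ : ℝ} (hf : HasDerivAt f f' ρ) (h0 : f ρ ≠ 0) (n : ℕ) :
    HasDerivAt (fun x => ((f x) ^ (n + 1))⁻¹) (-((n + 1 : ℕ) : ℝ) * f' * ((f ρ) ^ (n + 2))⁻¹) ρ := by
  have h := (hf.fun_pow (n + 1)).fun_inv (pow_ne_zero _ h0)
  refine h.congr_deriv ?_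
  rw [Nat.add_sub_cancel]
  field_simp
  ring

/-! ### The profile `R` and its derivatives -/

noncomputable def R1 (N K ρ : ℝ) : ℝ :=
  profR N K ρ * (7 * N * K * 10000 * ((10000 * ρ - 1) ^ 8)⁻¹)

noncomputable def R2 (N K ρ : ℝ) : ℝ :=
  R1 N K ρ * (7 * N * K * 10000 * ((10000 * ρ - 1) ^ 8)⁻¹)
    - profR N K ρ * (56 * N * K * 10000 ^ 2 * ((10000 * ρ - 1) ^ 9)⁻¹)

theorem hasDerivAt_lin (ρ : ℝ) : HasDerivAt (fun ρ : ℝ => 10000 * ρ - 1) 10000 ρ := by
  simpa using ((hasDerivAt_id ρ).const_mul (10000 : ℝ)).sub_const 1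

theorem hasDerivAt_profR (N K : ℝ) {ρ : ℝ} (hρ : 1 / 10000 < ρ) :
    HasDerivAt (profR N K) (R1 N K ρ) ρ := by
  have ht : 0 < 10000 * ρ - 1 := by linarith
  have h2 := (hasDerivAt_inv_pow (hasDerivAt_lin ρ) ht.ne' 6).const_mul K
  have h3 := ((h2.add_const 1).const_mul N).fun_neg.exp
  have h4 : HasDerivAt (profR N K) _ ρ := h3
  convert h4 using 1
  unfold R1 profR
  norm_num
  ring

theorem hasDerivAt_R1 (N K : ℝ) {ρ : ℝ} (hρ : 1 / 10000 < ρ) :
    HasDerivAt (R1 N K) (R2 N K ρ) ρ := by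
  have ht : 0 < 10000 * ρ - 1 := by linarith
  have h2 := (hasDerivAt_inv_pow (hasDerivAt_lin ρ) ht.ne' 7).const_mul (7 * N * K * 10000)
  have h3 := (hasDerivAt_profR N K hρ).mul h2
  have h4 : HasDerivAt (R1 N K) _ ρ := h3
  convert h4 using 1
  unfold R2
  norm_num
  ring

theorem contDiffAt_R1 (N K : ℝ) {ρ : ℝ} (hρ : 1 / 10000 < ρ) :
    ContDiffAt ℝ ∞ (R1 N K) ρ := by
  have ht : 0 < 10000 * ρ - 1 := by linarith
  have ht7 : (10000 * ρ - 1) ^ 7 ≠ 0 := by positivity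
  have ht8 : (10000 * ρ - 1) ^ 8 ≠ 0 := by positivity
  unfold R1 profR
  fun_prop (disch := assumption)

/-! ### The smooth step and the comparison profile -/

noncomputable def stp (ρ : ℝ) : ℝ := Real.smoothTransition ((ρ - 35 / 100000) * 20000)

theorem stp_contDiff : ContDiff ℝ ∞ stp := by
  unfold stp
  exact Real.smoothTransition.contDiff.comp (by fun_prop)

theorem stp_zero {ρ : ℝ} (h : ρ ≤ 35 / 100000) : stp ρ = 0 :=
  Real.smoothTransition.zero_of_nonpos (by nlinarith)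

theorem stp_one {ρ : ℝ} (h : 4 / 10000 ≤ ρ) : stp ρ = 1 :=
  Real.smoothTransition.one_of_one_le (by nlinarith)

theorem stp_nonneg (ρ : ℝ) : 0 ≤ stp ρ := Real.smoothTransition.nonneg _

theorem stp_le_one (ρ : ℝ) : stp ρ ≤ 1 := Real.smoothTransition.le_one _

theorem stp_mono : Monotone stp := by
  intro a b hab
  apply Real.smoothTransition.monotone
  nlinarith

theorem deriv_stp_nonneg (ρ : ℝ) : 0 ≤ deriv stp ρ := stp_mono.deriv_nonneg

noncomputable def hh (ρ : ℝ) : ℝ := 1 / 2 * (1 - (1 + ρ ^ 2)⁻¹)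

noncomputable def hd (ρ : ℝ) : ℝ := ρ * ((1 + ρ ^ 2) ^ 2)⁻¹

noncomputable def hdd (ρ : ℝ) : ℝ := (1 - 3 * ρ ^ 2) * ((1 + ρ ^ 2) ^ 3)⁻¹

theorem hasDerivAt_one_add_sq (ρ : ℝ) : HasDerivAt (fun ρ : ℝ => 1 + ρ ^ 2) (2 * ρ) ρ := by
  simpa using ((hasDerivAt_id ρ).fun_pow 2).const_add 1

theorem hasDerivAt_hh (ρ : ℝ) : HasDerivAt hh (hd ρ) ρ := by
  have hp : 0 < 1 + ρ ^ 2 := by positivity
  have a2 := (((hasDerivAt_one_add_sq ρ).fun_inv hp.ne').const_sub 1).const_mul (1 / 2 : ℝ)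
  have a3 : HasDerivAt hh _ ρ := a2
  convert a3 using 1
  unfold hd
  field_simp

theorem hasDerivAt_hd (ρ : ℝ) : HasDerivAt hd (hdd ρ) ρ := by
  have hp : 0 < 1 + ρ ^ 2 := by positivity
  have a2 := (hasDerivAt_id ρ).mul (hasDerivAt_inv_pow (hasDerivAt_one_add_sq ρ) hp.ne' 1)
  have a3 : HasDerivAt hd _ ρ := a2
  convert a3 using 1
  unfold hdd
  simp only [id]
  norm_num
  field_simp
  ring

theorem hd_contDiff : ContDiff ℝ ∞ hd := by
  unfold hd
  have : ∀ x : ℝ, (1 + x ^ 2) ^ 2 ≠ 0 := fun x => by positivity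
  fun_prop (disch := assumption)

/-! ### The integrand -/

noncomputable def G (N K ρ : ℝ) : ℝ := stp ρ * (hd ρ - R1 N K ρ)

theorem G_zero (N K : ℝ) {ρ : ℝ} (h : ρ ≤ 35 / 100000) : G N K ρ = 0 := by
  unfold G; rw [stp_zero h, zero_mul]

theorem G_contDiff (N K : ℝ) : ContDiff ℝ ∞ (G N K) := by
  rw [contDiff_iff_contDiffAt]
  intro ρ
  rcases lt_or_ge ρ (35 / 100000) with h | h
  · have : G N K =ᶠ[𝓝 ρ] fun _ => 0 := by
      filter_upwards [Iio_mem_nhds h] with x hx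
      exact G_zero N K (le_of_lt hx)
    exact contDiffAt_const.congr_of_eventuallyEq this
  · exact stp_contDiff.contDiffAt.mul (hd_contDiff.contDiffAt.sub (contDiffAt_R1 N K (by linarith)))

noncomputable def Q (N K ρ : ℝ) : ℝ := ∫ x in (0 : ℝ)..ρ, G N K x

theorem hasDerivAt_Q (N K ρ : ℝ) : HasDerivAt (Q N K) (G N K ρ) ρ :=
  intervalIntegral.integral_hasDerivAt_right ((G_contDiff N K).continuous.intervalIntegrable _ _)
    ((G_contDiff N K).continuous.stronglyMeasurableAtFilter _ _)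
    (G_contDiff N K).continuous.continuousAt

theorem Q_contDiff (N K : ℝ) : ContDiff ℝ ∞ (Q N K) := by
  rw [contDiff_infty_iff_deriv]
  refine ⟨fun ρ => (hasDerivAt_Q N K ρ).differentiableAt, ?_⟩
  have : deriv (Q N K) = G N K := by
    funext ρ; exact (hasDerivAt_Q N K ρ).deriv
  rw [this]; exact G_contDiff N K

theorem Q_zero (N K : ℝ) {ρ : ℝ} (h : ρ ≤ 35 / 100000) : Q N K ρ = 0 := by
  unfold Q
  rw [intervalIntegral.integral_congr (g := fun _ => (0 : ℝ))]
  · simp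
  · intro x hx
    apply G_zero
    rcases Set.mem_uIcc.1 hx with hx | hx
    · linarith [hx.2]
    · linarith [hx.2]

/-! ### Estimates -/

theorem profR_pos (N K ρ : ℝ) : 0 < profR N K ρ := Real.exp_pos _

theorem profR_le {N K ρ : ℝ} (hN : 20 ≤ N) (hK : 0 < K) (hρ : 1 / 10000 < ρ) :
    profR N K ρ ≤ 2 / N ^ 2 := by
  have ht : 0 < 10000 * ρ - 1 := by linarith
  have h1 : profR N K ρ ≤ Real.exp (-N) := by
    unfold profR
    apply Real.exp_le_exp.2
    have : 0 ≤ N * (K * ((10000 * ρ - 1) ^ 7)⁻¹) := by positivity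
    linarith
  have h2 : N ^ 2 / 2 ≤ Real.exp N := by
    have := Real.quadratic_le_exp_of_nonneg (x := N) (by linarith)
    linarith
  have h3 : Real.exp (-N) ≤ 2 / N ^ 2 := by
    rw [Real.exp_neg, show (2 : ℝ) / N ^ 2 = (N ^ 2 / 2)⁻¹ by rw [inv_div]]
    exact inv_anti₀ (by positivity) h2
  exact h1.trans h3

theorem R1_nonneg {N K ρ : ℝ} (hN : 20 ≤ N) (hK : 0 < K) (hρ : 1 / 10000 < ρ) :
    0 ≤ R1 N K ρ := by
  have ht : 0 < 10000 * ρ - 1 := by linarith
  have := profR_pos N K ρ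
  unfold R1
  positivity

theorem R1_le {N K ρ : ℝ} (hN : 20 ≤ N) (hK : 0 < K) (hN2 : 8 * K * 10 ^ 8 ≤ N)
    (hρ : 2 / 10000 ≤ ρ) : R1 N K ρ ≤ 175 / 1000000 := by
  have ht : 1 ≤ 10000 * ρ - 1 := by linarith
  have h1 : ((10000 * ρ - 1) ^ 8)⁻¹ ≤ 1 := inv_le_one_of_one_le₀ (one_le_pow₀ ht)
  have h0 : 0 ≤ ((10000 * ρ - 1) ^ 8)⁻¹ := by positivity
  have hN0 : 0 < N := by linarith
  calc R1 N K ρ ≤ 2 / N ^ 2 * (7 * N * K * 10000 * 1) := by
        unfold R1
        apply mul_le_mul (profR_le hN hK (by linarith)) _ (by positivity) (by positivity)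
        apply mul_le_mul_of_nonneg_left h1 (by positivity)
    _ = 140000 * K / N := by field_simp; ring
    _ ≤ 175 / 1000000 := by
        rw [div_le_div_iff₀ hN0 (by norm_num)]
        linarith

theorem hd_ge {ρ : ℝ} (h1 : 35 / 100000 ≤ ρ) (h2 : ρ ≤ 4 / 10000) : 175 / 1000000 ≤ hd ρ := by
  unfold hd
  rw [← div_eq_mul_inv, le_div_iff₀ (by positivity)]
  have : ρ ^ 2 ≤ 1 / 1000 := by nlinarith
  have h3 : (1 + ρ ^ 2) ^ 2 ≤ 2 := by nlinarith [sq_nonneg ρ]
  nlinarith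

theorem hd_nonneg {ρ : ℝ} (h : 0 ≤ ρ) : 0 ≤ hd ρ := by unfold hd; positivity

theorem G_nonneg {N K ρ : ℝ} (hN : 20 ≤ N) (hK : 0 < K) (hN2 : 8 * K * 10 ^ 8 ≤ N)
    (h : ρ ≤ 4 / 10000) : 0 ≤ G N K ρ := by
  rcases le_or_gt ρ (35 / 100000) with h1 | h1
  · rw [G_zero N K h1]
  · have a := R1_le hN hK hN2 (ρ := ρ) (by linarith)
    have b := hd_ge h1.le h
    exact mul_nonneg (stp_nonneg ρ) (by linarith)

theorem G_le {N K ρ : ℝ} (hN : 20 ≤ N) (hK : 0 < K) (h : 0 ≤ ρ) : G N K ρ ≤ hd ρ := by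
  rcases le_or_gt ρ (35 / 100000) with h1 | h1
  · rw [G_zero N K h1]; exact hd_nonneg h
  · have a := R1_nonneg hN hK (ρ := ρ) (by linarith)
    have b := hd_nonneg h
    have c := stp_nonneg ρ
    have d := stp_le_one ρ
    unfold G
    nlinarith

theorem Q_nonneg {N K ρ : ℝ} (hN : 20 ≤ N) (hK : 0 < K) (hN2 : 8 * K * 10 ^ 8 ≤ N)
    (h : ρ ≤ 4 / 10000) : 0 ≤ Q N K ρ := by
  rcases le_or_gt ρ (35 / 100000) with h1 | h1
  · rw [Q_zero N K h1]
  · have hm : MonotoneOn (Q N K) (Iic (4 / 10000)) := by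
      apply monotoneOn_of_deriv_nonneg (convex_Iic _) (Q_contDiff N K).continuous.continuousOn
      · intro x _; exact (hasDerivAt_Q N K x).differentiableAt.differentiableWithinAt
      · intro x hx
        rw [(hasDerivAt_Q N K x).deriv]
        rw [interior_Iic] at hx
        exact G_nonneg hN hK hN2 (le_of_lt hx)
    have := hm (a := 35 / 100000) (b := ρ) (by simp; norm_num) h h1.le
    rwa [Q_zero N K le_rfl] at this

theorem hh_zero : hh 0 = 0 := by simp [hh]

theorem hh_mono : MonotoneOn hh (Ici 0) := by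
  apply monotoneOn_of_deriv_nonneg (convex_Ici _)
  · intro x _; exact (hasDerivAt_hh x).continuousAt.continuousWithinAt
  · intro x _; exact (hasDerivAt_hh x).differentiableAt.differentiableWithinAt
  · intro x hx
    rw [(hasDerivAt_hh x).deriv]
    rw [interior_Ici] at hx
    exact hd_nonneg (le_of_lt hx)

theorem Q_le {N K ρ : ℝ} (hN : 20 ≤ N) (hK : 0 < K) (h : 0 ≤ ρ) : Q N K ρ ≤ hh ρ := by
  have hd' : ∀ x, HasDerivAt (fun x => hh x - Q N K x) (hd x - G N K x) x :=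
    fun x => (hasDerivAt_hh x).sub (hasDerivAt_Q N K x)
  have hm : MonotoneOn (fun x => hh x - Q N K x) (Ici 0) := by
    apply monotoneOn_of_deriv_nonneg (convex_Ici _)
    · intro x _; exact (hd' x).continuousAt.continuousWithinAt
    · intro x _; exact (hd' x).differentiableAt.differentiableWithinAt
    · intro x hx
      rw [(hd' x).deriv]
      rw [interior_Ici] at hx
      have := G_le hN hK (le_of_lt hx)
      linarith
  have := hm (a := 0) (b := ρ) (by simp) h h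
  simp only [hh_zero, Q_zero N K (show (0 : ℝ) ≤ 35 / 100000 by norm_num)] at this
  linarith

/-- The total profile. -/
noncomputable def phi (N K ρ : ℝ) : ℝ := profR N K ρ + Q N K ρ

theorem hasDerivAt_phi (N K : ℝ) {ρ : ℝ} (hρ : 1 / 10000 < ρ) :
    HasDerivAt (phi N K) (R1 N K ρ + G N K ρ) ρ :=
  (hasDerivAt_profR N K hρ).add (hasDerivAt_Q N K ρ)

theorem phi_outer (N K : ℝ) {ρ : ℝ} (hρ : 4 / 10000 ≤ ρ) :
    phi N K ρ - hh ρ = phi N K (4 / 10000) - hh (4 / 10000) := by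
  have hd' : ∀ x, 4 / 10000 ≤ x → HasDerivAt (fun x => phi N K x - hh x) 0 x := by
    intro x hx
    have := (hasDerivAt_phi N K (ρ := x) (by linarith)).sub (hasDerivAt_hh x)
    refine this.congr_deriv ?_
    unfold G
    rw [stp_one hx]
    ring
  refine constant_of_has_deriv_right_zero (f := fun x => phi N K x - hh x) (a := 4 / 10000)
    (b := ρ) ?_ ?_ ρ ⟨hρ, le_rfl⟩
  · intro x hx; exact (hd' x hx.1).continuousAt.continuousWithinAt
  · intro x hx; exact (hd' x hx.1).hasDerivWithinAt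

theorem R2_eq (N K : ℝ) {ρ : ℝ} (hρ : 1 / 10000 < ρ) :
    R2 N K ρ * (10000 * ρ - 1) ^ 8 = R1 N K ρ * 10000 * (7 * N * K - 8 * (10000 * ρ - 1) ^ 7) := by
  have ht : 0 < 10000 * ρ - 1 := by linarith
  unfold R2 R1
  field_simp
  ring

theorem R2_nonneg {N K ρ : ℝ} (hN : 20 ≤ N) (hK : 0 < K) (hNK : 300000 ≤ N * K)
    (h1 : 1 / 10000 < ρ) (h2 : ρ ≤ 4 / 10000) : 0 ≤ R2 N K ρ := by
  have ht : 0 < 10000 * ρ - 1 := by linarith
  have h3 := R2_eq N K h1
  have h4 := R1_nonneg hN hK h1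
  have h5 : (10000 * ρ - 1) ^ 7 ≤ 3 ^ 7 := pow_le_pow_left₀ ht.le (by linarith) 7
  have h6 : 0 ≤ 7 * N * K - 8 * (10000 * ρ - 1) ^ 7 := by nlinarith
  have h7 : 0 ≤ R2 N K ρ * (10000 * ρ - 1) ^ 8 := by rw [h3]; positivity
  exact nonneg_of_mul_nonneg_left h7 (by positivity)

/-- Module M1a. -/
theorem profileExists : ProfileExists := by
  intro K hK
  refine ⟨20 + 300000 / K + 8 * K * 10 ^ 8, by positivity, ?_⟩
  intro N hN'
  have hN : 20 ≤ N := by
    have : 0 < 300000 / K := by positivity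
    nlinarith
  have hN2 : 8 * K * 10 ^ 8 ≤ N := by
    have : 0 < 300000 / K := by positivity
    nlinarith
  have hNK : 300000 ≤ N * K := by
    have h1 : 300000 / K ≤ N := by nlinarith
    rwa [div_le_iff₀ hK] at h1
  have hN0 : 0 < N := by linarith
  have hq : (1 : ℝ) / 10000 < 4 / 10000 := by norm_num
  have hphi_pos : ∀ ρ, 1 / 10000 < ρ → 0 < phi N K ρ := by
    intro ρ hρ
    rcases le_or_gt ρ (4 / 10000) with h | h
    · have := Q_nonneg hN hK hN2 h
      have := profR_pos N K ρ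
      unfold phi; linarith
    · have h1 := phi_outer N K h.le
      have h2 := hh_mono (a := 4 / 10000) (b := ρ) (by simp; norm_num) (by simp; linarith) h.le
      have h3 := Q_nonneg hN hK hN2 (ρ := 4 / 10000) le_rfl
      have h4 := profR_pos N K (4 / 10000)
      have h5 : phi N K (4 / 10000) = profR N K (4 / 10000) + Q N K (4 / 10000) := rfl
      linarith
  have hderiv : ∀ ρ, 1 / 10000 < ρ → deriv (phi N K) ρ = R1 N K ρ + G N K ρ :=
    fun ρ hρ => (hasDerivAt_phi N K hρ).deriv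
  refine ⟨Q N K, 1 + 2 * (phi N K (4 / 10000) - hh (4 / 10000)), Q_contDiff N K,
    fun ρ => Q_zero N K, hphi_pos, ?_, ?_, ?_, ?_, ?_⟩
  · intro ρ hρ
    have h1 := phi_outer N K hρ
    have h2 : phi N K ρ = profR N K ρ + Q N K ρ := rfl
    have h3 : hh ρ = 1 / 2 * (1 - (1 + ρ ^ 2)⁻¹) := rfl
    rw [← h2, ← h1, h3, one_div (1 + ρ ^ 2)]
    ring
  · intro ρ h1 h2
    have a := profR_le hN hK h1
    have b := Q_le hN hK (ρ := ρ) (by linarith)
    have c : (2 : ℝ) / N ^ 2 ≤ 1 / 200 := by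
      rw [div_le_div_iff₀ (by positivity) (by norm_num)]
      nlinarith
    have d : hh ρ ≤ 1 / 200 := by
      unfold hh
      have : (1 : ℝ) - ρ ^ 2 ≤ (1 + ρ ^ 2)⁻¹ := by
        rw [← one_div, le_div_iff₀ (by positivity)]
        nlinarith [sq_nonneg (ρ ^ 2)]
      nlinarith
    linarith
  · have h3 := Q_nonneg hN hK hN2 (ρ := 4 / 10000) le_rfl
    have h4 := profR_pos N K (4 / 10000)
    have h5 : phi N K (4 / 10000) = profR N K (4 / 10000) + Q N K (4 / 10000) := rfl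
    have h6 : hh (4 / 10000) ≤ 1 / 200 := by
      unfold hh; norm_num
    linarith
  · intro ρ h1 h2
    have e1 : deriv (fun r => profR N K r + Q N K r) = deriv (phi N K) := rfl
    rw [e1]
    constructor
    · rw [hderiv ρ (by linarith)]
      have a := R1_nonneg hN hK (ρ := ρ) (by linarith)
      have b := hd_nonneg (ρ := ρ) (by linarith)
      have c := stp_nonneg ρ
      have d := stp_le_one ρ
      unfold G
      nlinarith
    · have hev : deriv (phi N K) =ᶠ[𝓝 ρ] fun x => R1 N K x + stp x * (hd x - R1 N K x) := by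
        filter_upwards [Ioi_mem_nhds (show (1 : ℝ) / 10000 < ρ by linarith)] with x hx
        exact hderiv x hx
      rw [hev.deriv_eq]
      have hs : HasDerivAt stp (deriv stp ρ) ρ :=
        ((stp_contDiff.differentiable (by simp)) ρ).hasDerivAt
      have hr := hasDerivAt_R1 N K (ρ := ρ) (by linarith)
      have hdd' := hasDerivAt_hd ρ
      have hD : HasDerivAt (fun x => R1 N K x + stp x * (hd x - R1 N K x))
          (R2 N K ρ + (deriv stp ρ * (hd ρ - R1 N K ρ) + stp ρ * (hdd ρ - R2 N K ρ))) ρ :=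
        hr.add (hs.mul (hdd'.sub hr))
      rw [hD.deriv]
      have c := stp_nonneg ρ
      have d := stp_le_one ρ
      have hhdd : 0 ≤ hdd ρ := by
        unfold hdd
        have : ρ ^ 2 ≤ 1 / 1000 := by nlinarith
        have h3 : 0 ≤ 1 - 3 * ρ ^ 2 := by linarith
        positivity
      -- the derivative of the step
      have hst : 0 ≤ deriv stp ρ * (hd ρ - R1 N K ρ) := by
        rcases lt_or_ge ρ (35 / 100000) with h3 | h3
        · have : stp =ᶠ[𝓝 ρ] fun _ => 0 := by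
            filter_upwards [Iio_mem_nhds h3] with x hx
            exact stp_zero (le_of_lt hx)
          rw [this.deriv_eq]; simp
        · rcases le_or_gt ρ (4 / 10000) with h4 | h4
          · have a := R1_le hN hK hN2 (ρ := ρ) (by linarith)
            have b := hd_ge h3 h4
            exact mul_nonneg (deriv_stp_nonneg ρ) (by linarith)
          · have : stp =ᶠ[𝓝 ρ] fun _ => 1 := by
              filter_upwards [Ioi_mem_nhds h4] with x hx
              exact stp_one (le_of_lt hx)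
            rw [this.deriv_eq]; simp
      rcases le_or_gt ρ (4 / 10000) with h4 | h4
      · have a := R2_nonneg hN hK hNK (ρ := ρ) (by linarith) h4
        nlinarith
      · rw [stp_one h4.le] at *
        linarith
  · intro ρ h1 h2
    have h1' : 1 / 10000 < ρ := by linarith
    have ht1 : 1 ≤ 10000 * ρ - 1 := by linarith
    have ht2 : 10000 * ρ - 1 ≤ 2 := by linarith
    have hRp := profR_pos N K ρ
    have hR1 : 0 < R1 N K ρ := by unfold R1; positivity
    rw [(hasDerivAt_profR N K h1').deriv]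
    have hdd' : deriv (deriv (profR N K)) ρ = R2 N K ρ := by
      have hev : deriv (profR N K) =ᶠ[𝓝 ρ] R1 N K := by
        filter_upwards [Ioi_mem_nhds h1'] with x hx
        exact (hasDerivAt_profR N K hx).deriv
      rw [hev.deriv_eq, (hasDerivAt_R1 N K h1').deriv]
    rw [hdd']
    refine ⟨hR1, ?_, ?_⟩
    · have h3 := R2_eq N K h1'
      have h5 : (10000 * ρ - 1) ^ 7 ≤ 2 ^ 7 := pow_le_pow_left₀ (by linarith) ht2 7
      have h8 : (10000 * ρ - 1) ^ 8 ≤ 2 ^ 8 := pow_le_pow_left₀ (by linarith) ht2 8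
      have hp8 : 0 < (10000 * ρ - 1) ^ 8 := by positivity
      have key : R1 N K ρ * (10000 * ρ - 1) ^ 8 ≤ ρ * R2 N K ρ * (10000 * ρ - 1) ^ 8 := by
        calc R1 N K ρ * (10000 * ρ - 1) ^ 8 ≤ R1 N K ρ * 256 := by
              apply mul_le_mul_of_nonneg_left _ hR1.le; linarith
          _ ≤ R1 N K ρ * ((10000 * ρ) * (7 * N * K - 8 * (10000 * ρ - 1) ^ 7)) := by
              apply mul_le_mul_of_nonneg_left _ hR1.le
              nlinarith
          _ = ρ * (R2 N K ρ * (10000 * ρ - 1) ^ 8) := by rw [h3]; ring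
          _ = _ := by ring
      exact le_of_mul_le_mul_right key hp8
    · have h8 : (10000 * ρ - 1) ^ 8 ≤ 2 ^ 8 := pow_le_pow_left₀ (by linarith) ht2 8
      have hp8 : 0 < (10000 * ρ - 1) ^ 8 := by positivity
      have hi8 : 1 / 256 ≤ ((10000 * ρ - 1) ^ 8)⁻¹ := by
        rw [← one_div]; apply one_div_le_one_div_of_le hp8; linarith
      have hρ0 : 0 < ρ := by linarith
      have hcube : ρ ^ 3 ≤ (3 / 10000) ^ 3 := pow_le_pow_left₀ hρ0.le h2 3
      have hr1 : profR N K ρ * (7 * (N * K) * 10000 * (1 / 256)) ≤ R1 N K ρ := by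
        unfold R1
        apply mul_le_mul_of_nonneg_left _ hRp.le
        have : 7 * (N * K) * 10000 * (1 / 256) ≤ 7 * (N * K) * 10000 * ((10000 * ρ - 1) ^ 8)⁻¹ :=
          mul_le_mul_of_nonneg_left hi8 (by positivity)
        calc _ ≤ _ := this
          _ = _ := by ring
      rw [div_mul_eq_mul_div, le_div_iff₀ (by positivity)]
      have e1 : 3600 * ρ ^ 2 * profR N K ρ * (2 * ρ) = 7200 * ρ ^ 3 * profR N K ρ := by ring
      rw [e1]
      calc 7200 * ρ ^ 3 * profR N K ρ ≤ 7200 * (3 / 10000) ^ 3 * profR N K ρ := by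
            apply mul_le_mul_of_nonneg_right _ hRp.le; linarith
        _ ≤ profR N K ρ * (7 * (N * K) * 10000 * (1 / 256)) * (5 / 100000000) ^ 2 := by
            have : 7200 * (3 / 10000 : ℝ) ^ 3 ≤ (7 * (N * K) * 10000 * (1 / 256)) * (5 / 100000000) ^ 2 := by
              nlinarith
            nlinarith
        _ ≤ R1 N K ρ * (5 / 100000000) ^ 2 := by
            apply mul_le_mul_of_nonneg_right hr1 (by positivity)

end Pool.Agent.Helper33.NCProfile
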