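import Mathlib

set_option autoImplicit false

namespace Pool.Agent.Helper33.Schunck

open Function Subgroup

/-- all prime divisors of `k` are at least `n` -/
def Big (n k : ℕ) : Prop := ∀ p : ℕ, p.Prime → p ∣ k → n ≤ p
/-- all prime divisors of `k` are less than `n` -/
def Small (n k : ℕ) : Prop := ∀ p : ℕ, p.Prime → p ∣ k → p < n

lemma Big.dvd {n k l : ℕ} (h : Big n k) (hl : l ∣ k) : Big n l :=
  fun p hp hpl => h p hp (hpl.trans hl)
lemma Small.dvd {n k l : ℕ} (h : Small n k) (hl : l ∣ k) : Small n l :=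
  fun p hp hpl => h p hp (hpl.trans hl)
lemma Big.mul {n k l : ℕ} (h : Big n k) (h' : Big n l) : Big n (k * l) :=
  fun p hp hpl => (hp.dvd_mul.1 hpl).elim (h p hp) (h' p hp)
lemma Small.mul {n k l : ℕ} (h : Small n k) (h' : Small n l) : Small n (k * l) :=
  fun p hp hpl => (hp.dvd_mul.1 hpl).elim (h p hp) (h' p hp)
lemma Big.mono {n m k : ℕ} (h : Big n k) (hmn : m ≤ n) : Big m k :=
  fun p hp hpl => hmn.trans (h p hp hpl)
lemma big_one (n : ℕ) : Big n 1 := fun _ hp hpl => absurd (Nat.dvd_one.1 hpl) hp.ne_one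
lemma small_one (n : ℕ) : Small n 1 := fun _ hp hpl => absurd (Nat.dvd_one.1 hpl) hp.ne_one
lemma eq_one_of_big_small {n k : ℕ} (h : Big n k) (h' : Small n k) : k = 1 := by
  by_contra hk
  obtain ⟨p, hp, hpk⟩ := Nat.exists_prime_and_dvd hk
  exact absurd (h' p hp hpk) (not_lt.2 (h p hp hpk))
lemma big_prime_pow {n r k : ℕ} (hr : r.Prime) (h : n ≤ r) : Big n (r ^ k) := by
  intro p hp hpk
  rw [(Nat.prime_dvd_prime_iff_eq hp hr).1 (hp.dvd_of_dvd_pow hpk)]; exact h
lemma small_prime_pow {n r k : ℕ} (hr : r.Prime) (h : r < n) : Small n (r ^ k) := by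
  intro p hp hpk
  rw [(Nat.prime_dvd_prime_iff_eq hp hr).1 (hp.dvd_of_dvd_pow hpk)]; exact h

/-- `H` is a normal Hall subgroup for the set of primes at least `n` -/
structure Hall {G : Type} [Group G] (n : ℕ) (H : Subgroup G) : Prop where
  normal : H.Normal
  big : Big n (Nat.card H)
  small : Small n H.index

/-- finite soluble groups with a Sylow tower, largest prime at the bottom -/
def T (G : Type) [Group G] : Prop := Finite G ∧ Group.IsSolvable G ∧ ∀ n, ∃ H : Subgroup G, Hall n H

section hall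
variable {G : Type} [Group G]

lemma Hall.mem {n : ℕ} {H : Subgroup G} (hH : Hall n H) {x : G}
    (hx : Big n (orderOf x)) : x ∈ H := by
  have := hH.normal
  have h1 : orderOf (QuotientGroup.mk' H x) ∣ orderOf x := orderOf_map_dvd (QuotientGroup.mk' H) x
  have h2 : orderOf (QuotientGroup.mk' H x) ∣ H.index := orderOf_dvd_natCard _
  have h3 := eq_one_of_big_small (hx.dvd h1) (hH.small.dvd h2)
  rw [orderOf_eq_one_iff] at h3
  exact (QuotientGroup.eq_one_iff x).1 h3

lemma Hall.le {n : ℕ} {H K : Subgroup G} (hH : Hall n H) (hK : Big n (Nat.card K)) : K ≤ H :=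
  fun _ hx => hH.mem (hK.dvd (Subgroup.orderOf_dvd_natCard K hx))

lemma Hall.map {Q : Type} [Group Q] {n : ℕ} {H : Subgroup G} (hH : Hall n H) (f : G →* Q)
    (hf : Surjective f) : Hall n (H.map f) :=
  ⟨hH.normal.map f hf, hH.big.dvd (card_map_dvd H f), hH.small.dvd (index_map_dvd H hf)⟩

lemma Hall.comap {K : Type} [Group K] {n : ℕ} {H : Subgroup G} (hH : Hall n H) (f : K →* G)
    (hf : Injective f) : Hall n (H.comap f) := by
  have := hH.normal
  refine ⟨hH.normal.comap f, hH.big.dvd (card_comap_dvd_of_injective H f hf), hH.small.dvd ?_⟩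
  rw [index_comap]
  exact relIndex_dvd_index_of_normal H f.range

end hall

lemma T.of_surjective {G Q : Type} [Group G] [Group Q] (f : G →* Q) (hf : Surjective f)
    (h : T G) : T Q := by
  obtain ⟨h1, h2, h3⟩ := h
  refine ⟨Finite.of_surjective f hf, Group.isSolvable_of_surjective hf, fun n => ?_⟩
  obtain ⟨H, hH⟩ := h3 n
  exact ⟨_, hH.map f hf⟩

lemma T.of_injective {G K : Type} [Group G] [Group K] (f : K →* G) (hf : Injective f)
    (h : T G) : T K := by
  obtain ⟨h1, h2, h3⟩ := h
  refine ⟨Finite.of_injective f hf, Group.isSolvable_of_isSolvable_injective hf, fun n => ?_⟩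
  obtain ⟨H, hH⟩ := h3 n
  exact ⟨_, hH.comap f hf⟩

/-- extension of a group in `T` by a normal `r`-group with `r` at least all primes dividing the order -/
lemma T.of_ext {G : Type} [Group G] [Finite G] [Group.IsSolvable G] (P : Subgroup G) [P.Normal]
    {r : ℕ} (hr : r.Prime) (hP : IsPGroup r P) (hmax : ∀ p : ℕ, p.Prime → p ∣ Nat.card G → p ≤ r)
    (h : T (G ⧸ P)) : T G := by
  have : Fact r.Prime := ⟨hr⟩
  refine ⟨inferInstance, inferInstance, fun n => ?_⟩
  rcases le_or_gt n r with hn | hn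
  · obtain ⟨H, hH⟩ := h.2.2 n
    have := hH.normal
    refine ⟨H.comap (QuotientGroup.mk' P), inferInstance, ?_, ?_⟩
    · have e1 := card_mul_index (H.comap (QuotientGroup.mk' P))
      rw [index_comap_of_surjective _ (QuotientGroup.mk'_surjective P), ← card_mul_index P] at e1
      have e2 : Nat.card H * H.index = P.index := card_mul_index H
      rw [← e2, ← mul_assoc] at e1
      have e3 := Nat.eq_of_mul_eq_mul_right (Nat.pos_of_ne_zero H.index_ne_zero_of_finite) e1
      rw [e3]
      obtain ⟨k, hk⟩ := IsPGroup.iff_card.1 hP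
      exact (hk ▸ big_prime_pow hr hn).mul hH.big
    · rw [index_comap_of_surjective _ (QuotientGroup.mk'_surjective P)]
      exact hH.small
  · refine ⟨⊥, inferInstance, ?_, ?_⟩
    · rw [card_bot]; exact big_one n
    · rw [index_bot]
      exact fun p hp hpG => (hmax p hp hpG).trans_lt hn

end Pool.Agent.Helper33.Schunck
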