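import Pool.Agent.Helper33.Schunck1

set_option autoImplicit false

namespace Pool.Agent.Helper33.Schunck

open Function Subgroup

/-- Schunck class of finite soluble groups -/
structure IsSchunck (X : (G : Type) → [Group G] → Prop) : Prop where
  fs : ∀ (G : Type) [Group G], X G → Finite G ∧ Group.IsSolvable G
  iso : ∀ (G H : Type) [Group G] [Group H], Nonempty (G ≃* H) → X G → X H
  quot : ∀ (G : Type) [Group G] (N : Subgroup G) [N.Normal], X G → X (G ⧸ N)
  prim : ∀ (G : Type) [Group G] [Finite G], Group.IsSolvable G →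
    (∀ (N : Subgroup G) [N.Normal],
      (∃ M : Subgroup (G ⧸ N), IsCoatom M ∧ M.normalCore = ⊥) → X (G ⧸ N)) → X G

/-- projector, as in the frozen statement -/
def IsProj (X : (G : Type) → [Group G] → Prop) {G : Type} [Group G] (E : Subgroup G) : Prop :=
  ∀ (N : Subgroup G) [N.Normal], X ↥(E.map (QuotientGroup.mk' N)) ∧
    ∀ K : Subgroup (G ⧸ N), E.map (QuotientGroup.mk' N) ≤ K → X ↥K →
      K = E.map (QuotientGroup.mk' N)

/-- projector, with all epimorphisms instead of all quotient maps -/
def IsProj' (X : (G : Type) → [Group G] → Prop) {G : Type} [Group G] (E : Subgroup G) : Prop :=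
  ∀ (Q : Type) [Group Q] (f : G →* Q), Surjective f → X ↥(E.map f) ∧
    ∀ K : Subgroup Q, E.map f ≤ K → X ↥K → K = E.map f

lemma IsProj.toProj' {X : (G : Type) → [Group G] → Prop}
    (hiso : ∀ (G H : Type) [Group G] [Group H], Nonempty (G ≃* H) → X G → X H)
    {G : Type} [Group G] {E : Subgroup G} (h : IsProj X E) : IsProj' X E := by
  intro Q _ f hf
  obtain ⟨h1, h2⟩ := h f.ker
  let e : G ⧸ f.ker ≃* Q := QuotientGroup.quotientKerEquivOfSurjective f hf
  have he : (E.map (QuotientGroup.mk' f.ker)).map e.toMonoidHom = E.map f := by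
    rw [Subgroup.map_map]
    congr 1
  refine ⟨?_, fun K hK hXK => ?_⟩
  · have := hiso _ _ ⟨e.subgroupMap (E.map (QuotientGroup.mk' f.ker))⟩ h1
    rw [← he]
    exact this
  · have hKe : (K.comap e.toMonoidHom).map e.toMonoidHom = K :=
      Subgroup.map_comap_eq_self_of_surjective e.surjective K
    have h3 : K.comap e.toMonoidHom = E.map (QuotientGroup.mk' f.ker) := by
      apply h2
      · rw [← Subgroup.map_le_iff_le_comap, he]
        exact hK
      · refine hiso _ _ ⟨(e.subgroupMap (K.comap e.toMonoidHom)).symm⟩ ?_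
        have : X ↥((K.comap e.toMonoidHom).map e.toMonoidHom) := by
          rw [hKe]; exact hXK
        exact this
    rw [← hKe, h3, he]

lemma IsProj'.toProj {X : (G : Type) → [Group G] → Prop}
    {G : Type} [Group G] {E : Subgroup G} (h : IsProj' X E) : IsProj X E :=
  fun N _ => h _ (QuotientGroup.mk' N) (QuotientGroup.mk'_surjective N)

lemma IsProj'.map {X : (G : Type) → [Group G] → Prop}
    {G Q : Type} [Group G] [Group Q] {E : Subgroup G} (h : IsProj' X E) (f : G →* Q)
    (hf : Surjective f) : IsProj' X (E.map f) := by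
  intro R _ g hg
  rw [Subgroup.map_map]
  exact h R (g.comp f) (hg.comp hf)

lemma IsProj'.self {X : (G : Type) → [Group G] → Prop}
    {G : Type} [Group G] {E : Subgroup G} (h : IsProj' X E) : X ↥E := by
  have := (h G (MonoidHom.id G) surjective_id).1
  rwa [Subgroup.map_id] at this

lemma IsProj'.max {X : (G : Type) → [Group G] → Prop}
    {G : Type} [Group G] {E : Subgroup G} (h : IsProj' X E) (K : Subgroup G) (hK : E ≤ K)
    (hX : X ↥K) : K = E := by
  have := (h G (MonoidHom.id G) surjective_id).2 K (by rwa [Subgroup.map_id]) hX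
  rwa [Subgroup.map_id] at this

lemma card_prime_of_bot_coatom {Y : Type} [Group Y] [Finite Y]
    (h : IsCoatom (⊥ : Subgroup Y)) : (Nat.card Y).Prime := by
  have hne : Nat.card Y ≠ 1 := by
    intro h1
    have : Subsingleton Y := (Nat.card_eq_one_iff_unique.1 h1).1
    exact h.1 (Subsingleton.elim _ _)
  obtain ⟨p, hp, hpY⟩ := Nat.exists_prime_and_dvd hne
  have : Fact p.Prime := ⟨hp⟩
  obtain ⟨x, hx⟩ := exists_prime_orderOf_dvd_card' p hpY
  have hx1 : zpowers x ≠ ⊥ := by
    intro h0
    rw [zpowers_eq_bot] at h0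
    rw [h0, orderOf_one] at hx
    exact hp.ne_one hx.symm
  have hx2 : zpowers x = ⊤ := h.2 _ (bot_lt_iff_ne_bot.2 hx1)
  have : Nat.card Y = p := by
    rw [← hx, ← Nat.card_zpowers, hx2, Subgroup.card_top]
  rw [this]; exact hp

lemma IsSchunck.of_surjective {X : (G : Type) → [Group G] → Prop} (hX : IsSchunck X)
    {G Q : Type} [Group G] [Group Q] (f : G →* Q) (hf : Surjective f) (h : X G) : X Q :=
  hX.iso _ _ ⟨QuotientGroup.quotientKerEquivOfSurjective f hf⟩ (hX.quot G f.ker h)

lemma IsSchunck.of_card_prime {X : (G : Type) → [Group G] → Prop} (hX : IsSchunck X)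
    {p : ℕ} (hp : p.Prime) (hC : X (Multiplicative (ZMod p))) {Y : Type} [Group Y]
    (hY : Nat.card Y = p) : X Y := by
  have : Fact p.Prime := ⟨hp⟩
  exact hX.iso _ _ ⟨mulEquivOfPrimeCardEq (p := p) (by simp) hY⟩ hC

lemma IsSchunck.zmod_of_card_prime {X : (G : Type) → [Group G] → Prop} (hX : IsSchunck X)
    {p : ℕ} (hp : p.Prime) {Y : Type} [Group Y]
    (hY : Nat.card Y = p) (hC : X Y) : X (Multiplicative (ZMod p)) := by
  have : Fact p.Prime := ⟨hp⟩
  exact hX.iso _ _ ⟨mulEquivOfPrimeCardEq (p := p) hY (by simp)⟩ hC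

/-- central extension by a group of prime order -/
lemma IsSchunck.central {X : (G : Type) → [Group G] → Prop} (hX : IsSchunck X)
    {q : ℕ} (hq : q.Prime) (hC : X (Multiplicative (ZMod q))) {Y : Type} [Group Y] [Finite Y]
    (hs : Group.IsSolvable Y) (C : Subgroup Y) [C.Normal] (hcen : C ≤ center Y)
    (hcard : Nat.card C = q) (hQ : X (Y ⧸ C)) : X Y := by
  refine hX.prim Y hs (fun N _ ⟨M, hM, hcore⟩ => ?_)
  by_cases h : C ≤ N
  · exact hX.of_surjective (QuotientGroup.map C N (MonoidHom.id Y) h)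
      (fun y => by
        obtain ⟨x, rfl⟩ := QuotientGroup.mk'_surjective N y
        exact ⟨QuotientGroup.mk' C x, rfl⟩) hQ
  · set D := C.map (QuotientGroup.mk' N) with hD
    have hDn : D.Normal := Subgroup.Normal.map ‹C.Normal› _ (QuotientGroup.mk'_surjective N)
    have hDne : D ≠ ⊥ := by
      intro h0
      rw [hD, Subgroup.map_eq_bot_iff, QuotientGroup.ker_mk'] at h0
      exact h h0
    have hDcomm : ∀ d ∈ D, ∀ y, d * y = y * d := by
      rintro _ ⟨c, hc, rfl⟩ y
      obtain ⟨x, rfl⟩ := QuotientGroup.mk'_surjective N y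
      rw [← map_mul, ← map_mul, (mem_center_iff.1 (hcen hc) x)]
    have hDM : ¬ D ≤ M := by
      intro h1
      have := (Subgroup.normal_le_normalCore (H := M) (N := D)).2 h1
      rw [hcore, le_bot_iff] at this
      exact hDne this
    have hsup : M ⊔ D = ⊤ := hM.2 _ (left_lt_sup.2 hDM)
    have hMn : M.Normal := by
      refine ⟨fun m hm g => ?_⟩
      have hg : g ∈ M ⊔ D := hsup ▸ mem_top g
      rw [mem_sup_of_normal_right] at hg
      obtain ⟨a, ha, d, hd, rfl⟩ := hg
      have : a * d * m * (a * d)⁻¹ = a * m * a⁻¹ := by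
        rw [mul_assoc a d m, hDcomm d hd m]
        group
      rw [this]
      exact M.mul_mem (M.mul_mem ha hm) (M.inv_mem ha)
    have hMbot : M = ⊥ := by rw [← hcore, normalCore_eq_self]
    subst hMbot
    have hpr := card_prime_of_bot_coatom hM
    have hDtop : D = ⊤ := hM.2 _ (bot_lt_iff_ne_bot.2 hDne)
    have h2 : Nat.card (Y ⧸ N) ∣ q := by
      rw [← hcard, ← Subgroup.card_top (G := Y ⧸ N), ← hDtop]
      exact card_map_dvd C _
    exact hX.of_card_prime hq hC ((Nat.prime_dvd_prime_iff_eq hpr hq).1 h2)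

lemma IsSchunck.pGroup {X : (G : Type) → [Group G] → Prop} (hX : IsSchunck X)
    {p : ℕ} (hp : p.Prime) (hC : X (Multiplicative (ZMod p))) {Y : Type} [Group Y] [Finite Y]
    (hY : IsPGroup p Y) : X Y := by
  have : Fact p.Prime := ⟨hp⟩
  have hnil : Group.IsNilpotent Y := hY.isNilpotent
  refine hX.prim Y inferInstance (fun N _ ⟨M, hM, hcore⟩ => ?_)
  have hMn : M.Normal := by
    have : Group.IsNilpotent (Y ⧸ N) := inferInstance
    exact Subgroup.NormalizerCondition.normal_of_coatom M
      Group.normalizerCondition_of_isNilpotent hM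
  have hMbot : M = ⊥ := by rw [← hcore, normalCore_eq_self]
  subst hMbot
  have hpr := card_prime_of_bot_coatom hM
  have hPQ : IsPGroup p (Y ⧸ N) := hY.to_quotient N
  obtain ⟨k, hk⟩ := IsPGroup.iff_card.1 hPQ
  have : Nat.card (Y ⧸ N) = p := by
    have h1 : Nat.card (Y ⧸ N) ∣ p ^ k := by rw [hk]
    exact (Nat.prime_dvd_prime_iff_eq hpr hp).1 (hpr.dvd_of_dvd_pow h1)
  exact hX.of_card_prime hp hC this

/-- a nontrivial finite soluble group has a quotient of prime order -/
lemma exists_prime_quotient (G : Type) [Group G] [Finite G] [Nontrivial G]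
    (hs : Group.IsSolvable G) : ∃ N : Subgroup G, N.Normal ∧ N.index.Prime ∧ IsCoatom N := by
  have hlt : commutator G < ⊤ := Group.IsSolvable.commutator_lt_top_of_nontrivial G
  obtain ⟨N, hN, hle⟩ := (eq_top_or_exists_le_coatom (commutator G)).resolve_left hlt.ne
  have hNn : N.Normal := Subgroup.Normal.of_commutator_le G hle
  refine ⟨N, hNn, ?_, hN⟩
  have hbot : IsCoatom (⊥ : Subgroup (G ⧸ N)) := by
    refine ⟨?_, fun K hK => ?_⟩
    · intro h0
      apply hN.1
      have := congrArg (Subgroup.comap (QuotientGroup.mk' N)) h0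
      rwa [MonoidHom.comap_bot, QuotientGroup.ker_mk', Subgroup.comap_top] at this
    · have h1 : N < K.comap (QuotientGroup.mk' N) := by
        have h3 := (Subgroup.comap_lt_comap_of_surjective (QuotientGroup.mk'_surjective N)).2 hK
        rwa [MonoidHom.comap_bot, QuotientGroup.ker_mk'] at h3
      have h2 := hN.2 _ h1
      rw [← Subgroup.map_comap_eq_self_of_surjective (QuotientGroup.mk'_surjective N) K, h2,
        Subgroup.map_top_of_surjective _ (QuotientGroup.mk'_surjective N)]
  exact card_prime_of_bot_coatom hbot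

end Pool.Agent.Helper33.Schunck
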