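import Pool.Agent.Helper33.Schunck2

set_option autoImplicit false

namespace Pool.Agent.Helper33.Schunck

open Function Subgroup

lemma prim_transport {G H : Type} [Group G] [Group H] (e : G ≃* H) (M : Subgroup H)
    (hM : IsCoatom M) (hc : M.normalCore = ⊥) :
    IsCoatom (M.comap e.toMonoidHom) ∧ (M.comap e.toMonoidHom).normalCore = ⊥ := by
  constructor
  · exact (OrderIso.isCoatom_iff e.comapSubgroup M).2 hM
  · set C := (M.comap e.toMonoidHom).normalCore with hC
    have hCn : (C.map e.toMonoidHom).Normal :=
      Subgroup.Normal.map inferInstance _ e.surjective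
    have h1 : C.map e.toMonoidHom ≤ M := by
      rw [Subgroup.map_le_iff_le_comap]
      exact normalCore_le _
    have h2 : C.map e.toMonoidHom ≤ M.normalCore := Subgroup.normal_le_normalCore.2 h1
    rw [hc, le_bot_iff] at h2
    exact (Subgroup.map_eq_bot_iff_of_injective C e.injective).1 h2

lemma prim_map {G : Type} [Group G] (M : Subgroup G) (hM : IsCoatom M) :
    IsCoatom (M.map (QuotientGroup.mk' M.normalCore)) ∧
      (M.map (QuotientGroup.mk' M.normalCore)).normalCore = ⊥ := by
  set f := QuotientGroup.mk' M.normalCore with hf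
  have hfs : Surjective f := QuotientGroup.mk'_surjective _
  have hker : f.ker ≤ M := by rw [hf, QuotientGroup.ker_mk']; exact normalCore_le M
  have hcm : (M.map f).comap f = M := Subgroup.comap_map_eq_self hker
  refine ⟨⟨?_, fun K hK => ?_⟩, ?_⟩
  · intro h
    apply hM.1
    rw [← hcm, h, Subgroup.comap_top]
  · have h1 : M < K.comap f := by
      have := (Subgroup.comap_lt_comap_of_surjective hfs).2 hK
      rwa [hcm] at this
    rw [← Subgroup.map_comap_eq_self_of_surjective hfs K, hM.2 _ h1,
      Subgroup.map_top_of_surjective _ hfs]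
  · set C := (M.map f).normalCore with hC
    have hCn : (C.comap f).Normal := Subgroup.Normal.comap inferInstance f
    have h1 : C.comap f ≤ M := (Subgroup.comap_mono (normalCore_le _)).trans hcm.le
    have h2 : C.comap f ≤ M.normalCore := Subgroup.normal_le_normalCore.2 h1
    rw [← Subgroup.map_comap_eq_self_of_surjective hfs C, Subgroup.map_eq_bot_iff, hf,
      QuotientGroup.ker_mk']
    exact h2

lemma T.of_card_one {G : Type} [Group G] [Finite G] (h : Nat.card G = 1) : T G := by
  have : Subsingleton G := (Nat.card_eq_one_iff_unique.1 h).1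
  refine ⟨inferInstance, inferInstance, fun n => ⟨⊤, inferInstance, ?_, ?_⟩⟩
  · rw [Subgroup.card_top, h]; exact big_one n
  · rw [Subgroup.index_top]; exact small_one n

/-- largest prime divisor -/
lemma exists_max_prime {k : ℕ} (h0 : k ≠ 0) (h1 : k ≠ 1) :
    ∃ p : ℕ, p.Prime ∧ p ∣ k ∧ ∀ q : ℕ, q.Prime → q ∣ k → q ≤ p := by
  have hne : k.primeFactors.Nonempty := by
    obtain ⟨p, hp, hpk⟩ := Nat.exists_prime_and_dvd h1
    exact ⟨p, Nat.mem_primeFactors.2 ⟨hp, hpk, h0⟩⟩
  obtain ⟨p, hp, hmax⟩ := Finset.exists_max_image k.primeFactors id hne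
  rw [Nat.mem_primeFactors] at hp
  exact ⟨p, hp.1, hp.2.1, fun q hq hqk => hmax q (Nat.mem_primeFactors.2 ⟨hq, hqk, h0⟩)⟩

lemma isPGroup_of_big {G : Type} [Group G] [Finite G] {p : ℕ} (hb : Big p (Nat.card G))
    (hmax : ∀ q : ℕ, q.Prime → q ∣ Nat.card G → q ≤ p) : IsPGroup p G := by
  have := Nat.eq_prime_pow_of_unique_prime_dvd (p := p) (n := Nat.card G) Nat.card_pos.ne'
    (fun {d} hd hdG => le_antisymm (hmax d hd hdG) (hb d hd hdG))
  exact IsPGroup.of_card this

lemma T_prim (n : ℕ) : ∀ (G : Type) [Group G] [Finite G], Nat.card G ≤ n → Group.IsSolvable G →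
    (∀ (N : Subgroup G) [N.Normal],
      (∃ M : Subgroup (G ⧸ N), IsCoatom M ∧ M.normalCore = ⊥) → T (G ⧸ N)) → T G := by
  induction n with
  | zero => 
    intro G _ _ h
    exact absurd h (by have := Nat.card_pos (α := G); omega)
  | succ n ih =>
    intro G _ _ hcard hs hprim
    by_cases h1 : Nat.card G = 1
    · exact T.of_card_one h1
    obtain ⟨p, hp, hpG, hmax⟩ := exists_max_prime Nat.card_pos.ne' h1
    have : Fact p.Prime := ⟨hp⟩
    obtain ⟨P⟩ : Nonempty (Sylow p G) := inferInstance
    obtain ⟨kP, hkP⟩ := IsPGroup.iff_card.1 P.isPGroup'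
    have hPn : (P : Subgroup G).Normal := by
      by_contra hPn
      have hne : normalizer (P : Set G) ≠ ⊤ := fun h => hPn (normalizer_eq_top_iff.1 h)
      obtain ⟨M, hM, hle⟩ := (eq_top_or_exists_le_coatom _).resolve_left hne
      set R := M.normalCore with hR
      set f := QuotientGroup.mk' R with hf
      have hfs : Surjective f := QuotientGroup.mk'_surjective _
      have hPM : (P : Subgroup G) ≤ M := le_normalizer.trans hle
      obtain ⟨hM1, hM2⟩ := prim_map M hM
      have hT : T (G ⧸ R) := hprim R ⟨_, hM1, hM2⟩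
      obtain ⟨H, hH⟩ := hT.2.2 p
      have hdvd : Nat.card (G ⧸ R) ∣ Nat.card G := card_dvd_of_surjective f hfs
      have hHp : IsPGroup p H := isPGroup_of_big hH.big
        (fun q hq hqH => hmax q hq ((hqH.trans (card_subgroup_dvd_card H)).trans hdvd))
      obtain ⟨k, hk⟩ := IsPGroup.iff_card.1 hHp
      have h3 : (P : Subgroup G).map f ≤ H := by
        apply hH.le
        apply Big.dvd _ (card_map_dvd _ f)
        rw [hkP]; exact big_prime_pow hp le_rfl
      have h4 : H ≤ (P : Subgroup G).map f := by
        rw [← relIndex_eq_one]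
        have h5 : ((P : Subgroup G).map f).relIndex H ∣ (P : Subgroup G).index :=
          (Dvd.intro _ (relIndex_mul_index h3)).trans (index_map_dvd _ hfs)
        have h6 : ((P : Subgroup G).map f).relIndex H ∣ p ^ k := by
          rw [← hk]; exact relIndex_dvd_card _ _
        have h7 : Nat.Coprime (p ^ k) (P : Subgroup G).index :=
          Nat.Coprime.pow_left k ((hp.coprime_iff_not_dvd).2 P.not_dvd_index)
        exact Nat.eq_one_of_dvd_coprimes h7 h6 h5
      have hHn := hH.normal
      have h8 : H.comap f ≤ M := by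
        have hker : f.ker ≤ M := by rw [hf, QuotientGroup.ker_mk']; exact normalCore_le M
        calc H.comap f ≤ (M.map f).comap f := Subgroup.comap_mono (h4.trans (Subgroup.map_mono hPM))
          _ = M := Subgroup.comap_map_eq_self hker
      have h9 : H.comap f ≤ R := Subgroup.normal_le_normalCore.2 h8
      have h10 : (P : Subgroup G) ≤ R :=
        (Subgroup.map_le_iff_le_comap.1 h3).trans h9
      have h11 := Sylow.normalizer_sup_eq_top' P h10
      apply hM.1
      rw [eq_top_iff, ← h11]
      exact sup_le hle (normalCore_le M)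
    have hTQ : T (G ⧸ (P : Subgroup G)) := by
      refine ih _ ?_ inferInstance ?_
      · have h2 : Nat.card (P : Subgroup G) * (P : Subgroup G).index = Nat.card G :=
          card_mul_index _
        have h3 : 1 < Nat.card (P : Subgroup G) := by
          rw [Subgroup.one_lt_card_iff_ne_bot]
          exact P.ne_bot_of_dvd_card hpG
        have h4 : 0 < (P : Subgroup G).index := Nat.pos_of_ne_zero (index_ne_zero_of_finite)
        have h5 : Nat.card (G ⧸ (P : Subgroup G)) = (P : Subgroup G).index := rfl
        rw [h5]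
        nlinarith
      · intro N _ ⟨M, hM, hc⟩
        let g : G →* (G ⧸ (P : Subgroup G)) ⧸ N :=
          (QuotientGroup.mk' N).comp (QuotientGroup.mk' (P : Subgroup G))
        have hg : Surjective g :=
          (QuotientGroup.mk'_surjective N).comp (QuotientGroup.mk'_surjective _)
        let e : G ⧸ g.ker ≃* (G ⧸ (P : Subgroup G)) ⧸ N :=
          QuotientGroup.quotientKerEquivOfSurjective g hg
        have h := hprim g.ker ⟨_, prim_transport e M hM hc⟩
        exact h.of_surjective e.toMonoidHom e.surjective
    exact T.of_ext (P : Subgroup G) hp P.isPGroup' hmax hTQ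

lemma isSchunck_T : IsSchunck T where
  fs := fun _ _ h => ⟨h.1, h.2.1⟩
  iso := fun _ _ _ _ ⟨e⟩ h => h.of_surjective e.toMonoidHom e.surjective
  quot := fun _ _ N _ h => h.of_surjective (QuotientGroup.mk' N) (QuotientGroup.mk'_surjective N)
  prim := fun G _ _ hs h => T_prim (Nat.card G) G le_rfl hs h

end Pool.Agent.Helper33.Schunck
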