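import Pool.Agent.Helper33.Schunck3

set_option autoImplicit false

namespace Pool.Agent.Helper33.Schunck

open Function Subgroup

/-- strong containment, as in the frozen statement -/
def Le (B A : (G : Type) → [Group G] → Prop) : Prop :=
  ∀ (G : Type) [Group G] [Finite G], Group.IsSolvable G →
    ∃ E F : Subgroup G, IsProj B E ∧ IsProj A F ∧ E ≤ F

section wreath

variable (q : ℕ) (H : Type) [Group H]

/-- the base group -/
abbrev Base : Type := H → Multiplicative (ZMod q)

/-- the action on the base group -/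
abbrev act : H →* MulAut (Base q H) := mulAutArrow (G := H) (A := H) (M := Multiplicative (ZMod q))

/-- the regular wreath product -/
abbrev W : Type := Base q H ⋊[act q H] H

variable {q H}

lemma act_apply (h : H) (m : Base q H) (x : H) : (act q H h m) x = m (h⁻¹ * x) := rfl

lemma W_conj (x : W q H) (m : Base q H) :
    x * SemidirectProduct.inl m * x⁻¹ =
      SemidirectProduct.inl (act q H (SemidirectProduct.rightHom x) m) := by
  refine SemidirectProduct.ext ?_ ?_
  · simp only [SemidirectProduct.mul_left, SemidirectProduct.left_inl, SemidirectProduct.mul_right,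
      SemidirectProduct.right_inl, mul_one, SemidirectProduct.inv_left,
      SemidirectProduct.rightHom_eq_right]
    rw [← MulAut.mul_apply, ← map_mul, mul_inv_cancel, map_one, MulAut.one_apply]
    rw [mul_comm x.left, mul_assoc, mul_inv_cancel, mul_one]
  · simp

omit [Group H] in
lemma base_pow (m : Base q H) : m ^ q = 1 := by
  funext x
  change (m x) ^ q = 1
  rw [← toAdd_eq_zero, toAdd_pow]
  simp

lemma mem_ker_iff (x : W q H) : x ∈ (SemidirectProduct.rightHom : W q H →* H).ker ↔
    ∃ m : Base q H, SemidirectProduct.inl m = x := by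
  rw [← SemidirectProduct.range_inl_eq_ker_rightHom]; rfl

instance [Finite H] [NeZero q] : Finite (W q H) :=
  Finite.of_equiv _ SemidirectProduct.equivProd.symm

lemma W_solvable (hs : Group.IsSolvable H) : Group.IsSolvable (W q H) :=
  Group.isSolvable_of_ker_le_range (SemidirectProduct.inl : Base q H →* W q H)
    (SemidirectProduct.rightHom : W q H →* H)
    (by rw [SemidirectProduct.range_inl_eq_ker_rightHom])

/-- the subgroup of `U`-fixed elements of the base, inside the wreath product -/
def fixedSub (q : ℕ) {H : Type} [Group H] (U : Subgroup H) : Subgroup (W q H) :=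
  Subgroup.map (SemidirectProduct.inl : Base q H →* W q H)
    { carrier := {m | ∀ u ∈ U, act q H u m = m}
      one_mem' := fun u _ => map_one _
      mul_mem' := fun {a b} ha hb u hu => by rw [map_mul, ha u hu, hb u hu]
      inv_mem' := fun {a} ha u hu => by rw [map_inv, ha u hu] }

lemma mem_fixedSub {U : Subgroup H} {x : W q H} :
    x ∈ fixedSub q U ↔ ∃ m : Base q H, (∀ u ∈ U, act q H u m = m) ∧
      SemidirectProduct.inl m = x := Iff.rfl

lemma inl_mem_fixedSub {U : Subgroup H} {m : Base q H} :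
    (SemidirectProduct.inl m : W q H) ∈ fixedSub q U ↔ (∀ u ∈ U, act q H u m = m) := by
  rw [mem_fixedSub]
  constructor
  · rintro ⟨m', h, h'⟩
    rwa [← SemidirectProduct.inl_injective h']
  · intro h
    exact ⟨m, h, rfl⟩

instance fixedSub_normal (U : Subgroup H) [U.Normal] : (fixedSub q U).Normal := by
  refine ⟨fun x hx g => ?_⟩
  obtain ⟨m, hm, rfl⟩ := mem_fixedSub.1 hx
  rw [W_conj, inl_mem_fixedSub]
  intro u hu
  set h := SemidirectProduct.rightHom g
  have h1 : u * h = h * (h⁻¹ * u * h) := by group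
  rw [← MulAut.mul_apply, ← map_mul, h1, map_mul, MulAut.mul_apply, hm]
  have := (‹U.Normal›).conj_mem u hu h⁻¹
  rwa [inv_inv] at this

end wreath

/-- a subgroup together with a commuting cyclic group -/
def adjoin {Q : Type} [Group Q] (E : Subgroup Q) (c : Q) (hc : ∀ e ∈ E, e * c = c * e) :
    Subgroup Q where
  carrier := {y | ∃ e ∈ E, ∃ k : ℤ, y = e * c ^ k}
  one_mem' := ⟨1, E.one_mem, 0, by simp⟩
  mul_mem' := by
    rintro _ _ ⟨e, he, k, rfl⟩ ⟨e', he', k', rfl⟩
    refine ⟨e * e', E.mul_mem he he', k + k', ?_⟩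
    have h1 : Commute e' c := hc e' he'
    have h2 : c ^ k * e' = e' * c ^ k := (h1.zpow_right k).eq.symm
    rw [zpow_add, mul_assoc e, ← mul_assoc (c ^ k), h2]
    group
  inv_mem' := by
    rintro _ ⟨e, he, k, rfl⟩
    refine ⟨e⁻¹, E.inv_mem he, -k, ?_⟩
    have h1 : Commute e⁻¹ c := hc _ (E.inv_mem he)
    rw [mul_inv_rev, ← zpow_neg, (h1.zpow_right (-k)).eq]

lemma mem_adjoin {Q : Type} [Group Q] {E : Subgroup Q} {c : Q} {hc : ∀ e ∈ E, e * c = c * e}
    {y : Q} : y ∈ adjoin E c hc ↔ ∃ e ∈ E, ∃ k : ℤ, y = e * c ^ k := Iff.rfl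

lemma adjoin_mem_class {X : (G : Type) → [Group G] → Prop} (hX : IsSchunck X)
    {q : ℕ} (hq : q.Prime) (hC : X (Multiplicative (ZMod q))) {Q : Type} [Group Q] [Finite Q]
    (hs : Group.IsSolvable Q) (E : Subgroup Q) (c : Q) (hc : ∀ e ∈ E, e * c = c * e)
    (hcq : orderOf c = q) (hE : X ↥E) : X ↥(adjoin E c hc) := by
  set Y := adjoin E c hc with hY
  have hcY : c ∈ Y := ⟨1, E.one_mem, 1, by simp⟩
  have hcomm : ∀ y ∈ Y, y * c = c * y := by
    rintro _ ⟨e, he, k, rfl⟩
    have h1 : c ^ k * c = c * c ^ k := (Commute.self_zpow c k).eq.symm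
    rw [mul_assoc, h1, ← mul_assoc, hc e he, mul_assoc]
  let c' : Y := ⟨c, hcY⟩
  have hcen : zpowers c' ≤ center Y := by
    rw [zpowers_le, mem_center_iff]
    intro y
    exact Subtype.ext (hcomm y y.2)
  have hn : (zpowers c').Normal := by
    refine ⟨fun n hn g => ?_⟩
    have := mem_center_iff.1 (hcen hn) g
    rw [this, mul_inv_cancel_right]
    exact hn
  have hcard : Nat.card (zpowers c') = q := by
    rw [Nat.card_zpowers, ← hcq]
    exact Subgroup.orderOf_mk c hcY
  refine hX.central hq hC inferInstance (zpowers c') hcen hcard ?_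
  have hEY : E ≤ Y := fun e he => ⟨e, he, 0, by simp⟩
  refine hX.of_surjective ((QuotientGroup.mk' (zpowers c')).comp (inclusion hEY)) ?_ hE
  intro y
  obtain ⟨⟨_, e, he, k, rfl⟩, rfl⟩ := QuotientGroup.mk'_surjective _ y
  refine ⟨⟨e, he⟩, ?_⟩
  simp only [MonoidHom.comp_apply]
  rw [QuotientGroup.mk'_apply, QuotientGroup.mk'_apply, QuotientGroup.eq]
  rw [mem_zpowers_iff]
  refine ⟨k, Subtype.ext ?_⟩
  simp [c', inclusion]

end Pool.Agent.Helper33.Schunck
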