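import Pool.Agent.Helper33.Schunck4

set_option autoImplicit false

namespace Pool.Agent.Helper33.Schunck

open Function Subgroup

/-- In the regular wreath product, the base part of a subgroup in `T` projecting onto `H` is fixed by `U`. -/
lemma base_fixed {q p : ℕ} (hq : q.Prime) (hqp : q < p) {H : Type} [Group H] [Finite H]
    (U : Subgroup H) (hU : Hall p U) (F : Subgroup (W q H)) (hF : T ↥F)
    (hFtop : F.map (SemidirectProduct.rightHom : W q H →* H) = ⊤) (x : W q H) (hx : x ∈ F)
    (hxk : x ∈ (SemidirectProduct.rightHom : W q H →* H).ker) : x ∈ fixedSub q U := by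
  have : NeZero q := ⟨hq.ne_zero⟩
  obtain ⟨m, rfl⟩ := (mem_ker_iff x).1 hxk
  rw [inl_mem_fixedSub]
  intro u hu
  obtain ⟨S, hS⟩ := hF.2.2 p
  have hSn := hS.normal
  set g : F →* H := (SemidirectProduct.rightHom : W q H →* H).comp F.subtype with hg
  have hgs : Surjective g := by
    intro h
    have : h ∈ F.map (SemidirectProduct.rightHom : W q H →* H) := hFtop ▸ mem_top h
    obtain ⟨y, hy, rfl⟩ := this
    exact ⟨⟨y, hy⟩, rfl⟩
  have h1 : U ≤ S.map g := (hS.map g hgs).le hU.big
  obtain ⟨s, hs, hsu⟩ := h1 hu
  set x' : F := ⟨SemidirectProduct.inl m, hx⟩ with hx'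
  have h2 : s * x' * s⁻¹ * x'⁻¹ ∈ S := by
    have := S.mul_mem hs (hSn.conj_mem s⁻¹ (S.inv_mem hs) x')
    simpa only [mul_assoc] using this
  have h3 : orderOf (s * x' * s⁻¹ * x'⁻¹) ∣ Nat.card S := Subgroup.orderOf_dvd_natCard S h2
  have h4 : ((s * x' * s⁻¹ * x'⁻¹ : F) : W q H) =
      SemidirectProduct.inl (act q H u m * m⁻¹) := by
    have e1 : ((s * x' * s⁻¹ * x'⁻¹ : F) : W q H) =
      ((s : W q H) * SemidirectProduct.inl m * (s : W q H)⁻¹) * (SemidirectProduct.inl m)⁻¹ := rfl
    rw [e1, W_conj, map_mul, map_inv]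
    have e2 : SemidirectProduct.rightHom (s : W q H) = u := hsu
    rw [e2]
  have h5 : orderOf ((s * x' * s⁻¹ * x'⁻¹ : F) : W q H) ∣ q := by
    rw [h4]
    apply orderOf_dvd_of_pow_eq_one
    rw [← map_pow, base_pow, map_one]
  rw [Subgroup.orderOf_coe] at h5
  have h6 : orderOf (s * x' * s⁻¹ * x'⁻¹) = 1 := by
    apply eq_one_of_big_small (n := p) (hS.big.dvd h3)
    apply Small.dvd _ h5
    have := small_prime_pow (k := 1) hq hqp
    rwa [pow_one] at this
  rw [orderOf_eq_one_iff] at h6
  rw [h6] at h4
  have h7 : (1 : Base q H) = act q H u m * m⁻¹ := by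
    apply SemidirectProduct.inl_injective (φ := act q H)
    rw [← h4, map_one]; rfl
  exact mul_inv_eq_one.1 h7.symm

lemma exists_pos_of_index {p : ℕ} (hp : p.Prime) {H : Type} [Group H] [Finite H]
    {U : Subgroup H} (hU : Hall p U) (hpH : p ∣ Nat.card H) : U.index < Nat.card H := by
  have h1 : Nat.card U * U.index = Nat.card H := card_mul_index U
  have h2 : ¬ p ∣ U.index := fun h => absurd (hU.small p hp h) (lt_irrefl _)
  have h3 : p ∣ Nat.card U := by
    rw [← h1] at hpH
    exact (hp.dvd_mul.1 hpH).resolve_right h2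
  have h4 : 1 < Nat.card U := lt_of_lt_of_le hp.one_lt (Nat.le_of_dvd Nat.card_pos h3)
  have h5 : 0 < U.index := Nat.pos_of_ne_zero (index_ne_zero_of_finite)
  nlinarith

theorem step3 {A : (G : Type) → [Group G] → Prop} (hA : IsSchunck A) (hle : Le A T)
    {q : ℕ} (hq : q.Prime) (hC : A (Multiplicative (ZMod q))) (n : ℕ) :
    ∀ (H : Type) [Group H], Nat.card H ≤ n → T H → Big q (Nat.card H) → A H := by
  induction n with
  | zero =>
    intro H _ h hT _
    have := hT.1
    exact absurd h (by have := Nat.card_pos (α := H); omega)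
  | succ n ih =>
    intro H _ hcard hT hbig
    have hfin : Finite H := hT.1
    by_cases h1 : Nat.card H = 1
    · have : Subsingleton H := (Nat.card_eq_one_iff_unique.1 h1).1
      exact hA.of_surjective (1 : Multiplicative (ZMod q) →* H)
        (fun h => ⟨1, Subsingleton.elim _ _⟩) hC
    obtain ⟨p, hp, hpH, hmax⟩ := exists_max_prime Nat.card_pos.ne' h1
    rcases (hbig p hp hpH).eq_or_lt with hqp | hqp
    · subst hqp
      exact hA.pGroup hq hC (isPGroup_of_big hbig hmax)
    have : Fact p.Prime := ⟨hp⟩
    have : Fact q.Prime := ⟨hq⟩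
    have : NeZero q := ⟨hq.ne_zero⟩
    obtain ⟨U, hU⟩ := hT.2.2 p
    have hUn := hU.normal
    obtain ⟨E, F, hE, hF, hEF⟩ := hle (W q H) (W_solvable hT.2.1)
    replace hE := hE.toProj' hA.iso
    replace hF := hF.toProj' isSchunck_T.iso
    set f : W q H →* H := SemidirectProduct.rightHom with hf
    have hfs : Surjective f := SemidirectProduct.rightHom_surjective
    have hFtop : F.map f = ⊤ :=
      ((hF H f hfs).2 ⊤ le_top (T.of_injective (Subgroup.subtype ⊤) Subtype.coe_injective hT)).symm
    set E₁ := E.map f with hE₁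
    have key : U ≤ E₁ := by
      by_contra hUE
      -- indicator function of E₁
      classical
      let f₁ : Base q H := fun x => if x ∈ E₁ then Multiplicative.ofAdd 1 else 1
      have hf₁E : ∀ h ∈ E₁, act q H h f₁ = f₁ := by
        intro h hh
        funext x
        rw [act_apply]
        have : h⁻¹ * x ∈ E₁ ↔ x ∈ E₁ := by
          constructor
          · intro h2
            have := E₁.mul_mem hh h2
            rwa [mul_inv_cancel_left] at this
          · intro h2
            exact E₁.mul_mem (E₁.inv_mem hh) h2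
        simp only [f₁, this]
      have hf₁U : (SemidirectProduct.inl f₁ : W q H) ∉ fixedSub q U := by
        rw [inl_mem_fixedSub]
        intro h
        apply hUE
        intro u hu
        by_contra huE
        have h2 := congrFun (h u hu) u
        rw [act_apply] at h2
        simp only [f₁, inv_mul_cancel, E₁.one_mem, if_true, huE, if_false] at h2
        have h3 : (1 : ZMod q) = 0 := h2
        exact one_ne_zero h3
      set Z := fixedSub q U with hZ
      set π := QuotientGroup.mk' Z with hπ
      have hπs : Surjective π := QuotientGroup.mk'_surjective Z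
      set c := π (SemidirectProduct.inl f₁) with hc
      have hc1 : c ≠ 1 := by
        intro h
        apply hf₁U
        rw [hc, hπ, QuotientGroup.mk'_apply, QuotientGroup.eq_one_iff] at h
        exact h
      have hcq : orderOf c = q := by
        apply orderOf_eq_prime _ hc1
        rw [hc, ← map_pow, ← map_pow, base_pow, map_one, map_one]
      have hcomm : ∀ e ∈ E.map π, e * c = c * e := by
        rintro _ ⟨e, he, rfl⟩
        rw [hc, ← map_mul, ← map_mul]
        congr 1
        have h2 := W_conj e f₁
        have h3 : f e ∈ E₁ := ⟨e, he, rfl⟩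
        rw [hf₁E _ h3] at h2
        exact mul_inv_eq_iff_eq_mul.1 h2
      have hsW : Group.IsSolvable (W q H) := W_solvable hT.2.1
      have h4 := adjoin_mem_class hA hq hC (inferInstance : Group.IsSolvable (W q H ⧸ Z))
        (E.map π) c hcomm hcq (hE _ π hπs).1
      have h5 := (hE _ π hπs).2 _ (fun e he => mem_adjoin.2 ⟨e, he, 0, by simp⟩) h4
      have h6 : c ∈ E.map π := by
        rw [← h5]; exact mem_adjoin.2 ⟨1, one_mem _, 1, by simp⟩
      obtain ⟨e, he, hec⟩ := h6
      rw [hc, hπ, QuotientGroup.mk'_apply, QuotientGroup.mk'_apply, QuotientGroup.eq] at hec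
      -- e ∈ ker f
      obtain ⟨m, hm, hme⟩ := mem_fixedSub.1 hec
      have h7 : e ∈ f.ker := by
        have : e = SemidirectProduct.inl f₁ * (SemidirectProduct.inl m)⁻¹ := by
          rw [hme]; group
        rw [this, MonoidHom.mem_ker, map_mul, map_inv, hf, SemidirectProduct.rightHom_inl,
          SemidirectProduct.rightHom_inl, inv_one, mul_one]
      have h8 : e ∈ Z := base_fixed hq hqp U hU F hF.self hFtop e (hEF he) h7
      apply hf₁U
      have := Z.mul_mem h8 hec
      rwa [mul_inv_cancel_left] at this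
    have hQ : A (H ⧸ U) := by
      apply ih
      · have h2 := exists_pos_of_index hp hU hpH
        have h3 : Nat.card (H ⧸ U) = U.index := rfl
        omega
      · exact hT.of_surjective _ (QuotientGroup.mk'_surjective U)
      · exact hbig.dvd (card_dvd_of_surjective _ (QuotientGroup.mk'_surjective U))
    set g := (QuotientGroup.mk' U).comp f with hg
    have hgs : Surjective g := (QuotientGroup.mk'_surjective U).comp hfs
    have h2 : E.map g = ⊤ := ((hE _ g hgs).2 ⊤ le_top
      (hA.iso _ _ ⟨Subgroup.topEquiv.symm⟩ hQ)).symm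
    have h3 : E₁ = ⊤ := by
      rw [hg, ← Subgroup.map_map] at h2
      have h4 : (E₁.map (QuotientGroup.mk' U)).comap (QuotientGroup.mk' U) = E₁ :=
        Subgroup.comap_map_eq_self (by rw [QuotientGroup.ker_mk']; exact key)
      rw [← h4, h2, Subgroup.comap_top]
    have h4 : A ↥E₁ := (hE _ f hfs).1
    rw [h3] at h4
    exact hA.iso _ _ ⟨Subgroup.topEquiv⟩ h4

end Pool.Agent.Helper33.Schunck
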