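import Pool.Agent.Helper33.Schunck5

set_option autoImplicit false

namespace Pool.Agent.Helper33.Schunck

open Function Subgroup

lemma exists_normal_pGroup (G : Type) [Group G] [Finite G] [Nontrivial G]
    (hs : Group.IsSolvable G) : ∃ (N : Subgroup G) (r : ℕ), N.Normal ∧ N ≠ ⊥ ∧ r.Prime ∧
      ∀ x ∈ N, orderOf x ∣ r := by
  classical
  have hex : ∃ n, derivedSeries G n = ⊥ := (Group.isSolvable_def G).1 hs
  set n := Nat.find hex with hn
  have hn1 : derivedSeries G n = ⊥ := Nat.find_spec hex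
  have hn0 : n ≠ 0 := by
    intro h0
    rw [h0, derivedSeries_zero] at hn1
    exact bot_ne_top hn1.symm
  obtain ⟨k, hk⟩ := Nat.exists_eq_succ_of_ne_zero hn0
  set D := derivedSeries G k with hD
  have hDne : D ≠ ⊥ := Nat.find_min hex (by omega)
  have hDcomm : ∀ x ∈ D, ∀ y ∈ D, Commute x y := by
    intro x hx y hy
    have h1 : ⁅D, D⁆ = ⊥ := by
      rw [← hn1, hk, derivedSeries_succ]
    have h2 := commutator_le.1 h1.le x hx y hy
    rw [mem_bot] at h2
    exact commutatorElement_eq_one_iff_commute.1 h2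
  have hc1 : Nat.card D ≠ 1 := by
    intro h
    exact hDne (Subgroup.card_eq_one.1 h)
  obtain ⟨r, hr, hrD⟩ := Nat.exists_prime_and_dvd hc1
  have : Fact r.Prime := ⟨hr⟩
  obtain ⟨x, hx⟩ := exists_prime_orderOf_dvd_card' r hrD
  refine ⟨{ carrier := {y | y ∈ D ∧ y ^ r = 1}
            one_mem' := ⟨D.one_mem, one_pow r⟩
            mul_mem' := ?_
            inv_mem' := ?_ }, r, ⟨?_⟩, ?_, hr, ?_⟩
  · rintro a b ⟨ha, ha'⟩ ⟨hb, hb'⟩
    exact ⟨D.mul_mem ha hb, by rw [(hDcomm a ha b hb).mul_pow, ha', hb', one_mul]⟩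
  · rintro a ⟨ha, ha'⟩
    exact ⟨D.inv_mem ha, by rw [inv_pow, ha', inv_one]⟩
  · rintro a ⟨ha, ha'⟩ g
    refine ⟨(inferInstance : D.Normal).conj_mem a ha g, ?_⟩
    rw [conj_pow, ha', mul_one, mul_inv_cancel]
  · intro h
    have hxx : (x : G) ∈ (⊥ : Subgroup G) := by
      rw [← h]
      refine ⟨x.2, ?_⟩
      have : x ^ r = 1 := by rw [← hx]; exact pow_orderOf_eq_one x
      have := congrArg (Subtype.val) this
      simpa using this
    rw [mem_bot] at hxx
    have : x = 1 := Subtype.ext hxx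
    rw [this, orderOf_one] at hx
    exact hr.ne_one hx.symm
  · rintro y ⟨_, hy⟩
    exact orderOf_dvd_of_pow_eq_one hy

/-- extension lemma -/
lemma T.of_sup {G : Type} [Group G] [Finite G] (hs : Group.IsSolvable G) {F : Type} [Group F]
    (i : F →* G) (hi : Injective i) (C : Subgroup G) [C.Normal] (hsup : i.range ⊔ C = ⊤)
    {r : ℕ} (hr : r.Prime) (hC : IsPGroup r C) (hF : T F) (P : Subgroup F) (hP : Hall (r + 1) P)
    (hcomm : ∀ x ∈ P, ∀ c ∈ C, i x * c = c * i x) : T G := by
  have : Fact r.Prime := ⟨hr⟩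
  obtain ⟨k, hk⟩ := IsPGroup.iff_card.1 hC
  have hFfin : Finite F := hF.1
  refine ⟨inferInstance, hs, fun n => ?_⟩
  rcases le_or_gt n r with hn | hn
  · have hTQ : T (G ⧸ C) := by
      refine hF.of_surjective ((QuotientGroup.mk' C).comp i) ?_
      intro y
      obtain ⟨g, rfl⟩ := QuotientGroup.mk'_surjective C y
      have hg : g ∈ i.range ⊔ C := hsup ▸ mem_top g
      rw [mem_sup_of_normal_right] at hg
      obtain ⟨_, ⟨a, rfl⟩, c, hc, rfl⟩ := hg
      refine ⟨a, ?_⟩
      rw [MonoidHom.comp_apply, map_mul, (QuotientGroup.eq_one_iff c).2 hc |> fun h => (show (QuotientGroup.mk' C) c = 1 from h), mul_one]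
    obtain ⟨H, hH⟩ := hTQ.2.2 n
    have := hH.normal
    refine ⟨H.comap (QuotientGroup.mk' C), inferInstance, ?_, ?_⟩
    · have e1 := card_mul_index (H.comap (QuotientGroup.mk' C))
      rw [index_comap_of_surjective _ (QuotientGroup.mk'_surjective C), ← card_mul_index C] at e1
      have e2 : Nat.card H * H.index = C.index := card_mul_index H
      rw [← e2, ← mul_assoc] at e1
      have e3 := Nat.eq_of_mul_eq_mul_right (Nat.pos_of_ne_zero H.index_ne_zero_of_finite) e1
      rw [e3]
      exact (hk ▸ big_prime_pow hr hn).mul hH.big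
    · rw [index_comap_of_surjective _ (QuotientGroup.mk'_surjective C)]
      exact hH.small
  · obtain ⟨H, hH⟩ := hF.2.2 n
    have hHn := hH.normal
    have hHP : H ≤ P := hP.le (hH.big.mono hn)
    refine ⟨H.map i, ⟨?_⟩, hH.big.dvd (card_map_dvd H i), ?_⟩
    · rintro _ ⟨x, hx, rfl⟩ g
      have hg : g ∈ i.range ⊔ C := hsup ▸ mem_top g
      rw [mem_sup_of_normal_right] at hg
      obtain ⟨_, ⟨a, rfl⟩, c, hc, rfl⟩ := hg
      have h1 : i a * c * i x * (i a * c)⁻¹ = i (a * x * a⁻¹) := by
        rw [mul_assoc (i a) c (i x), ← hcomm x (hHP hx) c hc]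
        rw [map_mul, map_mul, map_inv]
        group
      rw [h1]
      exact ⟨_, hHn.conj_mem x hx a, rfl⟩
    · rw [index_map, (MonoidHom.ker_eq_bot_iff i).2 hi, sup_bot_eq]
      refine hH.small.mul ?_
      have e1 : C.relIndex (i.range ⊔ C) = C.relIndex i.range := relIndex_sup_right _ _
      rw [hsup, relIndex_top_right] at e1
      have e2 : Nat.card i.range * i.range.index = Nat.card C * C.index := by
        rw [card_mul_index, card_mul_index]
      have e3 : Nat.card (C.subgroupOf i.range) * C.relIndex i.range = Nat.card i.range :=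
        card_mul_index _
      rw [← e3, e1] at e2
      have e4 : Nat.card (C.subgroupOf i.range) * i.range.index = Nat.card C := by
        have hpos : 0 < C.relIndex i.range := by
          rw [← e1]; exact Nat.pos_of_ne_zero index_ne_zero_of_finite
        apply Nat.eq_of_mul_eq_mul_right hpos
        rw [← e2]; ring
      have e5 : i.range.index ∣ r ^ k := by
        rw [← hk, ← e4]; exact Dvd.intro_left _ rfl
      exact (small_prime_pow hr hn).dvd e5

end Pool.Agent.Helper33.Schunck
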