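import Pool.Agent.Helper33.Schunck6

set_option autoImplicit false

namespace Pool.Agent.Helper33.Schunck

open Function Subgroup

lemma isPGroup_of_orderOf {G : Type} [Group G] {r : ℕ} {N : Subgroup G}
    (h : ∀ x ∈ N, orderOf x ∣ r) : IsPGroup r N := by
  intro x
  refine ⟨1, ?_⟩
  rw [pow_one]
  have := orderOf_dvd_iff_pow_eq_one.1 (h x x.2)
  exact Subtype.ext (by simpa using this)

theorem step4 (m : ℕ) (n : ℕ) : ∀ (G : Type) [Group G] [Finite G], Nat.card G ≤ n →
    Group.IsSolvable G → ∀ F : Subgroup G, IsProj' T F → ∀ S : Subgroup F, Hall m S →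
    ∀ Y : Subgroup G, S.map F.subtype ≤ Y → T Y → Big m (Nat.card Y) →
      Y = S.map F.subtype := by
  induction n with
  | zero =>
    intro G _ _ h
    exact absurd h (by have := Nat.card_pos (α := G); omega)
  | succ n ih =>
    intro G _ _ hcard hs F hF S hS Y hSY hTY hY
    by_cases h1 : Nat.card G = 1
    · have : Subsingleton G := (Nat.card_eq_one_iff_unique.1 h1).1
      exact Subsingleton.elim _ _
    have hnt : Nontrivial G := by
      rw [← Finite.one_lt_card_iff_nontrivial]
      have := Nat.card_pos (α := G)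
      omega
    obtain ⟨N, r, hNn, hNne, hr, hNr⟩ := exists_normal_pGroup G hs
    set f := QuotientGroup.mk' N with hf
    have hfs : Surjective f := QuotientGroup.mk'_surjective N
    have hcardQ : Nat.card (G ⧸ N) ≤ n := by
      have e1 : Nat.card N * N.index = Nat.card G := card_mul_index N
      have e2 : 1 < Nat.card N := (Subgroup.one_lt_card_iff_ne_bot N).2 hNne
      have e3 : 0 < N.index := Nat.pos_of_ne_zero index_ne_zero_of_finite
      have e4 : Nat.card (G ⧸ N) = N.index := rfl
      rw [e4]; nlinarith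
    have hmapmap : (S.map (f.subgroupMap F)).map (F.map f).subtype = (S.map F.subtype).map f := by
      rw [Subgroup.map_map, Subgroup.map_map]
      congr 1
    have hIH := ih (G ⧸ N) hcardQ inferInstance (F.map f) (hF.map f hfs) (S.map (f.subgroupMap F))
      (hS.map _ (f.subgroupMap_surjective F)) (Y.map f)
      (by rw [hmapmap]; exact Subgroup.map_mono hSY)
      (hTY.of_surjective _ (f.subgroupMap_surjective Y))
      (hY.dvd (card_map_dvd Y f))
    rw [hmapmap] at hIH
    have hdec : ∀ y ∈ Y, ∃ s ∈ S.map F.subtype, s⁻¹ * y ∈ N ∧ s⁻¹ * y ∈ Y := by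
      intro y hy
      have h2 : f y ∈ (S.map F.subtype).map f := hIH ▸ ⟨y, hy, rfl⟩
      obtain ⟨s, hs, hsy⟩ := h2
      refine ⟨s, hs, ?_, Y.mul_mem (Y.inv_mem (hSY hs)) hy⟩
      rw [hf, QuotientGroup.mk'_apply, QuotientGroup.mk'_apply, QuotientGroup.eq] at hsy
      exact hsy
    refine le_antisymm ?_ hSY
    suffices hNY : ∀ z ∈ N, z ∈ Y → z ∈ S.map F.subtype by
      intro y hy
      obtain ⟨s, hs, hN, hYY⟩ := hdec y hy
      have := (S.map F.subtype).mul_mem hs (hNY _ hN hYY)
      rwa [mul_inv_cancel_left] at this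
    intro z hzN hzY
    rcases lt_or_ge r m with hrm | hrm
    · have h2 : orderOf z ∣ Nat.card Y := Subgroup.orderOf_dvd_natCard Y hzY
      have h3 : orderOf z = 1 := by
        apply eq_one_of_big_small (hY.dvd h2)
        apply Small.dvd _ (hNr z hzN)
        have := small_prime_pow (k := 1) hr hrm
        rwa [pow_one] at this
      rw [orderOf_eq_one_iff] at h3
      rw [h3]; exact one_mem _
    · obtain ⟨P, hP⟩ := hF.self.2.2 (r + 1)
      obtain ⟨PY, hPY⟩ := hTY.2.2 (r + 1)
      have hPn := hP.normal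
      have hPYn := hPY.normal
      have hPS : P ≤ S := hS.le (hP.big.mono (by omega))
      have hPG : ∀ x ∈ P, ((x : F) : G) ∈ Y := fun x hx => hSY ⟨x, hPS hx, rfl⟩
      have hcommY : ∀ x ∈ P, ∀ y ∈ N, y ∈ Y → ((x : F) : G) * y = y * ((x : F) : G) := by
        intro x hx y hyN hyY
        set x' : Y := ⟨x, hPG x hx⟩ with hx'
        set y' : Y := ⟨y, hyY⟩ with hy'
        have hx'P : x' ∈ PY := by
          apply hPY.mem
          have e1 : orderOf x' = orderOf x := by
            rw [← Subgroup.orderOf_coe x', ← Subgroup.orderOf_coe x]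
          rw [e1]
          exact hP.big.dvd (Subgroup.orderOf_dvd_natCard P hx)
        have h2 : x' * y' * x'⁻¹ * y'⁻¹ ∈ PY := by
          have := PY.mul_mem hx'P (hPYn.conj_mem x'⁻¹ (PY.inv_mem hx'P) y')
          simpa only [mul_assoc] using this
        have h3 : ((x' * y' * x'⁻¹ * y'⁻¹ : Y) : G) ∈ N := by
          have e1 : ((x' * y' * x'⁻¹ * y'⁻¹ : Y) : G) = (x : G) * y * (x : G)⁻¹ * y⁻¹ := rfl
          rw [e1]
          exact N.mul_mem (hNn.conj_mem y hyN _) (N.inv_mem hyN)
        have h4 : orderOf (x' * y' * x'⁻¹ * y'⁻¹) = 1 := by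
          apply eq_one_of_big_small (n := r + 1)
            (hPY.big.dvd (Subgroup.orderOf_dvd_natCard PY h2))
          have e1 := hNr _ h3
          rw [Subgroup.orderOf_coe] at e1
          apply Small.dvd _ e1
          have := small_prime_pow (k := 1) hr (Nat.lt_succ_self r)
          rwa [pow_one] at this
        rw [orderOf_eq_one_iff, mul_inv_eq_one, mul_inv_eq_iff_eq_mul] at h4
        exact congrArg Subtype.val h4
      -- the centraliser
      set C : Subgroup G := N ⊓ centralizer (P.map F.subtype : Set G) with hC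
      have hCmem : ∀ c, c ∈ C ↔ c ∈ N ∧ ∀ x ∈ P, (x : G) * c = c * x := by
        intro c
        rw [hC, mem_inf, mem_centralizer_iff]
        refine and_congr_right fun _ => ⟨fun h x hx => h _ ⟨x, hx, rfl⟩, ?_⟩
        rintro h _ ⟨x, hx, rfl⟩
        exact h x hx
      have hzC : z ∈ C := (hCmem z).2 ⟨hzN, fun x hx => hcommY x hx z hzN hzY⟩
      have hFnorm : ∀ g ∈ F, ∀ c ∈ C, g * c * g⁻¹ ∈ C := by
        intro g hg c hc
        rw [hCmem] at hc ⊢
        obtain ⟨hcN, hcc⟩ := hc
        refine ⟨hNn.conj_mem c hcN g, fun x hx => ?_⟩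
        have h2 : (⟨g, hg⟩ : F)⁻¹ * x * ⟨g, hg⟩ ∈ P := by
          have := hPn.conj_mem x hx (⟨g, hg⟩ : F)⁻¹
          rwa [inv_inv] at this
        have h3 : (g⁻¹ * x * g) * c = c * (g⁻¹ * x * g) := hcc _ h2
        calc (x : G) * (g * c * g⁻¹) = g * ((g⁻¹ * x * g) * c) * g⁻¹ := by group
          _ = g * (c * (g⁻¹ * x * g)) * g⁻¹ := by rw [h3]
          _ = g * c * g⁻¹ * x := by group
      have hTsup : T ↥(F ⊔ C) := by
        have hCn : (C.subgroupOf (F ⊔ C)).Normal := by
          rw [normal_subgroupOf_iff_le_normalizer le_sup_right]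
          refine sup_le ?_ le_normalizer
          intro g hg
          rw [mem_normalizer_iff]
          intro c
          constructor
          · exact fun hc => hFnorm g hg c hc
          · intro hc
            have := hFnorm g⁻¹ (F.inv_mem hg) _ hc
            simpa [mul_assoc] using this
        have hCp : IsPGroup r (C.subgroupOf (F ⊔ C)) := by
          apply isPGroup_of_orderOf
          intro x hx
          rw [← Subgroup.orderOf_coe]
          exact hNr _ ((hCmem _).1 (mem_subgroupOf.1 hx)).1
        refine T.of_sup inferInstance (inclusion (le_sup_left : F ≤ F ⊔ C))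
          (inclusion_injective _) (C.subgroupOf (F ⊔ C)) ?_ hr hCp hF.self P hP ?_
        · rw [inclusion_range, ← subgroupOf_sup le_sup_left le_sup_right, subgroupOf_self]
        · intro x hx c hc
          exact Subtype.ext (((hCmem _).1 (mem_subgroupOf.1 hc)).2 x hx)
      have hFC : F ⊔ C = F := hF.max _ le_sup_left hTsup
      have hzF : z ∈ F := by
        rw [← hFC]; exact (le_sup_right : C ≤ F ⊔ C) hzC
      refine ⟨⟨z, hzF⟩, ?_, rfl⟩
      apply hS.mem
      rw [← Subgroup.orderOf_coe]
      apply Big.dvd _ (hNr z hzN)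
      have := big_prime_pow (k := 1) hr hrm
      rwa [pow_one] at this

end Pool.Agent.Helper33.Schunck
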