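import Pool.Agent.Helper33.Schunck7

set_option autoImplicit false

namespace Pool.Agent.Helper33.Schunck

open Function Subgroup

lemma T.of_pGroup {G : Type} [Group G] [Finite G] {r : ℕ} (hr : r.Prime) (h : IsPGroup r G) :
    T G := by
  have : Fact r.Prime := ⟨hr⟩
  have hnil : Group.IsNilpotent G := h.isNilpotent
  obtain ⟨k, hk⟩ := IsPGroup.iff_card.1 h
  refine T.of_ext (⊤ : Subgroup G) hr (h.to_subgroup ⊤) ?_ (T.of_card_one ?_)
  · intro p hp hpG
    rw [hk] at hpG
    exact ((Nat.prime_dvd_prime_iff_eq hp hr).1 (hp.dvd_of_dvd_pow hpG)).le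
  · exact Subgroup.index_top

lemma le_sub {A : (G : Type) → [Group G] → Prop} (hA : IsSchunck A) (hle : Le A T)
    {G : Type} [Group G] (h : A G) : T G := by
  obtain ⟨hfin, hs⟩ := hA.fs G h
  obtain ⟨E, F, hE, hF, hEF⟩ := hle G hs
  replace hE := hE.toProj' hA.iso
  replace hF := hF.toProj' isSchunck_T.iso
  have h1 : ⊤ = E := hE.max ⊤ le_top (hA.iso _ _ ⟨Subgroup.topEquiv.symm⟩ h)
  have h2 : F = ⊤ := by rw [eq_top_iff, h1]; exact hEF
  have h3 := hF.self
  rw [h2] at h3
  exact isSchunck_T.iso _ _ ⟨Subgroup.topEquiv⟩ h3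

/-- no atom of the lattice lies below `T` -/
theorem main (A : (G : Type) → [Group G] → Prop) (hA : IsSchunck A)
    (hAnt : ∃ (G : Type) (_ : Group G), A G ∧ Nontrivial G)
    (hmin : ∀ B : (G : Type) → [Group G] → Prop, IsSchunck B → Le B A →
      (∀ (G : Type) [Group G], B G → Subsingleton G) ∨ (∀ (G : Type) [Group G], B G ↔ A G))
    (hle : Le A T) : False := by
  classical
  have hprime : ∀ (G : Type) [Group G], A G → Nontrivial G → ∃ r : ℕ, r.Prime ∧
      r ∣ Nat.card G ∧ A (Multiplicative (ZMod r)) := by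
    intro G _ hG hnt
    obtain ⟨hfin, hs⟩ := hA.fs G hG
    obtain ⟨N, hN, hNp, _⟩ := exists_prime_quotient G hs
    refine ⟨N.index, hNp, index_dvd_card N, ?_⟩
    exact hA.zmod_of_card_prime hNp (Y := G ⧸ N) rfl (hA.quot G N hG)
  have hex : ∃ q : ℕ, q.Prime ∧ A (Multiplicative (ZMod q)) := by
    obtain ⟨G, _, hG, hnt⟩ := hAnt
    obtain ⟨r, hr, _, hC⟩ := hprime G hG hnt
    exact ⟨r, hr, hC⟩
  set q := Nat.find hex with hqdef
  obtain ⟨hq, hC⟩ : q.Prime ∧ A (Multiplicative (ZMod q)) := Nat.find_spec hex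
  have hqmin : ∀ r : ℕ, r.Prime → A (Multiplicative (ZMod r)) → q ≤ r :=
    fun r hr hrA => Nat.find_min' hex ⟨hr, hrA⟩
  have hbigA : ∀ (G : Type) [Group G], A G → Big q (Nat.card G) := by
    intro G _ hG r hr hrG
    by_contra hlt
    push Not at hlt
    have hT : T G := le_sub hA hle hG
    have hfin : Finite G := hT.1
    obtain ⟨S, hS⟩ := hT.2.2 q
    have hSn := hS.normal
    have h1 : r ∣ Nat.card S * S.index := by rw [card_mul_index]; exact hrG
    have h2 : r ∣ S.index := by
      rcases hr.dvd_mul.1 h1 with h | h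
      · exact absurd (hS.big r hr h) (by omega)
      · exact h
    have hnt : Nontrivial (G ⧸ S) := by
      rw [← Finite.one_lt_card_iff_nontrivial]
      have h3 : Nat.card (G ⧸ S) = S.index := rfl
      rw [h3]
      exact lt_of_lt_of_le hr.one_lt (Nat.le_of_dvd (Nat.pos_of_ne_zero index_ne_zero_of_finite) h2)
    obtain ⟨r', hr', hr'S, hr'A⟩ := hprime (G ⧸ S) (hA.quot G S hG) hnt
    have h4 := hS.small r' hr' hr'S
    have h5 := hqmin r' hr' hr'A
    omega
  have hAT : ∀ (G : Type) [Group G], T G → Big q (Nat.card G) → A G :=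
    fun G _ hT hb => step3 hA hle hq hC (Nat.card G) G le_rfl hT hb
  obtain ⟨m, hqm, hm⟩ := Nat.exists_infinite_primes (q + 1)
  -- the smaller class
  let B : (G : Type) → [Group G] → Prop := fun G _ => T G ∧ Big m (Nat.card G)
  have hB : IsSchunck B := by
    refine ⟨fun G _ h => ⟨h.1.1, h.1.2.1⟩, ?_, ?_, ?_⟩
    · rintro G H _ _ ⟨e⟩ ⟨h1, h2⟩
      exact ⟨isSchunck_T.iso _ _ ⟨e⟩ h1, by rwa [← Nat.card_congr e.toEquiv]⟩
    · rintro G _ N _ ⟨h1, h2⟩
      have := h1.1
      exact ⟨isSchunck_T.quot G N h1,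
        h2.dvd (card_dvd_of_surjective _ (QuotientGroup.mk'_surjective N))⟩
    · intro G _ _ hs hprim
      have hT : T G := isSchunck_T.prim G hs (fun N _ h => (hprim N h).1)
      refine ⟨hT, ?_⟩
      intro r hr hrG
      by_contra hlt
      push Not at hlt
      obtain ⟨S, hS⟩ := hT.2.2 m
      have hSn := hS.normal
      have h1 : r ∣ Nat.card S * S.index := by rw [card_mul_index]; exact hrG
      have h2 : r ∣ S.index := by
        rcases hr.dvd_mul.1 h1 with h | h
        · exact absurd (hS.big r hr h) (by omega)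
        · exact h
      have hnt : Nontrivial (G ⧸ S) := by
        rw [← Finite.one_lt_card_iff_nontrivial]
        have h3 : Nat.card (G ⧸ S) = S.index := rfl
        rw [h3]
        exact lt_of_lt_of_le hr.one_lt
          (Nat.le_of_dvd (Nat.pos_of_ne_zero index_ne_zero_of_finite) h2)
      obtain ⟨N, hN, hNp, hNc⟩ := exists_prime_quotient (G ⧸ S) inferInstance
      -- pull back to a normal subgroup of G
      let N' : Subgroup G := N.comap (QuotientGroup.mk' S)
      have hN'n : N'.Normal := Subgroup.Normal.comap hN _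
      have hN'i : N'.index = N.index :=
        index_comap_of_surjective _ (QuotientGroup.mk'_surjective S)
      have hbot : IsCoatom (⊥ : Subgroup (G ⧸ N')) := by
        have hc : Nat.card (G ⧸ N') = N.index := hN'i
        have hp : Fact (N.index).Prime := ⟨hNp⟩
        have hntr : Nontrivial (G ⧸ N') := by
          rw [← Finite.one_lt_card_iff_nontrivial, hc]; exact hNp.one_lt
        refine ⟨bot_ne_top, fun K hK => ?_⟩
        have hKd : Nat.card K ∣ N.index := by rw [← hc]; exact card_subgroup_dvd_card K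
        rcases (Nat.dvd_prime hNp).1 hKd with h | h
        · exact absurd (Subgroup.card_eq_one.1 h) hK.ne'
        · exact Subgroup.eq_top_of_card_eq K (by rw [h, hc])
      have h6 := (hprim N' ⟨⊥, hbot, le_bot_iff.1 (normalCore_le _)⟩).2
      have h7 : m ≤ N.index := h6 N.index hNp (by
        have : Nat.card (G ⧸ N') = N.index := hN'i
        rw [this])
      have h8 : N.index < m := hS.small _ hNp (by
        have : Nat.card (G ⧸ S) = S.index := rfl
        rw [← this]; exact index_dvd_card N)
      omega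
  have hBA : Le B A := by
    intro G _ _ hs
    obtain ⟨E, F, hE0, hF, hEF⟩ := hle G hs
    have hE := hE0.toProj' hA.iso
    replace hF := hF.toProj' isSchunck_T.iso
    obtain ⟨S, hS⟩ := hF.self.2.2 m
    obtain ⟨Sq, hSq⟩ := hF.self.2.2 q
    refine ⟨S.map F.subtype, E, ?_, hE0, ?_⟩
    · apply IsProj'.toProj
      intro Q _ f hf
      have hfinQ : Finite Q := Finite.of_surjective f hf
      have hsQ : Group.IsSolvable Q := Group.isSolvable_of_surjective hf
      have hT1 : T ↥(S.map F.subtype) := by
        have hle' : S.map F.subtype ≤ F := by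
          rintro _ ⟨x, _, rfl⟩; exact x.2
        exact hF.self.of_injective (inclusion hle') (inclusion_injective _)
      refine ⟨⟨hT1.of_surjective _ (f.subgroupMap_surjective _), ?_⟩, ?_⟩
      · exact (hS.big.dvd (card_map_dvd S F.subtype)).dvd (card_map_dvd _ f)
      · rintro K hK ⟨hKT, hKb⟩
        have hmapmap : (S.map (f.subgroupMap F)).map (F.map f).subtype =
            (S.map F.subtype).map f := by
          rw [Subgroup.map_map, Subgroup.map_map]
          congr 1
        have := step4 m (Nat.card Q) Q le_rfl hsQ (F.map f) (hF.map f hf)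
          (S.map (f.subgroupMap F)) (hS.map _ (f.subgroupMap_surjective F)) K
          (by rw [hmapmap]; exact hK) hKT hKb
        rw [this, hmapmap]
    · have hle' : Sq.map F.subtype ≤ F := by
        rintro _ ⟨x, _, rfl⟩; exact x.2
      have h1 : A ↥(Sq.map F.subtype) := by
        apply hAT
        · exact hF.self.of_injective (inclusion hle') (inclusion_injective _)
        · exact hSq.big.dvd (card_map_dvd Sq F.subtype)
      have h2 : E ≤ Sq.map F.subtype := by
        intro x hx
        refine ⟨⟨x, hEF hx⟩, hSq.mem ?_, rfl⟩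
        rw [← Subgroup.orderOf_coe]
        exact (hbigA _ hE.self).dvd (Subgroup.orderOf_dvd_natCard E hx)
      have h3 : Sq.map F.subtype = E := hE.max _ h2 h1
      rw [← h3]
      exact Subgroup.map_mono (hSq.le (hS.big.mono (by omega)))
  have : Fact m.Prime := ⟨hm⟩
  have : Fact q.Prime := ⟨hq⟩
  have hBm : B (Multiplicative (ZMod m)) := by
    have hc : Nat.card (Multiplicative (ZMod m)) = m := by simp
    refine ⟨T.of_pGroup hm (IsPGroup.of_card (n := 1) (by rw [hc, pow_one])), ?_⟩
    rw [hc]
    have := big_prime_pow (k := 1) hm (le_refl m)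
    rwa [pow_one] at this
  rcases hmin B hB hBA with h | h
  · have h1 := h _ hBm
    have h2 : Nontrivial (Multiplicative (ZMod m)) := inferInstance
    exact absurd h1 (not_subsingleton _)
  · have h1 := ((h _).2 hC).2 q hq (by simp)
    omega

end Pool.Agent.Helper33.Schunck
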