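import Mathlib

/-!
Helper file for `MP_69eae4_al`: two involutions can be simultaneously two-coloured.
-/

namespace Helper33.Toric

open Function

/-- Two fixed-point-free involutions can be simultaneously two-coloured. -/
theorem exists_coloring_fpf {α : Type*} (φ ψ : Equiv.Perm α)
    (hφ : ∀ x, φ (φ x) = x) (hψ : ∀ x, ψ (ψ x) = x)
    (hφ' : ∀ x, φ x ≠ x) (hψ' : ∀ x, ψ x ≠ x) :
    ∃ χ : α → Bool, (∀ x, χ (φ x) = !χ x) ∧ (∀ x, χ (ψ x) = !χ x) := by
  classical
  set r : Equiv.Perm α := φ * ψ with hr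
  have hφφ : φ * φ = 1 := by ext x; simp [hφ]
  have hψψ : ψ * ψ = 1 := by ext x; simp [hψ]
  have hφinv : φ⁻¹ = φ := inv_eq_of_mul_eq_one_left hφφ
  have hψinv : ψ⁻¹ = ψ := inv_eq_of_mul_eq_one_left hψψ
  have hconj : φ * r * φ⁻¹ = r⁻¹ := by
    rw [hr, mul_inv_rev, hφinv, hψinv, ← mul_assoc φ φ ψ, hφφ, one_mul]
  have hpow : ∀ (m : ℤ) (x : α), φ ((r ^ m) x) = (r ^ (-m)) (φ x) := by
    intro m x
    have h1 : φ * r ^ m * φ⁻¹ = r ^ (-m) := by
      rw [← conj_zpow, hconj, inv_zpow, zpow_neg]
    have h2 : φ * r ^ m = r ^ (-m) * φ := by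
      rw [← h1]; group
    exact DFunLike.congr_fun h2 x
  have hψr : ∀ x, ψ x = φ (r x) := by
    intro x
    simp [hr, hφ]
  -- a point is never in the same cycle as its image under `φ`
  have hne : ∀ x, ¬ r.SameCycle x (φ x) := by
    rintro x ⟨m, hm⟩
    rcases Int.even_or_odd' m with ⟨k, hk | hk⟩
    · apply hφ' ((r ^ k) x)
      rw [hpow, ← hm, ← Equiv.Perm.mul_apply, ← zpow_add]
      congr 2
      omega
    · apply hψ' ((r ^ k) x)
      have h3 : r ((r ^ k) x) = (r ^ (1 + k)) x := by rw [zpow_one_add]; rfl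
      rw [hψr, h3, hpow, ← hm, ← Equiv.Perm.mul_apply, ← zpow_add]
      congr 2
      omega
  have hsame : ∀ x y, r.SameCycle x y → r.SameCycle (φ x) (φ y) := by
    rintro x y ⟨m, hm⟩
    exact ⟨-m, by rw [← hpow, hm]⟩
  let rep : α → α := fun x => (Quotient.mk (Equiv.Perm.SameCycle.setoid r) x).out
  have hrep : ∀ x y, r.SameCycle x y → rep x = rep y := by
    intro x y hxy
    have : (Quotient.mk (Equiv.Perm.SameCycle.setoid r) x) =
        Quotient.mk (Equiv.Perm.SameCycle.setoid r) y := Quotient.sound hxy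
    simp only [rep, this]
  have hrep' : ∀ x, r.SameCycle (rep x) x := by
    intro x
    exact Quotient.mk_out (s := Equiv.Perm.SameCycle.setoid r) x
  have hrepne : ∀ x, rep x ≠ rep (φ x) := by
    intro x hx
    apply hne x
    have h1 := hrep' x
    have h2 := hrep' (φ x)
    rw [← hx] at h2
    exact h1.symm.trans h2
  have hφrep : ∀ x, rep (φ (φ x)) = rep x := fun x => by rw [hφ]
  refine ⟨fun x => decide (WellOrderingRel (rep x) (rep (φ x))), ?_, ?_⟩
  · intro x
    simp only [hφ]
    rcases trichotomous_of (WellOrderingRel (α := α)) (rep x) (rep (φ x)) with h | h | h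
    · have h' : ¬ WellOrderingRel (rep (φ x)) (rep x) := asymm_of _ h
      simp [h, h']
    · exact absurd h (hrepne x)
    · have h' : ¬ WellOrderingRel (rep x) (rep (φ x)) := asymm_of _ h
      simp [h, h']
  · intro x
    have e1 : rep (ψ x) = rep (φ x) := by
      apply hrep
      rw [hψr]
      apply hsame
      exact ⟨-1, by simp⟩
    have e2 : rep (φ (ψ x)) = rep x := by
      apply hrep
      have : φ (ψ x) = r x := rfl
      rw [this]
      exact ⟨-1, by simp⟩
    simp only [e1, e2]
    rcases trichotomous_of (WellOrderingRel (α := α)) (rep x) (rep (φ x)) with h | h | h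
    · have h' : ¬ WellOrderingRel (rep (φ x)) (rep x) := asymm_of _ h
      simp [h, h']
    · exact absurd h (hrepne x)
    · have h' : ¬ WellOrderingRel (rep x) (rep (φ x)) := asymm_of _ h
      simp [h, h']

/-- Two involutions can be simultaneously two-coloured (a fixed point is not constrained). -/
theorem exists_coloring {α : Type*} (φ ψ : α → α)
    (hφ : Involutive φ) (hψ : Involutive ψ) :
    ∃ χ : α → Bool, (∀ x, φ x ≠ x → χ (φ x) = !χ x) ∧ (∀ x, ψ x ≠ x → χ (ψ x) = !χ x) := by
  classical
  let D : (α → α) → α × Bool → α × Bool := fun f p => if f p.1 = p.1 then (p.1, !p.2) else (f p.1, p.2)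
  have hD : ∀ f : α → α, Involutive f → Involutive (D f) := by
    intro f hf p
    by_cases h : f p.1 = p.1
    · simp [D, h]
    · have h' : ¬ f (f p.1) = f p.1 := by
        rw [hf]; exact fun h2 => h h2.symm
      simp only [D, h, h', if_false]
      rw [hf]
  have hD' : ∀ f : α → α, ∀ p, D f p ≠ p := by
    intro f p
    by_cases h : f p.1 = p.1
    · simp only [D, h, if_true]
      intro h2
      have := congrArg Prod.snd h2
      simp at this
    · simp only [D, h, if_false]
      intro h2
      exact h (congrArg Prod.fst h2)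
  obtain ⟨χ, h1, h2⟩ := exists_coloring_fpf (hD φ hφ).toPerm (hD ψ hψ).toPerm
    (fun x => hD φ hφ x) (fun x => hD ψ hψ x) (fun x => hD' φ x) (fun x => hD' ψ x)
  refine ⟨fun x => χ (x, true), ?_, ?_⟩
  · intro x hx
    have := h1 (x, true)
    simpa [D, hx] using this
  · intro x hx
    have := h2 (x, true)
    simpa [D, hx] using this

end Helper33.Toric
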