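import Pool.Agent.Helper33.Toric1

/-!
Helper file for `MP_69eae4_al`: vertex sets of maximum matchings are strongly base orderable.
-/

namespace Helper33.Toric

open Function Finset

set_option linter.unusedSectionVars false

variable {V : Type*} [Fintype V] [DecidableEq V]

/-- A matching, encoded as an involution moving vertices along edges. -/
structure IsMatch (H : SimpleGraph V) (m : V → V) : Prop where
  invol : Involutive m
  adj : ∀ v, m v ≠ v → H.Adj v (m v)

/-- The set of matched vertices. -/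
def supp (m : V → V) : Finset V := univ.filter (fun v => m v ≠ v)

@[simp] theorem mem_supp {m : V → V} {v : V} : v ∈ supp m ↔ m v ≠ v := by simp [supp]

/-- Use `m2` on `X` and `m1` elsewhere. -/
noncomputable def swapOn (X : Set V) (m1 m2 : V → V) : V → V :=
  open Classical in fun v => if v ∈ X then m2 v else m1 v

theorem swapOn_pos {X : Set V} {m1 m2 : V → V} {v : V} (h : v ∈ X) :
    swapOn X m1 m2 v = m2 v := by simp [swapOn, h]

theorem swapOn_neg {X : Set V} {m1 m2 : V → V} {v : V} (h : v ∉ X) :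
    swapOn X m1 m2 v = m1 v := by simp [swapOn, h]

theorem swapOn_isMatch {H : SimpleGraph V} {m1 m2 : V → V} (h1 : IsMatch H m1)
    (h2 : IsMatch H m2) {X : Set V} (hX1 : ∀ v ∈ X, m1 v ∈ X) (hX2 : ∀ v ∈ X, m2 v ∈ X) :
    IsMatch H (swapOn X m1 m2) := by
  refine ⟨?_, ?_⟩
  · intro v
    by_cases hv : v ∈ X
    · rw [swapOn_pos hv, swapOn_pos (hX2 v hv), h2.invol]
    · have hv' : m1 v ∉ X := by
        intro h
        apply hv
        have := hX1 _ h
        rwa [h1.invol] at this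
      rw [swapOn_neg hv, swapOn_neg hv', h1.invol]
  · intro v
    by_cases hv : v ∈ X
    · rw [swapOn_pos hv]; exact h2.adj v
    · rw [swapOn_neg hv]; exact h1.adj v

theorem card_swap {H : SimpleGraph V} {N : ℕ}
    (hmax : ∀ m : V → V, IsMatch H m → (supp m).card ≤ N)
    {m1 m2 : V → V} (h1 : IsMatch H m1) (h2 : IsMatch H m2)
    (hc1 : (supp m1).card = N) (hc2 : (supp m2).card = N)
    {X : Set V} (hX1 : ∀ v ∈ X, m1 v ∈ X) (hX2 : ∀ v ∈ X, m2 v ∈ X) :
    (supp (swapOn X m1 m2)).card = N := by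
  classical
  have e1 := hmax _ (swapOn_isMatch h1 h2 hX1 hX2)
  have e2 := hmax _ (swapOn_isMatch h2 h1 hX2 hX1)
  have e3 : (supp (swapOn X m1 m2)).card + (supp (swapOn X m2 m1)).card =
      (supp m1).card + (supp m2).card := by
    simp only [supp, Finset.card_filter]
    rw [← Finset.sum_add_distrib, ← Finset.sum_add_distrib]
    apply Finset.sum_congr rfl
    intro v _
    by_cases hv : v ∈ X
    · rw [swapOn_pos hv, swapOn_pos hv, add_comm]
    · rw [swapOn_neg hv, swapOn_neg hv]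
  omega

/-- Vertex sets of maximum matchings. -/
def IsBase (H : SimpleGraph V) (N : ℕ) (A : Finset V) : Prop :=
  ∃ m : V → V, IsMatch H m ∧ supp m = A ∧ A.card = N

/-- Redistribute the elements lying in exactly one of `B1`, `B2` according to a colouring. -/
def mix (B1 B2 : Finset V) (χ : V → Bool) : Finset V :=
  univ.filter (fun v => (v ∈ B1 ∧ v ∈ B2) ∨ ((v ∈ B1 ∨ v ∈ B2) ∧ χ v = true))

@[simp] theorem mem_mix {B1 B2 : Finset V} {χ : V → Bool} {v : V} :
    v ∈ mix B1 B2 χ ↔ (v ∈ B1 ∧ v ∈ B2) ∨ ((v ∈ B1 ∨ v ∈ B2) ∧ χ v = true) := by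
  simp [mix]

section cycles

/-- The rotation attached to two involutions. -/
def rot {m1 m2 : V → V} (i1 : Involutive m1) (i2 : Involutive m2) : Equiv.Perm V :=
  i1.toPerm * i2.toPerm

theorem rot_pow_m2 {m1 m2 : V → V} (i1 : Involutive m1) (i2 : Involutive m2) (k : ℤ) (v : V) :
    m2 ((rot i1 i2 ^ k) v) = (rot i1 i2 ^ (-k)) (m2 v) := by
  set r := rot i1 i2 with hr
  set p1 : Equiv.Perm V := i1.toPerm with hp1
  set p2 : Equiv.Perm V := i2.toPerm with hp2
  have hr' : r = p1 * p2 := rfl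
  have q1 : p1 * p1 = 1 := by ext x; exact i1 x
  have q2 : p2 * p2 = 1 := by ext x; exact i2 x
  have n1 : p1⁻¹ = p1 := inv_eq_of_mul_eq_one_left q1
  have n2 : p2⁻¹ = p2 := inv_eq_of_mul_eq_one_left q2
  have hconj : p2 * r * p2⁻¹ = r⁻¹ := by
    rw [hr', mul_inv_rev, n1, n2, mul_assoc, mul_assoc, q2, mul_one]
  have h1 : p2 * r ^ k * p2⁻¹ = r ^ (-k) := by
    rw [← conj_zpow, hconj, inv_zpow, zpow_neg]
  have h2 : p2 * r ^ k = r ^ (-k) * p2 := by
    rw [← h1]; group
  exact DFunLike.congr_fun h2 v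

theorem rot_m1 {m1 m2 : V → V} (i1 : Involutive m1) (i2 : Involutive m2) (v : V) :
    m1 v = rot i1 i2 (m2 v) := by
  show m1 v = m1 (m2 (m2 v))
  rw [i2]

theorem rot_pow_m1 {m1 m2 : V → V} (i1 : Involutive m1) (i2 : Involutive m2) (k : ℤ) (v : V) :
    m1 ((rot i1 i2 ^ k) v) = (rot i1 i2 ^ (1 - k)) (m2 v) := by
  rw [rot_m1 i1 i2, rot_pow_m2 i1 i2, ← Equiv.Perm.mul_apply, ← zpow_one_add]
  congr 2

theorem rot_swap_sameCycle {m1 m2 : V → V} (i1 : Involutive m1) (i2 : Involutive m2) (v w : V) :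
    (rot i2 i1).SameCycle v w ↔ (rot i1 i2).SameCycle v w := by
  have : rot i2 i1 = (rot i1 i2)⁻¹ := by
    symm
    apply inv_eq_of_mul_eq_one_left
    ext x
    show m2 (m1 (m1 (m2 x))) = x
    rw [i1, i2]
  rw [this, Equiv.Perm.sameCycle_inv]

/-- In a cycle containing an `m2`-fixed point `v` and an `m1`-fixed point, `v` is the only
`m2`-fixed point. -/
theorem unique_fixed {m1 m2 : V → V} (i1 : Involutive m1) (i2 : Involutive m2) {v w v' : V}
    (hv : m2 v = v) (hw : m1 w = w) (hv' : m2 v' = v')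
    (h1 : (rot i1 i2).SameCycle v w) (h2 : (rot i1 i2).SameCycle v v') : v' = v := by
  obtain ⟨k, hk⟩ := h1
  obtain ⟨l, hl⟩ := h2
  set r := rot i1 i2 with hr
  have a1 : (r ^ (1 - k)) v = (r ^ k) v := by
    have := rot_pow_m1 i1 i2 k v
    rw [hv] at this
    rw [← this, ← hr, hk, hw]
  have a2 : (r ^ (-l)) v = (r ^ l) v := by
    have := rot_pow_m2 i1 i2 l v
    rw [hv] at this
    rw [← this, ← hr, hl, hv']
  have b1 : (r ^ (2 * k - 1)) v = v := by
    have : 2 * k - 1 = -(1 - k) + k := by ring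
    rw [this, zpow_add, Equiv.Perm.mul_apply, ← a1, ← Equiv.Perm.mul_apply, ← zpow_add]
    simp
  have b2 : (r ^ (2 * l)) v = v := by
    have : 2 * l = -(-l) + l := by ring
    rw [this, zpow_add, Equiv.Perm.mul_apply, ← a2, ← Equiv.Perm.mul_apply, ← zpow_add]
    simp
  have c1 : (r ^ ((2 * k - 1) * (-l))) v = v := by
    rw [zpow_mul]
    exact Equiv.Perm.zpow_apply_eq_self_of_apply_eq_self b1 _
  have c2 : (r ^ ((2 * l) * k)) v = v := by
    rw [zpow_mul]
    exact Equiv.Perm.zpow_apply_eq_self_of_apply_eq_self b2 _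
  rw [← hl]
  have : l = (2 * l) * k + (2 * k - 1) * (-l) := by ring
  rw [this, zpow_add, Equiv.Perm.mul_apply, c1, c2]

end cycles

/-- the partner of an endpoint exists -/
theorem exists_partner {H : SimpleGraph V} {N : ℕ}
    (hmax : ∀ m : V → V, IsMatch H m → (supp m).card ≤ N)
    {m1 m2 : V → V} (h1 : IsMatch H m1) (h2 : IsMatch H m2)
    (hc1 : (supp m1).card = N) (hc2 : (supp m2).card = N)
    {v : V} (hv1 : m1 v ≠ v) (hv2 : m2 v = v) :
    ∃ w, (rot h1.invol h2.invol).SameCycle v w ∧ m1 w = w ∧ m2 w ≠ w := by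
  set r := rot h1.invol h2.invol with hr
  let X : Set V := {w | r.SameCycle v w}
  have hX1 : ∀ w ∈ X, m1 w ∈ X := by
    rintro w ⟨k, hk⟩
    refine ⟨1 - k, ?_⟩
    rw [← hk, hr, rot_pow_m1 h1.invol h2.invol, hv2]
  have hX2 : ∀ w ∈ X, m2 w ∈ X := by
    rintro w ⟨k, hk⟩
    refine ⟨-k, ?_⟩
    rw [← hk, hr, rot_pow_m2 h1.invol h2.invol, hv2]
  have hcard := card_swap hmax h1 h2 hc1 hc2 hX1 hX2
  by_contra hno
  push Not at hno
  have hsub : supp (swapOn X m1 m2) ⊂ supp m1 := by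
    rw [Finset.ssubset_iff_of_subset]
    · refine ⟨v, by simpa using hv1, ?_⟩
      have hvX : v ∈ X := Equiv.Perm.SameCycle.refl _ _
      simp [swapOn_pos hvX, hv2]
    · intro w hw
      rw [mem_supp] at hw ⊢
      by_cases hwX : w ∈ X
      · rw [swapOn_pos hwX] at hw
        intro h
        exact hw (hno w hwX h)
      · rwa [swapOn_neg hwX] at hw
  have := Finset.card_lt_card hsub
  omega

theorem strong_base_order {H : SimpleGraph V} {N : ℕ}
    (hmax : ∀ m : V → V, IsMatch H m → (supp m).card ≤ N)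
    {B1 B2 : Finset V} (hB1 : IsBase H N B1) (hB2 : IsBase H N B2) :
    ∃ φ : V → V, Involutive φ ∧ (∀ v, v ∈ B1 → v ∉ B2 → φ v ∉ B1 ∧ φ v ∈ B2) ∧
      (∀ v, v ∉ B1 → v ∈ B2 → φ v ∈ B1 ∧ φ v ∉ B2) ∧ (∀ v, (v ∈ B1 ↔ v ∈ B2) → φ v = v) ∧
      ∀ χ : V → Bool, (∀ v, φ v ≠ v → χ (φ v) = !χ v) → IsBase H N (mix B1 B2 χ) := by
  classical
  obtain ⟨m1, h1, hs1, hc1⟩ := hB1
  obtain ⟨m2, h2, hs2, hc2⟩ := hB2
  subst hs1 hs2
  have i1 := h1.invol
  have i2 := h2.invol
  set r := rot h1.invol h2.invol with hr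
  -- the partner relation
  have E1 : ∀ v, m1 v ≠ v → m2 v = v → ∃ w, r.SameCycle v w ∧ m1 w = w ∧ m2 w ≠ w :=
    fun v a b => exists_partner hmax h1 h2 hc1 hc2 a b
  have E2 : ∀ v, m1 v = v → m2 v ≠ v → ∃ w, r.SameCycle v w ∧ m1 w ≠ w ∧ m2 w = w := by
    intro v a b
    obtain ⟨w, c1, c2, c3⟩ := exists_partner hmax h2 h1 hc2 hc1 b a
    exact ⟨w, (rot_swap_sameCycle i1 i2 v w).1 c1, c3, c2⟩
  have U1 : ∀ v w v', m2 v = v → m1 w = w → m2 v' = v' → r.SameCycle v w → r.SameCycle v v' →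
      v' = v := fun v w v' a b c d e => unique_fixed i1 i2 a b c d e
  have U2 : ∀ v w v', m1 v = v → m2 w = w → m1 v' = v' → r.SameCycle v w → r.SameCycle v v' →
      v' = v := fun v w v' a b c d e => unique_fixed i2 i1 a b c
        ((rot_swap_sameCycle i1 i2 _ _).2 d) ((rot_swap_sameCycle i1 i2 _ _).2 e)
  let φ : V → V := fun v =>
    if h : m1 v ≠ v ∧ m2 v = v then (E1 v h.1 h.2).choose
    else if h : m1 v = v ∧ m2 v ≠ v then (E2 v h.1 h.2).choose
    else v
  have φ1 : ∀ v, m1 v ≠ v → m2 v = v → r.SameCycle v (φ v) ∧ m1 (φ v) = φ v ∧ m2 (φ v) ≠ φ v := by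
    intro v a b
    have h : m1 v ≠ v ∧ m2 v = v := ⟨a, b⟩
    have : φ v = (E1 v h.1 h.2).choose := by simp only [φ, dif_pos h]
    rw [this]
    exact (E1 v h.1 h.2).choose_spec
  have φ2 : ∀ v, m1 v = v → m2 v ≠ v → r.SameCycle v (φ v) ∧ m1 (φ v) ≠ φ v ∧ m2 (φ v) = φ v := by
    intro v a b
    have h : m1 v = v ∧ m2 v ≠ v := ⟨a, b⟩
    have h' : ¬ (m1 v ≠ v ∧ m2 v = v) := fun h' => h'.1 a
    have : φ v = (E2 v h.1 h.2).choose := by simp only [φ, dif_neg h', dif_pos h]
    rw [this]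
    exact (E2 v h.1 h.2).choose_spec
  have φ3 : ∀ v, (m1 v = v ↔ m2 v = v) → φ v = v := by
    intro v a
    have h : ¬ (m1 v ≠ v ∧ m2 v = v) := by
      rintro ⟨b, c⟩; exact b (a.2 c)
    have h' : ¬ (m1 v = v ∧ m2 v ≠ v) := by
      rintro ⟨b, c⟩; exact c (a.1 b)
    simp only [φ, dif_neg h, dif_neg h']
  have hinv : Involutive φ := by
    intro v
    by_cases a : m1 v = v <;> by_cases b : m2 v = v
    · have := φ3 v (by simp [a, b])
      rw [this, this]
    · obtain ⟨c1, c2, c3⟩ := φ2 v a b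
      obtain ⟨d1, d2, d3⟩ := φ1 (φ v) c2 c3
      exact U2 v (φ v) (φ (φ v)) a c3 d2 c1 (c1.trans d1)
    · obtain ⟨c1, c2, c3⟩ := φ1 v a b
      obtain ⟨d1, d2, d3⟩ := φ2 (φ v) c2 c3
      exact U1 v (φ v) (φ (φ v)) b c2 d3 c1 (c1.trans d1)
    · have := φ3 v (by simp [a, b])
      rw [this, this]
  refine ⟨φ, hinv, ?_, ?_, ?_, ?_⟩
  · intro v a b
    simp only [mem_supp, ne_eq, not_not] at a b ⊢
    obtain ⟨c1, c2, c3⟩ := φ1 v a b
    exact ⟨c2, c3⟩
  · intro v a b
    simp only [mem_supp, ne_eq, not_not] at a b ⊢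
    obtain ⟨c1, c2, c3⟩ := φ2 v a b
    exact ⟨c2, c3⟩
  · intro v a
    simp only [mem_supp, ne_eq, not_iff_not] at a
    exact φ3 v a
  · intro χ hχ
    let X : Set V := {v | ∃ w, (m1 w ≠ w ∧ m2 w = w) ∧ χ w = false ∧ r.SameCycle w v}
    have hX1 : ∀ v ∈ X, m1 v ∈ X := by
      rintro v ⟨w, ⟨a, b⟩, c, ⟨k, hk⟩⟩
      refine ⟨w, ⟨a, b⟩, c, 1 - k, ?_⟩
      rw [← hk, hr, rot_pow_m1 h1.invol h2.invol, b]
    have hX2 : ∀ v ∈ X, m2 v ∈ X := by
      rintro v ⟨w, ⟨a, b⟩, c, ⟨k, hk⟩⟩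
      refine ⟨w, ⟨a, b⟩, c, -k, ?_⟩
      rw [← hk, hr, rot_pow_m2 h1.invol h2.invol, b]
    have hcard := card_swap hmax h1 h2 hc1 hc2 hX1 hX2
    have hsupp : supp (swapOn X m1 m2) = mix (supp m1) (supp m2) χ := by
      ext v
      rw [mem_mix, mem_supp, mem_supp, mem_supp]
      by_cases a : m1 v = v <;> by_cases b : m2 v = v
      · have : swapOn X m1 m2 v = v := by
          by_cases hv : v ∈ X
          · rw [swapOn_pos hv, b]
          · rw [swapOn_neg hv, a]
        simp [this, a, b]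
      · -- `v ∈ B2 \ B1`
        obtain ⟨c1, c2, c3⟩ := φ2 v a b
        have hne : φ v ≠ v := by
          intro h; rw [h] at c2; exact c2 a
        have hχv : χ (φ v) = !χ v := hχ v hne
        have hiff : v ∈ X ↔ χ v = true := by
          constructor
          · rintro ⟨w, ⟨d1, d2⟩, d3, d4⟩
            have : w = φ v := U1 (φ v) v w c3 a d2 c1.symm (c1.symm.trans d4.symm)
            rw [this] at d3
            rw [hχv] at d3
            simpa using d3
          · intro h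
            refine ⟨φ v, ⟨c2, c3⟩, ?_, c1.symm⟩
            rw [hχv, h]; rfl
        by_cases hv : v ∈ X
        · rw [swapOn_pos hv]
          simp [a, b, hiff.1 hv]
        · rw [swapOn_neg hv]
          have : χ v = false := by
            by_contra h
            exact hv (hiff.2 (by simpa using h))
          simp [a, b, this]
      · -- `v ∈ B1 \ B2`
        obtain ⟨c1, c2, c3⟩ := φ1 v a b
        have hiff : v ∈ X ↔ χ v = false := by
          constructor
          · rintro ⟨w, ⟨d1, d2⟩, d3, d4⟩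
            have : w = v := U1 v (φ v) w b c2 d2 c1 d4.symm
            rw [this] at d3
            exact d3
          · intro h
            exact ⟨v, ⟨a, b⟩, h, Equiv.Perm.SameCycle.refl _ _⟩
        by_cases hv : v ∈ X
        · rw [swapOn_pos hv]
          simp [a, b, hiff.1 hv]
        · rw [swapOn_neg hv]
          have : χ v = true := by
            by_contra h
            exact hv (hiff.2 (by simpa using h))
          simp [a, b, this]
      · have : swapOn X m1 m2 v ≠ v := by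
          by_cases hv : v ∈ X
          · rwa [swapOn_pos hv]
          · rwa [swapOn_neg hv]
        simp [this, a, b]
    exact ⟨swapOn X m1 m2, swapOn_isMatch h1 h2 hX1 hX2, hsupp, by rw [← hsupp, hcard]⟩

end Helper33.Toric
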