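import Pool.Agent.Helper33.Toric2

/-!
Helper file for `MP_69eae4_al`: the blow-up of a graph, projections and lifts.
-/

namespace Helper33.Toric

open Function Finset

set_option linter.unusedSectionVars false

variable {σ : Type*} [Fintype σ] [DecidableEq σ]

/-- `a` is a sum of `q` edge vectors of `G`. -/
def EdgeSum (G : SimpleGraph σ) : ℕ → (σ → ℕ) → Prop
  | 0, a => a = 0
  | q + 1, a => ∃ b x y, G.Adj x y ∧ EdgeSum G q b ∧ a = b + Pi.single x 1 + Pi.single y 1

theorem EdgeSum.sum_eq {G : SimpleGraph σ} : ∀ {q : ℕ} {a : σ → ℕ}, EdgeSum G q a →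
    ∑ x, a x = 2 * q
  | 0, a, h => by
    have : a = 0 := h
    simp [this]
  | q + 1, a, h => by
    obtain ⟨b, x, y, -, h2, rfl⟩ := h
    have := EdgeSum.sum_eq h2
    simp only [Pi.add_apply, Finset.sum_add_distrib, this, Finset.sum_pi_single',
      Finset.mem_univ, if_true]
    ring

/-- The vertices of the blow-up. -/
abbrev BV (c : σ → ℕ) := Σ x : σ, Fin (c x)

/-- The blow-up graph. -/
def blow (G : SimpleGraph σ) (c : σ → ℕ) : SimpleGraph (BV c) := G.comap Sigma.fst

theorem blow_adj {G : SimpleGraph σ} {c : σ → ℕ} {v w : BV c} :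
    (blow G c).Adj v w ↔ G.Adj v.1 w.1 := Iff.rfl

variable {c : σ → ℕ}

/-- The number of elements over each point. -/
def proj (A : Finset (BV c)) : σ → ℕ := fun x => (A.filter (fun v => v.1 = x)).card

theorem proj_apply (A : Finset (BV c)) (x : σ) :
    proj A x = (univ.filter (fun j : Fin (c x) => (⟨x, j⟩ : BV c) ∈ A)).card := by
  symm
  unfold proj
  apply Finset.card_bij (fun j _ => (⟨x, j⟩ : BV c))
  · intro j hj
    simpa using hj
  · intro j _ j' _ h
    simpa using h
  · rintro ⟨y, j⟩ hj
    simp only [Finset.mem_filter] at hj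
    obtain ⟨h1, h2⟩ := hj
    subst h2
    exact ⟨j, by simpa using h1, rfl⟩

theorem proj_le (A : Finset (BV c)) (x : σ) : proj A x ≤ c x := by
  rw [proj_apply]
  calc _ ≤ (univ : Finset (Fin (c x))).card := Finset.card_filter_le _ _
    _ = c x := by simp

theorem sum_proj (A : Finset (BV c)) : ∑ x, proj A x = A.card := by
  symm
  exact Finset.card_eq_sum_card_fiberwise (f := Sigma.fst) (t := univ) (fun _ _ => by simp)

theorem proj_insert {A : Finset (BV c)} {v : BV c} (hv : v ∉ A) :
    proj (insert v A) = proj A + Pi.single v.1 1 := by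
  funext x
  unfold proj
  rw [Finset.filter_insert, Pi.add_apply]
  by_cases h : v.1 = x
  · subst h
    rw [if_pos rfl, Finset.card_insert_of_notMem (by simp [hv])]
    simp
  · rw [if_neg h, Pi.single_eq_of_ne (fun h' => h h'.symm)]
    simp

theorem proj_erase {A : Finset (BV c)} {v : BV c} (hv : v ∈ A) :
    proj (A.erase v) + Pi.single v.1 1 = proj A := by
  rw [← proj_insert (Finset.notMem_erase v A), Finset.insert_erase hv]

theorem exists_mem_of_proj_pos {A : Finset (BV c)} {x : σ} (h : 0 < proj A x) :
    ∃ v ∈ A, v.1 = x := by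
  unfold proj at h
  obtain ⟨v, hv⟩ := Finset.card_pos.1 h
  rw [Finset.mem_filter] at hv
  exact ⟨v, hv.1, hv.2⟩

/-- lifting a sum of edges to a matching of the blow-up -/
theorem exists_match_of_edgeSum {G : SimpleGraph σ} (q : ℕ) : ∀ (a : σ → ℕ) (A : Finset (BV c)),
    EdgeSum G q a → proj A = a → ∃ m : BV c → BV c, IsMatch (blow G c) m ∧ supp m = A := by
  induction q with
  | zero =>
    intro a A h hA
    have ha : a = 0 := h
    have hcard : A.card = 0 := by rw [← sum_proj, hA, ha]; simp
    rw [Finset.card_eq_zero] at hcard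
    refine ⟨id, ⟨fun v => rfl, fun v hv => absurd rfl hv⟩, ?_⟩
    rw [hcard]
    ext v
    simp
  | succ q ih =>
    intro a A h hA
    obtain ⟨b, x, y, hxy, hb, rfl⟩ := h
    have hne : x ≠ y := hxy.ne
    have hx : 0 < proj A x := by
      rw [hA]; simp
    have hy : 0 < proj A y := by
      rw [hA]; simp
    obtain ⟨v, hv, hvx⟩ := exists_mem_of_proj_pos hx
    obtain ⟨w, hw, hwy⟩ := exists_mem_of_proj_pos hy
    have hvw : v ≠ w := by
      rintro rfl
      exact hne (hvx.symm.trans hwy)
    have hw' : w ∈ A.erase v := Finset.mem_erase.2 ⟨hvw.symm, hw⟩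
    have e1 := proj_erase hv
    have e2 := proj_erase hw'
    rw [hvx] at e1
    rw [hwy] at e2
    have e3 : proj ((A.erase v).erase w) = b := by
      rw [← e2, hA] at e1
      funext z
      have := congrFun e1 z
      simp only [Pi.add_apply] at this
      omega
    obtain ⟨m, hm, hs⟩ := ih b _ hb e3
    have hmv : m v = v := by
      by_contra hc
      have : v ∈ supp m := by simpa using hc
      rw [hs] at this
      simp at this
    have hmw : m w = w := by
      by_contra hc
      have : w ∈ supp m := by simpa using hc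
      rw [hs] at this
      simp at this
    have hstay : ∀ u, u ≠ v → u ≠ w → m u ≠ v ∧ m u ≠ w := by
      intro u h1 h2
      constructor
      · intro h3
        apply h1
        rw [← hm.invol u, h3, hmv]
      · intro h3
        apply h2
        rw [← hm.invol u, h3, hmw]
    let m' : BV c → BV c := fun u => if u = v then w else if u = w then v else m u
    have m'v : m' v = w := by simp [m']
    have m'w : m' w = v := by simp [m', hvw.symm]
    have m'o : ∀ u, u ≠ v → u ≠ w → m' u = m u := by
      intro u h1 h2
      simp [m', h1, h2]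
    refine ⟨m', ⟨?_, ?_⟩, ?_⟩
    · intro u
      by_cases h1 : u = v
      · subst h1; rw [m'v, m'w]
      by_cases h2 : u = w
      · subst h2; rw [m'w, m'v]
      rw [m'o u h1 h2, m'o _ (hstay u h1 h2).1 (hstay u h1 h2).2, hm.invol]
    · intro u
      by_cases h1 : u = v
      · subst h1; rw [m'v]; intro _
        rw [blow_adj, hvx, hwy]; exact hxy
      by_cases h2 : u = w
      · subst h2; rw [m'w]; intro _
        rw [blow_adj, hvx, hwy]; exact hxy.symm
      rw [m'o u h1 h2]
      exact hm.adj u
    · ext u
      rw [mem_supp]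
      by_cases h1 : u = v
      · subst h1; rw [m'v]
        simp [hv, hvw.symm]
      by_cases h2 : u = w
      · subst h2; rw [m'w]
        simp [hw, hvw]
      rw [m'o u h1 h2, ← mem_supp, hs]
      simp [h1, h2]

/-- projecting a matching of the blow-up to a sum of edges -/
theorem edgeSum_of_match {G : SimpleGraph σ} (k : ℕ) : ∀ (m : BV c → BV c),
    IsMatch (blow G c) m → (supp m).card = k → ∃ q, k = 2 * q ∧ EdgeSum G q (proj (supp m)) := by
  induction k using Nat.strong_induction_on with
  | _ k ih =>
    intro m hm hk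
    by_cases h0 : supp m = ∅
    · refine ⟨0, ?_, ?_⟩
      · rw [← hk, h0]; simp
      · show proj (supp m) = 0
        rw [h0]
        funext x
        simp [proj]
    · obtain ⟨v, hv⟩ := Finset.nonempty_iff_ne_empty.2 h0
      have hv' : m v ≠ v := by simpa using hv
      have hw : m v ∈ supp m := by
        rw [mem_supp, hm.invol]; exact hv'.symm
      let m' : BV c → BV c := fun u => if u = v then v else if u = m v then m v else m u
      have m'v : m' v = v := by simp [m']
      have m'w : m' (m v) = m v := by simp [m', hv']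
      have m'o : ∀ u, u ≠ v → u ≠ m v → m' u = m u := by
        intro u h1 h2
        simp [m', h1, h2]
      have hstay : ∀ u, u ≠ v → u ≠ m v → m u ≠ v ∧ m u ≠ m v := by
        intro u h1 h2
        constructor
        · intro h3
          apply h2
          rw [← h3, hm.invol]
        · intro h3
          exact h1 (hm.invol.injective h3)
      have hm' : IsMatch (blow G c) m' := by
        refine ⟨?_, ?_⟩
        · intro u
          by_cases h1 : u = v
          · subst h1; rw [m'v, m'v]
          by_cases h2 : u = m v
          · subst h2; rw [m'w, m'w]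
          rw [m'o u h1 h2, m'o _ (hstay u h1 h2).1 (hstay u h1 h2).2, hm.invol]
        · intro u
          by_cases h1 : u = v
          · subst h1; rw [m'v]; intro h; exact absurd rfl h
          by_cases h2 : u = m v
          · subst h2; rw [m'w]; intro h; exact absurd rfl h
          rw [m'o u h1 h2]
          exact hm.adj u
      have hw' : m v ∈ (supp m).erase v := Finset.mem_erase.2 ⟨hv', hw⟩
      have hs : supp m' = ((supp m).erase v).erase (m v) := by
        ext u
        rw [mem_supp]
        by_cases h1 : u = v
        · subst h1; rw [m'v]; simp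
        by_cases h2 : u = m v
        · subst h2; rw [m'w]; simp
        rw [m'o u h1 h2]
        simp [h1, h2]
      have hcard : (supp m').card + 2 = k := by
        rw [hs, Finset.card_erase_of_mem hw', Finset.card_erase_of_mem hv, hk]
        have : 1 < (supp m).card := Finset.one_lt_card.2 ⟨v, hv, m v, hw, hv'.symm⟩
        omega
      obtain ⟨q, hq, hE⟩ := ih (supp m').card (by omega) m' hm' rfl
      refine ⟨q + 1, by omega, ⟨proj (supp m'), v.1, (m v).1, ?_, hE, ?_⟩⟩
      · exact hm.adj v hv'
      · have e1 := proj_erase hv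
        have e2 := proj_erase hw'
        rw [← e1, ← e2, hs]
        abel

theorem isBase_iff {G : SimpleGraph σ} {δ : ℕ} {A : Finset (BV c)} :
    IsBase (blow G c) (2 * δ) A ↔ EdgeSum G δ (proj A) := by
  constructor
  · rintro ⟨m, hm, hs, hc⟩
    obtain ⟨q, hq, hE⟩ := edgeSum_of_match _ m hm rfl
    rw [hs] at hq hE
    have : q = δ := by omega
    rw [← this]; exact hE
  · intro h
    obtain ⟨m, hm, hs⟩ := exists_match_of_edgeSum δ _ A h rfl
    exact ⟨m, hm, hs, by rw [← sum_proj, h.sum_eq]⟩

theorem hmax_of {G : SimpleGraph σ} {δ : ℕ}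
    (hδ : ∀ q (a : σ → ℕ), EdgeSum G q a → (∀ x, a x ≤ c x) → q ≤ δ) :
    ∀ m : BV c → BV c, IsMatch (blow G c) m → (supp m).card ≤ 2 * δ := by
  intro m hm
  obtain ⟨q, hq, hE⟩ := edgeSum_of_match _ m hm rfl
  have := hδ q _ hE (fun x => proj_le _ x)
  omega

end Helper33.Toric
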