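import Pool.Agent.Helper33.Toric3

/-!
Helper file for `MP_69eae4_al`: exchange lemmas and the connectivity theorem.
-/

namespace Helper33.Toric

open Function Finset

set_option linter.unusedSectionVars false

variable {σ : Type*} [Fintype σ] [DecidableEq σ] {c : σ → ℕ}

/-- Bounded sums of `δ` edges. -/
def InB (G : SimpleGraph σ) (c : σ → ℕ) (δ : ℕ) (a : σ → ℕ) : Prop :=
  EdgeSum G δ a ∧ ∀ x, a x ≤ c x

theorem InB.of_base {G : SimpleGraph σ} {δ : ℕ} {A : Finset (BV c)}
    (h : IsBase (blow G c) (2 * δ) A) : InB G c δ (proj A) :=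
  ⟨isBase_iff.1 h, proj_le A⟩

theorem card_fin_lt (k t : ℕ) : (univ.filter (fun j : Fin k => j.val < t)).card = min k t := by
  rw [Finset.card_filter, Fin.sum_univ_eq_sum_range (fun j => if j < t then 1 else 0) k,
    ← Finset.card_filter]
  have : (Finset.range k).filter (fun j => j < t) = Finset.range (min k t) := by
    ext j; simp
  rw [this, Finset.card_range]

theorem card_fin_add_lt (k s t : ℕ) :
    (univ.filter (fun j : Fin k => j.val + s < t)).card = min k (t - s) := by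
  rw [← card_fin_lt]
  congr 1
  ext j
  simp only [Finset.mem_filter, Finset.mem_univ, true_and]
  omega

theorem card_snd (k a b : ℕ) (ha : a ≤ k) (hb : b ≤ k) :
    (univ.filter (fun j : Fin k => (a ≤ j.val ∧ j.val < a + b) ∨ j.val + k < a + b)).card = b := by
  have h1 := card_fin_lt k (a + b)
  have h2 := card_fin_add_lt k k (a + b)
  have h3 := card_fin_lt k a
  have h4 : (univ.filter (fun j : Fin k => (a ≤ j.val ∧ j.val < a + b) ∨ j.val + k < a + b)).card
      + (univ.filter (fun j : Fin k => j.val < a)).card =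
      (univ.filter (fun j : Fin k => j.val < a + b)).card +
      (univ.filter (fun j : Fin k => j.val + k < a + b)).card := by
    simp only [Finset.card_filter]
    rw [← Finset.sum_add_distrib, ← Finset.sum_add_distrib]
    apply Finset.sum_congr rfl
    intro j _
    have hj := j.isLt
    split_ifs <;> omega
  omega

/-- The standard lift. -/
def lift1 (c a : σ → ℕ) : Finset (BV c) := univ.filter (fun v => v.2.val < a v.1)

/-- The second lift, placed cyclically after the first one. -/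
def lift2 (c a b : σ → ℕ) : Finset (BV c) :=
  univ.filter (fun v => (a v.1 ≤ v.2.val ∧ v.2.val < a v.1 + b v.1) ∨
    v.2.val + c v.1 < a v.1 + b v.1)

theorem proj_lift1 {a : σ → ℕ} (ha : ∀ x, a x ≤ c x) : proj (lift1 c a) = a := by
  funext x
  rw [proj_apply]
  have : (univ.filter (fun j : Fin (c x) => (⟨x, j⟩ : BV c) ∈ lift1 c a)) =
      univ.filter (fun j : Fin (c x) => j.val < a x) := by
    ext j; simp [lift1]
  rw [this, card_fin_lt]
  exact min_eq_right (ha x)

theorem proj_lift2 {a b : σ → ℕ} (ha : ∀ x, a x ≤ c x) (hb : ∀ x, b x ≤ c x) :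
    proj (lift2 c a b) = b := by
  funext x
  rw [proj_apply]
  have : (univ.filter (fun j : Fin (c x) => (⟨x, j⟩ : BV c) ∈ lift2 c a b)) =
      univ.filter (fun j : Fin (c x) => (a x ≤ j.val ∧ j.val < a x + b x) ∨
        j.val + c x < a x + b x) := by
    ext j; simp [lift2]
  rw [this, card_snd _ _ _ (ha x) (hb x)]

/-- antisymmetric colourings -/
def Anti {V : Type*} (φ : V → V) (χ : V → Bool) : Prop := ∀ v, φ v ≠ v → χ (φ v) = !χ v

theorem Anti.not {V : Type*} {φ : V → V} {χ : V → Bool} (h : Anti φ χ) :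
    Anti φ (fun v => !χ v) := fun v hv => by simp [h v hv]

/-- Flip the colours of `v` and `φ v`. -/
def flipAt {V : Type*} [DecidableEq V] (φ : V → V) (v : V) (χ : V → Bool) : V → Bool :=
  fun u => if u = v ∨ u = φ v then !χ u else χ u

theorem Anti.flipAt {V : Type*} [DecidableEq V] {φ : V → V} (hφ : Involutive φ) {χ : V → Bool}
    (h : Anti φ χ) (v : V) : Anti φ (flipAt φ v χ) := by
  intro u hu
  unfold Toric.flipAt
  have hiff : (φ u = v ∨ φ u = φ v) ↔ (u = v ∨ u = φ v) := by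
    constructor
    · rintro (h1 | h1)
      · right; rw [← h1, hφ]
      · left; exact hφ.injective h1
    · rintro (h1 | h1)
      · right; rw [h1]
      · left; rw [h1, hφ]
  rw [if_congr hiff rfl rfl]
  have := h u hu
  split_ifs <;> simp [this]

theorem proj_mix_flip {φ : BV c → BV c} {B1 B2 : Finset (BV c)} {v : BV c}
    (hv1 : v ∈ B1) (hv2 : v ∉ B2) (hw1 : φ v ∉ B1) (hw2 : φ v ∈ B2)
    {χ : BV c → Bool} (hχ : Anti φ χ) (hf : χ v = false) :
    proj (mix B1 B2 (flipAt φ v χ)) + Pi.single (φ v).1 1 =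
      proj (mix B1 B2 χ) + Pi.single v.1 1 ∧
    proj (mix B1 B2 (fun u => !flipAt φ v χ u)) + Pi.single v.1 1 =
      proj (mix B1 B2 (fun u => !χ u)) + Pi.single (φ v).1 1 := by
  have hne : φ v ≠ v := by
    intro h; rw [h] at hw2; exact hv2 hw2
  have hχw : χ (φ v) = true := by rw [hχ v hne, hf]; rfl
  constructor
  · have hm : mix B1 B2 (flipAt φ v χ) = insert v ((mix B1 B2 χ).erase (φ v)) := by
      ext u
      simp only [mem_mix, Finset.mem_insert, Finset.mem_erase, flipAt]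
      by_cases h1 : u = v
      · subst h1; simp [hv1, hf]
      · by_cases h2 : u = φ v
        · rw [h2]; simp [hw1, hχw, hne]
        · simp [h1, h2]
    have hv : v ∉ (mix B1 B2 χ).erase (φ v) := by
      simp [hv2, hf]
    have hw : φ v ∈ mix B1 B2 χ := by simp [hw2, hχw]
    rw [hm, proj_insert hv, ← proj_erase hw]
    abel
  · have hm : mix B1 B2 (fun u => !flipAt φ v χ u) =
        insert (φ v) ((mix B1 B2 (fun u => !χ u)).erase v) := by
      ext u
      simp only [mem_mix, Finset.mem_insert, Finset.mem_erase, flipAt]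
      by_cases h1 : u = v
      · subst h1; simp [hv2, hf, hne.symm]
      · by_cases h2 : u = φ v
        · rw [h2]; simp [hw2, hχw]
        · simp [h1, h2]
    have hv : φ v ∉ (mix B1 B2 (fun u => !χ u)).erase v := by
      simp [hw1, hχw]
    have hw : v ∈ mix B1 B2 (fun u => !χ u) := by simp [hv1, hf]
    rw [hm, proj_insert hv, ← proj_erase hw]
    abel

theorem flipAt_flipAt {V : Type*} [DecidableEq V] {φ : V → V} {χ : V → Bool} (v : V) :
    flipAt φ v (flipAt φ v χ) = χ := by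
  funext u
  unfold flipAt
  split_ifs <;> simp

theorem mix_self_left (B1 B2 : Finset (BV c)) {χ : BV c → Bool}
    (h1 : ∀ v, v ∈ B1 → v ∉ B2 → χ v = true) (h2 : ∀ v, v ∉ B1 → v ∈ B2 → χ v = false) :
    mix B1 B2 χ = B1 ∧ mix B1 B2 (fun v => !χ v) = B2 := by
  constructor
  · ext v
    rw [mem_mix]
    by_cases a : v ∈ B1 <;> by_cases b : v ∈ B2
    · simp [a, b]
    · simp [a, b, h1 v a b]
    · simp [a, b, h2 v a b]
    · simp [a, b]
  · ext v
    rw [mem_mix]
    by_cases a : v ∈ B1 <;> by_cases b : v ∈ B2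
    · simp [a, b]
    · simp [a, b, h1 v a b]
    · simp [a, b, h2 v a b]
    · simp [a, b]

section main

variable {G : SimpleGraph σ} {δ : ℕ}
  (hδ : ∀ q (a : σ → ℕ), EdgeSum G q a → (∀ x, a x ≤ c x) → q ≤ δ)

include hδ

/-- the symmetric exchange property -/
theorem sym_exchange {a b : σ → ℕ} (ha : InB G c δ a) (hb : InB G c δ b) {x : σ}
    (hx : b x < a x) :
    ∃ y a' b', a y < b y ∧ InB G c δ a' ∧ InB G c δ b' ∧
      a' + Pi.single x 1 = a + Pi.single y 1 ∧ b' + Pi.single y 1 = b + Pi.single x 1 := by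
  have hmax := hmax_of (c := c) hδ
  have hA : IsBase (blow G c) (2 * δ) (lift1 c a) := by
    rw [isBase_iff, proj_lift1 ha.2]; exact ha.1
  have hB : IsBase (blow G c) (2 * δ) (lift1 c b) := by
    rw [isBase_iff, proj_lift1 hb.2]; exact hb.1
  obtain ⟨φ, hφ, h1, h2, h3, h4⟩ := strong_base_order hmax hA hB
  have hxc : b x < c x := lt_of_lt_of_le hx (ha.2 x)
  let v : BV c := ⟨x, ⟨b x, hxc⟩⟩
  have hvA : v ∈ lift1 c a := by simp [lift1, v, hx]
  have hvB : v ∉ lift1 c b := by simp [lift1, v]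
  obtain ⟨hwA, hwB⟩ := h1 v hvA hvB
  let χ0 : BV c → Bool := fun u => decide (u ∈ lift1 c a)
  have hanti0 : Anti φ χ0 := by
    intro u hu
    by_cases p : u ∈ lift1 c a <;> by_cases q : u ∈ lift1 c b
    · exact absurd (h3 u (by simp [p, q])) hu
    · have := (h1 u p q).1
      simp [χ0, p, this]
    · have := (h2 u p q).1
      simp [χ0, p, this]
    · exact absurd (h3 u (by simp [p, q])) hu
  have hantiF := hanti0.flipAt hφ v
  have hF : flipAt φ v χ0 v = false := by
    simp [flipAt, χ0, hvA]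
  obtain ⟨e1, e2⟩ := proj_mix_flip hvA hvB hwA hwB hantiF hF
  rw [flipAt_flipAt] at e1 e2
  obtain ⟨g1, g2⟩ := mix_self_left (lift1 c a) (lift1 c b) (χ := χ0)
    (fun v p _ => by simp [χ0, p]) (fun v p _ => by simp [χ0, p])
  rw [g1, proj_lift1 ha.2] at e1
  rw [g2, proj_lift1 hb.2] at e2
  refine ⟨(φ v).1, proj (mix (lift1 c a) (lift1 c b) (flipAt φ v χ0)),
    proj (mix (lift1 c a) (lift1 c b) (fun u => !flipAt φ v χ0 u)), ?_,
    InB.of_base (h4 _ hantiF), InB.of_base (h4 _ hantiF.not), ?_, ?_⟩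
  · have p1 : ¬ (φ v).2.val < a (φ v).1 := by simpa [lift1] using hwA
    have p2 : (φ v).2.val < b (φ v).1 := by simpa [lift1] using hwB
    omega
  · exact e1.symm
  · exact e2.symm

variable {R : Type*} [CommMonoid R] (F : (σ → ℕ) → R)
  (hex : ∀ (a b a' b' : σ → ℕ) (x y : σ), InB G c δ a → InB G c δ b → InB G c δ a' →
    InB G c δ b' → b x < a x → a y < b y → a' + Pi.single x 1 = a + Pi.single y 1 →
    b' + Pi.single y 1 = b + Pi.single x 1 → F a * F b = F a' * F b')

include hex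

theorem weak_exchange_aux (a b a' b' : σ → ℕ) (x y : σ) (ha : InB G c δ a) (hb : InB G c δ b)
    (ha' : InB G c δ a') (hb' : InB G c δ b') (hne : x ≠ y) (hle : a x ≤ b x)
    (h1 : a' + Pi.single x 1 = a + Pi.single y 1)
    (h2 : b' + Pi.single y 1 = b + Pi.single x 1) : F a * F b = F a' * F b' := by
  have p1 := congrFun h1 x
  have p2 := congrFun h1 y
  have p3 := congrFun h2 x
  have p4 := congrFun h2 y
  simp only [Pi.add_apply, Pi.single_eq_same, Pi.single_eq_of_ne hne,
    Pi.single_eq_of_ne hne.symm, add_zero] at p1 p2 p3 p4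
  by_cases hc : b y ≤ a y + 1
  · rw [mul_comm (F a), mul_comm (F a')]
    symm
    exact hex b' a' b a x y hb' ha' hb ha (by omega) (by omega) h2.symm h1.symm
  · obtain ⟨ρ, b'', a'', q1, q2, q3, q4, q5⟩ :=
      sym_exchange hδ hb' ha' (x := x) (by omega)
    have hρx : ρ ≠ x := by
      rintro rfl; omega
    have hρy : ρ ≠ y := by
      rintro rfl; omega
    have r1 := hex b' a' b'' a'' x ρ hb' ha' q2 q3 (by omega) q1 q4 q5
    have s1 := congrFun h1 ρ
    have s2 := congrFun h2 ρ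
    simp only [Pi.add_apply, Pi.single_eq_of_ne hρx, Pi.single_eq_of_ne hρy, add_zero] at s1 s2
    have r2 := hex a b a'' b'' ρ y ha hb q3 q2 (by omega) (by omega) (by rw [q5, h1]) (by
      funext z
      have t1 := congrFun q4 z
      have t2 := congrFun h2 z
      simp only [Pi.add_apply] at t1 t2 ⊢
      omega)
    rw [r2, mul_comm (F a'), r1, mul_comm]

theorem weak_exchange (a b a' b' : σ → ℕ) (x y : σ) (ha : InB G c δ a) (hb : InB G c δ b)
    (ha' : InB G c δ a') (hb' : InB G c δ b')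
    (h1 : a' + Pi.single x 1 = a + Pi.single y 1)
    (h2 : b' + Pi.single y 1 = b + Pi.single x 1) : F a * F b = F a' * F b' := by
  by_cases hne : x = y
  · subst hne
    rw [add_right_cancel h1, add_right_cancel h2]
  · by_cases hle : a x ≤ b x
    · exact weak_exchange_aux hδ F hex a b a' b' x y ha hb ha' hb' hne hle h1 h2
    · by_cases hle2 : b y ≤ a y
      · have := weak_exchange_aux hδ F hex b a b' a' y x hb ha hb' ha' (Ne.symm hne) hle2 h2 h1
        rw [mul_comm (F a), mul_comm (F a'), this]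
      · exact hex a b a' b' x y ha hb ha' hb' (by omega) (by omega) h1 h2

theorem chain {B1 B2 : Finset (BV c)} {φ : BV c → BV c} (hφ : Involutive φ)
    (h1 : ∀ v, v ∈ B1 → v ∉ B2 → φ v ∉ B1 ∧ φ v ∈ B2)
    (h2 : ∀ v, v ∉ B1 → v ∈ B2 → φ v ∈ B1 ∧ φ v ∉ B2)
    (h4 : ∀ χ : BV c → Bool, (∀ v, φ v ≠ v → χ (φ v) = !χ v) →
      IsBase (blow G c) (2 * δ) (mix B1 B2 χ)) :
    ∀ (k : ℕ) (χ : BV c → Bool), Anti φ χ →
      (univ.filter (fun v => (v ∈ B1 ∧ v ∉ B2) ∧ χ v = false)).card = k →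
      F (proj B1) * F (proj B2) =
        F (proj (mix B1 B2 χ)) * F (proj (mix B1 B2 (fun v => !χ v))) := by
  intro k
  induction k with
  | zero =>
    intro χ hχ hk
    have hall : ∀ v, v ∈ B1 → v ∉ B2 → χ v = true := by
      intro v a b
      by_contra hc
      have : v ∈ univ.filter (fun v => (v ∈ B1 ∧ v ∉ B2) ∧ χ v = false) := by
        simp [a, b]; simpa using hc
      rw [Finset.card_eq_zero.1 hk] at this
      simp at this
    obtain ⟨g1, g2⟩ := mix_self_left B1 B2 (χ := χ) hall (by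
      intro v a b
      obtain ⟨c1, c2⟩ := h2 v a b
      have hne : φ v ≠ v := by
        intro h; rw [h] at c1; exact a c1
      have := hχ v hne
      rw [hall _ c1 c2] at this
      cases h : χ v
      · rfl
      · rw [h] at this; simp at this)
    rw [g1, g2]
  | succ k ih =>
    intro χ hχ hk
    have hpos : 0 < (univ.filter (fun v => (v ∈ B1 ∧ v ∉ B2) ∧ χ v = false)).card := by omega
    obtain ⟨v, hv⟩ := Finset.card_pos.1 hpos
    have hv' := hv
    simp only [Finset.mem_filter, Finset.mem_univ, true_and] at hv'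
    obtain ⟨⟨hv1, hv2⟩, hf⟩ := hv'
    obtain ⟨hw1, hw2⟩ := h1 v hv1 hv2
    obtain ⟨e1, e2⟩ := proj_mix_flip hv1 hv2 hw1 hw2 hχ hf
    have hanti := hχ.flipAt hφ v
    have hset : (univ.filter (fun u => (u ∈ B1 ∧ u ∉ B2) ∧ flipAt φ v χ u = false)) =
        (univ.filter (fun u => (u ∈ B1 ∧ u ∉ B2) ∧ χ u = false)).erase v := by
      ext u
      simp only [Finset.mem_filter, Finset.mem_univ, true_and, Finset.mem_erase, flipAt]
      by_cases p : u = v
      · subst p; simp [hf]
      · by_cases q : u = φ v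
        · rw [q]; simp [hw1]
        · simp [p, q]
    have hcard : (univ.filter (fun u => (u ∈ B1 ∧ u ∉ B2) ∧ flipAt φ v χ u = false)).card = k := by
      rw [hset, Finset.card_erase_of_mem hv, hk]; rfl
    rw [ih _ hanti hcard]
    symm
    exact weak_exchange hδ F hex _ _ _ _ (φ v).1 v.1 (InB.of_base (h4 _ hχ))
      (InB.of_base (h4 _ hχ.not)) (InB.of_base (h4 _ hanti)) (InB.of_base (h4 _ hanti.not)) e1 e2

theorem step {b1 b2 d1 d2 : σ → ℕ} (hb1 : InB G c δ b1) (hb2 : InB G c δ b2)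
    (hd1 : InB G c δ d1) (hd2 : InB G c δ d2) :
    ∃ b1' b2' d1' d2' : σ → ℕ, InB G c δ b1' ∧ InB G c δ b2' ∧ InB G c δ d1' ∧ InB G c δ d2' ∧
      F b1 * F b2 = F b1' * F b2' ∧ F d1 * F d2 = F d1' * F d2' ∧
      b1' + b2' = b1 + b2 ∧ d1' + d2' = d1 + d2 ∧
      ∀ x, (b1' x ≤ d1' x ∧ b2' x ≤ d2' x) ∨ (d1' x ≤ b1' x ∧ d2' x ≤ b2' x) := by
  have hmax := hmax_of (c := c) hδ
  have hB1 : IsBase (blow G c) (2 * δ) (lift1 c b1) := by
    rw [isBase_iff, proj_lift1 hb1.2]; exact hb1.1
  have hB2 : IsBase (blow G c) (2 * δ) (lift2 c b1 b2) := by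
    rw [isBase_iff, proj_lift2 hb1.2 hb2.2]; exact hb2.1
  have hD1 : IsBase (blow G c) (2 * δ) (lift1 c d1) := by
    rw [isBase_iff, proj_lift1 hd1.2]; exact hd1.1
  have hD2 : IsBase (blow G c) (2 * δ) (lift2 c d1 d2) := by
    rw [isBase_iff, proj_lift2 hd1.2 hd2.2]; exact hd2.1
  obtain ⟨φ, hφ, f1, f2, f3, f4⟩ := strong_base_order hmax hB1 hB2
  obtain ⟨ψ, hψ, g1, g2, g3, g4⟩ := strong_base_order hmax hD1 hD2
  obtain ⟨χ, hχφ, hχψ⟩ := exists_coloring φ ψ hφ hψ
  have hf := chain hδ F hex hφ f1 f2 f4 _ χ hχφ rfl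
  have hg := chain hδ F hex hψ g1 g2 g4 _ χ hχψ rfl
  rw [proj_lift1 hb1.2, proj_lift2 hb1.2 hb2.2] at hf
  rw [proj_lift1 hd1.2, proj_lift2 hd1.2 hd2.2] at hg
  have hsum : ∀ (B1 B2 : Finset (BV c)),
      proj (mix B1 B2 χ) + proj (mix B1 B2 (fun v => !χ v)) = proj B1 + proj B2 := by
    intro B1 B2
    funext x
    simp only [Pi.add_apply, proj_apply, Finset.card_filter, mem_mix]
    rw [← Finset.sum_add_distrib, ← Finset.sum_add_distrib]
    apply Finset.sum_congr rfl
    intro j _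
    by_cases p : (⟨x, j⟩ : BV c) ∈ B1 <;> by_cases q : (⟨x, j⟩ : BV c) ∈ B2 <;>
      cases r : χ ⟨x, j⟩ <;> simp [p, q]
  refine ⟨_, _, _, _, InB.of_base (f4 χ hχφ),
    InB.of_base (f4 (fun v => !χ v) (Anti.not (χ := χ) hχφ)),
    InB.of_base (g4 χ hχψ), InB.of_base (g4 (fun v => !χ v) (Anti.not (χ := χ) hχψ)),
    hf, hg, ?_, ?_, ?_⟩
  · rw [hsum, proj_lift1 hb1.2, proj_lift2 hb1.2 hb2.2]
  · rw [hsum, proj_lift1 hd1.2, proj_lift2 hd1.2 hd2.2]
  · intro x
    have key : ∀ (a1 a2 e1 e2 : σ → ℕ) (χ : BV c → Bool), e2 x ≤ c x →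
        a1 x + a2 x ≤ e1 x + e2 x →
        proj (mix (lift1 c a1) (lift2 c a1 a2) χ) x ≤ proj (mix (lift1 c e1) (lift2 c e1 e2) χ) x := by
      intro a1 a2 e1 e2 χ hle2 hle
      rw [proj_apply, proj_apply]
      apply Finset.card_le_card
      intro j hj
      simp only [Finset.mem_filter, Finset.mem_univ, true_and, mem_mix, lift1, lift2] at hj ⊢
      have hjlt := j.isLt
      by_cases hc : χ ⟨x, j⟩ = true
      · simp only [hc, and_true] at hj ⊢
        omega
      · have hc' : χ ⟨x, j⟩ = false := by simpa using hc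
        simp only [hc', Bool.false_eq_true, and_false, or_false] at hj ⊢
        omega
    rcases le_total (b1 x + b2 x) (d1 x + d2 x) with h | h
    · left
      exact ⟨key _ _ _ _ _ (hd2.2 x) h, key _ _ _ _ _ (hd2.2 x) h⟩
    · right
      exact ⟨key _ _ _ _ _ (hb2.2 x) h, key _ _ _ _ _ (hb2.2 x) h⟩

end main

end Helper33.Toric
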