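import Pool.Agent.Helper33.Toric4

/-!
Helper file for `MP_69eae4_al`: the connectivity theorem.
-/

namespace Helper33.Toric

open Function Finset

variable {σ : Type*} [Fintype σ] [DecidableEq σ] {c : σ → ℕ}

theorem prod_two {ι M : Type*} [Fintype ι] [DecidableEq ι] [CommMonoid M] (f : ι → M) {i j : ι}
    (hij : i ≠ j) : ∏ l, f l = f i * f j * ∏ l ∈ (univ.erase i).erase j, f l := by
  rw [mul_assoc, Finset.mul_prod_erase (univ.erase i) f (by simp [hij.symm]),
    Finset.mul_prod_erase univ f (by simp)]

theorem sum_two {ι M : Type*} [Fintype ι] [DecidableEq ι] [AddCommMonoid M] (f : ι → M) {i j : ι}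
    (hij : i ≠ j) : ∑ l, f l = f i + f j + ∑ l ∈ (univ.erase i).erase j, f l := by
  rw [add_assoc, Finset.add_sum_erase (univ.erase i) f (by simp [hij.symm]),
    Finset.add_sum_erase univ f (by simp)]

theorem core {G : SimpleGraph σ} {δ : ℕ}
    (hδ : ∀ q (a : σ → ℕ), EdgeSum G q a → (∀ x, a x ≤ c x) → q ≤ δ)
    {R : Type*} [CommMonoid R] (F : (σ → ℕ) → R)
    (hex : ∀ (a b a' b' : σ → ℕ) (x y : σ), InB G c δ a → InB G c δ b → InB G c δ a' →
      InB G c δ b' → b x < a x → a y < b y → a' + Pi.single x 1 = a + Pi.single y 1 →
      b' + Pi.single y 1 = b + Pi.single x 1 → F a * F b = F a' * F b')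
    {ι : Type*} [Fintype ι] [DecidableEq ι] (k : ℕ) :
    ∀ (b d : ι → σ → ℕ), (∀ i, InB G c δ (b i)) → (∀ i, InB G c δ (d i)) →
      ∑ i, b i = ∑ i, d i → (∑ i, ∑ x, ((b i x - d i x) + (d i x - b i x))) = k →
      ∏ i, F (b i) = ∏ i, F (d i) := by
  induction k using Nat.strong_induction_on with
  | _ k ih =>
    intro b d hb hd hsum hk
    by_cases heq : b = d
    · rw [heq]
    · -- find opposite discrepancies
      have hsumx : ∀ x, ∑ i, b i x = ∑ i, d i x := by
        intro x
        have := congrFun hsum x
        simpa [Finset.sum_apply] using this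
      obtain ⟨x, i, j, hi, hj⟩ : ∃ x i j, d i x < b i x ∧ b j x < d j x := by
        by_contra hno
        push Not at hno
        apply heq
        funext l x
        rcases lt_trichotomy (b l x) (d l x) with h | h | h
        · exfalso
          have hall : ∀ i, b i x ≤ d i x := by
            intro i
            by_contra hc
            have := hno x i l (by omega)
            omega
          have : ∑ i, b i x < ∑ i, d i x :=
            Finset.sum_lt_sum (fun i _ => hall i) ⟨l, by simp, h⟩
          rw [hsumx x] at this
          exact lt_irrefl _ this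
        · exact h
        · exfalso
          have hall : ∀ i, d i x ≤ b i x := fun i => hno x l i h
          have : ∑ i, d i x < ∑ i, b i x :=
            Finset.sum_lt_sum (fun i _ => hall i) ⟨l, by simp, h⟩
          rw [hsumx x] at this
          exact lt_irrefl _ this
      have hij : i ≠ j := by
        rintro rfl; omega
      obtain ⟨b1, b2, d1, d2, hb1, hb2, hd1, hd2, eF, eF', es, es', hcmp⟩ :=
        step hδ F hex (hb i) (hb j) (hd i) (hd j)
      let b' : ι → σ → ℕ := fun l => if l = i then b1 else if l = j then b2 else b l
      let d' : ι → σ → ℕ := fun l => if l = i then d1 else if l = j then d2 else d l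
      have b'i : b' i = b1 := by simp [b']
      have b'j : b' j = b2 := by simp [b', hij.symm]
      have b'o : ∀ l ∈ (univ.erase i).erase j, b' l = b l := by
        intro l hl
        simp only [Finset.mem_erase, Finset.mem_univ, and_true] at hl
        simp [b', hl.1, hl.2]
      have d'i : d' i = d1 := by simp [d']
      have d'j : d' j = d2 := by simp [d', hij.symm]
      have d'o : ∀ l ∈ (univ.erase i).erase j, d' l = d l := by
        intro l hl
        simp only [Finset.mem_erase, Finset.mem_univ, and_true] at hl
        simp [d', hl.1, hl.2]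
      have hb' : ∀ l, InB G c δ (b' l) := by
        intro l
        by_cases h1 : l = i
        · rw [h1, b'i]; exact hb1
        by_cases h2 : l = j
        · rw [h2, b'j]; exact hb2
        rw [b'o l (by simp [h1, h2])]; exact hb l
      have hd' : ∀ l, InB G c δ (d' l) := by
        intro l
        by_cases h1 : l = i
        · rw [h1, d'i]; exact hd1
        by_cases h2 : l = j
        · rw [h2, d'j]; exact hd2
        rw [d'o l (by simp [h1, h2])]; exact hd l
      have P1 : ∏ l, F (b l) = ∏ l, F (b' l) := by
        rw [prod_two (fun l => F (b l)) hij, prod_two (fun l => F (b' l)) hij, b'i, b'j, eF]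
        congr 1
        exact Finset.prod_congr rfl (fun l hl => by rw [b'o l hl])
      have P2 : ∏ l, F (d l) = ∏ l, F (d' l) := by
        rw [prod_two (fun l => F (d l)) hij, prod_two (fun l => F (d' l)) hij, d'i, d'j, eF']
        congr 1
        exact Finset.prod_congr rfl (fun l hl => by rw [d'o l hl])
      have S1 : ∑ l, b' l = ∑ l, b l := by
        rw [sum_two b hij, sum_two b' hij, b'i, b'j, es]
        congr 1
        exact Finset.sum_congr rfl (fun l hl => b'o l hl)
      have S2 : ∑ l, d' l = ∑ l, d l := by
        rw [sum_two d hij, sum_two d' hij, d'i, d'j, es']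
        congr 1
        exact Finset.sum_congr rfl (fun l hl => d'o l hl)
      have hlt : (∑ l, ∑ x, ((b' l x - d' l x) + (d' l x - b' l x))) < k := by
        rw [← hk, sum_two (fun l => ∑ x, ((b' l x - d' l x) + (d' l x - b' l x))) hij,
          sum_two (fun l => ∑ x, ((b l x - d l x) + (d l x - b l x))) hij]
        have hrest : ∑ l ∈ (univ.erase i).erase j, ∑ x, ((b' l x - d' l x) + (d' l x - b' l x)) =
            ∑ l ∈ (univ.erase i).erase j, ∑ x, ((b l x - d l x) + (d l x - b l x)) :=
          Finset.sum_congr rfl (fun l hl => by rw [b'o l hl, d'o l hl])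
        rw [hrest]
        apply Nat.add_lt_add_right
        rw [← Finset.sum_add_distrib, ← Finset.sum_add_distrib, b'i, b'j, d'i, d'j]
        apply Finset.sum_lt_sum
        · intro z _
          have t1 := congrFun es z
          have t2 := congrFun es' z
          simp only [Pi.add_apply] at t1 t2
          have t3 := hcmp z
          omega
        · refine ⟨x, by simp, ?_⟩
          have t1 := congrFun es x
          have t2 := congrFun es' x
          simp only [Pi.add_apply] at t1 t2
          have t3 := hcmp x
          omega
      rw [P1, P2]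
      exact ih _ hlt b' d' hb' hd' (by rw [S1, S2, hsum]) rfl

end Helper33.Toric
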