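import Mathlib

set_option autoImplicit false

namespace Pool.Agent.Helper33.Tree

section
variable {α : Type} [DecidableEq α]

/-- length of the longest common prefix -/
def lcp : List α → List α → ℕ
  | [], _ => 0
  | _ :: _, [] => 0
  | a :: u, b :: v => if a = b then lcp u v + 1 else 0

@[simp] lemma lcp_nil_left (v : List α) : lcp [] v = 0 := by cases v <;> rfl
@[simp] lemma lcp_nil_right (v : List α) : lcp v [] = 0 := by cases v <;> rfl
lemma lcp_cons (a b : α) (u v : List α) :
    lcp (a :: u) (b :: v) = if a = b then lcp u v + 1 else 0 := rfl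
@[simp] lemma lcp_cons_same (a : α) (u v : List α) : lcp (a :: u) (a :: v) = lcp u v + 1 := by
  simp [lcp_cons]
lemma lcp_cons_ne {a b : α} (h : a ≠ b) (u v : List α) : lcp (a :: u) (b :: v) = 0 := by
  simp [lcp_cons, h]

lemma le_lcp_iff (u v : List α) (k : ℕ) :
    k ≤ lcp u v ↔ k ≤ u.length ∧ k ≤ v.length ∧ u.take k = v.take k := by
  induction u generalizing v k with
  | nil =>
    rw [lcp_nil_left]
    constructor
    · intro h
      obtain rfl : k = 0 := by omega
      simp
    · rintro ⟨h, _⟩; simpa using h
  | cons a u ih =>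
    cases v with
    | nil =>
      rw [lcp_nil_right]
      constructor
      · intro h
        obtain rfl : k = 0 := by omega
        simp
      · rintro ⟨_, h, _⟩; simpa using h
    | cons b v =>
      cases k with
      | zero => simp
      | succ k =>
        by_cases hab : a = b
        · subst hab
          rw [lcp_cons_same, Nat.succ_le_succ_iff, ih]
          simp
        · rw [lcp_cons_ne hab]
          simp [hab]

lemma lcp_le_left (u v : List α) : lcp u v ≤ u.length := ((le_lcp_iff u v _).1 le_rfl).1
lemma lcp_le_right (u v : List α) : lcp u v ≤ v.length := ((le_lcp_iff u v _).1 le_rfl).2.1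

lemma lcp_self (u : List α) : lcp u u = u.length :=
  le_antisymm (lcp_le_left u u) ((le_lcp_iff u u _).2 ⟨le_rfl, le_rfl, rfl⟩)

lemma lcp_comm (u v : List α) : lcp u v = lcp v u := by
  apply le_antisymm
  · rw [le_lcp_iff]
    obtain ⟨h1, h2, h3⟩ := (le_lcp_iff u v _).1 le_rfl
    exact ⟨h2, h1, h3.symm⟩
  · rw [le_lcp_iff]
    obtain ⟨h1, h2, h3⟩ := (le_lcp_iff v u _).1 le_rfl
    exact ⟨h2, h1, h3.symm⟩

lemma lcp_ultra (u v w : List α) : min (lcp u v) (lcp v w) ≤ lcp u w := by
  rw [le_lcp_iff]
  obtain ⟨h1, h2, h3⟩ := (le_lcp_iff u v _).1 (min_le_left (lcp u v) (lcp v w))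
  obtain ⟨h4, h5, h6⟩ := (le_lcp_iff v w _).1 (min_le_right (lcp u v) (lcp v w))
  exact ⟨h1, h5, h3.trans h6⟩

lemma lcp_take (u v : List α) (i j : ℕ) :
    lcp (u.take i) (v.take j) = min (min i j) (lcp u v) := by
  apply eq_of_forall_le_iff
  intro k
  rw [le_lcp_iff, le_min_iff, le_min_iff, le_lcp_iff, List.length_take, List.length_take,
    le_min_iff, le_min_iff, List.take_take, List.take_take]
  constructor
  · rintro ⟨⟨h1, h2⟩, ⟨h3, h4⟩, h5⟩
    rw [min_eq_left h1, min_eq_left h3] at h5
    exact ⟨⟨h1, h3⟩, h2, h4, h5⟩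
  · rintro ⟨⟨h1, h3⟩, h2, h4, h5⟩
    rw [min_eq_left h1, min_eq_left h3]
    exact ⟨⟨h1, h2⟩, ⟨h3, h4⟩, h5⟩

lemma lcp_append (p u v : List α) : lcp (p ++ u) (p ++ v) = p.length + lcp u v := by
  induction p with
  | nil => simp
  | cons a p ih => rw [List.cons_append, List.cons_append, lcp_cons_same, ih, List.length_cons]; ring

lemma length_le_lcp_of_prefix {v w w' : List α} (h : v <+: w) (h' : v <+: w') :
    v.length ≤ lcp w w' := by
  rw [le_lcp_iff]
  refine ⟨h.length_le, h'.length_le, ?_⟩
  rw [← List.prefix_iff_eq_take.1 h, ← List.prefix_iff_eq_take.1 h']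

lemma prefix_of_lcp {v w w' : List α} (h : v <+: w) (hl : v.length ≤ lcp w w') : v <+: w' := by
  obtain ⟨_, _, h3⟩ := (le_lcp_iff w w' _).1 hl
  rw [List.prefix_iff_eq_take] at h ⊢
  rw [← h3]; exact h

/-- if neither is a prefix of the other, anything that extends them has the same lcp -/
lemma lcp_append_of_not_prefix {p q : List α} (h : ¬ p <+: q) (h' : ¬ q <+: p) (u v : List α) :
    lcp (p ++ u) (q ++ v) = lcp p q := by
  induction p generalizing q with
  | nil => exact absurd List.nil_prefix h
  | cons a p ih =>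
    cases q with
    | nil => exact absurd List.nil_prefix h'
    | cons b q =>
      by_cases hab : a = b
      · subst hab
        rw [List.cons_append, List.cons_append, lcp_cons_same, lcp_cons_same]
        rw [ih]
        · intro hh; exact h (by simpa using hh)
        · intro hh; exact h' (by simpa using hh)
      · rw [List.cons_append, List.cons_append, lcp_cons_ne hab, lcp_cons_ne hab]

/-- discrete tree distance -/
def D (u v : List α) : ℝ := (u.length : ℝ) + v.length - 2 * lcp u v

lemma D_comm (u v : List α) : D u v = D v u := by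
  unfold D; rw [lcp_comm]; ring

lemma D_nil_left (v : List α) : D [] v = v.length := by simp [D]
lemma D_nil_right (v : List α) : D v [] = v.length := by simp [D]

lemma D_nonneg (u v : List α) : 0 ≤ D u v := by
  unfold D
  have h1 : (lcp u v : ℝ) ≤ u.length := by exact_mod_cast lcp_le_left u v
  have h2 : (lcp u v : ℝ) ≤ v.length := by exact_mod_cast lcp_le_right u v
  linarith

lemma D_append (p u v : List α) : D (p ++ u) (p ++ v) = D u v := by
  unfold D
  rw [lcp_append, List.length_append, List.length_append]
  push_cast; ring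

end

end Pool.Agent.Helper33.Tree
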