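import Pool.Agent.Helper33.Tree1

set_option autoImplicit false

namespace Pool.Agent.Helper33.Tree

/-- positive reals, used as edge lengths -/
abbrev Pos : Type := {x : ℝ // 0 < x}

/-- reduced words: no two consecutive letters are equal -/
def Red {n : ℕ} (w : List (Fin n)) : Prop := w.IsChain (· ≠ ·)

/-- Points of the `n`-regular metric tree with edge length `ℓ`: a reduced word `w` (a vertex) and a
height `r` (in edges), with `|w| - 1 < r ≤ |w|`: the point at height `r` on the path to `w`. -/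
structure Tr (n : ℕ) (ℓ : Pos) : Type where
  w : List (Fin n)
  r : ℝ
  red : Red w
  h0 : 0 ≤ r
  h1 : r ≤ w.length
  h2 : (w.length : ℝ) < r + 1

namespace Tr
variable {n : ℕ} {ℓ : Pos}

lemma ext' {p q : Tr n ℓ} (hw : p.w = q.w) (hr : p.r = q.r) : p = q := by
  cases p; cases q; simp only at hw hr; subst hw; subst hr; rfl

/-- Gromov product at the root, in edges -/
noncomputable def gp (p q : Tr n ℓ) : ℝ := min (min p.r q.r) (lcp p.w q.w)

lemma gp_le_left (p q : Tr n ℓ) : gp p q ≤ p.r := (min_le_left _ _).trans (min_le_left _ _)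
lemma gp_le_right (p q : Tr n ℓ) : gp p q ≤ q.r := (min_le_left _ _).trans (min_le_right _ _)
lemma gp_le_lcp (p q : Tr n ℓ) : gp p q ≤ lcp p.w q.w := min_le_right _ _
lemma gp_nonneg (p q : Tr n ℓ) : 0 ≤ gp p q := le_min (le_min p.h0 q.h0) (Nat.cast_nonneg _)
lemma gp_comm (p q : Tr n ℓ) : gp p q = gp q p := by
  unfold gp; rw [lcp_comm, min_comm p.r]
lemma gp_self (p : Tr n ℓ) : gp p p = p.r := by
  unfold gp; rw [lcp_self, min_self]; exact min_eq_left p.h1
lemma le_gp {p q : Tr n ℓ} {x : ℝ} (h1 : x ≤ p.r) (h2 : x ≤ q.r) (h3 : x ≤ lcp p.w q.w) :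
    x ≤ gp p q := le_min (le_min h1 h2) h3
lemma gp_ultra (p q s : Tr n ℓ) : min (gp p q) (gp q s) ≤ gp p s := by
  apply le_gp
  · exact (min_le_left _ _).trans (gp_le_left p q)
  · exact (min_le_right _ _).trans (gp_le_right q s)
  · have h := lcp_ultra p.w q.w s.w
    have h' : (min (lcp p.w q.w : ℝ) (lcp q.w s.w)) ≤ lcp p.w s.w := by exact_mod_cast h
    refine le_trans ?_ h'
    exact min_le_min (gp_le_lcp p q) (gp_le_lcp q s)

/-- distance in edges -/
noncomputable def d (p q : Tr n ℓ) : ℝ := p.r + q.r - 2 * gp p q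

lemma d_self (p : Tr n ℓ) : d p p = 0 := by unfold d; rw [gp_self]; ring
lemma d_comm (p q : Tr n ℓ) : d p q = d q p := by unfold d; rw [gp_comm]; ring
lemma d_nonneg (p q : Tr n ℓ) : 0 ≤ d p q := by
  unfold d; have := gp_le_left p q; have := gp_le_right p q; linarith
lemma d_triangle (p q s : Tr n ℓ) : d p s ≤ d p q + d q s := by
  unfold d
  have h1 := gp_ultra p q s
  have h2 := gp_le_right p q
  have h3 := gp_le_left q s
  rcases min_choice (gp p q) (gp q s) with h | h <;> rw [h] at h1 <;> linarith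

lemma eq_of_d_eq_zero {p q : Tr n ℓ} (h : d p q = 0) : p = q := by
  unfold d at h
  have h1 := gp_le_left p q
  have h2 := gp_le_right p q
  have h3 : p.r = q.r := by linarith
  have h4 : gp p q = p.r := by linarith
  have h5 := gp_le_lcp p q
  have h6 : (p.w.length : ℝ) < lcp p.w q.w + 1 := by have := p.h2; linarith
  have h7 : (q.w.length : ℝ) < lcp p.w q.w + 1 := by have := q.h2; linarith
  have h8 : p.w.length ≤ lcp p.w q.w := by
    have : p.w.length < lcp p.w q.w + 1 := by exact_mod_cast h6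
    omega
  have h9 : q.w.length ≤ lcp p.w q.w := by
    have : q.w.length < lcp p.w q.w + 1 := by exact_mod_cast h7
    omega
  obtain ⟨_, _, h10⟩ := (le_lcp_iff p.w q.w (lcp p.w q.w)).1 le_rfl
  rw [List.take_of_length_le h8, List.take_of_length_le h9] at h10
  exact ext' h10 h3

noncomputable instance : MetricSpace (Tr n ℓ) where
  dist p q := ℓ.1 * d p q
  dist_self p := by rw [d_self, mul_zero]
  dist_comm p q := by rw [d_comm]
  dist_triangle p q s := by
    have := d_triangle p q s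
    have h := ℓ.2.le
    calc ℓ.1 * d p s ≤ ℓ.1 * (d p q + d q s) := mul_le_mul_of_nonneg_left this h
      _ = _ := by ring
  eq_of_dist_eq_zero := by
    intro p q h
    rcases mul_eq_zero.1 h with h | h
    · exact absurd h ℓ.2.ne'
    · exact eq_of_d_eq_zero h

lemma dist_def (p q : Tr n ℓ) : dist p q = ℓ.1 * d p q := rfl

/-- the vertex of a reduced word -/
def vtx (ℓ : Pos) (w : List (Fin n)) (hw : Red w) : Tr n ℓ :=
  ⟨w, w.length, hw, Nat.cast_nonneg _, le_rfl, lt_add_one _⟩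

lemma red_nil : Red ([] : List (Fin n)) := List.IsChain.nil

/-- root -/
def root (n : ℕ) (ℓ : Pos) : Tr n ℓ := vtx ℓ [] red_nil

lemma d_root (p : Tr n ℓ) : d (root n ℓ) p = p.r := by
  unfold d
  have h1 : gp (root n ℓ) p = 0 :=
    le_antisymm ((gp_le_left _ _).trans (by simp [root, vtx])) (gp_nonneg _ _)
  rw [h1]; simp [root, vtx]

lemma gp_vtx (w w' : List (Fin n)) (hw : Red w) (hw' : Red w') :
    gp (vtx ℓ w hw) (vtx ℓ w' hw') = lcp w w' := by
  unfold gp vtx
  apply min_eq_right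
  apply le_min
  · exact Nat.cast_le.2 (lcp_le_left w w')
  · exact Nat.cast_le.2 (lcp_le_right w w')

lemma d_vtx (w w' : List (Fin n)) (hw : Red w) (hw' : Red w') :
    d (vtx ℓ w hw) (vtx ℓ w' hw') = D w w' := by
  unfold d; rw [gp_vtx]; rfl

lemma d_self_vtx (p : Tr n ℓ) : d p (vtx ℓ p.w p.red) = p.w.length - p.r := by
  unfold d gp
  have : min (min p.r (vtx ℓ p.w p.red).r) (lcp p.w (vtx ℓ p.w p.red).w : ℝ) = p.r := by
    simp only [vtx, lcp_self]
    rw [min_eq_left p.h1, min_eq_left p.h1]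
  rw [this]
  simp only [vtx]; ring

lemma d_self_vtx_le (p : Tr n ℓ) : d p (vtx ℓ p.w p.red) ≤ 1 := by
  rw [d_self_vtx]; have := p.h2; linarith

/-! ### rays -/

lemma red_take {w : List (Fin n)} (h : Red w) (k : ℕ) : Red (w.take k) := by
  unfold Red at *
  exact h.take k

/-- the point at height `t` (clamped) on the path to the vertex `w` -/
noncomputable def ray (ℓ : Pos) (w : List (Fin n)) (hw : Red w) (t : ℝ) : Tr n ℓ where
  w := w.take ⌈max 0 (min t w.length)⌉₊
  r := max 0 (min t w.length)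
  red := red_take hw _
  h0 := le_max_left _ _
  h1 := by
    have h : max 0 (min t (w.length : ℝ)) ≤ w.length := max_le (Nat.cast_nonneg _) (min_le_right _ _)
    have h' : ⌈max 0 (min t (w.length : ℝ))⌉₊ ≤ w.length := Nat.ceil_le.2 h
    rw [List.length_take, min_eq_left h']
    exact Nat.le_ceil _
  h2 := by
    have h : max 0 (min t (w.length : ℝ)) ≤ w.length := max_le (Nat.cast_nonneg _) (min_le_right _ _)
    have h' : ⌈max 0 (min t (w.length : ℝ))⌉₊ ≤ w.length := Nat.ceil_le.2 h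
    rw [List.length_take, min_eq_left h']
    exact Nat.ceil_lt_add_one (le_max_left _ _)

lemma ray_r {w : List (Fin n)} {hw : Red w} {t : ℝ} (h0 : 0 ≤ t) (h1 : t ≤ w.length) :
    (ray ℓ w hw t).r = t := by
  simp only [ray]; rw [min_eq_left h1, max_eq_right h0]

lemma ray_w {w : List (Fin n)} {hw : Red w} {t : ℝ} (h0 : 0 ≤ t) (h1 : t ≤ w.length) :
    (ray ℓ w hw t).w = w.take ⌈t⌉₊ := by
  simp only [ray]; rw [min_eq_left h1, max_eq_right h0]

lemma ray_self (p : Tr n ℓ) : ray ℓ p.w p.red p.r = p := by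
  apply ext'
  · rw [ray_w p.h0 p.h1, List.take_of_length_le]
    have h : (p.w.length : ℝ) < ⌈p.r⌉₊ + 1 := p.h2.trans_le (by
      have := Nat.le_ceil p.r; linarith)
    have : p.w.length < ⌈p.r⌉₊ + 1 := by exact_mod_cast h
    omega
  · exact ray_r p.h0 p.h1

lemma gp_ray {w w' : List (Fin n)} {hw : Red w} {hw' : Red w'} {s t : ℝ} (hs0 : 0 ≤ s)
    (hs1 : s ≤ w.length) (ht0 : 0 ≤ t) (ht1 : t ≤ w'.length) :
    gp (ray ℓ w hw s) (ray ℓ w' hw' t) = min (min s t) (lcp w w') := by
  unfold gp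
  rw [ray_r hs0 hs1, ray_r ht0 ht1, ray_w hs0 hs1, ray_w ht0 ht1, lcp_take]
  push_cast
  apply le_antisymm
  · refine le_min (min_le_left _ _) ?_
    exact (min_le_right _ _).trans (min_le_right _ _)
  · refine le_min (min_le_left _ _) (le_min (le_min ?_ ?_) (min_le_right _ _))
    · exact ((min_le_left _ _).trans (min_le_left _ _)).trans (Nat.le_ceil s)
    · exact ((min_le_left _ _).trans (min_le_right _ _)).trans (Nat.le_ceil t)

lemma d_ray {w w' : List (Fin n)} {hw : Red w} {hw' : Red w'} {s t : ℝ} (hs0 : 0 ≤ s)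
    (hs1 : s ≤ w.length) (ht0 : 0 ≤ t) (ht1 : t ≤ w'.length) :
    d (ray ℓ w hw s) (ray ℓ w' hw' t) = s + t - 2 * min (min s t) (lcp w w') := by
  unfold d
  rw [gp_ray hs0 hs1 ht0 ht1, ray_r hs0 hs1, ray_r ht0 ht1]

lemma d_ray_same {w : List (Fin n)} {hw : Red w} {s t : ℝ} (hs0 : 0 ≤ s)
    (hs1 : s ≤ w.length) (ht0 : 0 ≤ t) (ht1 : t ≤ w.length) :
    d (ray ℓ w hw s) (ray ℓ w hw t) = |s - t| := by
  rw [d_ray hs0 hs1 ht0 ht1, lcp_self]
  rcases le_total s t with h | h
  · rw [min_eq_left h, min_eq_left hs1, abs_of_nonpos (by linarith)]; ring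
  · rw [min_eq_right h, min_eq_left ht1, abs_of_nonneg (by linarith)]; ring

end Tr

end Pool.Agent.Helper33.Tree
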