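import Pool.Agent.Helper33.Tree2

set_option autoImplicit false

namespace Pool.Agent.Helper33.Tree
namespace Tr
variable {n : ℕ} {ℓ : Pos}

/-- geodesics -/
theorem geodesic (x y : Tr n ℓ) : ∃ γ : ℝ → Tr n ℓ, γ 0 = x ∧ γ (dist x y) = y ∧
    ∀ s ∈ Set.Icc (0:ℝ) (dist x y), ∀ t ∈ Set.Icc (0:ℝ) (dist x y),
      dist (γ s) (γ t) = |s - t| := by
  set m := gp x y with hm
  have hm0 := gp_nonneg x y
  have hmx := gp_le_left x y
  have hmy := gp_le_right x y
  have hml := gp_le_lcp x y
  rw [← hm] at hm0 hmx hmy hml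
  have hℓ := ℓ.2
  have hd : dist x y = ℓ.1 * (x.r + y.r - 2 * m) := rfl
  have hx1 := x.h1
  have hy1 := y.h1
  have hx0 := x.h0
  have hy0 := y.h0
  let γ : ℝ → Tr n ℓ := fun t =>
    if t / ℓ.1 ≤ x.r - m then ray ℓ x.w x.red (x.r - t / ℓ.1)
    else ray ℓ y.w y.red (t / ℓ.1 - x.r + 2 * m)
  have hγ1 : ∀ t, t / ℓ.1 ≤ x.r - m → γ t = ray ℓ x.w x.red (x.r - t / ℓ.1) :=
    fun t ht => if_pos ht
  have hγ2 : ∀ t, ¬ t / ℓ.1 ≤ x.r - m → γ t = ray ℓ y.w y.red (t / ℓ.1 - x.r + 2 * m) :=
    fun t ht => if_neg ht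
  -- the key estimate, one order
  have key : ∀ s ∈ Set.Icc (0:ℝ) (dist x y), ∀ t ∈ Set.Icc (0:ℝ) (dist x y), s ≤ t →
      d (γ s) (γ t) = (t - s) / ℓ.1 := by
    intro s hs t ht hst
    have hs0 : 0 ≤ s / ℓ.1 := div_nonneg hs.1 hℓ.le
    have ht0 : 0 ≤ t / ℓ.1 := div_nonneg ht.1 hℓ.le
    have hs1 : s / ℓ.1 ≤ x.r + y.r - 2 * m := by
      rw [div_le_iff₀ hℓ, mul_comm]; rw [← hd]; exact hs.2
    have ht1 : t / ℓ.1 ≤ x.r + y.r - 2 * m := by
      rw [div_le_iff₀ hℓ, mul_comm]; rw [← hd]; exact ht.2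
    have hst' : s / ℓ.1 ≤ t / ℓ.1 := by gcongr
    have hsub : (t - s) / ℓ.1 = t / ℓ.1 - s / ℓ.1 := sub_div _ _ _
    rw [hsub]
    by_cases h1 : t / ℓ.1 ≤ x.r - m
    · have h2 : s / ℓ.1 ≤ x.r - m := hst'.trans h1
      rw [hγ1 s h2, hγ1 t h1, d_ray_same (by linarith) (by linarith) (by linarith) (by linarith)]
      rw [abs_of_nonneg (by linarith)]; ring
    · rw [hγ2 t h1]
      push Not at h1
      by_cases h2 : s / ℓ.1 ≤ x.r - m
      · rw [hγ1 s h2, d_ray (by linarith) (by linarith) (by linarith) (by linarith)]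
        -- Gromov product of two points above `m` on different branches
        have hmin : m = min (min x.r y.r) (lcp x.w y.w : ℝ) := rfl
        have h4 : m ≤ x.r - s / ℓ.1 := by linarith
        have h5 : m ≤ t / ℓ.1 - x.r + 2 * m := by linarith
        have h6 : min (min (x.r - s / ℓ.1) (t / ℓ.1 - x.r + 2 * m)) (lcp x.w y.w : ℝ) = m := by
          apply le_antisymm _ (le_min (le_min h4 h5) hml)
          rw [hmin]
          refine le_min (le_min ?_ ?_) (min_le_right _ _)
          · exact ((min_le_left _ _).trans (min_le_left _ _)).trans (by linarith)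
          · exact ((min_le_left _ _).trans (min_le_right _ _)).trans (by linarith)
        rw [h6]; ring
      · rw [hγ2 s h2]
        push Not at h2
        rw [d_ray_same (by linarith) (by linarith) (by linarith) (by linarith)]
        rw [abs_of_nonpos (by linarith)]; ring
  refine ⟨γ, ?_, ?_, ?_⟩
  · rw [hγ1 0 (by rw [zero_div]; linarith), zero_div, sub_zero, ray_self]
  · have hdd : dist x y / ℓ.1 = x.r + y.r - 2 * m := by
      rw [hd]; field_simp
    by_cases h : dist x y / ℓ.1 ≤ x.r - m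
    · rw [hγ1 _ h, hdd]
      rw [hdd] at h
      have hym : y.r = m := by linarith
      have hxx : x.r - (x.r + y.r - 2 * m) = m := by linarith
      rw [hxx]
      apply eq_of_d_eq_zero
      have : y = ray ℓ y.w y.red y.r := (ray_self y).symm
      rw [this, d_ray hm0 (by linarith) hy0 hy1, hym, min_self, min_eq_left hml]
      ring
    · rw [hγ2 _ h, hdd]
      have : x.r + y.r - 2 * m - x.r + 2 * m = y.r := by ring
      rw [this, ray_self]
  · intro s hs t ht
    rw [dist_def]
    rcases le_total s t with h | h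
    · rw [key s hs t ht h, abs_of_nonpos (by linarith)]
      field_simp; ring
    · rw [d_comm, key t ht s hs h, abs_of_nonneg (by linarith)]
      field_simp

/-- four point condition with `δ = 0` -/
theorem hyperbolic : ∀ x y z w : Tr n ℓ,
    min ((dist x w + dist y w - dist x y) / 2) ((dist y w + dist z w - dist y z) / 2) - 0
      ≤ (dist x w + dist z w - dist x z) / 2 := by
  intro x y z w
  have hℓ := ℓ.2.le
  simp only [dist_def, d]
  set a := gp x y
  set b := gp y z
  set c := gp x z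
  set e := gp x w
  set f := gp y w
  set g := gp z w
  have h1 : min a b ≤ c := gp_ultra x y z
  have h2 : min e f ≤ a := by
    have := gp_ultra x w y
    rwa [gp_comm w y] at this
  have h3 : min f g ≤ b := by
    have := gp_ultra y w z
    rwa [gp_comm w z] at this
  have h4 : min e g ≤ c := by
    have := gp_ultra x w z
    rwa [gp_comm w z] at this
  have h5 : min a f ≤ e := gp_ultra x y w
  have h6 : min a e ≤ f := by
    have := gp_ultra y x w
    rwa [gp_comm y x] at this
  have h7 : min b g ≤ f := gp_ultra y z w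
  have h8 : min b f ≤ g := by
    have := gp_ultra z y w
    rwa [gp_comm z y] at this
  have h9 : min c g ≤ e := gp_ultra x z w
  have h10 : min c e ≤ g := by
    have := gp_ultra z x w
    rwa [gp_comm z x] at this
  have h11 : min a c ≤ b := by
    have := gp_ultra y x z
    rwa [gp_comm y x] at this
  have h12 : min b c ≤ a := by
    have := gp_ultra x z y
    rw [gp_comm z y, min_comm] at this
    exact this
  -- four point inequality for the Gromov products at the root
  have key : min (a + g) (b + e) ≤ c + f := by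
    rcases min_choice a b with h | h <;> rw [h] at h1 <;>
    rcases min_choice e g with h' | h' <;> rw [h'] at h4 <;>
    rcases min_choice a f with h'' | h'' <;> rw [h''] at h5 <;>
    rcases min_choice b f with h''' | h''' <;> rw [h'''] at h8 <;>
    simp only [min_le_iff] <;>
    simp only [min_le_iff] at h2 h3 h6 h7 h9 h10 h11 h12 <;>
    by_contra hcon <;> push Not at hcon <;> obtain ⟨hc1, hc2⟩ := hcon <;>
    rcases h2 with h2 | h2 <;> rcases h3 with h3 | h3 <;> rcases h6 with h6 | h6 <;>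
    rcases h7 with h7 | h7 <;> linarith
  have hl : (ℓ.1 * (x.r + w.r - 2 * e) + ℓ.1 * (y.r + w.r - 2 * f) -
      ℓ.1 * (x.r + y.r - 2 * a)) / 2 = ℓ.1 * (w.r - e - f + a) := by ring
  have hm : (ℓ.1 * (y.r + w.r - 2 * f) + ℓ.1 * (z.r + w.r - 2 * g) -
      ℓ.1 * (y.r + z.r - 2 * b)) / 2 = ℓ.1 * (w.r - f - g + b) := by ring
  have hr : (ℓ.1 * (x.r + w.r - 2 * e) + ℓ.1 * (z.r + w.r - 2 * g) -
      ℓ.1 * (x.r + z.r - 2 * c)) / 2 = ℓ.1 * (w.r - e - g + c) := by ring
  rw [hl, hm, hr, sub_zero]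
  rcases min_le_iff.1 key with h | h
  · exact (min_le_left _ _).trans (mul_le_mul_of_nonneg_left (by linarith) hℓ)
  · exact (min_le_right _ _).trans (mul_le_mul_of_nonneg_left (by linarith) hℓ)

lemma continuous_ray (w : List (Fin n)) (hw : Red w) :
    ContinuousOn (ray ℓ w hw) (Set.Icc 0 (w.length : ℝ)) := by
  rw [Metric.continuousOn_iff]
  intro b hb ε hε
  refine ⟨ε / ℓ.1, div_pos hε ℓ.2, fun a ha hab => ?_⟩
  rw [dist_def, d_ray_same ha.1 ha.2 hb.1 hb.2]
  rw [Real.dist_eq] at hab
  rw [lt_div_iff₀ ℓ.2] at hab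
  linarith

lemma finite_words (n N : ℕ) : {w : List (Fin n) | w.length ≤ N}.Finite :=
  List.finite_length_le (Fin n) N

instance : ProperSpace (Tr n ℓ) := by
  have hroot : ∀ R : ℝ, IsCompact (Metric.closedBall (root n ℓ) R) := by
    intro R
    set N := ⌈R / ℓ.1⌉₊ + 1 with hN
    set S : Set (List (Fin n)) := {w | w.length ≤ N} with hS
    have hSf : S.Finite := finite_words n N
    have hcomp : IsCompact (⋃ w ∈ S, ⋃ hw : Red w, (ray ℓ w hw) '' Set.Icc 0 (w.length : ℝ)) := by
      apply hSf.isCompact_biUnion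
      intro w _
      by_cases hw : Red w
      · have : (⋃ hw : Red w, (ray ℓ w hw) '' Set.Icc 0 (w.length : ℝ)) =
            (ray ℓ w hw) '' Set.Icc 0 (w.length : ℝ) := by simp [hw]
        rw [this]
        exact isCompact_Icc.image_of_continuousOn (continuous_ray w hw)
      · have : (⋃ hw : Red w, (ray ℓ w hw) '' Set.Icc 0 (w.length : ℝ)) = ∅ := by simp [hw]
        rw [this]; exact isCompact_empty
    refine hcomp.of_isClosed_subset Metric.isClosed_closedBall ?_
    intro p hp
    rw [Metric.mem_closedBall, dist_comm, dist_def, d_root] at hp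
    simp only [Set.mem_iUnion]
    refine ⟨p.w, ?_, p.red, p.r, ⟨p.h0, p.h1⟩, ray_self p⟩
    have h1 : p.r ≤ R / ℓ.1 := by rw [le_div_iff₀ ℓ.2]; linarith
    have h2 : (p.w.length : ℝ) < (⌈R / ℓ.1⌉₊ + 1 : ℕ) := by
      have := p.h2
      have := Nat.le_ceil (R / ℓ.1)
      push_cast; linarith
    have h3 : p.w.length < ⌈R / ℓ.1⌉₊ + 1 := by exact_mod_cast h2
    exact h3.le
  refine ⟨fun x R => ?_⟩
  refine (hroot (R + dist x (root n ℓ))).of_isClosed_subset Metric.isClosed_closedBall ?_
  exact Metric.closedBall_subset_closedBall' le_rfl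

end Tr
end Pool.Agent.Helper33.Tree
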