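import Pool.Agent.Helper33.Tree3

set_option autoImplicit false

namespace Pool.Agent.Helper33.Tree
namespace Tr
variable {n : ℕ} {ℓ : Pos}

lemma red_cons {a : Fin n} {w : List (Fin n)} (hw : Red w) (h : w.head? ≠ some a) :
    Red (a :: w) := by
  unfold Red at *
  cases w with
  | nil => exact List.IsChain.singleton a
  | cons b w =>
    rw [List.isChain_cons_cons]
    refine ⟨?_, hw⟩
    intro hab
    apply h
    simp [hab]

lemma red_tail {w : List (Fin n)} (hw : Red w) : Red w.tail := by
  unfold Red at *
  cases w with
  | nil => exact hw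
  | cons a w => exact hw.tail

lemma red_single (a : Fin n) : Red [a] := List.IsChain.singleton a

lemma head_tail_ne {a : Fin n} {w : List (Fin n)} (hw : Red (a :: w)) : w.head? ≠ some a := by
  unfold Red at hw
  cases w with
  | nil => simp
  | cons b w =>
    rw [List.isChain_cons_cons] at hw
    intro h
    simp only [List.head?_cons, Option.some.injEq] at h
    exact hw.1 h.symm

lemma eq_cons_of_head {a : Fin n} {w : List (Fin n)} (h : w.head? = some a) :
    w = a :: w.tail := by
  cases w with
  | nil => simp at h
  | cons b w => simp only [List.head?_cons, Option.some.injEq] at h; subst h; rfl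

/-- left multiplication by the letter `a` -/
noncomputable def mv (a : Fin n) (p : Tr n ℓ) : Tr n ℓ :=
  if h : p.w.head? = some a then
    if h1 : 1 ≤ p.r then
      ⟨p.w.tail, p.r - 1, red_tail p.red, by linarith, by
        have e := eq_cons_of_head h
        have h2 := p.h1
        rw [e, List.length_cons] at h2
        push_cast at h2
        linarith, by
        have e := eq_cons_of_head h
        have h2 := p.h2
        rw [e, List.length_cons] at h2
        push_cast at h2
        linarith⟩
    else ⟨[a], 1 - p.r, red_single a, by linarith, by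
        have := p.h0
        simp only [List.length_cons, List.length_nil]; push_cast; linarith, by
        simp only [List.length_cons, List.length_nil]; push_cast; linarith⟩
  else ⟨a :: p.w, p.r + 1, red_cons p.red h, by have := p.h0; linarith, by
        have := p.h1; rw [List.length_cons]; push_cast; linarith, by
        have := p.h2; rw [List.length_cons]; push_cast; linarith⟩

lemma mv_out {a : Fin n} {p : Tr n ℓ} (h : p.w.head? ≠ some a) :
    (mv a p).w = a :: p.w ∧ (mv a p).r = p.r + 1 := by
  unfold mv; rw [dif_neg h]; exact ⟨rfl, rfl⟩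

lemma mv_in {a : Fin n} {p : Tr n ℓ} (h : p.w.head? = some a) (h1 : 1 ≤ p.r) :
    (mv a p).w = p.w.tail ∧ (mv a p).r = p.r - 1 := by
  unfold mv; rw [dif_pos h, dif_pos h1]; exact ⟨rfl, rfl⟩

lemma mv_edge {a : Fin n} {p : Tr n ℓ} (h : p.w.head? = some a) (h1 : ¬ 1 ≤ p.r) :
    (mv a p).w = [a] ∧ (mv a p).r = 1 - p.r := by
  unfold mv; rw [dif_pos h, dif_neg h1]; exact ⟨rfl, rfl⟩

lemma w_edge {a : Fin n} {p : Tr n ℓ} (h : p.w.head? = some a) (h1 : ¬ 1 ≤ p.r) :
    p.w = [a] ∧ 0 < p.r := by
  have e := eq_cons_of_head h
  have h2 := p.h2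
  rw [e, List.length_cons] at h2
  push_cast at h2
  push Not at h1
  have h3 : (p.w.tail.length : ℝ) < 1 := by linarith
  have h4 : p.w.tail.length = 0 := by
    have : p.w.tail.length < 1 := by exact_mod_cast h3
    omega
  have h5 : p.w.tail = [] := List.length_eq_zero_iff.1 h4
  rw [h5] at e
  refine ⟨e, ?_⟩
  rw [h4] at h2
  push_cast at h2
  linarith

lemma mv_mv (a : Fin n) (p : Tr n ℓ) : mv a (mv a p) = p := by
  by_cases h : p.w.head? = some a
  · by_cases h1 : 1 ≤ p.r
    · obtain ⟨e1, e2⟩ := mv_in h h1
      have e := eq_cons_of_head h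
      have h3 : (mv a p).w.head? ≠ some a := by
        rw [e1]; apply head_tail_ne; rw [← e]; exact p.red
      obtain ⟨e3, e4⟩ := mv_out h3
      apply ext'
      · rw [e3, e1, ← e]
      · rw [e4, e2]; ring
    · obtain ⟨e1, e2⟩ := mv_edge h h1
      obtain ⟨e5, e6⟩ := w_edge h h1
      have h3 : (mv a p).w.head? = some a := by rw [e1]; rfl
      have h4 : ¬ 1 ≤ (mv a p).r := by rw [e2]; linarith
      obtain ⟨e3, e4⟩ := mv_edge h3 h4
      apply ext'
      · rw [e3, e5]
      · rw [e4, e2]; ring
  · obtain ⟨e1, e2⟩ := mv_out h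
    have h3 : (mv a p).w.head? = some a := by rw [e1]; rfl
    have h4 : 1 ≤ (mv a p).r := by rw [e2]; have := p.h0; linarith
    obtain ⟨e3, e4⟩ := mv_in h3 h4
    apply ext'
    · rw [e3, e1]; rfl
    · rw [e4, e2]; ring

lemma lcp_head_ne {a : Fin n} {u v : List (Fin n)} (h : u.head? ≠ some a) :
    lcp u (a :: v) = 0 := by
  cases u with
  | nil => simp
  | cons b u =>
    apply lcp_cons_ne
    intro hb; apply h; simp [hb]

lemma min3_right {A B C : ℝ} (h1 : B ≤ A) (h2 : B ≤ C) : min (min A B) C = B := by
  rw [min_eq_right h1, min_eq_left h2]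

lemma min3_left {A B C : ℝ} (h1 : A ≤ B) (h2 : A ≤ C) : min (min A B) C = A := by
  rw [min_eq_left h1, min_eq_left h2]

lemma d_mv_aux (a : Fin n) (p q : Tr n ℓ) (hp : p.w.head? ≠ some a) :
    d (mv a p) (mv a q) = d p q := by
  obtain ⟨e1, e2⟩ := mv_out hp
  by_cases h : q.w.head? = some a
  · have e := eq_cons_of_head h
    have hl : lcp p.w q.w = 0 := by rw [e]; exact lcp_head_ne hp
    have hg : gp p q = 0 := le_antisymm ((gp_le_lcp p q).trans (by rw [hl]; simp)) (gp_nonneg p q)
    by_cases h1 : 1 ≤ q.r
    · obtain ⟨e3, e4⟩ := mv_in h h1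
      have hl' : lcp (mv a p).w (mv a q).w = 0 := by
        rw [e1, e3, lcp_comm]
        apply lcp_head_ne
        apply head_tail_ne
        rw [← e]; exact q.red
      have hg' : gp (mv a p) (mv a q) = 0 :=
        le_antisymm ((gp_le_lcp _ _).trans (by rw [hl']; simp)) (gp_nonneg _ _)
      unfold d
      rw [hg, hg', e2, e4]; ring
    · obtain ⟨e3, e4⟩ := mv_edge h h1
      obtain ⟨e5, e6⟩ := w_edge h h1
      have hl' : lcp (mv a p).w (mv a q).w = 1 := by
        rw [e1, e3]; simp
      have hg' : gp (mv a p) (mv a q) = 1 - q.r := by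
        unfold gp
        rw [hl', e2, e4]
        have := p.h0
        exact min3_right (by linarith) (by push_cast; linarith)
      unfold d
      rw [hg, hg', e2, e4]; ring
  · obtain ⟨e3, e4⟩ := mv_out h
    have hl' : lcp (mv a p).w (mv a q).w = lcp p.w q.w + 1 := by
      rw [e1, e3]; simp
    have hg' : gp (mv a p) (mv a q) = gp p q + 1 := by
      unfold gp
      rw [hl', e2, e4]
      push_cast
      rw [min_add_add_right, min_add_add_right]
    unfold d
    rw [hg', e2, e4]; ring

lemma d_mv (a : Fin n) (p q : Tr n ℓ) : d (mv a p) (mv a q) = d p q := by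
  by_cases hp : p.w.head? = some a
  · by_cases hq : q.w.head? = some a
    · have ep := eq_cons_of_head hp
      have eq := eq_cons_of_head hq
      have hl : lcp p.w q.w = lcp p.w.tail q.w.tail + 1 := by
        conv_lhs => rw [ep, eq]
        simp
      by_cases h1 : 1 ≤ p.r
      · obtain ⟨e1, e2⟩ := mv_in hp h1
        by_cases h2 : 1 ≤ q.r
        · obtain ⟨e3, e4⟩ := mv_in hq h2
          have hg' : gp (mv a p) (mv a q) = gp p q - 1 := by
            unfold gp
            rw [hl, e2, e4, e1, e3]
            push_cast
            rw [← min_sub_sub_right, ← min_sub_sub_right, add_sub_cancel_right]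
          unfold d
          rw [hg', e2, e4]; ring
        · obtain ⟨e3, e4⟩ := mv_edge hq h2
          obtain ⟨e5, e6⟩ := w_edge hq h2
          have hl' : lcp (mv a p).w (mv a q).w = 0 := by
            rw [e1, e3]
            apply lcp_head_ne
            apply head_tail_ne
            rw [← ep]; exact p.red
          have hg' : gp (mv a p) (mv a q) = 0 :=
            le_antisymm ((gp_le_lcp _ _).trans (by rw [hl']; simp)) (gp_nonneg _ _)
          have hg : gp p q = q.r := by
            unfold gp
            rw [hl]
            push Not at h2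
            have : (0:ℝ) ≤ lcp p.w.tail q.w.tail := Nat.cast_nonneg _
            exact min3_right (by linarith) (by push_cast; linarith)
          unfold d
          rw [hg, hg', e2, e4]; ring
      · obtain ⟨e1, e2⟩ := mv_edge hp h1
        obtain ⟨e5, e6⟩ := w_edge hp h1
        by_cases h2 : 1 ≤ q.r
        · obtain ⟨e3, e4⟩ := mv_in hq h2
          have hl' : lcp (mv a p).w (mv a q).w = 0 := by
            rw [e1, e3, lcp_comm]
            apply lcp_head_ne
            apply head_tail_ne
            rw [← eq]; exact q.red
          have hg' : gp (mv a p) (mv a q) = 0 :=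
            le_antisymm ((gp_le_lcp _ _).trans (by rw [hl']; simp)) (gp_nonneg _ _)
          have hg : gp p q = p.r := by
            unfold gp
            rw [hl]
            push Not at h1
            have : (0:ℝ) ≤ lcp p.w.tail q.w.tail := Nat.cast_nonneg _
            exact min3_left (by linarith) (by push_cast; linarith)
          unfold d
          rw [hg, hg', e2, e4]; ring
        · obtain ⟨e3, e4⟩ := mv_edge hq h2
          obtain ⟨e7, e8⟩ := w_edge hq h2
          push Not at h1 h2
          have hg : gp p q = min p.r q.r := by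
            unfold gp
            rw [e5, e7, lcp_self]
            apply min_eq_left
            simp only [List.length_cons, List.length_nil]
            exact (min_le_left _ _).trans (by push_cast; linarith)
          have hg' : gp (mv a p) (mv a q) = min (1 - p.r) (1 - q.r) := by
            unfold gp
            rw [e1, e3, lcp_self, e2, e4]
            apply min_eq_left
            simp only [List.length_cons, List.length_nil]
            exact (min_le_left _ _).trans (by push_cast; linarith)
          unfold d
          rw [hg, hg', e2, e4]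
          rcases le_total p.r q.r with h | h
          · rw [min_eq_left h, min_eq_right (by linarith)]; ring
          · rw [min_eq_right h, min_eq_left (by linarith)]; ring
    · rw [d_comm, d_mv_aux a q p hq, d_comm]
  · exact d_mv_aux a p q hp

/-- the move as an isometry -/
noncomputable def mvI (a : Fin n) : Tr n ℓ ≃ᵢ Tr n ℓ where
  toFun := mv a
  invFun := mv a
  left_inv := mv_mv a
  right_inv := mv_mv a
  isometry_toFun := Isometry.of_dist_eq fun p q => by rw [dist_def, dist_def, d_mv]

/-- letter permutation -/
def pm (σ : Equiv.Perm (Fin n)) (p : Tr n ℓ) : Tr n ℓ where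
  w := p.w.map σ
  r := p.r
  red := by
    have := p.red
    unfold Red at *
    rw [List.isChain_map]
    exact this.imp fun _ _ h h' => h (σ.injective h')
  h0 := p.h0
  h1 := by rw [List.length_map]; exact p.h1
  h2 := by rw [List.length_map]; exact p.h2

lemma lcp_map {m : ℕ} (σ : Fin n → Fin m) (hσ : Function.Injective σ) (u v : List (Fin n)) :
    lcp (u.map σ) (v.map σ) = lcp u v := by
  induction u generalizing v with
  | nil => simp
  | cons a u ih =>
    cases v with
    | nil => simp
    | cons b v =>
      rw [List.map_cons, List.map_cons, lcp_cons, lcp_cons, ih]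
      simp [hσ.eq_iff]

lemma d_pm (σ : Equiv.Perm (Fin n)) (p q : Tr n ℓ) : d (pm σ p) (pm σ q) = d p q := by
  unfold d gp pm
  simp only [lcp_map _ σ.injective]

def pmI (σ : Equiv.Perm (Fin n)) : Tr n ℓ ≃ᵢ Tr n ℓ where
  toFun := pm σ
  invFun := pm σ.symm
  left_inv p := by
    apply ext'
    · simp [pm]
    · rfl
  right_inv p := by
    apply ext'
    · simp [pm]
    · rfl
  isometry_toFun := Isometry.of_dist_eq fun p q => by rw [dist_def, dist_def, d_pm]

/-- `p` is the vertex with word `w` -/
def IsV (p : Tr n ℓ) (w : List (Fin n)) : Prop := p.w = w ∧ p.r = w.length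

lemma isV_root : IsV (root n ℓ) [] := ⟨rfl, rfl⟩

lemma isV_mv_out {a : Fin n} {p : Tr n ℓ} {w : List (Fin n)} (hp : IsV p w)
    (h : w.head? ≠ some a) : IsV (mv a p) (a :: w) := by
  obtain ⟨h1, h2⟩ := hp
  obtain ⟨e1, e2⟩ := mv_out (a := a) (p := p) (by rw [h1]; exact h)
  refine ⟨by rw [e1, h1], ?_⟩
  rw [e2, h2, List.length_cons]; push_cast; ring

lemma isV_pm {σ : Equiv.Perm (Fin n)} {p : Tr n ℓ} {w : List (Fin n)} (hp : IsV p w) :
    IsV (pm σ p) (w.map σ) := by
  obtain ⟨h1, h2⟩ := hp
  refine ⟨by simp [pm, h1], ?_⟩
  simp [pm, h2]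

lemma IsV.eq {p : Tr n ℓ} {w : List (Fin n)} (hp : IsV p w) (hw : Red w) : p = vtx ℓ w hw :=
  ext' hp.1 hp.2

end Tr
end Pool.Agent.Helper33.Tree
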