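import Pool.Agent.Helper33.Tree4

set_option autoImplicit false

namespace Pool.Agent.Helper33.Tree
open Tr

/-- proper discontinuity from finiteness of the set of elements moving a base point little -/
lemma properlyDiscontinuous_of {G X : Type} [Group G] [MetricSpace X] [MulAction G X]
    [IsIsometricSMul G X] (o : X) (h : ∀ R : ℝ, {g : G | dist (g • o) o ≤ R}.Finite) :
    ProperlyDiscontinuousSMul G X := by
  refine ⟨fun {K L} hK hL => ?_⟩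
  obtain ⟨R, hR⟩ := (hK.isBounded.union hL.isBounded).subset_closedBall o
  refine (h (2 * R)).subset ?_
  intro g hg
  obtain ⟨_, ⟨x, hx, rfl⟩, hy⟩ := hg
  have h1 : dist x o ≤ R := hR (Or.inl hx)
  have h2 : dist (g • x) o ≤ R := hR (Or.inr hy)
  have h3 : dist (g • o) (g • x) = dist o x := dist_smul g o x
  have h4 := dist_triangle (g • o) (g • x) o
  rw [h3, dist_comm o x] at h4
  change dist (g • o) o ≤ 2 * R
  linarith

section group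
variable (ℓ₀ ℓ₁ : Pos)

/-- pairs of isometries of the two trees -/
abbrev Iso2 : Type := (Tr 4 ℓ₀ ≃ᵢ Tr 4 ℓ₀) × (Tr 3 ℓ₁ ≃ᵢ Tr 3 ℓ₁)

/-- the letter swap -/
def sw : Equiv.Perm (Fin 4) := Equiv.addRight 2

/-- generators -/
noncomputable def gen : Fin 3 → Iso2 ℓ₀ ℓ₁ :=
  ![(pmI sw, mvI 0), (mvI 0, mvI 1), (mvI 1, mvI 2)]

lemma sw_sw (x : Fin 4) : sw (sw x) = x := by fin_cases x <;> rfl

lemma pm_sw_sw (p : Tr 4 ℓ₀) : pm sw (pm sw p) = p := by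
  apply ext'
  · simp only [pm, List.map_map]
    have : (sw ∘ sw : Fin 4 → Fin 4) = id := by funext x; exact sw_sw x
    rw [this, List.map_id]
  · rfl

lemma gen_snd (i : Fin 3) (p : Tr 3 ℓ₁) : (gen ℓ₀ ℓ₁ i).2 p = mv i p := by
  fin_cases i <;> rfl

lemma gen_mul_self (i : Fin 3) : gen ℓ₀ ℓ₁ i * gen ℓ₀ ℓ₁ i = 1 := by
  apply Prod.ext
  · apply IsometryEquiv.ext
    intro p
    fin_cases i
    · exact pm_sw_sw ℓ₀ p
    · exact mv_mv 0 p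
    · exact mv_mv 1 p
  · apply IsometryEquiv.ext
    intro p
    change (gen ℓ₀ ℓ₁ i).2 ((gen ℓ₀ ℓ₁ i).2 p) = p
    rw [gen_snd, gen_snd, mv_mv]

/-- the group -/
noncomputable def G : Subgroup (Iso2 ℓ₀ ℓ₁) := Subgroup.closure (Set.range (gen ℓ₀ ℓ₁))

/-- product of generators -/
noncomputable def gprod (w : List (Fin 3)) : Iso2 ℓ₀ ℓ₁ := (w.map (gen ℓ₀ ℓ₁)).prod

lemma gprod_cons (i : Fin 3) (w : List (Fin 3)) :
    gprod ℓ₀ ℓ₁ (i :: w) = gen ℓ₀ ℓ₁ i * gprod ℓ₀ ℓ₁ w := by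
  simp [gprod]

lemma gen_mem (i : Fin 3) : gen ℓ₀ ℓ₁ i ∈ G ℓ₀ ℓ₁ := Subgroup.subset_closure ⟨i, rfl⟩

lemma gprod_mem (w : List (Fin 3)) : gprod ℓ₀ ℓ₁ w ∈ G ℓ₀ ℓ₁ := by
  induction w with
  | nil => exact one_mem _
  | cons i w ih => rw [gprod_cons]; exact mul_mem (gen_mem ℓ₀ ℓ₁ i) ih

lemma gen_mul_gprod (i : Fin 3) (w : List (Fin 3)) (hw : Red w) :
    ∃ w', Red w' ∧ gen ℓ₀ ℓ₁ i * gprod ℓ₀ ℓ₁ w = gprod ℓ₀ ℓ₁ w' := by
  by_cases h : w.head? = some i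
  · have e := eq_cons_of_head h
    refine ⟨w.tail, red_tail hw, ?_⟩
    conv_lhs => rw [e, gprod_cons, ← mul_assoc, gen_mul_self, one_mul]
  · exact ⟨i :: w, red_cons hw h, (gprod_cons ℓ₀ ℓ₁ i w).symm⟩

lemma exists_red (g : Iso2 ℓ₀ ℓ₁) (hg : g ∈ G ℓ₀ ℓ₁) :
    ∃ w, Red w ∧ g = gprod ℓ₀ ℓ₁ w := by
  induction hg using Subgroup.closure_induction_left with
  | one => exact ⟨[], red_nil, rfl⟩
  | mul_left x hx y _ ih =>
    obtain ⟨i, rfl⟩ := hx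
    obtain ⟨w, hw, rfl⟩ := ih
    exact gen_mul_gprod ℓ₀ ℓ₁ i w hw
  | inv_mul_cancel x hx y _ ih =>
    obtain ⟨i, rfl⟩ := hx
    obtain ⟨w, hw, rfl⟩ := ih
    rw [inv_eq_of_mul_eq_one_right (gen_mul_self ℓ₀ ℓ₁ i)]
    exact gen_mul_gprod ℓ₀ ℓ₁ i w hw

lemma track3 (w : List (Fin 3)) (hw : Red w) : IsV ((gprod ℓ₀ ℓ₁ w).2 (root 3 ℓ₁)) w := by
  induction w with
  | nil => exact isV_root
  | cons i w ih =>
    rw [gprod_cons]
    change IsV ((gen ℓ₀ ℓ₁ i).2 ((gprod ℓ₀ ℓ₁ w).2 (root 3 ℓ₁))) (i :: w)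
    rw [gen_snd]
    exact isV_mv_out (ih (red_tail hw)) (head_tail_ne hw)

/-- the letter of the reduced word behind a first letter in the 4-regular tree -/
def kap : Fin 4 → Fin 3 := ![1, 2, 0, 0]

lemma track4 (w : List (Fin 3)) (hw : Red w) : ∃ v, IsV ((gprod ℓ₀ ℓ₁ w).1 (root 4 ℓ₀)) v ∧
    (∀ x, v.head? = some x → w.head? = some (kap x)) ∧
    w.length ≤ 2 * v.length + (if w.head? = some 0 then 1 else 0) := by
  induction w with
  | nil => exact ⟨[], isV_root, by simp, by simp⟩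
  | cons i w ih =>
    obtain ⟨v, hv, h1, h2⟩ := ih (red_tail hw)
    have hne := head_tail_ne hw
    rw [gprod_cons]
    change ∃ v, IsV ((gen ℓ₀ ℓ₁ i).1 ((gprod ℓ₀ ℓ₁ w).1 (root 4 ℓ₀))) v ∧ _
    obtain rfl | rfl | rfl : i = 0 ∨ i = 1 ∨ i = 2 := by fin_cases i <;> simp
    · refine ⟨v.map sw, isV_pm hv, ?_, ?_⟩
      · intro x hx
        rw [List.head?_map] at hx
        cases hvh : v.head? with
        | none => rw [hvh] at hx; simp at hx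
        | some y =>
          rw [hvh, Option.map_some, Option.some.injEq] at hx
          have h3 := h1 y hvh
          subst hx
          fin_cases y
          · rfl
          · rfl
          · exact absurd h3 hne
          · exact absurd h3 hne
      · rw [List.length_map, List.length_cons]
        have h4 : ¬ (w.head? = some 0) := hne
        rw [if_neg h4] at h2
        simp only [List.head?_cons, if_true]
        omega
    · have h3 : v.head? ≠ some 0 := by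
        intro h
        exact hne (h1 0 h)
      refine ⟨0 :: v, isV_mv_out hv h3, ?_, ?_⟩
      · intro x hx
        simp only [List.head?_cons, Option.some.injEq] at hx
        subst hx; rfl
      · rw [List.length_cons, List.length_cons]
        have h5 : (if w.head? = some 0 then 1 else 0) ≤ 1 := by split_ifs <;> simp
        omega
    · have h3 : v.head? ≠ some 1 := by
        intro h
        exact hne (h1 1 h)
      refine ⟨1 :: v, isV_mv_out hv h3, ?_, ?_⟩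
      · intro x hx
        simp only [List.head?_cons, Option.some.injEq] at hx
        subst hx; rfl
      · rw [List.length_cons, List.length_cons]
        have h5 : (if w.head? = some 0 then 1 else 0) ≤ 1 := by split_ifs <;> simp
        omega

noncomputable instance act4 : MulAction (G ℓ₀ ℓ₁) (Tr 4 ℓ₀) where
  smul g x := g.1.1 x
  one_smul _ := rfl
  mul_smul _ _ _ := rfl

noncomputable instance act3 : MulAction (G ℓ₀ ℓ₁) (Tr 3 ℓ₁) where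
  smul g x := g.1.2 x
  one_smul _ := rfl
  mul_smul _ _ _ := rfl

instance : IsIsometricSMul (G ℓ₀ ℓ₁) (Tr 4 ℓ₀) := ⟨fun g => g.1.1.isometry⟩
instance : IsIsometricSMul (G ℓ₀ ℓ₁) (Tr 3 ℓ₁) := ⟨fun g => g.1.2.isometry⟩

lemma dist_isV {n : ℕ} {ℓ : Pos} {p : Tr n ℓ} {w : List (Fin n)} (h : IsV p w) :
    dist p (root n ℓ) = ℓ.1 * w.length := by
  rw [dist_comm, dist_def, d_root, h.2]

instance pd3 : ProperlyDiscontinuousSMul (G ℓ₀ ℓ₁) (Tr 3 ℓ₁) := by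
  apply properlyDiscontinuous_of (root 3 ℓ₁)
  intro R
  apply Set.Finite.of_finite_image (f := Subtype.val) _ Subtype.val_injective.injOn
  refine ((finite_words 3 ⌈R / ℓ₁.1⌉₊).image (gprod ℓ₀ ℓ₁)).subset ?_
  rintro _ ⟨g, hg, rfl⟩
  obtain ⟨w, hw, hgw⟩ := exists_red ℓ₀ ℓ₁ g.1 g.2
  refine ⟨w, ?_, hgw.symm⟩
  have h1 := track3 ℓ₀ ℓ₁ w hw
  rw [← hgw] at h1
  have h2 : dist (g • root 3 ℓ₁) (root 3 ℓ₁) = ℓ₁.1 * w.length := dist_isV h1
  change dist _ _ ≤ R at hg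
  rw [h2] at hg
  have h3 : (w.length : ℝ) ≤ R / ℓ₁.1 := by rw [le_div_iff₀ ℓ₁.2]; linarith
  have h4 : (w.length : ℝ) ≤ ⌈R / ℓ₁.1⌉₊ := h3.trans (Nat.le_ceil _)
  exact_mod_cast h4

instance pd4 : ProperlyDiscontinuousSMul (G ℓ₀ ℓ₁) (Tr 4 ℓ₀) := by
  apply properlyDiscontinuous_of (root 4 ℓ₀)
  intro R
  apply Set.Finite.of_finite_image (f := Subtype.val) _ Subtype.val_injective.injOn
  refine ((finite_words 3 (2 * ⌈R / ℓ₀.1⌉₊ + 1)).image (gprod ℓ₀ ℓ₁)).subset ?_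
  rintro _ ⟨g, hg, rfl⟩
  obtain ⟨w, hw, hgw⟩ := exists_red ℓ₀ ℓ₁ g.1 g.2
  refine ⟨w, ?_, hgw.symm⟩
  obtain ⟨v, h1, _, h5⟩ := track4 ℓ₀ ℓ₁ w hw
  rw [← hgw] at h1
  have h2 : dist (g • root 4 ℓ₀) (root 4 ℓ₀) = ℓ₀.1 * v.length := dist_isV h1
  change dist _ _ ≤ R at hg
  rw [h2] at hg
  have h3 : (v.length : ℝ) ≤ R / ℓ₀.1 := by rw [le_div_iff₀ ℓ₀.2]; linarith
  have h4 : (v.length : ℝ) ≤ ⌈R / ℓ₀.1⌉₊ := h3.trans (Nat.le_ceil _)
  have h6 : v.length ≤ ⌈R / ℓ₀.1⌉₊ := by exact_mod_cast h4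
  have h7 : (if w.head? = some 0 then 1 else 0) ≤ 1 := by split_ifs <;> simp
  change w.length ≤ _
  omega

theorem cocompact3 : ∃ K : Set (Tr 3 ℓ₁), IsCompact K ∧ ∀ x : Tr 3 ℓ₁, ∃ g : G ℓ₀ ℓ₁,
    g • x ∈ K := by
  refine ⟨Metric.closedBall (root 3 ℓ₁) ℓ₁.1, isCompact_closedBall _ _, fun x => ?_⟩
  let g : G ℓ₀ ℓ₁ := ⟨gprod ℓ₀ ℓ₁ x.w, gprod_mem _ _ _⟩
  refine ⟨g⁻¹, ?_⟩
  have h1 : g • root 3 ℓ₁ = vtx ℓ₁ x.w x.red := (track3 ℓ₀ ℓ₁ x.w x.red).eq x.red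
  rw [Metric.mem_closedBall, ← dist_smul g, smul_inv_smul, h1, dist_def]
  have := d_self_vtx_le x
  have h2 := ℓ₁.2.le
  nlinarith

lemma exists_letter (x : Fin 4) : ∃ h ∈ G ℓ₀ ℓ₁, ∀ (p : Tr 4 ℓ₀) (w : List (Fin 4)), IsV p w →
    w.head? ≠ some x → IsV (h.1 p) (x :: w) := by
  have key : ∀ (a : Fin 4) (i : Fin 3), (gen ℓ₀ ℓ₁ i).1 = mvI a → ∃ h ∈ G ℓ₀ ℓ₁,
      ∀ (p : Tr 4 ℓ₀) (w : List (Fin 4)), IsV p w →
      w.head? ≠ some (sw a) → IsV (h.1 p) (sw a :: w) := by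
    intro a i hi
    refine ⟨gen ℓ₀ ℓ₁ 0 * gen ℓ₀ ℓ₁ i * gen ℓ₀ ℓ₁ 0,
      mul_mem (mul_mem (gen_mem _ _ _) (gen_mem _ _ _)) (gen_mem _ _ _), ?_⟩
    intro p w hp hw
    change IsV ((gen ℓ₀ ℓ₁ 0).1 ((gen ℓ₀ ℓ₁ i).1 ((gen ℓ₀ ℓ₁ 0).1 p))) _
    rw [hi]
    change IsV (pm sw (mv a (pm sw p))) _
    have h1 : IsV (pm sw p) (w.map sw) := isV_pm hp
    have h2 : (w.map sw).head? ≠ some a := by
      rw [List.head?_map]
      intro h
      apply hw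
      cases hwh : w.head? with
      | none => rw [hwh] at h; simp at h
      | some y =>
        rw [hwh, Option.map_some, Option.some.injEq] at h
        rw [← h, sw_sw]
    have h3 := isV_pm (σ := sw) (isV_mv_out h1 h2)
    rw [List.map_cons, List.map_map] at h3
    have : (sw ∘ sw : Fin 4 → Fin 4) = id := by funext x; exact sw_sw x
    rw [this, List.map_id] at h3
    exact h3
  fin_cases x
  · exact ⟨gen ℓ₀ ℓ₁ 1, gen_mem _ _ _, fun p w hp hw => isV_mv_out hp hw⟩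
  · exact ⟨gen ℓ₀ ℓ₁ 2, gen_mem _ _ _, fun p w hp hw => isV_mv_out hp hw⟩
  · exact key 0 1 rfl
  · exact key 1 2 rfl

lemma exists_vertex4 (u : List (Fin 4)) (hu : Red u) : ∃ g : G ℓ₀ ℓ₁, IsV (g • root 4 ℓ₀) u := by
  induction u with
  | nil => exact ⟨1, by rw [one_smul]; exact isV_root⟩
  | cons x u ih =>
    obtain ⟨g, hg⟩ := ih (red_tail hu)
    obtain ⟨h, hh, hhh⟩ := exists_letter ℓ₀ ℓ₁ x
    refine ⟨⟨h, hh⟩ * g, ?_⟩
    rw [mul_smul]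
    exact hhh _ _ hg (head_tail_ne hu)

theorem cocompact4 : ∃ K : Set (Tr 4 ℓ₀), IsCompact K ∧ ∀ x : Tr 4 ℓ₀, ∃ g : G ℓ₀ ℓ₁,
    g • x ∈ K := by
  refine ⟨Metric.closedBall (root 4 ℓ₀) ℓ₀.1, isCompact_closedBall _ _, fun x => ?_⟩
  obtain ⟨g, hg⟩ := exists_vertex4 ℓ₀ ℓ₁ x.w x.red
  refine ⟨g⁻¹, ?_⟩
  have h1 : g • root 4 ℓ₀ = vtx ℓ₀ x.w x.red := hg.eq x.red
  rw [Metric.mem_closedBall, ← dist_smul g, smul_inv_smul, h1, dist_def]
  have := d_self_vtx_le x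
  have h2 := ℓ₀.2.le
  nlinarith

end group

end Pool.Agent.Helper33.Tree
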