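import Pool.Agent.Helper33.Tree5

set_option autoImplicit false

namespace Pool.Agent.Helper33.Tree
open Tr

/-- arithmetic core of the non-existence of rough isometries -/
lemma arith {b₀ b₁ : ℕ} (h0 : 2 ≤ b₀) (h1 : 2 ≤ b₁) (hcop : Nat.Coprime b₁ b₀) (K : ℕ)
    (k M : ℕ → ℕ) (C : ℝ) (hk1 : ∀ n, 1 ≤ k n) (hkK : ∀ n, k n ≤ K) (hM : ∀ n, M n ≤ M (n + 1))
    (hstep : ∀ n, b₀ ^ (M (n + 1) - M n) * k n ≤ b₁ * k (n + 1))
    (hbd : ∀ n, (b₁ : ℝ) ^ n ≤ C * (b₀ : ℝ) ^ (M n)) : False := by
  have hb0 : (0 : ℝ) < b₀ := by positivity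
  have hb1 : (0 : ℝ) < b₁ := by positivity
  set q : ℕ → ℝ := fun n => (b₁ : ℝ) ^ n * k n / (b₀ : ℝ) ^ (M n) with hq
  have hpow : ∀ n, (b₀ : ℝ) ^ (M (n + 1)) = (b₀ : ℝ) ^ (M (n + 1) - M n) * (b₀ : ℝ) ^ (M n) := by
    intro n
    rw [← pow_add, Nat.sub_add_cancel (hM n)]
  have hq0 : 0 < q 0 := by
    have : (0 : ℝ) < k 0 := by exact_mod_cast hk1 0
    simp only [hq]; positivity
  have hmono : Monotone q := by
    apply monotone_nat_of_le_succ
    intro n
    simp only [hq]
    rw [div_le_div_iff₀ (by positivity) (by positivity), hpow n]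
    have h2 : ((b₀ : ℝ) ^ (M (n + 1) - M n)) * k n ≤ b₁ * k (n + 1) := by exact_mod_cast hstep n
    calc (b₁ : ℝ) ^ n * k n * ((b₀ : ℝ) ^ (M (n + 1) - M n) * (b₀ : ℝ) ^ (M n))
        = (b₁ : ℝ) ^ n * (b₀ : ℝ) ^ (M n) * (((b₀ : ℝ) ^ (M (n + 1) - M n)) * k n) := by ring
      _ ≤ (b₁ : ℝ) ^ n * (b₀ : ℝ) ^ (M n) * (b₁ * k (n + 1)) := by gcongr
      _ = (b₁ : ℝ) ^ (n + 1) * k (n + 1) * (b₀ : ℝ) ^ (M n) := by ring
  have hbdd : BddAbove (Set.range q) := by
    refine ⟨C * K, ?_⟩
    rintro _ ⟨n, rfl⟩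
    simp only [hq]
    rw [div_le_iff₀ (by positivity)]
    have h2 : (k n : ℝ) ≤ K := by exact_mod_cast hkK n
    have h3 : (0 : ℝ) ≤ k n := by positivity
    have h4 := hbd n
    have h5 : (0 : ℝ) ≤ (b₁ : ℝ) ^ n := by positivity
    calc (b₁ : ℝ) ^ n * k n ≤ (b₁ : ℝ) ^ n * K := by gcongr
      _ ≤ (C * (b₀ : ℝ) ^ (M n)) * K := by gcongr
      _ = C * K * (b₀ : ℝ) ^ (M n) := by ring
  have hK : (0 : ℝ) < K := by
    have : 1 ≤ K := (hk1 0).trans (hkK 0)
    exact_mod_cast this
  set δ : ℝ := q 0 / (b₁ * K) with hδ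
  have hδ0 : 0 < δ := by positivity
  have hlim := tendsto_atTop_ciSup hmono hbdd
  -- eventually the increments are smaller than δ
  obtain ⟨N, hN⟩ : ∃ N, ∀ n, N ≤ n → q (n + 1) - q n < δ := by
    rw [Metric.tendsto_atTop] at hlim
    obtain ⟨N, hN⟩ := hlim (δ / 2) (by linarith)
    refine ⟨N, fun n hn => ?_⟩
    have e1 := hN n hn
    have e2 := hN (n + 1) (by omega)
    rw [Real.dist_eq, abs_lt] at e1 e2
    linarith [e1.1, e2.2]
  have heq : ∀ n, N ≤ n → b₀ ^ (M (n + 1) - M n) * k n = b₁ * k (n + 1) := by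
    intro n hn
    by_contra hne
    have hlt : b₀ ^ (M (n + 1) - M n) * k n + 1 ≤ b₁ * k (n + 1) :=
      lt_of_le_of_ne (hstep n) hne
    have h2 : ((b₀ : ℝ) ^ (M (n + 1) - M n)) * k n + 1 ≤ b₁ * k (n + 1) := by exact_mod_cast hlt
    have h3 : (b₁ : ℝ) ^ n / (b₀ : ℝ) ^ (M (n + 1)) ≤ q (n + 1) - q n := by
      have e1 : q n = (b₁ : ℝ) ^ n * ((b₀ : ℝ) ^ (M (n + 1) - M n) * k n) /
          (b₀ : ℝ) ^ (M (n + 1)) := by
        simp only [hq]
        rw [hpow n]
        field_simp
      have e2 : q (n + 1) = (b₁ : ℝ) ^ n * (b₁ * k (n + 1)) / (b₀ : ℝ) ^ (M (n + 1)) := by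
        simp only [hq]; ring
      rw [e1, e2, ← sub_div, div_le_div_iff_of_pos_right (by positivity)]
      have h5 : (0 : ℝ) < (b₁ : ℝ) ^ n := by positivity
      nlinarith
    have h4 : δ ≤ (b₁ : ℝ) ^ n / (b₀ : ℝ) ^ (M (n + 1)) := by
      rw [hδ, div_le_iff₀ (by positivity)]
      have h5 : q 0 ≤ q (n + 1) := hmono (Nat.zero_le _)
      refine h5.trans ?_
      simp only [hq]
      have h6 : (k (n + 1) : ℝ) ≤ K := by exact_mod_cast hkK (n + 1)
      rw [div_mul_eq_mul_div, div_le_div_iff_of_pos_right (by positivity)]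
      calc (b₁ : ℝ) ^ (n + 1) * k (n + 1) ≤ (b₁ : ℝ) ^ (n + 1) * K := by gcongr
        _ = (b₁ : ℝ) ^ n * (b₁ * K) := by ring
    have := hN n hn
    linarith
  have hMmono : Monotone M := monotone_nat_of_le_succ hM
  have hprod : ∀ i, b₁ ^ i * k (N + i) = b₀ ^ (M (N + i) - M N) * k N := by
    intro i
    induction i with
    | zero => simp
    | succ i ih =>
      have e1 := heq (N + i) (by omega)
      have e2 : M (N + (i + 1)) - M N = (M (N + i + 1) - M (N + i)) + (M (N + i) - M N) := by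
        have := hMmono (show N ≤ N + i by omega)
        have := hM (N + i)
        rw [← add_assoc]; omega
      calc b₁ ^ (i + 1) * k (N + (i + 1)) = b₁ ^ i * (b₁ * k (N + i + 1)) := by
            rw [pow_succ, ← add_assoc]; ring
        _ = b₁ ^ i * (b₀ ^ (M (N + i + 1) - M (N + i)) * k (N + i)) := by rw [e1]
        _ = b₀ ^ (M (N + i + 1) - M (N + i)) * (b₁ ^ i * k (N + i)) := by ring
        _ = b₀ ^ (M (N + i + 1) - M (N + i)) * (b₀ ^ (M (N + i) - M N) * k N) := by rw [ih]
        _ = b₀ ^ (M (N + (i + 1)) - M N) * k N := by rw [e2, pow_add]; ring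
  have hdvd : b₁ ^ K ∣ k N := by
    have e1 : b₁ ^ K ∣ b₀ ^ (M (N + K) - M N) * k N := by
      rw [← hprod K]; exact Dvd.intro _ rfl
    exact (Nat.Coprime.pow K _ hcop).dvd_of_dvd_mul_left e1
  have h2 : b₁ ^ K ≤ k N := Nat.le_of_dvd (hk1 N) hdvd
  have h3 : K < b₁ ^ K := Nat.lt_pow_self (by omega)
  have h4 := hkK N
  omega

section psi
variable {b : ℕ}

/-- words over `Fin b` as reduced words over `Fin (b+1)` beginning with a given letter -/
def psi : Fin (b + 1) → List (Fin b) → List (Fin (b + 1))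
  | x, [] => [x]
  | x, e :: u => x :: psi (x + e.succ) u

@[simp] lemma psi_nil (x : Fin (b + 1)) : psi x [] = [x] := rfl
@[simp] lemma psi_cons (x : Fin (b + 1)) (e : Fin b) (u : List (Fin b)) :
    psi x (e :: u) = x :: psi (x + e.succ) u := rfl

lemma psi_length (x : Fin (b + 1)) (u : List (Fin b)) : (psi x u).length = u.length + 1 := by
  induction u generalizing x with
  | nil => rfl
  | cons e u ih => rw [psi_cons, List.length_cons, ih, List.length_cons]

lemma psi_head (x : Fin (b + 1)) (u : List (Fin b)) : (psi x u).head? = some x := by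
  cases u <;> rfl

lemma add_succ_ne (x : Fin (b + 1)) (e : Fin b) : x + e.succ ≠ x := by
  intro h
  have : e.succ = 0 := by
    have h2 : x + e.succ = x + 0 := by rw [h, add_zero]
    exact add_left_cancel h2
  exact Fin.succ_ne_zero e this

lemma psi_red (x : Fin (b + 1)) (u : List (Fin b)) : Red (psi x u) := by
  induction u generalizing x with
  | nil => exact red_single x
  | cons e u ih =>
    rw [psi_cons]
    apply red_cons (ih _)
    rw [psi_head]
    intro h
    exact add_succ_ne x e (Option.some.inj h)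

lemma lcp_psi (x : Fin (b + 1)) (u v : List (Fin b)) :
    lcp (psi x u) (psi x v) = lcp u v + 1 := by
  induction u generalizing x v with
  | nil =>
    rw [psi_nil, lcp_nil_left]
    cases v with
    | nil => simp
    | cons e v => simp
  | cons e u ih =>
    cases v with
    | nil => simp
    | cons f v =>
      rw [psi_cons, psi_cons, lcp_cons_same]
      by_cases h : e = f
      · subst h; rw [ih, lcp_cons_same]
      · rw [lcp_cons_ne h]
        have h2 : x + e.succ ≠ x + f.succ := by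
          intro h3
          exact h (Fin.succ_injective _ (add_left_cancel h3))
        have h4 : lcp (psi (x + e.succ) u) (psi (x + f.succ) v) = 0 := by
          have h5 := eq_cons_of_head (psi_head (x + f.succ) v)
          rw [h5]
          apply lcp_head_ne
          rw [psi_head]
          exact fun h => h2 (Option.some.inj h)
        rw [h4]

lemma lcp_psi_ne {x y : Fin (b + 1)} (h : x ≠ y) (u v : List (Fin b)) :
    lcp (psi x u) (psi y v) = 0 := by
  have h5 := eq_cons_of_head (psi_head y v)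
  rw [h5]
  apply lcp_head_ne
  rw [psi_head]
  exact fun h' => h (Option.some.inj h')

lemma psi_surj (w : List (Fin (b + 1))) (hw : Red w) (x : Fin (b + 1)) (h : w.head? = some x) :
    ∃ u, psi x u = w := by
  induction w generalizing x with
  | nil => simp at h
  | cons a w ih =>
    simp only [List.head?_cons, Option.some.injEq] at h
    subst h
    cases hwh : w.head? with
    | none =>
      have : w = [] := by cases w <;> simp_all
      subst this
      exact ⟨[], rfl⟩
    | some y =>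
      obtain ⟨u, hu⟩ := ih (red_tail hw) y hwh
      have hne : y ≠ a := by
        intro h'
        exact head_tail_ne hw (h' ▸ hwh)
      have hne' : y - a ≠ 0 := sub_ne_zero.2 hne
      obtain ⟨e, he⟩ := Fin.exists_succ_eq.2 hne'
      refine ⟨e :: u, ?_⟩
      rw [psi_cons, he, add_sub_cancel, hu]

lemma D_psi (x : Fin (b + 1)) (u v : List (Fin b)) : D (psi x u) (psi x v) = D u v := by
  unfold D; rw [lcp_psi, psi_length, psi_length]; push_cast; ring

lemma D_psi_ne {x y : Fin (b + 1)} (h : x ≠ y) (u v : List (Fin b)) :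
    D (psi x u) (psi y v) = u.length + v.length + 2 := by
  unfold D; rw [lcp_psi_ne h, psi_length, psi_length]; push_cast; ring

end psi

end Pool.Agent.Helper33.Tree
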