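import Pool.Agent.Helper33.Tree6

set_option autoImplicit false

namespace Pool.Agent.Helper33.Tree
open Tr

section claimB
variable {b₀ b₁ : ℕ} {ℓ₀ ℓ₁ : Pos}

/-- words of length `m` mapped into the cone of `v` -/
def SS (F : List (Fin b₀) → Tr (b₁ + 1) ℓ₁) (v : List (Fin (b₁ + 1))) (m : ℕ) :
    Set (List (Fin b₀)) := {u | u.length = m ∧ v <+: (F u).w}

lemma SS_finite (F : List (Fin b₀) → Tr (b₁ + 1) ℓ₁) (v : List (Fin (b₁ + 1))) (m : ℕ) :
    (SS F v m).Finite :=
  (List.finite_length_eq (Fin b₀) m).subset fun _ h => h.1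

lemma mul_ncard_le (F : List (Fin b₀) → Tr (b₁ + 1) ℓ₁) (v : List (Fin (b₁ + 1))) (m : ℕ)
    (h : ∀ u ∈ SS F v m, ∀ i, u ++ [i] ∈ SS F v (m + 1)) :
    b₀ * (SS F v m).ncard ≤ (SS F v (m + 1)).ncard := by
  have h1 : ((SS F v m) ×ˢ (Set.univ : Set (Fin b₀))).ncard = (SS F v m).ncard * b₀ := by
    rw [Set.ncard_prod, Set.ncard_univ, Nat.card_fin]
  rw [mul_comm, ← h1]
  refine Set.ncard_le_ncard_of_injOn (fun p => p.1 ++ [p.2]) ?_ ?_ (ht := SS_finite F v (m + 1))
  · rintro ⟨u, i⟩ ⟨hu, _⟩
    exact h u hu i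
  · rintro ⟨u, i⟩ _ ⟨u', i'⟩ _ heq
    simp only at heq
    have := List.append_inj_left' heq rfl
    have h2 := List.append_inj_right' heq rfl
    subst this
    simp only [List.cons.injEq, and_true] at h2
    subst h2; rfl

theorem claimB (h0 : 2 ≤ b₀) (h1 : 2 ≤ b₁) (hcop : Nat.Coprime b₁ b₀)
    (hl0 : ℓ₀.1 = Real.log b₀) (hl1 : ℓ₁.1 = Real.log b₁)
    (F : List (Fin b₀) → Tr (b₁ + 1) ℓ₁) (c : ℝ)
    (hF : ∀ u u', |ℓ₁.1 * d (F u) (F u') - ℓ₀.1 * D u u'| ≤ c) : False := by
  classical
  have hc : 0 ≤ c := (abs_nonneg _).trans (hF [] [])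
  set a := ℓ₀.1 with ha
  set e := ℓ₁.1 with he
  have ha0 : 0 < a := ℓ₀.2
  have he0 : 0 < e := ℓ₁.2
  set c₁ := c + e * (F []).r with hc₁
  have hr0 := (F []).h0
  have hc₁0 : 0 ≤ c₁ := by positivity
  have hr : ∀ u, |e * (F u).r - a * u.length| ≤ c₁ := by
    intro u
    have e1 := hF [] u
    rw [D_nil_left, abs_le] at e1
    have e2 := d_triangle (root _ ℓ₁) (F []) (F u)
    rw [d_root, d_root] at e2
    have e3 := d_triangle (F []) (root _ ℓ₁) (F u)
    rw [d_comm (F []) (root _ ℓ₁), d_root, d_root] at e3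
    rw [abs_le]
    constructor
    · have := mul_le_mul_of_nonneg_left e3 he0.le
      rw [mul_add] at this
      linarith [e1.1]
    · have := mul_le_mul_of_nonneg_left e2 he0.le
      rw [mul_add] at this
      linarith [e1.2]
  set E := (a + c) / (2 * e) with hE
  have hE0 : 0 ≤ E := by positivity
  set c₂ := c₁ + e * E with hc₂
  have hc₂0 : 0 ≤ c₂ := by positivity
  let M : ℕ → ℕ := fun k => ⌈(e * k + c₂) / a⌉₊
  have hMle : ∀ k, e * k + c₂ ≤ a * M k := by
    intro k
    have := Nat.le_ceil ((e * k + c₂) / a)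
    rw [div_le_iff₀ ha0] at this
    linarith
  have hMge : ∀ k, a * M k ≤ e * k + c₂ + a := by
    intro k
    have h2 : 0 ≤ (e * k + c₂) / a := by positivity
    have := Nat.ceil_lt_add_one h2
    have h3 : (M k : ℝ) < (e * k + c₂) / a + 1 := this
    have h4 : a * M k < a * ((e * k + c₂) / a + 1) := mul_lt_mul_of_pos_left h3 ha0
    have h5 : a * ((e * k + c₂) / a + 1) = e * k + c₂ + a := by field_simp
    linarith
  have hMmono : ∀ k, M k ≤ M (k + 1) := by
    intro k
    apply Nat.ceil_le_ceil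
    push_cast
    gcongr
    linarith
  have hMmono' : Monotone M := monotone_nat_of_le_succ hMmono
  have m1 : ∀ (k : ℕ) (u : List (Fin b₀)), M k ≤ u.length → (k : ℝ) + E ≤ (F u).r := by
    intro k u hu
    have e1 := (abs_le.1 (hr u)).1
    have e2 : (M k : ℝ) ≤ u.length := by exact_mod_cast hu
    have e3 : a * M k ≤ a * u.length := mul_le_mul_of_nonneg_left e2 ha0.le
    have e4 := hMle k
    have e5 : e * (k + E) ≤ e * (F u).r := by rw [mul_add]; linarith
    exact le_of_mul_le_mul_left e5 he0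
  have m1' : ∀ (k : ℕ) (u : List (Fin b₀)), M k ≤ u.length → k ≤ (F u).w.length := by
    intro k u hu
    have e1 := m1 k u hu
    have e2 := (F u).h1
    have : (k : ℝ) ≤ (F u).w.length := by linarith
    exact_mod_cast this
  -- descendants
  have desc : ∀ (v : List (Fin (b₁ + 1))) (m : ℕ), M v.length ≤ m → ∀ u ∈ SS F v m, ∀ i,
      u ++ [i] ∈ SS F v (m + 1) := by
    rintro v m hm u ⟨hum, huv⟩ i
    refine ⟨by simp [hum], ?_⟩
    apply prefix_of_lcp huv
    have e1 := m1 v.length u (by omega)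
    have e2 := m1 v.length (u ++ [i]) (by simp; omega)
    have e3 := (abs_le.1 (hF u (u ++ [i]))).2
    have e4 : D u (u ++ [i]) = 1 := by
      have : D (u ++ []) (u ++ [i]) = D [] [i] := D_append u [] [i]
      rw [List.append_nil] at this
      rw [this, D_nil_left]; simp
    rw [e4] at e3
    have e5 : d (F u) (F (u ++ [i])) = (F u).r + (F (u ++ [i])).r - 2 * gp (F u) (F (u ++ [i])) := rfl
    have e6 : d (F u) (F (u ++ [i])) ≤ 2 * E := by
      have : e * d (F u) (F (u ++ [i])) ≤ e * (2 * E) := by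
        have : e * (2 * E) = a + c := by rw [hE]; field_simp
        linarith
      exact le_of_mul_le_mul_left this he0
    have e7 : (v.length : ℝ) ≤ gp (F u) (F (u ++ [i])) := by linarith
    have e8 := e7.trans (gp_le_lcp _ _)
    exact_mod_cast e8
  have descj : ∀ (v : List (Fin (b₁ + 1))) (j : ℕ),
      b₀ ^ j * (SS F v (M v.length)).ncard ≤ (SS F v (M v.length + j)).ncard := by
    intro v j
    induction j with
    | zero => simp
    | succ j ih =>
      have := mul_ncard_le F v (M v.length + j) (desc v _ (by omega))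
      calc b₀ ^ (j + 1) * (SS F v (M v.length)).ncard
          = b₀ * (b₀ ^ j * (SS F v (M v.length)).ncard) := by ring
        _ ≤ b₀ * (SS F v (M v.length + j)).ncard := by gcongr
        _ ≤ _ := this
  -- bounded
  set C₄ := (2 * (c₂ + a + c₁) + c) / (2 * a) with hC₄
  set J := ⌈C₄⌉₊ with hJ
  set K := {l : List (Fin b₀) | l.length ≤ J}.ncard with hK
  have bound : ∀ v : List (Fin (b₁ + 1)), (SS F v (M v.length)).ncard ≤ K := by
    intro v
    rcases (SS F v (M v.length)).eq_empty_or_nonempty with hemp | ⟨u₀, hu₀⟩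
    · rw [hemp]; simp
    have close : ∀ u ∈ SS F v (M v.length), M v.length - J ≤ lcp u₀ u := by
      rintro u ⟨hum, huv⟩
      obtain ⟨hum₀, huv₀⟩ := hu₀
      have e1 := m1 v.length u (by omega)
      have e2 := m1 v.length u₀ (by omega)
      have e3 : (v.length : ℝ) ≤ gp (F u₀) (F u) := by
        apply le_gp (by linarith) (by linarith)
        exact_mod_cast length_le_lcp_of_prefix huv₀ huv
      have e4 := (abs_le.1 (hr u)).2
      have e5 := (abs_le.1 (hr u₀)).2
      have e6 := hMge v.length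
      rw [hum] at e4
      rw [hum₀] at e5
      have e7 : e * d (F u₀) (F u) ≤ 2 * (c₂ + a + c₁) := by
        have : d (F u₀) (F u) = (F u₀).r + (F u).r - 2 * gp (F u₀) (F u) := rfl
        rw [this]
        have e8 : e * v.length ≤ e * gp (F u₀) (F u) := mul_le_mul_of_nonneg_left e3 he0.le
        nlinarith
      have e9 := (abs_le.1 (hF u₀ u)).1
      have e10 : D u₀ u = 2 * ((M v.length : ℝ) - lcp u₀ u) := by
        unfold D; rw [hum, hum₀]; ring
      rw [e10] at e9
      have e11 : (M v.length : ℝ) - lcp u₀ u ≤ C₄ := by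
        rw [hC₄, le_div_iff₀ (by positivity)]
        linarith
      have e12 : (M v.length : ℝ) ≤ lcp u₀ u + J := by
        have := Nat.le_ceil C₄
        linarith
      have e13 : M v.length ≤ lcp u₀ u + J := by exact_mod_cast e12
      omega
    refine Set.ncard_le_ncard_of_injOn (fun u => u.drop (M v.length - J)) ?_ ?_
      (ht := List.finite_length_le (Fin b₀) J)
    · rintro u ⟨hum, _⟩
      change (u.drop (M v.length - J)).length ≤ J
      rw [List.length_drop]; omega
    · intro u hu u' hu' heq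
      obtain ⟨_, _, t1⟩ := (le_lcp_iff _ _ _).1 (close u hu)
      obtain ⟨_, _, t2⟩ := (le_lcp_iff _ _ _).1 (close u' hu')
      simp only at heq
      rw [← List.take_append_drop (M v.length - J) u, ← List.take_append_drop (M v.length - J) u',
        heq, ← t1, ← t2]
  -- maxima
  let A : ℕ → Set ℕ := fun n => {x | ∃ v : List (Fin (b₁ + 1)), Red v ∧ v.length = n + 1 ∧
    x = (SS F v (M (n + 1))).ncard}
  have hAbdd : ∀ n, BddAbove (A n) := by
    intro n
    refine ⟨K, ?_⟩
    rintro _ ⟨v, _, hv, rfl⟩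
    rw [← hv]; exact bound v
  have : NeZero b₀ := ⟨by omega⟩
  have hpos : ∀ n, ∃ x ∈ A n, 1 ≤ x := by
    intro n
    let u : List (Fin b₀) := List.replicate (M (n + 1)) 0
    have hu : u.length = M (n + 1) := by simp [u]
    have h2 : n + 1 ≤ (F u).w.length := m1' (n + 1) u hu.ge
    refine ⟨_, ⟨(F u).w.take (n + 1), red_take (F u).red _, by simp [h2], rfl⟩, ?_⟩
    have : u ∈ SS F ((F u).w.take (n + 1)) (M (n + 1)) := ⟨hu, List.take_prefix _ _⟩
    exact Nat.one_le_iff_ne_zero.2 (Set.ncard_ne_zero_of_mem this (SS_finite F _ _))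
  have hAne : ∀ n, (A n).Nonempty := fun n => let ⟨x, hx, _⟩ := hpos n; ⟨x, hx⟩
  refine arith h0 h1 hcop K (fun n => sSup (A n)) (fun n => M (n + 1)) 1 ?_ ?_ ?_ ?_ ?_
  · intro n
    obtain ⟨x, hx, hx1⟩ := hpos n
    exact hx1.trans (le_csSup (hAbdd n) hx)
  · intro n
    apply csSup_le (hAne n)
    rintro _ ⟨v, _, hv, rfl⟩
    rw [← hv]; exact bound v
  · exact fun n => hMmono (n + 1)
  · intro n
    obtain ⟨v, hvred, hv, hmax⟩ := Nat.sSup_mem (hAne n) (hAbdd n)
    rw [hmax]
    have e1 := descj v (M (n + 1 + 1) - M (n + 1))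
    rw [hv] at e1
    have e2 : M (n + 1) + (M (n + 1 + 1) - M (n + 1)) = M (n + 2) := by
      have := hMmono (n + 1)
      have e3 : n + 1 + 1 = n + 2 := rfl
      rw [e3] at this ⊢
      omega
    rw [e2] at e1
    refine e1.trans ?_
    -- cover by children
    have hvne : v ≠ [] := by intro h; rw [h] at hv; simp at hv
    set l := v.getLast hvne with hl
    have hcover : SS F v (M (n + 2)) ⊆
        ⋃ z ∈ (Finset.univ.erase l : Finset (Fin (b₁ + 1))), SS F (v ++ [z]) (M (n + 2)) := by
      rintro u ⟨hum, huv⟩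
      have h3 : n + 2 ≤ (F u).w.length := m1' (n + 2) u hum.ge
      obtain ⟨t, ht⟩ := huv
      cases t with
      | nil =>
        rw [← ht] at h3
        simp at h3; omega
      | cons z t =>
        simp only [Set.mem_iUnion]
        refine ⟨z, ?_, hum, ⟨t, ?_⟩⟩
        · rw [Finset.mem_erase]
          refine ⟨?_, Finset.mem_univ _⟩
          have hred := (F u).red
          rw [← ht] at hred
          unfold Red at hred
          rw [List.isChain_append] at hred
          have := hred.2.2 l (by rw [hl]; exact List.getLast?_eq_getLast_of_ne_nil hvne) z (by simp)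
          exact fun h => this h.symm
        · rw [← ht]; simp
    have e4 : (SS F v (M (n + 2))).ncard ≤
        ∑ z ∈ (Finset.univ.erase l : Finset (Fin (b₁ + 1))), (SS F (v ++ [z]) (M (n + 2))).ncard := by
      refine (Set.ncard_le_ncard hcover ?_).trans ?_
      · exact Set.Finite.biUnion (Finset.finite_toSet _) fun z _ => SS_finite F _ _
      · exact Finset.set_ncard_biUnion_le _ _
    refine e4.trans ?_
    have e5 : ∀ z ∈ (Finset.univ.erase l : Finset (Fin (b₁ + 1))),
        (SS F (v ++ [z]) (M (n + 2))).ncard ≤ sSup (A (n + 1)) := by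
      intro z hz
      rw [Finset.mem_erase] at hz
      apply le_csSup (hAbdd (n + 1))
      refine ⟨v ++ [z], ?_, by simp [hv], rfl⟩
      unfold Red at *
      rw [List.isChain_append]
      refine ⟨hvred, List.IsChain.singleton z, ?_⟩
      intro x hx y hy
      have h6 : x = l := by
        rw [List.getLast?_eq_getLast_of_ne_nil hvne] at hx
        exact (Option.some.inj hx).symm
      have h7 : y = z := by simpa using hy.symm
      rw [h6, h7]
      exact hz.1.symm
    refine (Finset.sum_le_sum e5).trans ?_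
    rw [Finset.sum_const, Finset.card_erase_of_mem (Finset.mem_univ _), Finset.card_univ,
      Fintype.card_fin]
    simp
  · intro n
    rw [one_mul]
    have hb0 : (0 : ℝ) < b₀ := by positivity
    have hb1 : (0 : ℝ) < b₁ := by positivity
    have e1 : (b₁ : ℝ) ^ n = Real.exp (e * n) := by
      rw [hl1, mul_comm, Real.exp_nat_mul, Real.exp_log hb1]
    have e2 : (b₀ : ℝ) ^ (M (n + 1)) = Real.exp (a * M (n + 1)) := by
      rw [hl0, mul_comm, Real.exp_nat_mul, Real.exp_log hb0]
    rw [e1, e2, Real.exp_le_exp]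
    have := hMle (n + 1)
    push_cast at this
    nlinarith

end claimB

end Pool.Agent.Helper33.Tree
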