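import Pool.Agent.Helper33.Tree7

set_option autoImplicit false

namespace Pool.Agent.Helper33.Tree
open Tr

/-- the abstract quasi-isometry lemma -/
lemma qi_of {Y X₀ X₁ : Type} [MetricSpace X₀] [MetricSpace X₁] (E₀ : Y → X₀) (E₁ : Y → X₁)
    (DY : Y → Y → ℝ) (α₀ α₁ β₁ C L : ℝ) (hL : 1 ≤ L) (hC : 0 ≤ C)
    (hβ : β₁ ≤ L * α₀) (hα₁ : α₀ ≤ L * α₁) (hDY : ∀ y y', 0 ≤ DY y y')
    (h0 : ∀ y y', |dist (E₀ y) (E₀ y') - α₀ * DY y y'| ≤ C)
    (h1 : ∀ y y', α₁ * DY y y' - C ≤ dist (E₁ y) (E₁ y'))
    (h1' : ∀ y y', dist (E₁ y) (E₁ y') ≤ β₁ * DY y y' + C)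
    (on0 : ∀ x, ∃ y, dist (E₀ y) x ≤ C) (on1 : ∀ z, ∃ y, dist (E₁ y) z ≤ C) :
    ∃ f : X₀ → X₁, ∃ c : ℝ, (∀ x y : X₀, dist x y / L - c ≤ dist (f x) (f y) ∧
      dist (f x) (f y) ≤ L * dist x y + c) ∧ ∀ z : X₁, ∃ x : X₀, dist (f x) z ≤ c := by
  choose g hg using on0
  have hLC : C ≤ L * C := by nlinarith
  refine ⟨fun x => E₁ (g x), 4 * (L * C), fun x x' => ?_, fun z => ?_⟩
  · set D := DY (g x) (g x') with hD
    have hD0 := hDY (g x) (g x')
    rw [← hD] at hD0
    have e0 := abs_le.1 (h0 (g x) (g x'))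
    rw [← hD] at e0
    have e1 := h1 (g x) (g x')
    have e2 := h1' (g x) (g x')
    rw [← hD] at e1 e2
    have t1 : dist (E₀ (g x)) (E₀ (g x')) ≤ dist x x' + 2 * C := by
      have a1 := dist_triangle4 (E₀ (g x)) x x' (E₀ (g x'))
      have a2 := hg x
      have a3 := hg x'
      rw [dist_comm x' (E₀ (g x'))] at a1
      linarith
    have t2 : dist x x' ≤ dist (E₀ (g x)) (E₀ (g x')) + 2 * C := by
      have a1 := dist_triangle4 x (E₀ (g x)) (E₀ (g x')) x'
      have a2 := hg x
      have a3 := hg x'
      rw [dist_comm x (E₀ (g x))] at a1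
      linarith
    constructor
    · rw [sub_le_iff_le_add, div_le_iff₀ (by linarith)]
      have a1 : α₀ * D ≤ L * α₁ * D := mul_le_mul_of_nonneg_right hα₁ hD0
      have a2 : L * (α₁ * D) ≤ L * (dist (E₁ (g x)) (E₁ (g x')) + C) :=
        mul_le_mul_of_nonneg_left (by linarith) (by linarith)
      have a3 : L * C ≤ L * (L * C) := mul_le_mul_of_nonneg_left hLC (by linarith)
      nlinarith
    · have a1 : β₁ * D ≤ L * α₀ * D := mul_le_mul_of_nonneg_right hβ hD0
      have a2 : L * (α₀ * D) ≤ L * (dist x x' + 3 * C) :=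
        mul_le_mul_of_nonneg_left (by linarith) (by linarith)
      nlinarith
  · obtain ⟨y, hy⟩ := on1 z
    refine ⟨E₀ y, ?_⟩
    have b1 := hg (E₀ y)
    set y' := g (E₀ y) with hy'
    have e0 := abs_le.1 (h0 y' y)
    have e2 := h1' y' y
    have hD0 := hDY y' y
    have a1 : β₁ * DY y' y ≤ L * α₀ * DY y' y := mul_le_mul_of_nonneg_right hβ hD0
    have a2 : L * (α₀ * DY y' y) ≤ L * (2 * C) :=
      mul_le_mul_of_nonneg_left (by linarith) (by linarith)
    have a3 := dist_triangle (E₁ y') (E₁ y) z
    nlinarith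

/-- complete prefix codes -/
structure Code {A : Type} {b : ℕ} (cw : A → List (Fin b)) (lo hi : ℕ) : Prop where
  lo_le : ∀ a, lo ≤ (cw a).length
  le_hi : ∀ a, (cw a).length ≤ hi
  pf : ∀ a a', a ≠ a' → ¬ cw a <+: cw a'
  complete : ∀ t : List (Fin b), hi ≤ t.length → ∃ a, cw a <+: t

section enc
variable {A : Type} [DecidableEq A] {b : ℕ} (cw : A → List (Fin b))

/-- concatenation of code words -/
def enc (u : List A) : List (Fin b) := u.flatMap cw

omit [DecidableEq A] in
@[simp] lemma enc_nil : enc cw [] = [] := rfl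
omit [DecidableEq A] in
@[simp] lemma enc_cons (a : A) (u : List A) : enc cw (a :: u) = cw a ++ enc cw u := by
  simp [enc]

variable {cw}

omit [DecidableEq A] in
lemma enc_length {lo hi : ℕ} (h : Code cw lo hi) (u : List A) :
    lo * u.length ≤ (enc cw u).length ∧ (enc cw u).length ≤ hi * u.length := by
  induction u with
  | nil => simp
  | cons a u ih =>
    rw [enc_cons, List.length_append, List.length_cons]
    have h1 := h.lo_le a
    have h2 := h.le_hi a
    constructor <;> rw [mul_add, mul_one] <;> omega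

lemma enc_D {lo hi : ℕ} (h : Code cw lo hi) (u v : List A) :
    D (enc cw u) (enc cw v) ≤ hi * D u v ∧ lo * D u v - 2 * hi ≤ D (enc cw u) (enc cw v) := by
  induction u generalizing v with
  | nil =>
    rw [enc_nil, D_nil_left, D_nil_left]
    obtain ⟨h1, h2⟩ := enc_length h v
    constructor
    · exact_mod_cast h2
    · have : (lo : ℝ) * v.length ≤ (enc cw v).length := by exact_mod_cast h1
      have : (0:ℝ) ≤ hi := by positivity
      linarith
  | cons a u ih =>
    cases v with
    | nil =>
      rw [enc_nil, D_nil_right, D_nil_right]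
      obtain ⟨h1, h2⟩ := enc_length h (a :: u)
      constructor
      · exact_mod_cast h2
      · have : (lo : ℝ) * (a :: u).length ≤ (enc cw (a :: u)).length := by exact_mod_cast h1
        have : (0:ℝ) ≤ hi := by positivity
        linarith
    | cons a' v =>
      by_cases haa : a = a'
      · subst haa
        rw [enc_cons, enc_cons, D_append]
        have : D (a :: u) (a :: v) = D u v := D_append [a] u v
        rw [this]
        exact ih v
      · obtain ⟨h1, h2⟩ := enc_length h (a :: u)
        obtain ⟨h3, h4⟩ := enc_length h (a' :: v)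
        have h5 : D (a :: u) (a' :: v) = (a :: u).length + (a' :: v).length := by
          unfold D; rw [lcp_cons_ne haa]; simp
        have h6 : lcp (enc cw (a :: u)) (enc cw (a' :: v)) ≤ hi := by
          rw [enc_cons, enc_cons, lcp_append_of_not_prefix (h.pf _ _ haa) (h.pf _ _ (Ne.symm haa))]
          exact (lcp_le_left _ _).trans (h.le_hi a)
        have h7 : (lcp (enc cw (a :: u)) (enc cw (a' :: v)) : ℝ) ≤ hi := by exact_mod_cast h6
        have h7' : (0:ℝ) ≤ (lcp (enc cw (a :: u)) (enc cw (a' :: v)) : ℝ) := by positivity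
        have h1' : (lo : ℝ) * (a :: u).length ≤ (enc cw (a :: u)).length := by exact_mod_cast h1
        have h2' : ((enc cw (a :: u)).length : ℝ) ≤ hi * (a :: u).length := by exact_mod_cast h2
        have h3' : (lo : ℝ) * (a' :: v).length ≤ (enc cw (a' :: v)).length := by exact_mod_cast h3
        have h4' : ((enc cw (a' :: v)).length : ℝ) ≤ hi * (a' :: v).length := by exact_mod_cast h4
        rw [h5]
        unfold D
        constructor
        · rw [mul_add]; linarith
        · rw [mul_add]; linarith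

omit [DecidableEq A] in
lemma enc_onto {lo hi : ℕ} (h : Code cw lo hi) (hlo : 1 ≤ lo) (n : ℕ) :
    ∀ t : List (Fin b), t.length ≤ n → ∃ u, D (enc cw u) t ≤ hi := by
  induction n with
  | zero =>
    intro t ht
    refine ⟨[], ?_⟩
    rw [enc_nil, D_nil_left]
    have : t.length = 0 := by omega
    rw [this]; simp
  | succ n ih =>
    intro t ht
    by_cases hh : hi ≤ t.length
    · obtain ⟨a, t', rfl⟩ := h.complete t hh
      rw [List.length_append] at ht
      have := h.lo_le a
      obtain ⟨u, hu⟩ := ih t' (by omega)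
      refine ⟨a :: u, ?_⟩
      rw [enc_cons, D_append]; exact hu
    · refine ⟨[], ?_⟩
      rw [enc_nil, D_nil_left]
      exact_mod_cast (by omega : t.length ≤ hi)

end enc

/-- all words of length `j` -/
def words (b j : ℕ) : Finset (List (Fin b)) :=
  (Finset.univ : Finset (Fin j → Fin b)).map ⟨List.ofFn, List.ofFn_injective⟩

lemma mem_words {b j : ℕ} {l : List (Fin b)} : l ∈ words b j ↔ l.length = j := by
  unfold words
  rw [Finset.mem_map]
  constructor
  · rintro ⟨f, _, rfl⟩; simp
  · rintro rfl; exact ⟨l.get, Finset.mem_univ _, by simp⟩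

lemma card_words (b j : ℕ) : (words b j).card = b ^ j := by
  unfold words; rw [Finset.card_map, Finset.card_univ]; simp

lemma code_words (b j : ℕ) : Code (fun a : words b j => a.1) j j where
  lo_le a := (mem_words.1 a.2).ge
  le_hi a := (mem_words.1 a.2).le
  pf a a' hne h := by
    apply hne
    apply Subtype.ext
    exact h.eq_of_length (by rw [mem_words.1 a.2, mem_words.1 a'.2])
  complete t ht := ⟨⟨t.take j, mem_words.2 (by simp [ht])⟩, List.take_prefix _ _⟩

/-- complete binary code with a prescribed number of words -/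
lemma exists_code (N m : ℕ) (h1 : 2 ^ m ≤ N) (h2 : N ≤ 2 ^ (m + 1)) :
    ∃ C : Finset (List (Fin 2)), C.card = N ∧ Code (fun a : C => a.1) m (m + 1) := by
  classical
  obtain ⟨S, hS, hSc⟩ := Finset.exists_subset_card_eq
    (show 2 ^ (m + 1) - N ≤ (words 2 m).card by rw [card_words]; rw [pow_succ] at *; omega)
  set R := ((words 2 m \ S) ×ˢ (Finset.univ : Finset (Fin 2))).image
    (fun p : List (Fin 2) × Fin 2 => p.1 ++ [p.2]) with hR
  have hSm : ∀ l ∈ S, l.length = m := fun l hl => mem_words.1 (hS hl)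
  have hRm : ∀ l ∈ R, l.length = m + 1 ∧ ∃ w i, w.length = m ∧ w ∉ S ∧ l = w ++ [i] := by
    intro l hl
    rw [hR, Finset.mem_image] at hl
    obtain ⟨⟨w, i⟩, hw, rfl⟩ := hl
    rw [Finset.mem_product, Finset.mem_sdiff, mem_words] at hw
    exact ⟨by simp [hw.1.1], w, i, hw.1.1, hw.1.2, rfl⟩
  have hRcard : R.card = (2 ^ m - (2 ^ (m + 1) - N)) * 2 := by
    rw [hR, Finset.card_image_of_injective]
    · rw [Finset.card_product, Finset.card_sdiff_of_subset hS, card_words, hSc]; simp
    · rintro ⟨w, i⟩ ⟨w', i'⟩ h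
      simp only at h
      have e1 := List.append_inj_left' h rfl
      have e2 := List.append_inj_right' h rfl
      simp only [List.cons.injEq, and_true] at e2
      rw [e1, e2]
  have hdisj : Disjoint S R := by
    rw [Finset.disjoint_left]
    intro l hl hl'
    have e1 := hSm l hl
    have e2 := (hRm l hl').1
    omega
  refine ⟨S ∪ R, ?_, ?_⟩
  · rw [Finset.card_union_of_disjoint hdisj, hSc, hRcard]
    rw [pow_succ] at *
    omega
  · refine ⟨?_, ?_, ?_, ?_⟩
    · rintro ⟨l, hl⟩
      rcases Finset.mem_union.1 hl with h | h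
      · exact (hSm l h).ge
      · have := (hRm l h).1
        simp only; omega
    · rintro ⟨l, hl⟩
      rcases Finset.mem_union.1 hl with h | h
      · have := hSm l h
        simp only; omega
      · exact (hRm l h).1.le
    · rintro ⟨l, hl⟩ ⟨l', hl'⟩ hne hpre
      simp only at hpre
      have hne' : l ≠ l' := fun h => hne (Subtype.ext h)
      rcases Finset.mem_union.1 hl with h | h <;> rcases Finset.mem_union.1 hl' with h' | h'
      · exact hne' (hpre.eq_of_length (by rw [hSm l h, hSm l' h']))
      · obtain ⟨_, w, i, hw, hwS, rfl⟩ := hRm l' h'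
        have e1 : l <+: w := by
          apply List.prefix_of_prefix_length_le hpre (List.prefix_append w [i])
          rw [hSm l h, hw]
        have e2 : l = w := e1.eq_of_length (by rw [hSm l h, hw])
        exact hwS (e2 ▸ h)
      · have e1 := hpre.length_le
        rw [(hRm l h).1, hSm l' h'] at e1
        omega
      · exact hne' (hpre.eq_of_length (by rw [(hRm l h).1, (hRm l' h').1]))
    · intro t ht
      have hw : t.take m ∈ words 2 m := mem_words.2 (by simp; omega)
      by_cases hwS : t.take m ∈ S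
      · exact ⟨⟨t.take m, Finset.mem_union_left _ hwS⟩, List.take_prefix _ _⟩
      · have h3 : m < t.length := by omega
        have h4 : t.take (m + 1) = t.take m ++ [t[m]] := by
          rw [List.take_succ_eq_append_getElem h3]
        refine ⟨⟨t.take (m + 1), Finset.mem_union_right _ ?_⟩, List.take_prefix _ _⟩
        rw [hR, Finset.mem_image]
        refine ⟨(t.take m, t[m]), ?_, h4.symm⟩
        rw [Finset.mem_product, Finset.mem_sdiff]
        exact ⟨⟨hw, hwS⟩, Finset.mem_univ _⟩

end Pool.Agent.Helper33.Tree
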