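import Pool.Agent.Helper33.Tree8

set_option autoImplicit false

namespace Pool.Agent.Helper33.Tree
open Tr

section maps
variable {A : Type} [DecidableEq A] {ℓ₀ ℓ₁ : Pos}

/-- distance on the common model -/
noncomputable def DY (y y' : Fin 4 × List A) : ℝ :=
  if y.1 = y'.1 then D y.2 y'.2 else y.2.length + y'.2.length

lemma DY_nonneg (y y' : Fin 4 × List A) : 0 ≤ DY y y' := by
  unfold DY; split_ifs
  · exact D_nonneg _ _
  · positivity

/-- common estimate -/
lemma model_est {n b : ℕ} {ℓ : Pos} {cw : A → List (Fin b)} {lo hi : ℕ} (h : Code cw lo hi)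
    (E : Fin 4 × List A → Tr n ℓ)
    (same : ∀ x u u', d (E (x, u)) (E (x, u')) = D (enc cw u) (enc cw u'))
    (diff : ∀ x y u u', x ≠ y →
      |d (E (x, u)) (E (y, u')) - ((enc cw u).length + (enc cw u').length)| ≤ 4)
    (y y' : Fin 4 × List A) :
    lo * DY y y' - (2 * hi + 4) ≤ d (E y) (E y') ∧ d (E y) (E y') ≤ hi * DY y y' + (2 * hi + 4) := by
  obtain ⟨x, u⟩ := y
  obtain ⟨x', u'⟩ := y'
  have hhi : (0:ℝ) ≤ hi := by positivity
  unfold DY
  by_cases hx : x = x'
  · subst hx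
    simp only [if_true]
    rw [same]
    obtain ⟨h1, h2⟩ := enc_D h u u'
    constructor <;> linarith
  · simp only [hx, if_false]
    have h1 := abs_le.1 (diff x x' u u' hx)
    obtain ⟨h2, h3⟩ := enc_length h u
    obtain ⟨h4, h5⟩ := enc_length h u'
    have h2' : (lo : ℝ) * u.length ≤ (enc cw u).length := by exact_mod_cast h2
    have h3' : ((enc cw u).length : ℝ) ≤ hi * u.length := by exact_mod_cast h3
    have h4' : (lo : ℝ) * u'.length ≤ (enc cw u').length := by exact_mod_cast h4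
    have h5' : ((enc cw u').length : ℝ) ≤ hi * u'.length := by exact_mod_cast h5
    constructor
    · rw [mul_add]; linarith [h1.1]
    · rw [mul_add]; linarith [h1.2]

/-- map to the 4-regular tree -/
def E0 (ℓ₀ : Pos) (cw : A → List (Fin 3)) (y : Fin 4 × List A) : Tr 4 ℓ₀ :=
  vtx ℓ₀ (psi (b := 3) y.1 (enc cw y.2)) (psi_red _ _)

lemma E0_same (cw : A → List (Fin 3)) (x : Fin 4) (u u' : List A) :
    d (E0 ℓ₀ cw (x, u)) (E0 ℓ₀ cw (x, u')) = D (enc cw u) (enc cw u') := by
  unfold E0; rw [d_vtx, D_psi]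

lemma E0_diff (cw : A → List (Fin 3)) (x y : Fin 4) (u u' : List A) (h : x ≠ y) :
    |d (E0 ℓ₀ cw (x, u)) (E0 ℓ₀ cw (y, u')) - ((enc cw u).length + (enc cw u').length)| ≤ 4 := by
  unfold E0; rw [d_vtx, D_psi_ne h, abs_le]; constructor <;> linarith

omit [DecidableEq A] in
lemma E0_onto {cw : A → List (Fin 3)} {lo hi : ℕ} (h : Code cw lo hi) (hlo : 1 ≤ lo)
    (p : Tr 4 ℓ₀) : ∃ y, d (E0 ℓ₀ cw y) p ≤ hi + 4 := by
  have hhi : (0:ℝ) ≤ hi := by positivity
  have hp := d_self_vtx_le p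
  rw [d_comm] at hp
  cases hw : p.w.head? with
  | none =>
    have hw' : p.w = [] := by
      cases hpw : p.w with
      | nil => rfl
      | cons a w => rw [hpw] at hw; simp at hw
    refine ⟨(0, []), ?_⟩
    have h1 := d_triangle (E0 ℓ₀ cw (0, [])) (vtx ℓ₀ p.w p.red) p
    have h2 : d (E0 ℓ₀ cw (0, [])) (vtx ℓ₀ p.w p.red) ≤ 1 := by
      unfold E0; rw [d_vtx]
      simp only [enc_nil, psi_nil, hw', D_nil_right]
      simp
    linarith
  | some x =>
    obtain ⟨t, ht⟩ := psi_surj (b := 3) p.w p.red x hw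
    obtain ⟨u, hu⟩ := enc_onto h hlo t.length t le_rfl
    refine ⟨(x, u), ?_⟩
    have h1 := d_triangle (E0 ℓ₀ cw (x, u)) (vtx ℓ₀ p.w p.red) p
    have h2 : d (E0 ℓ₀ cw (x, u)) (vtx ℓ₀ p.w p.red) ≤ hi := by
      unfold E0; rw [d_vtx, ← ht, D_psi]; exact hu
    linarith

/-- the four cones of the 3-regular tree -/
def cone : Fin 4 → List (Fin 2) → List (Fin 3)
  | 0, t => psi (b := 2) 0 t
  | 1, t => psi (b := 2) 1 t
  | 2, t => 2 :: psi (b := 2) 0 t
  | 3, t => 2 :: psi (b := 2) 1 t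

lemma cone_red (x : Fin 4) (t : List (Fin 2)) : Red (cone x t) := by
  fin_cases x
  · exact psi_red _ _
  · exact psi_red _ _
  · apply red_cons (psi_red _ _); rw [psi_head]; decide
  · apply red_cons (psi_red _ _); rw [psi_head]; decide

lemma cone_same (x : Fin 4) (t t' : List (Fin 2)) : D (cone x t) (cone x t') = D t t' := by
  fin_cases x
  · exact D_psi _ _ _
  · exact D_psi _ _ _
  · exact (D_append [2] _ _).trans (D_psi _ _ _)
  · exact (D_append [2] _ _).trans (D_psi _ _ _)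

lemma lcp_psi_two (x : Fin 3) (hx : x ≠ 2) (t : List (Fin 2)) (w : List (Fin 3)) :
    lcp (psi (b := 2) x t) (2 :: w) = 0 := by
  apply lcp_head_ne
  rw [psi_head]
  exact fun h => hx (Option.some.inj h)

lemma cone_diff (x y : Fin 4) (t t' : List (Fin 2)) (h : x ≠ y) :
    |D (cone x t) (cone y t') - (t.length + t'.length)| ≤ 4 := by
  have key : lcp (cone x t) (cone y t') ≤ 1 ∧ (cone x t).length ≤ t.length + 2 ∧
      t.length + 1 ≤ (cone x t).length ∧ (cone y t').length ≤ t'.length + 2 ∧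
      t'.length + 1 ≤ (cone y t').length := by
    refine ⟨?_, ?_, ?_, ?_, ?_⟩
    · fin_cases x <;> fin_cases y <;> first | exact absurd rfl h | skip
      · exact (lcp_psi_ne (by decide) _ _).le.trans zero_le_one
      · exact (lcp_psi_two _ (by decide) _ _).le.trans zero_le_one
      · exact (lcp_psi_two _ (by decide) _ _).le.trans zero_le_one
      · exact (lcp_psi_ne (by decide) _ _).le.trans zero_le_one
      · exact (lcp_psi_two _ (by decide) _ _).le.trans zero_le_one
      · exact (lcp_psi_two _ (by decide) _ _).le.trans zero_le_one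
      · exact ((lcp_comm _ _).trans (lcp_psi_two _ (by decide) _ _)).le.trans zero_le_one
      · exact ((lcp_comm _ _).trans (lcp_psi_two _ (by decide) _ _)).le.trans zero_le_one
      · change lcp (2 :: psi (b := 2) 0 t) (2 :: psi (b := 2) 1 t') ≤ 1
        rw [lcp_cons_same, lcp_psi_ne (by decide)]
      · exact ((lcp_comm _ _).trans (lcp_psi_two _ (by decide) _ _)).le.trans zero_le_one
      · exact ((lcp_comm _ _).trans (lcp_psi_two _ (by decide) _ _)).le.trans zero_le_one
      · change lcp (2 :: psi (b := 2) 1 t) (2 :: psi (b := 2) 0 t') ≤ 1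
        rw [lcp_cons_same, lcp_psi_ne (by decide)]
    · fin_cases x <;> simp [cone, psi_length]
    · fin_cases x <;> simp [cone, psi_length]
    · fin_cases y <;> simp [cone, psi_length]
    · fin_cases y <;> simp [cone, psi_length]
  obtain ⟨h1, h2, h3, h4, h5⟩ := key
  have h1' : (lcp (cone x t) (cone y t') : ℝ) ≤ 1 := by exact_mod_cast h1
  have h2' : ((cone x t).length : ℝ) ≤ t.length + 2 := by exact_mod_cast h2
  have h3' : (t.length : ℝ) + 1 ≤ (cone x t).length := by exact_mod_cast h3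
  have h4' : ((cone y t').length : ℝ) ≤ t'.length + 2 := by exact_mod_cast h4
  have h5' : (t'.length : ℝ) + 1 ≤ (cone y t').length := by exact_mod_cast h5
  have h6 : (0:ℝ) ≤ lcp (cone x t) (cone y t') := by positivity
  unfold D
  rw [abs_le]
  constructor <;> linarith

lemma cone_onto (w : List (Fin 3)) (hw : Red w) :
    (∃ x t, cone x t = w) ∨ w = [] ∨ w = [2] := by
  cases hh : w.head? with
  | none =>
    right; left
    cases w with
    | nil => rfl
    | cons a w => simp at hh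
  | some x =>
    obtain rfl | rfl | rfl : x = 0 ∨ x = 1 ∨ x = 2 := by fin_cases x <;> simp
    · obtain ⟨t, ht⟩ := psi_surj (b := 2) w hw 0 hh
      exact Or.inl ⟨0, t, ht⟩
    · obtain ⟨t, ht⟩ := psi_surj (b := 2) w hw 1 hh
      exact Or.inl ⟨1, t, ht⟩
    · have e := eq_cons_of_head hh
      have hred : Red (2 :: w.tail) := e ▸ hw
      cases hh' : w.tail.head? with
      | none =>
        right; right
        have : w.tail = [] := by
          cases hwt : w.tail with
          | nil => rfl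
          | cons a w' => rw [hwt] at hh'; simp at hh'
        rw [e, this]
      | some y =>
        obtain ⟨t, ht⟩ := psi_surj (b := 2) w.tail (red_tail hw) y hh'
        obtain rfl | rfl | rfl : y = 0 ∨ y = 1 ∨ y = 2 := by fin_cases y <;> simp
        · refine Or.inl ⟨2, t, ?_⟩
          rw [e, ← ht]; rfl
        · refine Or.inl ⟨3, t, ?_⟩
          rw [e, ← ht]; rfl
        · exact absurd hh' (head_tail_ne hred)

/-- map to the 3-regular tree -/
def E1 (ℓ₁ : Pos) (cw : A → List (Fin 2)) (y : Fin 4 × List A) : Tr 3 ℓ₁ :=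
  vtx ℓ₁ (cone y.1 (enc cw y.2)) (cone_red _ _)

lemma E1_same (cw : A → List (Fin 2)) (x : Fin 4) (u u' : List A) :
    d (E1 ℓ₁ cw (x, u)) (E1 ℓ₁ cw (x, u')) = D (enc cw u) (enc cw u') := by
  unfold E1; rw [d_vtx, cone_same]

lemma E1_diff (cw : A → List (Fin 2)) (x y : Fin 4) (u u' : List A) (h : x ≠ y) :
    |d (E1 ℓ₁ cw (x, u)) (E1 ℓ₁ cw (y, u')) - ((enc cw u).length + (enc cw u').length)| ≤ 4 := by
  unfold E1; rw [d_vtx]; exact cone_diff x y _ _ h

omit [DecidableEq A] in
lemma E1_onto {cw : A → List (Fin 2)} {lo hi : ℕ} (h : Code cw lo hi) (hlo : 1 ≤ lo)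
    (p : Tr 3 ℓ₁) : ∃ y, d (E1 ℓ₁ cw y) p ≤ hi + 4 := by
  have hhi : (0:ℝ) ≤ hi := by positivity
  have hp := d_self_vtx_le p
  rw [d_comm] at hp
  rcases cone_onto p.w p.red with ⟨x, t, ht⟩ | hw | hw
  · obtain ⟨u, hu⟩ := enc_onto h hlo t.length t le_rfl
    refine ⟨(x, u), ?_⟩
    have h1 := d_triangle (E1 ℓ₁ cw (x, u)) (vtx ℓ₁ p.w p.red) p
    have h2 : d (E1 ℓ₁ cw (x, u)) (vtx ℓ₁ p.w p.red) ≤ hi := by
      unfold E1; rw [d_vtx, ← ht, cone_same]; exact hu
    linarith
  · refine ⟨(0, []), ?_⟩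
    have h1 := d_triangle (E1 ℓ₁ cw (0, [])) (vtx ℓ₁ p.w p.red) p
    have h2 : d (E1 ℓ₁ cw (0, [])) (vtx ℓ₁ p.w p.red) ≤ 1 := by
      unfold E1; rw [d_vtx]
      simp only [enc_nil, hw, D_nil_right]
      simp [cone]
    linarith
  · refine ⟨(0, []), ?_⟩
    have h1 := d_triangle (E1 ℓ₁ cw (0, [])) (vtx ℓ₁ p.w p.red) p
    have h2 : d (E1 ℓ₁ cw (0, [])) (vtx ℓ₁ p.w p.red) ≤ 2 := by
      unfold E1; rw [d_vtx]
      simp only [enc_nil, hw]
      unfold D
      have : lcp (cone 0 []) [2] = 0 := by simp [cone, lcp_cons]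
      rw [this]
      simp [cone]; norm_num
    linarith

end maps

/-- edge length `log 3` -/
noncomputable def L3 : Pos := ⟨Real.log 3, Real.log_pos (by norm_num)⟩
/-- edge length `log 2` -/
noncomputable def L2 : Pos := ⟨Real.log 2, Real.log_pos (by norm_num)⟩

/-- near-isometric quasi-isometries -/
theorem claimA (L : ℝ) (hL : 1 < L) :
    ∃ f : Tr 4 L3 → Tr 3 L2, ∃ c : ℝ, (∀ x y : Tr 4 L3, dist x y / L - c ≤ dist (f x) (f y) ∧
      dist (f x) (f y) ≤ L * dist x y + c) ∧ ∀ z : Tr 3 L2, ∃ x : Tr 4 L3, dist (f x) z ≤ c := by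
  classical
  have h3 : 0 < Real.log 3 := L3.2
  have h2 : 0 < Real.log 2 := L2.2
  -- choose k
  obtain ⟨k, hk⟩ := exists_nat_gt ((Real.log 2 / (L - 1) + Real.log 2) / Real.log 3)
  rw [div_lt_iff₀ h3] at hk
  have hL1 : 0 < L - 1 := by linarith
  have hk0 : 0 < Real.log 2 / (L - 1) := by positivity
  have hkpos : 1 ≤ k := by
    rcases Nat.eq_zero_or_pos k with h | h
    · rw [h] at hk; push_cast at hk; linarith
    · exact h
  set N := 3 ^ k with hN
  set m := Nat.log 2 N with hm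
  have hN0 : N ≠ 0 := by positivity
  have hm1 : 2 ^ m ≤ N := Nat.pow_log_le_self 2 hN0
  have hm2 : N < 2 ^ (m + 1) := Nat.lt_pow_succ_log_self (by norm_num) N
  have hmpos : 1 ≤ m := by
    rw [hm]
    apply Nat.log_pos (by norm_num)
    calc 2 ≤ 3 ^ 1 := by norm_num
      _ ≤ 3 ^ k := Nat.pow_le_pow_right (by norm_num) hkpos
  -- logs
  have e1 : Real.log 2 * m ≤ Real.log 3 * k := by
    have : (2:ℝ) ^ m ≤ 3 ^ k := by exact_mod_cast hm1
    have := Real.log_le_log (by positivity) this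
    rw [Real.log_pow, Real.log_pow] at this
    linarith
  have e2 : Real.log 3 * k ≤ Real.log 2 * (m + 1) := by
    have : (3:ℝ) ^ k ≤ 2 ^ (m + 1) := by exact_mod_cast hm2.le
    have := Real.log_le_log (by positivity) this
    rw [Real.log_pow, Real.log_pow] at this
    push_cast at this
    linarith
  have e3 : Real.log 2 ≤ (L - 1) * (Real.log 3 * k - Real.log 2) := by
    have : Real.log 2 / (L - 1) ≤ Real.log 3 * k - Real.log 2 := by linarith
    rw [div_le_iff₀ hL1] at this
    linarith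
  -- codes
  obtain ⟨C, hCcard, hC⟩ := exists_code N m hm1 hm2.le
  have hcard : (words 3 k).card = C.card := by rw [card_words, hCcard]
  let e : words 3 k ≃ C := Finset.equivOfCardEq hcard
  have code3 := code_words 3 k
  let cw3 : words 3 k → List (Fin 3) := fun a => a.1
  let cw2 : words 3 k → List (Fin 2) := fun a => (e a).1
  have code2 : Code cw2 m (m + 1) := by
    refine ⟨fun a => hC.lo_le _, fun a => hC.le_hi _, fun a a' hne => hC.pf _ _ ?_, ?_⟩
    · exact fun h => hne (e.injective h)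
    · intro t ht
      obtain ⟨a, ha⟩ := hC.complete t ht
      refine ⟨e.symm a, ?_⟩
      simp only [cw2, Equiv.apply_symm_apply]; exact ha
  set l3 := Real.log 3 with hl3
  set l2 := Real.log 2 with hl2
  -- constants
  set Cst : ℝ := l3 * (2 * k + 4) + l2 * (2 * (m + 1) + 4) with hCst
  have hk' : (0:ℝ) ≤ k := by positivity
  have hm' : (0:ℝ) ≤ m := by positivity
  have hCst0 : 0 ≤ Cst := by positivity
  have hC3 : l3 * (2 * k + 4) ≤ Cst := by
    have : 0 ≤ l2 * (2 * (m + 1) + 4) := by positivity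
    linarith
  have hC2 : l2 * (2 * (m + 1) + 4) ≤ Cst := by
    have : 0 ≤ l3 * (2 * k + 4) := by positivity
    linarith
  have est3 := fun y y' => model_est code3 (E0 L3 cw3) (E0_same cw3) (E0_diff cw3) y y'
  have est2 := fun y y' => model_est code2 (E1 L2 cw2) (E1_same cw2) (E1_diff cw2) y y'
  have dist3 : ∀ p q : Tr 4 L3, dist p q = l3 * d p q := fun p q => rfl
  have dist2 : ∀ p q : Tr 3 L2, dist p q = l2 * d p q := fun p q => rfl
  refine qi_of (E0 L3 cw3) (E1 L2 cw2) DY (l3 * k) (l2 * m) (l2 * (m + 1)) Cst L hL.le hCst0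
    ?_ ?_ (fun y y' => DY_nonneg y y') ?_ ?_ ?_ ?_ ?_
  · -- l2 (m+1) ≤ L l3 k
    nlinarith
  · -- l3 k ≤ L l2 m
    have : (L - 1) * (Real.log 3 * k - Real.log 2) ≤ (L - 1) * (Real.log 2 * m) :=
      mul_le_mul_of_nonneg_left (by linarith) hL1.le
    nlinarith
  · intro y y'
    obtain ⟨a1, a2⟩ := est3 y y'
    rw [dist3, abs_le]
    have b1 := mul_le_mul_of_nonneg_left a1 h3.le
    have b2 := mul_le_mul_of_nonneg_left a2 h3.le
    constructor <;> nlinarith
  · intro y y'
    obtain ⟨a1, a2⟩ := est2 y y'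
    rw [dist2]
    have b1 := mul_le_mul_of_nonneg_left a1 h2.le
    push_cast at b1
    nlinarith
  · intro y y'
    obtain ⟨a1, a2⟩ := est2 y y'
    rw [dist2]
    have b1 := mul_le_mul_of_nonneg_left a2 h2.le
    push_cast at b1
    nlinarith
  · intro p
    obtain ⟨y, hy⟩ := E0_onto code3 hkpos p
    refine ⟨y, ?_⟩
    rw [dist3]
    have := mul_le_mul_of_nonneg_left hy h3.le
    nlinarith
  · intro p
    obtain ⟨y, hy⟩ := E1_onto code2 hmpos p
    refine ⟨y, ?_⟩
    rw [dist2]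
    have := mul_le_mul_of_nonneg_left hy h2.le
    push_cast at this
    nlinarith

/-- no quasi-isometry with multiplicative constant one -/
theorem no_rough_isometry (f : Tr 4 L3 → Tr 3 L2) (c : ℝ)
    (hf : ∀ x y : Tr 4 L3, dist x y - c ≤ dist (f x) (f y) ∧
      dist (f x) (f y) ≤ dist x y + c) : False := by
  refine claimB (b₀ := 3) (b₁ := 2) (ℓ₀ := L3) (ℓ₁ := L2) (by norm_num) (by norm_num)
    (by norm_num) rfl rfl (fun u => f (vtx L3 (psi (b := 3) 0 u) (psi_red _ _))) c ?_
  intro u u'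
  have h := hf (vtx L3 (psi (b := 3) 0 u) (psi_red _ _)) (vtx L3 (psi (b := 3) 0 u') (psi_red _ _))
  rw [dist_def, dist_def, d_vtx, D_psi] at h
  rw [abs_le]
  constructor <;> linarith

end Pool.Agent.Helper33.Tree
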